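import Pool.Agent.Helper71.FC.Defs

/-! LB-1: algebra of homogeneous polynomials: factors of homogeneous polynomials, proportional vectors, reduction
modulo a linear form.
Proofs.
`hom_of_mul`: compare lowest and highest non zero homogeneous components of `f`, `g` and `f * g` (domain).
`hom_right`: `f g_i` is the component of degree `d + i` of `f * g` (`homComp_mul` in `Helper93/CopL.lean`), so `g_i = 0` for `i ≠ e`.
`prop_vec`: pick `i0` with `t i0 ≠ 0`; `UniqueFactorizationMonoid.exists_reduced_factors'` gives `t i0 = a c`, `s i0 = b c` with `a, b`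
relatively prime, so `s i * a = b * t i` (cancel `c`), `a ∣ t i` (`IsRelPrime.dvd_of_dvd_mul_left`), `t i = a ρ i`, `s i = b ρ i`; `a`, `c` are
homogeneous (`hom_of_mul`), `b`: `s i0 = b c` (if `s i0 = 0` then `b = 0`, `a` is a unit, `e = 0`); `ρ i` by `hom_right`.
`exists_quot`: `m = Σ c_j X_j`, `c_i0 ≠ 0`, `τ = {j // j ≠ i0}`, `p X_i0 = - Σ_{j ≠ i0} (c_j / c_i0) X_j`, `p X_j = X_j`, `i = rename`; `m ∣ f - i (p f)`
by induction on `f`. -/

set_option autoImplicit false

namespace Pool.Agent.Helper18.LB

open MvPolynomial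
open scoped BigOperators
open Pool.Agent.Helper71.FC

section
variable {τ : Type}

/-- component of a product -/
private theorem lb_hc (f g : MvPolynomial τ ℂ) (k : ℕ) : homogeneousComponent k (f * g) =
    ∑ i ∈ Finset.range (f.totalDegree + 1), ∑ j ∈ Finset.range (g.totalDegree + 1),
      if i + j = k then homogeneousComponent i f * homogeneousComponent j g else 0 := by
  conv_lhs => rw [← sum_homogeneousComponent f, ← sum_homogeneousComponent g, Finset.sum_mul_sum, map_sum]
  refine Finset.sum_congr rfl fun i _ => ?_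
  rw [map_sum]
  refine Finset.sum_congr rfl fun j _ => ?_
  rw [homogeneousComponent_of_mem ((homogeneousComponent_isHomogeneous i f).mul
    (homogeneousComponent_isHomogeneous j g))]
  by_cases h : i + j = k
  · rw [if_pos h, if_pos h.symm]
  · rw [if_neg h, if_neg (Ne.symm h)]

private theorem lb_hc_mul {f g : MvPolynomial τ ℂ} {d : ℕ} (hf : f.IsHomogeneous d) (m : ℕ) :
    homogeneousComponent (d + m) (f * g) = f * homogeneousComponent m g := by
  have h1 : ∀ i, homogeneousComponent (d + m) (f * homogeneousComponent i g) =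
      if i = m then f * homogeneousComponent m g else 0 := by
    intro i
    rw [homogeneousComponent_of_mem (n := d + i) (hf.mul (homogeneousComponent_isHomogeneous i g))]
    by_cases h : i = m
    · rw [if_pos h, if_pos (by omega), h]
    · rw [if_neg h, if_neg (by omega)]
  conv_lhs => rw [← sum_homogeneousComponent g, Finset.mul_sum, map_sum]
  rw [Finset.sum_congr rfl (fun i _ => h1 i), Finset.sum_ite_eq']
  split_ifs with h
  · rfl
  · rw [homogeneousComponent_eq_zero, mul_zero]
    rw [Finset.mem_range] at h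
    omega

/-- the highest component is not zero -/
private theorem lb_top {f : MvPolynomial τ ℂ} (hf : f ≠ 0) : homogeneousComponent f.totalDegree f ≠ 0 := by
  classical
  intro h
  obtain ⟨b, hb, hbd⟩ := f.support.exists_mem_eq_sup (support_nonempty.mpr hf) (fun s => s.sum fun _ e => e)
  have h1 : b.degree = f.totalDegree := by
    unfold totalDegree
    rw [hbd]
    rfl
  have h2 := coeff_homogeneousComponent f.totalDegree f b
  rw [h, coeff_zero, if_pos h1] at h2
  exact (mem_support_iff.mp hb) h2.symm

/-- the lowest component -/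
private theorem lb_low {f : MvPolynomial τ ℂ} (hf : f ≠ 0) : ∃ l, l ≤ f.totalDegree ∧ homogeneousComponent l f ≠ 0 ∧
    ∀ i, i < l → homogeneousComponent i f = 0 := by
  classical
  have hex : ∃ l, homogeneousComponent l f ≠ 0 := ⟨_, lb_top hf⟩
  refine ⟨Nat.find hex, Nat.find_min' hex (lb_top hf), Nat.find_spec hex, fun i hi => ?_⟩
  by_contra h
  exact Nat.find_min hex hi h

/-- factors of homogeneous polynomials are homogeneous -/
theorem hom_of_mul {f g : MvPolynomial τ ℂ} {d : ℕ} (h : (f * g).IsHomogeneous d) (hf : f ≠ 0) (hg : g ≠ 0) :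
    ∃ e e', f.IsHomogeneous e ∧ g.IsHomogeneous e' ∧ e + e' = d := by
  classical
  obtain ⟨l, hlF, hl, hl0⟩ := lb_low hf
  obtain ⟨l', hlG, hl', hl0'⟩ := lb_low hg
  -- highest component
  have h1 : homogeneousComponent (f.totalDegree + g.totalDegree) (f * g) =
      homogeneousComponent f.totalDegree f * homogeneousComponent g.totalDegree g := by
    rw [lb_hc, Finset.sum_eq_single f.totalDegree, Finset.sum_eq_single g.totalDegree, if_pos rfl]
    · intro j _ hj
      rw [if_neg (by omega)]
    · intro hj
      exact absurd (Finset.mem_range.mpr (Nat.lt_succ_self _)) hj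
    · intro i hi hij
      refine Finset.sum_eq_zero fun j hj => ?_
      rw [Finset.mem_range] at hi hj
      rw [if_neg (by omega)]
    · intro hj
      exact absurd (Finset.mem_range.mpr (Nat.lt_succ_self _)) hj
  -- lowest component
  have h2 : homogeneousComponent (l + l') (f * g) = homogeneousComponent l f * homogeneousComponent l' g := by
    rw [lb_hc, Finset.sum_eq_single l, Finset.sum_eq_single l', if_pos rfl]
    · intro j _ hj
      rw [if_neg (by omega)]
    · intro hj
      exact absurd (Finset.mem_range.mpr (Nat.lt_succ_of_le hlG)) hj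
    · intro i hi hij
      refine Finset.sum_eq_zero fun j hj => ?_
      split_ifs with hs
      · rcases lt_or_gt_of_ne hij with h3 | h3
        · rw [hl0 i h3, zero_mul]
        · rw [hl0' j (by omega), mul_zero]
      · rfl
    · intro hj
      exact absurd (Finset.mem_range.mpr (Nat.lt_succ_of_le hlF)) hj
  have h3 : f.totalDegree + g.totalDegree = d := by
    by_contra hne
    rw [homogeneousComponent_of_mem h, if_neg hne] at h1
    exact (mul_ne_zero (lb_top hf) (lb_top hg)) h1.symm
  have h4 : l + l' = d := by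
    by_contra hne
    rw [homogeneousComponent_of_mem h, if_neg hne] at h2
    exact (mul_ne_zero hl hl') h2.symm
  have key : ∀ {q : MvPolynomial τ ℂ} {k : ℕ}, k = q.totalDegree → (∀ i, i < k → homogeneousComponent i q = 0) →
      q.IsHomogeneous k := by
    intro q k hk hz
    have h5 : q = homogeneousComponent k q := by
      conv_lhs => rw [← sum_homogeneousComponent q]
      rw [Finset.sum_range_succ, Finset.sum_eq_zero, zero_add, hk]
      intro i hi
      rw [Finset.mem_range, ← hk] at hi
      exact hz i hi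
    rw [h5]
    exact homogeneousComponent_isHomogeneous k q
  exact ⟨l, l', key (by omega) hl0, key (by omega) hl0', h4⟩

theorem hom_right {f g : MvPolynomial τ ℂ} {d e : ℕ} (h : (f * g).IsHomogeneous (d + e))
    (hf : f.IsHomogeneous d) (hf0 : f ≠ 0) : g.IsHomogeneous e := by
  have h1 := lb_hc_mul hf e (g := g)
  rw [homogeneousComponent_eq_self h] at h1
  have h2 : g = homogeneousComponent e g := mul_left_cancel₀ hf0 h1
  rw [h2]
  exact homogeneousComponent_isHomogeneous e g

/-- proportional vectors of forms -/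
theorem prop_vec {ι : Type} {d : ℕ} {s t : ι → MvPolynomial τ ℂ} (hs : ∀ i, (s i).IsHomogeneous d)
    (ht : ∀ i, (t i).IsHomogeneous d) (h : ∀ i j, s i * t j = s j * t i) (ht0 : ∃ i, t i ≠ 0) :
    ∃ (e e' : ℕ) (a b : MvPolynomial τ ℂ) (ρ : ι → MvPolynomial τ ℂ), e + e' = d ∧
      a.IsHomogeneous e ∧ b.IsHomogeneous e ∧ (∀ i, (ρ i).IsHomogeneous e') ∧
      (∀ i, s i = b * ρ i) ∧ (∀ i, t i = a * ρ i) ∧ IsRelPrime a b := by
  obtain ⟨i0, hi0⟩ := ht0
  obtain ⟨b, a, c, hab, hb, ha⟩ := UniqueFactorizationMonoid.exists_reduced_factors' (s i0) (t i0) hi0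
  have hc0 : c ≠ 0 := by
    rintro rfl
    rw [zero_mul] at ha
    exact hi0 ha.symm
  have ha0 : a ≠ 0 := by
    rintro rfl
    rw [mul_zero] at ha
    exact hi0 ha.symm
  have hrel : ∀ i, s i * a = b * t i := by
    intro i
    apply mul_left_cancel₀ hc0
    have := h i i0
    rw [← ha, ← hb] at this
    linear_combination this
  have hdvd : ∀ i, a ∣ t i := fun i => hab.symm.dvd_of_dvd_mul_left (by rw [← hrel i]; exact dvd_mul_left _ _)
  choose ρ hρ using hdvd
  have hsρ : ∀ i, s i = b * ρ i := by
    intro i
    apply mul_right_cancel₀ ha0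
    rw [hrel i, hρ i]
    ring
  obtain ⟨e', e, hc, hae, hee⟩ := hom_of_mul (f := c) (g := a) (d := d) (by rw [ha]; exact ht i0) hc0 ha0
  refine ⟨e, e', a, b, ρ, by omega, hae, ?_, ?_, hsρ, hρ, hab.symm⟩
  · by_cases hb0 : b = 0
    · rw [hb0]
      exact isHomogeneous_zero _ _ _
    · apply hom_right (f := c) (g := b) (d := e') (e := e) _ hc hc0
      rw [hee, hb]
      exact hs i0
  · intro i
    apply hom_right (f := a) (g := ρ i) (d := e) (e := e') _ hae ha0
    rw [← hρ i, show e + e' = d by omega]
    exact ht i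

end

/-- a linear form -/
private theorem lb_lin {n : ℕ} {m : Pn n} (hm : m.IsHomogeneous 1) : ∃ c : Fin n → ℂ, m = ∑ j, C (c j) * X j := by
  have h1 := hm.sum_X_mul_pderiv
  have h2 : ∀ i, ∃ c : ℂ, pderiv i m = C c := by
    intro i
    have h3 : (pderiv i m).IsHomogeneous 0 := hm.pderiv
    exact ⟨_, totalDegree_eq_zero_iff_eq_C.mp (Nat.le_zero.mp h3.totalDegree_le)⟩
  choose c hc using h2
  refine ⟨c, ?_⟩
  rw [one_smul] at h1
  rw [← h1]
  exact Finset.sum_congr rfl fun j _ => by rw [hc j, mul_comm]

/-- reduction modulo a non zero linear form -/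
theorem exists_quot {n : ℕ} {m : Pn n} (hm : m.IsHomogeneous 1) (hm0 : m ≠ 0) :
    ∃ (τ : Type) (p : Pn n →ₐ[ℂ] MvPolynomial τ ℂ) (i : MvPolynomial τ ℂ →ₐ[ℂ] Pn n),
      (∀ f, p (i f) = f) ∧ (∀ f, p f = 0 ↔ m ∣ f) ∧
      (∀ f d, f.IsHomogeneous d → (p f).IsHomogeneous d) ∧
      (∀ f d, f.IsHomogeneous d → (i f).IsHomogeneous d) := by
  classical
  obtain ⟨c, hc⟩ := lb_lin hm
  obtain ⟨i0, hi0⟩ : ∃ i0, c i0 ≠ 0 := by
    by_contra hcon
    push Not at hcon
    apply hm0
    rw [hc]
    exact Finset.sum_eq_zero fun j _ => by rw [hcon j, C_0, zero_mul]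
  set q : Fin n → MvPolynomial {j : Fin n // j ≠ i0} ℂ := fun j =>
    if h : j ≠ i0 then X ⟨j, h⟩ else - ∑ j' : {j : Fin n // j ≠ i0}, C (c j'.1 / c i0) * X j' with hq
  have hq1 : ∀ j (h : j ≠ i0), q j = X ⟨j, h⟩ := fun j h => by rw [hq]; exact dif_pos h
  have hq0 : q i0 = - ∑ j' : {j : Fin n // j ≠ i0}, C (c j'.1 / c i0) * X j' := by
    rw [hq]
    exact dif_neg (fun h => h rfl)
  have hsplit : m = C (c i0) * X i0 + ∑ j' : {j : Fin n // j ≠ i0}, C (c j'.1) * X j'.1 := by
    rw [hc, ← Finset.add_sum_erase _ _ (Finset.mem_univ i0)]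
    congr 1
    rw [← Finset.sum_subtype (Finset.univ.erase i0) (by intro x; simp) (fun j => C (c j) * (X j : Pn n))]
  have hpm : aeval q m = 0 := by
    rw [hsplit]
    simp only [map_add, map_mul, map_sum, aeval_C, aeval_X, hq0]
    have h5 : ∀ j' : {j : Fin n // j ≠ i0}, q j'.1 = X j' := fun j' => hq1 j'.1 j'.2
    simp only [h5, algebraMap_eq, mul_neg, Finset.mul_sum]
    rw [neg_add_eq_zero]
    refine Finset.sum_congr rfl fun j' _ => ?_
    rw [← mul_assoc, ← C_mul]
    congr 2
    field_simp
  have hX : ∀ j, m ∣ X j - rename Subtype.val (aeval q (X j : Pn n)) := by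
    intro j
    rw [aeval_X]
    by_cases h : j = i0
    · subst h
      refine ⟨C (1 / c j), ?_⟩
      rw [hq0]
      simp only [map_neg, map_sum, map_mul, rename_C, rename_X, sub_neg_eq_add]
      rw [hsplit, add_mul, Finset.sum_mul]
      congr 1
      · rw [mul_right_comm, ← C_mul, mul_one_div_cancel hi0, C_1, one_mul]
      · refine Finset.sum_congr rfl fun j' _ => ?_
        rw [mul_right_comm, ← C_mul, mul_one_div]
    · rw [hq1 j h, rename_X, sub_self]
      exact dvd_zero _
  have hdiv : ∀ f : Pn n, m ∣ f - rename Subtype.val (aeval q f) := by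
    intro f
    induction f using MvPolynomial.induction_on with
    | C a =>
      rw [aeval_C, algebraMap_eq, rename_C, sub_self]
      exact dvd_zero _
    | add f g hf hg =>
      rw [map_add, map_add]
      have : f + g - (rename Subtype.val (aeval q f) + rename Subtype.val (aeval q g)) =
          (f - rename Subtype.val (aeval q f)) + (g - rename Subtype.val (aeval q g)) := by ring
      rw [this]
      exact dvd_add hf hg
    | mul_X f j hf =>
      rw [map_mul, map_mul]
      have : f * X j - rename Subtype.val (aeval q f) * rename Subtype.val (aeval q (X j : Pn n)) =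
          (f - rename Subtype.val (aeval q f)) * X j +
          rename Subtype.val (aeval q f) * (X j - rename Subtype.val (aeval q (X j : Pn n))) := by ring
      rw [this]
      exact dvd_add (hf.mul_right _) ((hX j).mul_left _)
  refine ⟨{j : Fin n // j ≠ i0}, aeval q, rename Subtype.val, ?_, ?_, ?_, ?_⟩
  · intro f
    have h : (aeval q).comp (rename Subtype.val) = AlgHom.id ℂ (MvPolynomial {j : Fin n // j ≠ i0} ℂ) := by
      apply MvPolynomial.algHom_ext
      intro j
      rw [AlgHom.comp_apply, AlgHom.id_apply, rename_X, aeval_X, hq1 j.1 j.2]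
    exact congrArg (fun g : MvPolynomial {j : Fin n // j ≠ i0} ℂ →ₐ[ℂ] MvPolynomial {j : Fin n // j ≠ i0} ℂ => g f) h
  · intro f
    constructor
    · intro hf
      have := hdiv f
      rwa [hf, map_zero, sub_zero] at this
    · rintro ⟨g, rfl⟩
      rw [map_mul, hpm, zero_mul]
  · intro f d hf
    have h1 := hf.aeval q (n := 1) (by
      intro j
      by_cases h : j = i0
      · subst h
        rw [hq0]
        apply IsHomogeneous.neg
        apply IsHomogeneous.sum
        intro j' _
        exact (isHomogeneous_X _ _).C_mul _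
      · rw [hq1 j h]
        exact isHomogeneous_X _ _)
    rwa [one_mul] at h1
  · intro f d hf
    exact hf.rename_isHomogeneous

end Pool.Agent.Helper18.LB
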