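import Pool.Agent.Helper18.LB.Count

/-! LB-8: case (c): coordinates, dimensions, the adapted basis of `E_3`.
`exists_CC`: `exists_flag2` (`n = 3`) with the generic values (`ge_gen`) of `EE _ 1`, `EE _ 2` on `P`, `EE _ 2` on `H`, `rs2_pb2`; on `P`:
`e_3 ≤ 7`, `e_4 ≤ 14` (`e_step`, `k = 2, 3`); `le_res`: `e_3(H) ≤ 7 + 1`, `e_3(V) ≤ 8 + 1`; `count_A`: `10 ≤ e_3(V) + 1`; so all are equalities;
`e_4(H) ≤ 14 + 8`, `e_4(V) ≤ 22 + 9`.  `EE θ 1 = ⊥` and `EE (rs2 θ) 1 = ⊥` from `P` (`le_res` twice: `EE _ 0` first, or `bot_of_gen`).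
`CC.onto`: `res : EE θ 3 → EE (rs2 θ) 3` has kernel `X 0 * EE θ 2` of dimension 1 and rank `9 - 1 = 8`; the same for `H → P`, `8 - 1 = 7`.
`CC.exists_CD`: `σ ∈ EE θ 2`, `σ ≠ 0`, `σP = res (res σ) ≠ 0` (`EE_ker`, `EE _ 1 = ⊥`); `σ2` with `![σP, σ2]` independent in `EE P 2`; `exists_NF`,
`e = 2` (`NF.finrank1` would give dimension 3); by `onto` choose `A i ∈ EE θ 3` (`i < 3`) with double restriction `- X i * σ2` and `A 3` with
double restriction `tau`; `q i` from `wedge_eq_mul`; `r2 (q i) = m * X i`, `r2 (q 3) = b` by `NF.w12'`, `NF.w1t` (cancel a non zero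
coefficient of `θ_P`); `hb`: from `NF.reg'`/`NF.reg` (`b x = m u` implies `m ∣ x`). -/

set_option autoImplicit false

namespace Pool.Agent.Helper18.LB

open MvPolynomial
open scoped BigOperators
open Pool.Agent.Helper71.FC
open Pool.Agent.Helper71.FL (w12 pf ct Dec Closed dd res at0)

/-- the dimensions in case (c) -/
structure CC (θ : F2 5) : Prop where
  fol : Fol θ
  folH : Fol (rs2 θ)
  folP : Fol (rs2 (rs2 θ))
  e1 : EE θ 1 = ⊥
  e1H : EE (rs2 θ) 1 = ⊥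
  e1P : EE (rs2 (rs2 θ)) 1 = ⊥
  e2 : Module.finrank ℂ (EE θ 2) = 1
  e2H : Module.finrank ℂ (EE (rs2 θ) 2) = 1
  e2P : Module.finrank ℂ (EE (rs2 (rs2 θ)) 2) = 2
  e3 : Module.finrank ℂ (EE θ 3) = 9
  e3H : Module.finrank ℂ (EE (rs2 θ) 3) = 8
  e3P : Module.finrank ℂ (EE (rs2 (rs2 θ)) 3) = 7
  e4 : Module.finrank ℂ (EE θ 4) ≤ 31
  e4H : Module.finrank ℂ (EE (rs2 θ) 4) ≤ 22

section aux8
variable {n : ℕ}

private theorem c8_nz {θ : F2 n} (hF : Fol θ) : ∃ i j, θ i j ≠ 0 := by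
  by_contra hcon
  push Not at hcon
  have := hF.prim 0 (fun i j => by rw [hcon])
  exact not_isUnit_zero this

private theorem c8_bot0 {θ : F2 (n + 1)} (h1 : EE θ 1 = ⊥) : EE θ 0 = ⊥ := by
  rw [eq_bot_iff]
  intro ξ hξ
  have hm : (fun i => X 0 * ξ i : F1 (n + 1)) ∈ EE θ 1 := by
    refine ⟨fun i => (isHomogeneous_X ℂ (0 : Fin (n + 1))).mul (hξ.1 i), fun i j l => ?_⟩
    rw [Pool.Agent.Helper71.FL.w12_smul, hξ.2, mul_zero]
  rw [h1, Submodule.mem_bot] at hm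
  rw [Submodule.mem_bot]
  funext i
  have h2 := congrFun hm i
  rcases mul_eq_zero.mp h2 with h3 | h3
  · exact absurd h3 (X_ne_zero 0)
  · exact h3

private theorem c8_up {θ : F2 (n + 2)} (h : ∃ i j, rs2 θ i j ≠ 0) (h1 : EE (rs2 θ) 1 = ⊥) :
    EE θ 1 = ⊥ := by
  have h0 : EE θ 0 = ⊥ := by
    rw [eq_bot_iff]
    intro ξ hξ
    rw [Submodule.mem_bot]
    have h2 := res_mem_EE hξ
    rw [c8_bot0 h1, Submodule.mem_bot] at h2
    exact EE_ker0 h hξ (fun i => congrFun h2 i)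
  rw [eq_bot_iff]
  intro ξ hξ
  rw [Submodule.mem_bot]
  have h2 := res_mem_EE hξ
  rw [h1, Submodule.mem_bot] at h2
  obtain ⟨η, hη, he⟩ := EE_ker h (k := 0) hξ (fun i => congrFun h2 i)
  rw [h0, Submodule.mem_bot] at hη
  funext i
  rw [he i, hη]
  exact mul_zero _

private noncomputable def c8_resL (θ : F2 (n + 1)) (k : ℕ) : EE θ k →ₗ[ℂ] EE (rs2 θ) k where
  toFun ξ := ⟨res ξ.1, res_mem_EE ξ.2⟩
  map_add' := by
    intro a b
    apply Subtype.ext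
    funext i
    show at0 n ℂ (a.1 i.succ + b.1 i.succ) = _
    rw [map_add]
    rfl
  map_smul' := by
    intro c a
    apply Subtype.ext
    funext i
    show at0 n ℂ (c • a.1 i.succ) = _
    rw [map_smul]
    rfl

private theorem c8_onto {θ : F2 (n + 1)} (h : ∃ i j, rs2 θ i j ≠ 0) (k : ℕ)
    (hd : Module.finrank ℂ (EE (rs2 θ) (k + 1)) + Module.finrank ℂ (EE θ k) ≤
      Module.finrank ℂ (EE θ (k + 1))) {ζ : F1 n} (hζ : ζ ∈ EE (rs2 θ) (k + 1)) :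
    ∃ ξ ∈ EE θ (k + 1), ∀ i, res ξ i = ζ i := by
  have := finite_EE θ (k + 1)
  have := finite_EE θ k
  have := finite_EE (rs2 θ) (k + 1)
  have hmem : ∀ η ∈ EE θ k, (fun i => X 0 * η i : F1 (n + 1)) ∈ EE θ (k + 1) := by
    intro η hη
    refine ⟨fun i => ?_, fun i j l => ?_⟩
    · have := (isHomogeneous_X ℂ (0 : Fin (n + 1))).mul (hη.1 i)
      rwa [add_comm 1 k] at this
    · rw [Pool.Agent.Helper71.FL.w12_smul, hη.2, mul_zero]
  let μ : EE θ k →ₗ[ℂ] EE θ (k + 1) :=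
    { toFun := fun η => ⟨fun i => X 0 * η.1 i, hmem η.1 η.2⟩
      map_add' := by
        intro a b
        apply Subtype.ext
        refine _root_.funext fun i => ?_
        show X 0 * (a.1 i + b.1 i) = X 0 * a.1 i + X 0 * b.1 i
        ring
      map_smul' := by
        intro c a
        apply Subtype.ext
        refine _root_.funext fun i => ?_
        show X 0 * (c • a.1 i) = c • (X 0 * a.1 i)
        rw [mul_smul_comm] }
  have h1 := LinearMap.finrank_range_add_finrank_ker (c8_resL θ (k + 1))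
  have h3 : LinearMap.ker (c8_resL θ (k + 1)) ≤ LinearMap.range μ := by
    rintro ⟨ξ, hξ⟩ hk
    have h4 : ∀ i, res ξ i = 0 := fun i => congrFun (congrArg Subtype.val hk) i
    obtain ⟨η, hη, he⟩ := EE_ker h hξ h4
    exact ⟨⟨η, hη⟩, Subtype.ext (_root_.funext fun i => (he i).symm)⟩
  have h4 := Submodule.finrank_mono h3
  have h5 := LinearMap.finrank_range_le μ
  have h6 : LinearMap.range (c8_resL θ (k + 1)) = ⊤ := by
    apply Submodule.eq_top_of_finrank_eq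
    apply le_antisymm (Submodule.finrank_le _)
    omega
  have h7 : (⟨ζ, hζ⟩ : EE (rs2 θ) (k + 1)) ∈ LinearMap.range (c8_resL θ (k + 1)) := by
    rw [h6]
    exact Submodule.mem_top
  obtain ⟨ξ, hξ⟩ := h7
  exact ⟨ξ.1, ξ.2, fun i => congrFun (congrArg Subtype.val hξ) i⟩

private theorem c8_bot {θ : F2 n} {k : ℕ} (h : Module.finrank ℂ (EE θ k) = 0) : EE θ k = ⊥ := by
  have := finite_EE θ k
  exact Submodule.finrank_eq_zero.mp h

end aux8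

theorem exists_CC {θ : F2 5} (hF : Fol θ) (h1 : ge θ 3 1 = 0)
    (h2 : Module.finrank ℂ (EE θ 2) = 1) (h3 : ge θ 3 2 = 2) (h4 : ge θ 4 2 = 1)
    (hw : ∀ σ ∈ EE θ 2, σ ≠ 0 → Module.finrank ℂ (WW σ) ≤ 1) :
    ∃ g g' : Fin 5 → Fin 5 → ℂ, Inv g g' ∧ CC (pb2 g θ) := by
  obtain ⟨g, g', hg, -, hH, ⟨hP1, hP2⟩, hF1, -, hFH, -, hFP⟩ := exists_flag2 (n := 3) le_rfl hF
    (ge_gen θ 5 2) (ge_gen θ 4 2) ((ge_gen θ 3 1).and (ge_gen θ 3 2))
  have hHe : rs2 (pb2 g θ) = pb2 (fun i (j : Fin 4) => g i j.succ) θ := rs2_pb2 g θ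
  have hPe : rs2 (rs2 (pb2 g θ)) = pb2 (fun i (j : Fin 3) => g i j.succ.succ) θ := by
    rw [rs2_pb2, rs2_eq_pb2, pb2_mm]
    congr 1
    funext i j
    show ∑ l : Fin 4, g i l.succ * (if l = j.succ then (1 : ℂ) else 0) = _
    simp
  have hnzH := c8_nz hFH
  have hnzP := c8_nz hFP
  have e1P : EE (rs2 (rs2 (pb2 g θ))) 1 = ⊥ := by
    apply c8_bot
    rw [hPe, hP1, h1]
  have e1H : EE (rs2 (pb2 g θ)) 1 = ⊥ := c8_up hnzP e1P
  have e1 : EE (pb2 g θ) 1 = ⊥ := c8_up hnzH e1H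
  have e2 : Module.finrank ℂ (EE (pb2 g θ) 2) = 1 := by
    rw [finrank_EE_pb2 θ 2 hg, h2]
  have e2H : Module.finrank ℂ (EE (rs2 (pb2 g θ)) 2) = 1 := by
    rw [hHe, hH, h4]
  have e2P : Module.finrank ℂ (EE (rs2 (rs2 (pb2 g θ))) 2) = 2 := by
    rw [hPe, hP2, h3]
  have s1 : Module.finrank ℂ (EE (rs2 (rs2 (pb2 g θ))) 3) ≤
      Module.finrank ℂ (EE (rs2 (rs2 (pb2 g θ))) 2) + 5 := e_step hFP (k := 2) (by norm_num)
  have s2 : Module.finrank ℂ (EE (rs2 (rs2 (pb2 g θ))) 4) ≤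
      Module.finrank ℂ (EE (rs2 (rs2 (pb2 g θ))) 3) + 7 := e_step hFP (k := 3) (by norm_num)
  have s3 : Module.finrank ℂ (EE (rs2 (pb2 g θ)) 3) ≤
      Module.finrank ℂ (EE (rs2 (rs2 (pb2 g θ))) 3) + Module.finrank ℂ (EE (rs2 (pb2 g θ)) 2) :=
    le_res hnzP 2
  have s4 : Module.finrank ℂ (EE (pb2 g θ) 3) ≤
      Module.finrank ℂ (EE (rs2 (pb2 g θ)) 3) + Module.finrank ℂ (EE (pb2 g θ) 2) :=
    le_res hnzH 2
  have s5 : Module.finrank ℂ (EE (rs2 (pb2 g θ)) 4) ≤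
      Module.finrank ℂ (EE (rs2 (rs2 (pb2 g θ))) 4) + Module.finrank ℂ (EE (rs2 (pb2 g θ)) 3) :=
    le_res hnzP 3
  have s6 : Module.finrank ℂ (EE (pb2 g θ) 4) ≤
      Module.finrank ℂ (EE (rs2 (pb2 g θ)) 4) + Module.finrank ℂ (EE (pb2 g θ) 3) :=
    le_res hnzH 3
  obtain ⟨σ, hσ, hσ0⟩ : ∃ σ ∈ EE θ 2, σ ≠ 0 := by
    have hpos : 0 < Module.finrank ℂ (EE θ 2) := by omega
    have hnt : Nontrivial (EE θ 2) := Module.nontrivial_of_finrank_pos hpos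
    obtain ⟨x, hx⟩ := exists_ne (0 : EE θ 2)
    exact ⟨x.1, x.2, fun h => hx (Subtype.ext h)⟩
  have s7 := count_A hF hσ hσ0
  have s8 := hw σ hσ hσ0
  have s9 : Module.finrank ℂ (EE (pb2 g θ) 3) = Module.finrank ℂ (EE θ 3) :=
    finrank_EE_pb2 θ 3 hg
  have t1 : Module.finrank ℂ (EE (pb2 g θ) 3) = 9 := by omega
  have t2 : Module.finrank ℂ (EE (rs2 (pb2 g θ)) 3) = 8 := by omega
  have t3 : Module.finrank ℂ (EE (rs2 (rs2 (pb2 g θ))) 3) = 7 := by omega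
  have t4 : Module.finrank ℂ (EE (pb2 g θ) 4) ≤ 31 := by omega
  have t5 : Module.finrank ℂ (EE (rs2 (pb2 g θ)) 4) ≤ 22 := by omega
  exact ⟨g, g', hg, hF1, hFH, hFP, e1, e1H, e1P, e2, e2H, e2P, t1, t2, t3, t4, t5⟩

theorem CC.onto {θ : F2 5} (h : CC θ) {ζ : F1 3} (hζ : ζ ∈ EE (rs2 (rs2 θ)) 3) :
    ∃ ξ ∈ EE θ 3, ∀ i, res (res ξ) i = ζ i := by
  obtain ⟨ξ1, h1, h2⟩ := c8_onto (c8_nz h.folP) 2 (by rw [h.e3P, h.e2H, h.e3H]) hζ
  obtain ⟨ξ, h3, h4⟩ := c8_onto (c8_nz h.folH) 2 (by rw [h.e3H, h.e2, h.e3]) h1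
  refine ⟨ξ, h3, fun i => ?_⟩
  have h5 : res ξ = ξ1 := funext h4
  rw [h5, h2]

/-- restriction of polynomials from `ℂ⁵` to `ℂ³` -/
noncomputable def r2 (f : Pn 5) : Pn 3 := at0 3 ℂ (at0 4 ℂ f)

/-- adapted data in case (c) -/
structure CD (θ : F2 5) (σ : F1 5) (q : Fin 4 → Pn 5) (A : Fin 4 → F1 5) (m b : Pn 3) : Prop where
  cc : CC θ
  hσ : σ ∈ EE θ 2
  hσ0 : σ ≠ 0
  hA : ∀ i, A i ∈ EE θ 3
  hq : ∀ i, (q i).IsHomogeneous 2
  w : ∀ i j k, w11 (A i) σ j k = q i * θ j k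
  hm : m.IsHomogeneous 1
  hm0 : m ≠ 0
  hb : ∀ x, m ∣ b * x → m ∣ x
  hqm : ∀ i : Fin 3, r2 (q i.castSucc) = m * X i
  hqb : r2 (q 3) = b

private theorem c8_quot {θ : F2 5} (h : CC θ) {σ A : F1 5} (hσ : σ ∈ EE θ 2) (hA : A ∈ EE θ 3)
    {x : Pn 3} (hx : ∀ i j, w11 (res (res A)) (res (res σ)) i j = x * rs2 (rs2 θ) i j) :
    ∃ q : Pn 5, q.IsHomogeneous 2 ∧ (∀ j k, w11 A σ j k = q * θ j k) ∧ r2 q = x := by
  obtain ⟨q, hq⟩ := wedge_eq_mul h.fol.dec h.fol.prim hA.2 hσ.2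
  obtain ⟨i0, j0, h0⟩ := c8_nz h.fol
  obtain ⟨i1, j1, h1⟩ := c8_nz h.folP
  refine ⟨q, ?_, hq, ?_⟩
  · apply hom_right (f := θ i0 j0) (g := q) (d := 3) (e := 2) _ (h.fol.hom i0 j0) h0
    rw [mul_comm, ← hq]
    exact ((hA.1 i0).mul (hσ.1 j0)).sub ((hA.1 j0).mul (hσ.1 i0))
  · apply mul_right_cancel₀ h1
    rw [← hx i1 j1]
    have h2 := congrArg (fun f => at0 3 ℂ (at0 4 ℂ f)) (hq i1.succ.succ j1.succ.succ)
    unfold w11 at h2
    simp only [map_sub, map_mul] at h2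
    exact h2.symm

theorem CC.exists_CD {θ : F2 5} (h : CC θ) :
    ∃ (σ : F1 5) (q : Fin 4 → Pn 5) (A : Fin 4 → F1 5) (m b : Pn 3), CD θ σ q A m b := by
  obtain ⟨σ, hσ, hσ0⟩ : ∃ σ ∈ EE θ 2, σ ≠ 0 := by
    have hpos : 0 < Module.finrank ℂ (EE θ 2) := by rw [h.e2]; norm_num
    have hnt : Nontrivial (EE θ 2) := Module.nontrivial_of_finrank_pos hpos
    obtain ⟨x, hx⟩ := exists_ne (0 : EE θ 2)
    exact ⟨x.1, x.2, fun h => hx (Subtype.ext h)⟩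
  have hσH : res σ ∈ EE (rs2 θ) 2 := res_mem_EE hσ
  have hσP : res (res σ) ∈ EE (rs2 (rs2 θ)) 2 := res_mem_EE hσH
  have hσH0 : res σ ≠ 0 := by
    intro h0
    obtain ⟨η, hη, he⟩ := EE_ker (c8_nz h.folH) (k := 1) hσ (fun i => congrFun h0 i)
    rw [h.e1, Submodule.mem_bot] at hη
    apply hσ0
    funext i
    rw [he i, hη]
    exact mul_zero _
  have hσP0 : res (res σ) ≠ 0 := by
    intro h0
    obtain ⟨η, hη, he⟩ := EE_ker (c8_nz h.folP) (k := 1) hσH (fun i => congrFun h0 i)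
    rw [h.e1H, Submodule.mem_bot] at hη
    apply hσH0
    funext i
    rw [he i, hη]
    exact mul_zero _
  have hx : (⟨res (res σ), hσP⟩ : EE (rs2 (rs2 θ)) 2) ≠ 0 := fun h0 => hσP0 (congrArg Subtype.val h0)
  obtain ⟨y, hxy⟩ := exists_linearIndependent_pair_of_one_lt_finrank (R := ℂ)
    (M := EE (rs2 (rs2 θ)) 2) (by rw [h.e2P]; norm_num) hx
  have hli : LinearIndependent ℂ ![res (res σ), (y : F1 3)] := by
    have h3 := hxy.map' (EE (rs2 (rs2 θ)) 2).subtype (Submodule.ker_subtype _)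
    have h4 : (EE (rs2 (rs2 θ)) 2).subtype ∘ ![⟨res (res σ), hσP⟩, y] = ![res (res σ), (y : F1 3)] := by
      funext i
      fin_cases i <;> rfl
    rwa [h4] at h3
  obtain ⟨e, a, b, m, ρ, φ1, φ2, hN⟩ := exists_NF h.folP h.e1P hσP y.2 hli
  have he : e = 2 := by
    rcases hN.he with h1 | h1
    · subst h1
      have h2 := hN.finrank1 h.folP
      rw [h.e2P] at h2
      omega
    · exact h1
  subst he
  have hlift : ∀ i : Fin 3, ∃ A ∈ EE θ 3, ∀ j, res (res A) j = - (X i * y.1 j) := by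
    intro i
    refine h.onto ⟨fun j => ?_, fun j k l => ?_⟩
    · exact ((isHomogeneous_X ℂ i).mul (y.2.1 j)).neg
    · have h1 := y.2.2 j k l
      unfold w12 at h1 ⊢
      linear_combination (-X i) * h1
  choose A' hA' hA'r using hlift
  obtain ⟨A3, hA3, hA3r⟩ := h.onto hN.memt
  have hq' : ∀ i : Fin 3, ∃ q : Pn 5, q.IsHomogeneous 2 ∧
      (∀ j k, w11 (A' i) σ j k = q * θ j k) ∧ r2 q = m * X i := by
    intro i
    refine c8_quot h hσ (hA' i) fun j k => ?_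
    have h1 := hN.w12' j k
    unfold w11 at h1 ⊢
    rw [hA'r, hA'r]
    linear_combination X i * h1
  choose q' hq'1 hq'2 hq'3 using hq'
  obtain ⟨q3, hq31, hq32, hq33⟩ : ∃ q : Pn 5, q.IsHomogeneous 2 ∧
      (∀ j k, w11 A3 σ j k = q * θ j k) ∧ r2 q = b := by
    refine c8_quot h hσ hA3 fun j k => ?_
    have h1 := hN.w1t j k
    unfold w11 at h1 ⊢
    rw [hA3r, hA3r]
    linear_combination -h1
  refine ⟨σ, (Fin.snoc (α := fun _ => Pn 5) q' q3 : Fin 4 → Pn 5),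
    (Fin.snoc (α := fun _ => F1 5) A' A3 : Fin 4 → F1 5), m, b, ?_⟩
  refine ⟨h, hσ, hσ0, ?_, ?_, ?_, hN.hm, hN.hm0, ?_, ?_, ?_⟩
  · refine Fin.lastCases ?_ (fun i => ?_)
    · rw [Fin.snoc_last]; exact hA3
    · rw [Fin.snoc_castSucc]; exact hA' i
  · refine Fin.lastCases ?_ (fun i => ?_)
    · rw [Fin.snoc_last]; exact hq31
    · rw [Fin.snoc_castSucc]; exact hq'1 i
  · refine Fin.lastCases ?_ (fun i => ?_)
    · rw [Fin.snoc_last, Fin.snoc_last]; exact hq32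
    · rw [Fin.snoc_castSucc, Fin.snoc_castSucc]; exact hq'2 i
  · rintro x ⟨u, hu⟩
    obtain ⟨v, hv⟩ := hN.reg.2.1 x ⟨u, hu⟩
    exact ⟨v, hv⟩
  · intro i
    rw [Fin.snoc_castSucc]
    exact hq'3 i
  · show r2 (Fin.snoc (α := fun _ => Pn 5) q' q3 (Fin.last 3)) = b
    rw [Fin.snoc_last]
    exact hq33

end Pool.Agent.Helper18.LB
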