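import Pool.Agent.Helper18.LB.Kos

/-! LB-10: classification of four independent linear forms `x_a` and four linear forms `p_a` on `ℂ⁵` such that the quadrics
`q_ab = x_a p_b - x_b p_a` span a space `Q` of dimension at most 4 not containing `t y_1, t y_2, t y_3` with `t ≠ 0`, `y_i` independent.
Write `x(u) = Σ u_a x_a`, `p(u) = Σ u_a p_a`, `q(u,v) = x(u) p(v) - x(v) p(u) ∈ Q` for `u, v ∈ ℂ⁴`.
Proof.  (1) The six `q_ab` (`a < b`) lie in a space of dimension 4, so there are two independent relations `Σ T_ab q_ab = 0`, `T` skew; a pencil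
of skew 4x4 matrices contains one with Pfaffian 0, so `T = u ∧ v ≠ 0` (`T_01 T_ab = T_0a T_1b - T_0b T_1a` etc.): `q(u,v) = 0` with `u, v` independent:
`x(u) p(v) = x(v) p(u)`, so `p(u) = λ x(u)`, `p(v) = λ x(v)`.  Replace `p` by `p - λ x` (`q` does not change): `p(u) = p(v) = 0`.
(2) Complete `u, v` to a basis `u, v, y1, y2`, `P_i = p(y_i)`.  If `P_1, P_2` are dependent then (change `y_i`) `P_1 = 0`, `P_2 = t`; `t = 0` contradicts
`hne`; `t ≠ 0`: `Q` contains `t x(u), t x(v), t x(y1)`: excluded by `hN`.  So `B = <P_1, P_2>` has dimension 2, `A = <x(u), x(v)>`, `Q ∋ x(u) P_i, x(v) P_i`.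
(3) `A ∩ B` of dimension 1, spanned by `s`: `A = <s, α>`, `B = <s, β>`, `Q ∋ s s, s β, s α`: excluded by `hN`.
(4) `A = B`: change `y_1, y_2` such that `P_1 = x(u)`, `P_2 = x(v)`: pattern `![0, 0, x 0, x 1]` for the basis `u, v, y1, y2`.
(5) `A ∩ B = 0`: `A B` has dimension 4, so `Q = A B` and `x(y1) P_2 - x(y2) P_1 ∈ A B`; modulo `A` (a prime ideal): `x(y1) P_2 = x(y2) P_1`, where
`x(y1), x(y2)` are independent modulo `A`, and `P_1, P_2` are independent modulo `A`: `P_i = μ x(y_i) + α_i`, `α_i ∈ A`, `μ ≠ 0`; replace `y_i` by `y_i + (..)`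
in `y_i + <u,v>` such that `P_i = μ x(y_i)`: pattern `![0, 0, x 2, x 3]` with the factor `μ`. -/

set_option autoImplicit false

namespace Pool.Agent.Helper18.LB

open MvPolynomial
open scoped BigOperators
open Pool.Agent.Helper71.FC

private theorem quad_root {P R S : ℂ} (hP : P ≠ 0) : ∃ s : ℂ, P * (s * s) + R * s + S = 0 := by
  obtain ⟨r, hr⟩ := IsAlgClosed.exists_pow_nat_eq (R ^ 2 - 4 * P * S) (n := 2) (by norm_num)
  refine ⟨(-R + r) / (2 * P), ?_⟩
  field_simp
  linear_combination hr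

/-- skew matrices with Pfaffian zero -/
private theorem pf_all {S : Fin 4 → Fin 4 → ℂ} (hs : ∀ a b, S a b = - S b a)
    (h : S 0 1 * S 2 3 - S 0 2 * S 1 3 + S 0 3 * S 1 2 = 0) (c d a b : Fin 4) :
    S c d * S a b = S c a * S d b - S c b * S d a := by
  have hd : ∀ a, S a a = 0 := by
    intro a
    have := hs a a
    linear_combination this / 2
  have h10 := hs 1 0
  have h20 := hs 2 0
  have h30 := hs 3 0
  have h21 := hs 2 1
  have h31 := hs 3 1
  have h32 := hs 3 2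
  have d0 := hd 0
  have d1 := hd 1
  have d2 := hd 2
  have d3 := hd 3
  fin_cases c <;> fin_cases d <;> fin_cases a <;> fin_cases b <;>
    simp only [Fin.zero_eta, Fin.mk_one, Fin.reduceFinMk, Fin.isValue, h10, h20, h30, h21, h31,
      h32, d0, d1, d2, d3] <;>
    first
    | ring1
    | linear_combination h
    | linear_combination -h

/-- a pencil of skew 4x4 matrices contains a decomposable one -/
theorem skew_pencil (T T' : Fin 4 → Fin 4 → ℂ) (hT : ∀ a b, T a b = - T b a)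
    (hT' : ∀ a b, T' a b = - T' b a) (hi : LinearIndependent ℂ ![T, T']) :
    ∃ s s' : ℂ, ∃ u v : Fin 4 → ℂ, LinearIndependent ℂ ![u, v] ∧
      ∀ a b, s * T a b + s' * T' a b = u a * v b - u b * v a := by
  rw [LinearIndependent.pair_iff] at hi
  -- a member with Pfaffian zero
  have h1 : ∃ s s' : ℂ, (s ≠ 0 ∨ s' ≠ 0) ∧
      (s * T 0 1 + s' * T' 0 1) * (s * T 2 3 + s' * T' 2 3) -
      (s * T 0 2 + s' * T' 0 2) * (s * T 1 3 + s' * T' 1 3) +
      (s * T 0 3 + s' * T' 0 3) * (s * T 1 2 + s' * T' 1 2) = 0 := by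
    by_cases hP : T 0 1 * T 2 3 - T 0 2 * T 1 3 + T 0 3 * T 1 2 = 0
    · refine ⟨1, 0, Or.inl one_ne_zero, ?_⟩
      linear_combination hP
    · obtain ⟨s, hs⟩ := quad_root (R := T 0 1 * T' 2 3 + T' 0 1 * T 2 3 - T 0 2 * T' 1 3 -
        T' 0 2 * T 1 3 + T 0 3 * T' 1 2 + T' 0 3 * T 1 2)
        (S := T' 0 1 * T' 2 3 - T' 0 2 * T' 1 3 + T' 0 3 * T' 1 2) hP
      refine ⟨s, 1, Or.inr one_ne_zero, ?_⟩
      linear_combination hs
  obtain ⟨s, s', hne, hpf⟩ := h1
  have hpa := pf_all (S := fun a b => s * T a b + s' * T' a b) (fun a b => by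
    show s * T a b + s' * T' a b = -(s * T b a + s' * T' b a)
    rw [hT a b, hT' a b]
    ring) hpf
  have hcd : ∃ c d, s * T c d + s' * T' c d ≠ 0 := by
    by_contra hcon
    push Not at hcon
    obtain ⟨h2, h3⟩ := hi s s' (by
      funext a b
      exact hcon a b)
    rcases hne with h | h
    · exact h h2
    · exact h h3
  obtain ⟨c, d, hcd⟩ := hcd
  have hab : ∀ a b, s * T a b + s' * T' a b =
      (s * T c a + s' * T' c a) * ((s * T d b + s' * T' d b) / (s * T c d + s' * T' c d)) -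
      (s * T c b + s' * T' c b) * ((s * T d a + s' * T' d a) / (s * T c d + s' * T' c d)) := by
    intro a b
    have := hpa c d a b
    field_simp
    linear_combination this
  refine ⟨s, s', fun a => s * T c a + s' * T' c a,
    fun b => (s * T d b + s' * T' d b) / (s * T c d + s' * T' c d), ?_, hab⟩
  rw [LinearIndependent.pair_iff]
  intro α β h
  have h2 := fun a => congrFun h a
  simp only [Pi.add_apply, Pi.smul_apply, smul_eq_mul, Pi.zero_apply] at h2
  have h3 := hab c d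
  constructor
  · have : α * (s * T c d + s' * T' c d) = 0 := by
      rw [h3]
      linear_combination ((s * T d d + s' * T' d d) / (s * T c d + s' * T' c d)) * h2 c -
        ((s * T d c + s' * T' d c) / (s * T c d + s' * T' c d)) * h2 d
    exact (mul_eq_zero.mp this).resolve_right hcd
  · have : β * (s * T c d + s' * T' c d) = 0 := by
      rw [h3]
      linear_combination (s * T c c + s' * T' c c) * h2 d - (s * T c d + s' * T' c d) * h2 c
    exact (mul_eq_zero.mp this).resolve_right hcd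

/-- bilinear expansion -/
private theorem bil (u v : Fin 4 → ℂ) (x p : Fin 4 → Pn 5) :
    ∑ a, ∑ b, C (u a * v b) * (x a * p b - x b * p a) =
      (∑ a, C (u a) * x a) * (∑ b, C (v b) * p b) -
      (∑ b, C (v b) * x b) * (∑ a, C (u a) * p a) := by
  simp only [Fin.sum_univ_four, C_mul]
  ring

private theorem cb_hom {x : Fin 4 → Pn 5} (hx : ∀ a, (x a).IsHomogeneous 1) (u : Fin 4 → ℂ) :
    (∑ a, C (u a) * x a).IsHomogeneous 1 := by
  refine IsHomogeneous.sum _ _ _ fun i _ => ?_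
  have := (isHomogeneous_C (Fin 5) (u i)).mul (hx i)
  rwa [zero_add] at this

private theorem cb_zero {x : Fin 4 → Pn 5} (hxi : LinearIndependent ℂ x) {u : Fin 4 → ℂ}
    (h : ∑ a, C (u a) * x a = 0) (a : Fin 4) : u a = 0 := by
  refine (Fintype.linearIndependent_iff.mp hxi) u ?_ a
  rw [← h]
  exact Finset.sum_congr rfl fun i _ => smul_eq_C_mul _ _

/-- linear forms with `x p' = x' p`, `x`, `x'` independent -/
private theorem prop2 {x x' p p' : Pn 5} (hx : x.IsHomogeneous 1) (hx' : x'.IsHomogeneous 1)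
    (hp : p.IsHomogeneous 1) (hp' : p'.IsHomogeneous 1) (hi : LinearIndependent ℂ ![x, x'])
    (h : x * p' = x' * p) : ∃ l : ℂ, p = C l * x ∧ p' = C l * x' := by
  obtain ⟨g, hg, hk⟩ := skew_const (x := ![x, x']) (κ := ![p', -p])
    (fun d => by fin_cases d; exacts [hx, hx']) hi
    (fun d => by
      fin_cases d
      · exact hp'
      · exact hp.neg)
    (by
      rw [Fin.sum_univ_two]
      show x * p' + x' * -p = 0
      rw [h]
      ring)
  have g0 : g 0 0 = 0 := by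
    have := hg 0 0
    linear_combination this / 2
  have g1 : g 1 1 = 0 := by
    have := hg 1 1
    linear_combination this / 2
  have g2 := hg 1 0
  have k0 := hk 0
  have k1 := hk 1
  rw [Fin.sum_univ_two] at k0 k1
  have k0' : p' = C (g 0 0) * x + C (g 0 1) * x' := k0
  have k1' : -p = C (g 1 0) * x + C (g 1 1) * x' := k1
  rw [g0, C_0, zero_mul, zero_add] at k0'
  rw [g1, g2, C_0, zero_mul, add_zero, C_neg] at k1'
  exact ⟨g 0 1, by linear_combination -k1', k0'⟩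

private theorem li_cb {x : Fin 4 → Pn 5} (hxi : LinearIndependent ℂ x) {u v : Fin 4 → ℂ}
    (huv : LinearIndependent ℂ ![u, v]) :
    LinearIndependent ℂ ![∑ a, C (u a) * x a, ∑ a, C (v a) * x a] := by
  rw [LinearIndependent.pair_iff] at huv ⊢
  intro s t h
  refine huv s t ?_
  funext a
  refine cb_zero hxi (u := s • u + t • v) ?_ a
  rw [← h, smul_eq_C_mul, smul_eq_C_mul, Finset.mul_sum, Finset.mul_sum, ← Finset.sum_add_distrib]
  refine Finset.sum_congr rfl fun i _ => ?_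
  rw [Pi.add_apply, Pi.smul_apply, Pi.smul_apply, smul_eq_mul, smul_eq_mul, C_add, C_mul, C_mul]
  ring

/-- skew matrices from six numbers -/
private def sk (c : Fin 6 → ℂ) : Fin 4 → Fin 4 → ℂ :=
  ![![0, c 0, c 1, c 2], ![- c 0, 0, c 3, c 4], ![- c 1, - c 3, 0, c 5], ![- c 2, - c 4, - c 5, 0]]

private theorem sk_skew (c : Fin 6 → ℂ) (a b : Fin 4) : sk c a b = - sk c b a := by
  fin_cases a <;> fin_cases b <;> simp [sk]

/-- step (1) -/
theorem cls_step1 {x : Fin 4 → Pn 5} (hx : ∀ a, (x a).IsHomogeneous 1)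
    (hxi : LinearIndependent ℂ x) {p : Fin 4 → Pn 5} (hp : ∀ a, (p a).IsHomogeneous 1)
    {Q : Submodule ℂ (Pn 5)} (hQf : Module.Finite ℂ Q) (hQ : Module.finrank ℂ Q ≤ 4)
    (hq : ∀ a b, x a * p b - x b * p a ∈ Q) :
    ∃ (u v : Fin 4 → ℂ) (l : ℂ), LinearIndependent ℂ ![u, v] ∧
      (∑ a, C (u a) * p a = C l * ∑ a, C (u a) * x a) ∧
      (∑ a, C (v a) * p a = C l * ∑ a, C (v a) * x a) := by
  let ka : Fin 6 → Fin 4 := ![0, 0, 0, 1, 1, 2]
  let kb : Fin 6 → Fin 4 := ![1, 2, 3, 2, 3, 3]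
  let w : Fin 6 → Q := fun k => ⟨x (ka k) * p (kb k) - x (kb k) * p (ka k), hq _ _⟩
  let Φ : (Fin 6 → ℂ) →ₗ[ℂ] Q := Fintype.linearCombination ℂ w
  have hk : 2 ≤ Module.finrank ℂ (LinearMap.ker Φ) := by
    have h1 := LinearMap.finrank_range_add_finrank_ker Φ
    have h2 := Submodule.finrank_le (LinearMap.range Φ)
    rw [Module.finrank_fin_fun] at h1
    omega
  obtain ⟨f, hf⟩ := exists_linearIndependent_of_le_finrank hk
  have hf' : ∀ s s' : ℂ, s • (f 0 : Fin 6 → ℂ) + s' • (f 1 : Fin 6 → ℂ) = 0 → s = 0 ∧ s' = 0 := by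
    intro s s' h
    have h1 := (Fintype.linearIndependent_iff.mp hf) ![s, s'] (by
      rw [Fin.sum_univ_two]
      apply Subtype.ext
      exact h)
    exact ⟨h1 0, h1 1⟩
  obtain ⟨s, s', u, v, huv, hT⟩ := skew_pencil (sk (f 0)) (sk (f 1)) (sk_skew _) (sk_skew _) (by
    rw [LinearIndependent.pair_iff]
    intro s s' h
    apply hf'
    have h2 := fun a b => congrFun (congrFun h a) b
    funext k
    fin_cases k
    · exact h2 0 1
    · exact h2 0 2
    · exact h2 0 3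
    · exact h2 1 2
    · exact h2 1 3
    · exact h2 2 3)
  have hw : ∑ k, (s * (f 0 : Fin 6 → ℂ) k + s' * (f 1 : Fin 6 → ℂ) k) •
      (x (ka k) * p (kb k) - x (kb k) * p (ka k)) = 0 := by
    have h1 : Φ (s • (f 0 : Fin 6 → ℂ) + s' • (f 1 : Fin 6 → ℂ)) = 0 := by
      rw [map_add, map_smul, map_smul, (f 0).2, (f 1).2, smul_zero, smul_zero, add_zero]
    have h2 := congrArg Subtype.val h1
    rw [Fintype.linearCombination_apply] at h2
    simp only [Submodule.coe_sum, Submodule.coe_smul] at h2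
    exact h2
  have t0 : s * (f 0 : Fin 6 → ℂ) 0 + s' * (f 1 : Fin 6 → ℂ) 0 = u 0 * v 1 - u 1 * v 0 := hT 0 1
  have t1 : s * (f 0 : Fin 6 → ℂ) 1 + s' * (f 1 : Fin 6 → ℂ) 1 = u 0 * v 2 - u 2 * v 0 := hT 0 2
  have t2 : s * (f 0 : Fin 6 → ℂ) 2 + s' * (f 1 : Fin 6 → ℂ) 2 = u 0 * v 3 - u 3 * v 0 := hT 0 3
  have t3 : s * (f 0 : Fin 6 → ℂ) 3 + s' * (f 1 : Fin 6 → ℂ) 3 = u 1 * v 2 - u 2 * v 1 := hT 1 2
  have t4 : s * (f 0 : Fin 6 → ℂ) 4 + s' * (f 1 : Fin 6 → ℂ) 4 = u 1 * v 3 - u 3 * v 1 := hT 1 3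
  have t5 : s * (f 0 : Fin 6 → ℂ) 5 + s' * (f 1 : Fin 6 → ℂ) 5 = u 2 * v 3 - u 3 * v 2 := hT 2 3
  rw [Fin.sum_univ_six, t0, t1, t2, t3, t4, t5] at hw
  simp only [smul_eq_C_mul, C_sub, C_mul] at hw
  have hw' : (C (u 0) * C (v 1) - C (u 1) * C (v 0)) * (x 0 * p 1 - x 1 * p 0) +
      (C (u 0) * C (v 2) - C (u 2) * C (v 0)) * (x 0 * p 2 - x 2 * p 0) +
      (C (u 0) * C (v 3) - C (u 3) * C (v 0)) * (x 0 * p 3 - x 3 * p 0) +
      (C (u 1) * C (v 2) - C (u 2) * C (v 1)) * (x 1 * p 2 - x 2 * p 1) +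
      (C (u 1) * C (v 3) - C (u 3) * C (v 1)) * (x 1 * p 3 - x 3 * p 1) +
      (C (u 2) * C (v 3) - C (u 3) * C (v 2)) * (x 2 * p 3 - x 3 * p 2) = (0 : Pn 5) := hw
  obtain ⟨l, h1, h2⟩ := prop2 (cb_hom hx u) (cb_hom hx v) (cb_hom hp u) (cb_hom hp v)
    (li_cb hxi huv) (by
      simp only [Fin.sum_univ_four]
      linear_combination hw')
  exact ⟨u, v, l, huv, h1, h2⟩

/-- the condition `hN` of the classification -/
def NoT (Q : Submodule ℂ (Pn 5)) : Prop :=
  ∀ (t : Pn 5) (y : Fin 3 → Pn 5), t.IsHomogeneous 1 → t ≠ 0 → (∀ i, (y i).IsHomogeneous 1) →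
    LinearIndependent ℂ y → (∀ i, t * y i ∈ Q) → False

/-- the two patterns -/
noncomputable def pat (s : Bool) (x : Fin 4 → Pn 5) : Fin 4 → Pn 5 :=
  if s then ![0, 0, x 2, x 3] else ![0, 0, x 0, x 1]

private theorem caseA {x : Fin 4 → Pn 5} (hx : ∀ a, (x a).IsHomogeneous 1)
    (hxi : LinearIndependent ℂ x) {p2 p3 : Pn 5} (hp2 : p2.IsHomogeneous 1)
    (hp3 : p3.IsHomogeneous 1) {Q : Submodule ℂ (Pn 5)} (h02 : x 0 * p2 ∈ Q) (h03 : x 0 * p3 ∈ Q)
    (h12 : x 1 * p2 ∈ Q) (h13 : x 1 * p3 ∈ Q) (h23 : x 2 * p3 - x 3 * p2 ∈ Q) (hN : NoT Q)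
    (hne : p2 ≠ 0 ∨ p3 ≠ 0) : LinearIndependent ℂ ![p2, p3] := by
  by_contra hcon
  rw [LinearIndependent.pair_iff] at hcon
  push Not at hcon
  obtain ⟨s, t, hst, hne'⟩ := hcon
  rw [smul_eq_C_mul, smul_eq_C_mul] at hst
  have h1 : ∃ (t0 : Pn 5) (μ ν : ℂ), t0.IsHomogeneous 1 ∧ t0 ≠ 0 ∧ p2 = C μ * t0 ∧ p3 = C ν * t0 ∧
      (μ ≠ 0 ∨ ν ≠ 0) := by
    by_cases hs : s = 0
    · have ht := hne' hs
      rw [hs, C_0, zero_mul, zero_add] at hst
      have h3 : p3 = 0 := (mul_eq_zero.mp hst).resolve_left (by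
        intro h
        exact ht (C_eq_zero.mp h))
      have h2 : p2 ≠ 0 := by
        rcases hne with h | h
        · exact h
        · exact absurd h3 h
      exact ⟨p2, 1, 0, hp2, h2, by rw [C_1, one_mul], by rw [C_0, zero_mul, h3],
        Or.inl one_ne_zero⟩
    · have h2 : p2 = C (-(t / s)) * p3 := by
        have h4 : (C s⁻¹ : Pn 5) * C s = 1 := by rw [← C_mul, inv_mul_cancel₀ hs, C_1]
        have h5 : (C (-(t / s)) : Pn 5) = - C s⁻¹ * C t := by
          rw [div_eq_mul_inv, C_neg, C_mul]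
          ring
        rw [h5]
        linear_combination C s⁻¹ * hst - p2 * h4
      have h3 : p3 ≠ 0 := by
        rcases hne with h | h
        · intro h0
          rw [h0, mul_zero] at h2
          exact h h2
        · exact h
      exact ⟨p3, -(t / s), 1, hp3, h3, h2, by rw [C_1, one_mul], Or.inr one_ne_zero⟩
  obtain ⟨t0, μ, ν, ht0, ht1, rfl, rfl, hμν⟩ := h1
  have hmul : ∀ z : Pn 5, z * (C μ * t0) ∈ Q → z * (C ν * t0) ∈ Q → t0 * z ∈ Q := by
    intro z h1 h2
    rcases hμν with h | h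
    · have h4 : (C μ⁻¹ : Pn 5) * C μ = 1 := by rw [← C_mul, inv_mul_cancel₀ h, C_1]
      have : t0 * z = μ⁻¹ • (z * (C μ * t0)) := by
        rw [smul_eq_C_mul]
        linear_combination -(t0 * z) * h4
      rw [this]
      exact Q.smul_mem _ h1
    · have h4 : (C ν⁻¹ : Pn 5) * C ν = 1 := by rw [← C_mul, inv_mul_cancel₀ h, C_1]
      have : t0 * z = ν⁻¹ • (z * (C ν * t0)) := by
        rw [smul_eq_C_mul]
        linear_combination -(t0 * z) * h4
      rw [this]
      exact Q.smul_mem _ h2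
  refine hN t0 ![x 0, x 1, ∑ a, C ((![0, 0, ν, -μ] : Fin 4 → ℂ) a) * x a] ht0 ht1 ?_ ?_ ?_
  · intro i
    fin_cases i
    · exact hx 0
    · exact hx 1
    · exact cb_hom hx _
  · rw [Fintype.linearIndependent_iff]
    intro g hg
    rw [Fin.sum_univ_three] at hg
    have hg' : g 0 • x 0 + g 1 • x 1 + g 2 • (∑ a, C ((![0, 0, ν, -μ] : Fin 4 → ℂ) a) * x a) = 0 :=
      hg
    have h2 := cb_zero hxi (u := ![g 0, g 1, g 2 * ν, - g 2 * μ]) (by
      rw [← hg']
      simp only [Fin.sum_univ_four, smul_eq_C_mul, Matrix.cons_val_zero, Matrix.cons_val_one,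
        Matrix.cons_val, C_mul, C_neg, C_0]
      ring)
    have e0 : g 0 = 0 := h2 0
    have e1 : g 1 = 0 := h2 1
    have e2 : g 2 * ν = 0 := h2 2
    have e3 : - g 2 * μ = 0 := h2 3
    have e4 : g 2 = 0 := by
      rcases hμν with h | h
      · exact neg_eq_zero.mp ((mul_eq_zero.mp e3).resolve_right h)
      · exact (mul_eq_zero.mp e2).resolve_right h
    intro i
    fin_cases i
    · exact e0
    · exact e1
    · exact e4
  · intro i
    fin_cases i
    · exact hmul _ h02 h03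
    · exact hmul _ h12 h13
    · show t0 * (∑ a, C ((![0, 0, ν, -μ] : Fin 4 → ℂ) a) * x a) ∈ Q
      have : t0 * (∑ a, C ((![0, 0, ν, -μ] : Fin 4 → ℂ) a) * x a) =
          x 2 * (C ν * t0) - x 3 * (C μ * t0) := by
        simp only [Fin.sum_univ_four, Matrix.cons_val_zero, Matrix.cons_val_one,
          Matrix.cons_val, C_neg, C_0]
        ring
      rw [this]
      exact h23

private theorem C_inv_mul {s : ℂ} (hs : s ≠ 0) : (C s⁻¹ : Pn 5) * C s = 1 := by
  rw [← C_mul, inv_mul_cancel₀ hs, C_1]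

/-- case (5) -/
private theorem case5 {x : Fin 4 → Pn 5} (hx : ∀ a, (x a).IsHomogeneous 1)
    (hxi : LinearIndependent ℂ x) {p2 p3 : Pn 5} (hp2 : p2.IsHomogeneous 1)
    (hp3 : p3.IsHomogeneous 1) {Q : Submodule ℂ (Pn 5)} (hQf : Module.Finite ℂ Q)
    (hQ : Module.finrank ℂ Q ≤ 4) (h02 : x 0 * p2 ∈ Q) (h03 : x 0 * p3 ∈ Q)
    (h12 : x 1 * p2 ∈ Q) (h13 : x 1 * p3 ∈ Q) (h23 : x 2 * p3 - x 3 * p2 ∈ Q)
    (hli : LinearIndependent ℂ ![x 0, x 1, p2, p3]) :
    ∃ (a b c d l : ℂ), l ≠ 0 ∧ p2 = C l * (x 2 - C b * x 0 - C d * x 1) ∧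
      p3 = C l * (x 3 + C a * x 0 + C c * x 1) := by
  have hli' : ∀ g0 g1 g2 g3 : ℂ, C g0 * x 0 + C g1 * x 1 + C g2 * p2 + C g3 * p3 = 0 →
      g0 = 0 ∧ g1 = 0 ∧ g2 = 0 ∧ g3 = 0 := by
    intro g0 g1 g2 g3 h
    have h1 := (Fintype.linearIndependent_iff.mp hli) ![g0, g1, g2, g3] (by
      rw [Fin.sum_univ_four]
      show g0 • x 0 + g1 • x 1 + g2 • p2 + g3 • p3 = 0
      simp only [smul_eq_C_mul]
      exact h)
    exact ⟨h1 0, h1 1, h1 2, h1 3⟩
  have hx01 : LinearIndependent ℂ ![x 0, x 1] := by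
    rw [LinearIndependent.pair_iff]
    intro s t h
    obtain ⟨h1, h2, _, _⟩ := hli' s t 0 0 (by
      rw [smul_eq_C_mul, smul_eq_C_mul] at h
      rw [C_0, zero_mul, zero_mul, add_zero, add_zero, h])
    exact ⟨h1, h2⟩
  let w : Fin 4 → Q := ![⟨_, h02⟩, ⟨_, h03⟩, ⟨_, h12⟩, ⟨_, h13⟩]
  have hw : LinearIndependent ℂ w := by
    rw [Fintype.linearIndependent_iff]
    intro g hg
    have h1 : C (g 0) * (x 0 * p2) + C (g 1) * (x 0 * p3) + C (g 2) * (x 1 * p2) +
        C (g 3) * (x 1 * p3) = 0 := by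
      have := congrArg Subtype.val hg
      rw [Fin.sum_univ_four] at this
      simp only [← smul_eq_C_mul]
      exact this
    have hC : ∀ (c : ℂ) {f : Pn 5}, f.IsHomogeneous 1 → (C c * f).IsHomogeneous 1 := by
      intro c f hf
      have := (isHomogeneous_C (Fin 5) c).mul hf
      rwa [zero_add] at this
    obtain ⟨l, e1, e2⟩ := prop2 (x := x 0) (x' := x 1) (p := -(C (g 2) * p2 + C (g 3) * p3))
      (p' := C (g 0) * p2 + C (g 1) * p3) (hx 0) (hx 1)
      ((hC _ hp2).add (hC _ hp3)).neg ((hC _ hp2).add (hC _ hp3)) hx01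
      (by linear_combination h1)
    obtain ⟨_, k1, k2, k3⟩ := hli' 0 (-l) (g 0) (g 1) (by
      rw [C_0, C_neg]
      linear_combination e2)
    obtain ⟨_, _, k4, k5⟩ := hli' (-l) 0 (-(g 2)) (-(g 3)) (by
      rw [C_0, C_neg, C_neg, C_neg]
      linear_combination e1)
    intro i
    fin_cases i
    · exact k2
    · exact k3
    · exact neg_eq_zero.mp k4
    · exact neg_eq_zero.mp k5
  have hfr : Fintype.card (Fin 4) = Module.finrank ℂ Q := by
    have := hw.fintype_card_le_finrank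
    rw [Fintype.card_fin] at this ⊢
    omega
  have hsp := hw.span_eq_top_of_card_eq_finrank' hfr
  have h1 : (⟨_, h23⟩ : Q) ∈ Submodule.span ℂ (Set.range w) := by
    rw [hsp]
    exact Submodule.mem_top
  obtain ⟨g, hg⟩ := (Submodule.mem_span_range_iff_exists_fun ℂ).mp h1
  have h2 : C (g 0) * (x 0 * p2) + C (g 1) * (x 0 * p3) + C (g 2) * (x 1 * p2) +
      C (g 3) * (x 1 * p3) = x 2 * p3 - x 3 * p2 := by
    have := congrArg Subtype.val hg
    rw [Fin.sum_univ_four] at this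
    simp only [← smul_eq_C_mul]
    exact this
  have hu : LinearIndependent ℂ ![![-(g 1), -(g 3), 1, 0], ![g 0, g 2, 0, 1]] := by
    rw [LinearIndependent.pair_iff]
    intro s t h
    have e2 := congrFun h 2
    have e3 := congrFun h 3
    simp at e2 e3
    exact ⟨e2, e3⟩
  have hy2 : ∑ a, C ((![-(g 1), -(g 3), 1, 0] : Fin 4 → ℂ) a) * x a =
      x 2 - C (g 1) * x 0 - C (g 3) * x 1 := by
    simp only [Fin.sum_univ_four, Matrix.cons_val_zero, Matrix.cons_val_one,
      Matrix.cons_val, C_neg, C_0, C_1]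
    ring
  have hy3 : ∑ a, C ((![g 0, g 2, 0, 1] : Fin 4 → ℂ) a) * x a =
      x 3 + C (g 0) * x 0 + C (g 2) * x 1 := by
    simp only [Fin.sum_univ_four, Matrix.cons_val_zero, Matrix.cons_val_one,
      Matrix.cons_val, C_0, C_1]
    ring
  have hli2 := li_cb hxi hu
  have hh2 := cb_hom hx ![-(g 1), -(g 3), 1, 0]
  have hh3 := cb_hom hx ![g 0, g 2, 0, 1]
  rw [hy2, hy3] at hli2
  rw [hy2] at hh2
  rw [hy3] at hh3
  obtain ⟨l, e1, e2⟩ := prop2 hh2 hh3 hp2 hp3 hli2 (by linear_combination -h2)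
  refine ⟨g 0, g 1, g 2, g 3, l, ?_, e1, e2⟩
  rintro rfl
  rw [C_0, zero_mul] at e1
  obtain ⟨_, _, k, _⟩ := hli' 0 0 1 0 (by rw [e1]; simp)
  exact one_ne_zero k

/-- cases (3), (4) -/
private theorem case4 {x : Fin 4 → Pn 5} (hx : ∀ a, (x a).IsHomogeneous 1)
    (hxi : LinearIndependent ℂ x) {p2 p3 : Pn 5} (hp2 : p2.IsHomogeneous 1)
    (hp3 : p3.IsHomogeneous 1) {Q : Submodule ℂ (Pn 5)} (h02 : x 0 * p2 ∈ Q) (h03 : x 0 * p3 ∈ Q)
    (h12 : x 1 * p2 ∈ Q) (h13 : x 1 * p3 ∈ Q) (hN : NoT Q)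
    (hp : LinearIndependent ℂ ![p2, p3]) (hli : ¬ LinearIndependent ℂ ![x 0, x 1, p2, p3]) :
    ∃ (c00 c01 c10 c11 : ℂ), c00 * c11 - c01 * c10 ≠ 0 ∧ p2 = C c00 * x 0 + C c01 * x 1 ∧
      p3 = C c10 * x 0 + C c11 * x 1 := by
  have hC : ∀ (c : ℂ) {f : Pn 5}, f.IsHomogeneous 1 → (C c * f).IsHomogeneous 1 := by
    intro c f hf
    have := (isHomogeneous_C (Fin 5) c).mul hf
    rwa [zero_add] at this
  have hx01 : ∀ a b : ℂ, C a * x 0 + C b * x 1 = 0 → a = 0 ∧ b = 0 := by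
    intro a b h
    have h2 := cb_zero hxi (u := ![a, b, 0, 0]) (by
      rw [← h]
      simp [Fin.sum_univ_four])
    exact ⟨h2 0, h2 1⟩
  rw [LinearIndependent.pair_iff] at hp
  have hp' : ∀ a b : ℂ, C a * p2 + C b * p3 = 0 → a = 0 ∧ b = 0 := by
    intro a b h
    exact hp a b (by rw [smul_eq_C_mul, smul_eq_C_mul, h])
  -- a common non zero element
  rw [Fintype.linearIndependent_iff] at hli
  push Not at hli
  obtain ⟨g, hg, i0, hi0⟩ := hli
  have hg' : C (g 0) * x 0 + C (g 1) * x 1 + C (g 2) * p2 + C (g 3) * p3 = 0 := by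
    rw [Fin.sum_univ_four] at hg
    simp only [← smul_eq_C_mul]
    exact hg
  obtain ⟨s, hs⟩ : ∃ s, s = C (g 0) * x 0 + C (g 1) * x 1 := ⟨_, rfl⟩
  have hsB : s = -(C (g 2) * p2 + C (g 3) * p3) := by linear_combination hs + hg'
  have hs0 : s ≠ 0 := by
    intro h
    obtain ⟨e0, e1⟩ := hx01 (g 0) (g 1) (by rw [← hs, h])
    obtain ⟨e2, e3⟩ := hp' (g 2) (g 3) (by linear_combination hsB - h)
    fin_cases i0
    · exact hi0 e0
    · exact hi0 e1
    · exact hi0 e2
    · exact hi0 e3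
  have hsh : s.IsHomogeneous 1 := by
    rw [hs]
    exact (hC _ (hx 0)).add (hC _ (hx 1))
  have hQ1 : ∀ (a b c d : ℂ), (C a * x 0 + C b * x 1) * (C c * p2 + C d * p3) ∈ Q := by
    intro a b c d
    have : (C a * x 0 + C b * x 1) * (C c * p2 + C d * p3) =
        (a * c) • (x 0 * p2) + (a * d) • (x 0 * p3) + (b * c) • (x 1 * p2) +
          (b * d) • (x 1 * p3) := by
      simp only [smul_eq_C_mul, C_mul]
      ring
    rw [this]
    exact Q.add_mem (Q.add_mem (Q.add_mem (Q.smul_mem _ h02) (Q.smul_mem _ h03))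
      (Q.smul_mem _ h12)) (Q.smul_mem _ h13)
  -- another element of A
  have hα : ∃ (a b : ℂ), ∀ c d : ℂ, C c * s + C d * (C a * x 0 + C b * x 1) = 0 →
      c = 0 ∧ d = 0 := by
    by_cases h1 : g 1 = 0
    · have h0 : g 0 ≠ 0 := by
        intro h0
        apply hs0
        rw [hs, h0, h1, C_0, zero_mul, zero_mul, add_zero]
      refine ⟨0, 1, fun c d h => ?_⟩
      obtain ⟨e0, e1⟩ := hx01 (c * g 0) (c * g 1 + d) (by
        rw [← h, hs, C_mul, C_add, C_mul, C_0, C_1]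
        ring)
      have hc : c = 0 := (mul_eq_zero.mp e0).resolve_right h0
      rw [hc, zero_mul, zero_add] at e1
      exact ⟨hc, e1⟩
    · refine ⟨1, 0, fun c d h => ?_⟩
      obtain ⟨e0, e1⟩ := hx01 (c * g 0 + d) (c * g 1) (by
        rw [← h, hs, C_mul, C_add, C_mul, C_0, C_1]
        ring)
      have hc : c = 0 := (mul_eq_zero.mp e1).resolve_right h1
      rw [hc, zero_mul, zero_add] at e0
      exact ⟨hc, e0⟩
  obtain ⟨a, b, hab⟩ := hα
  have key : ∀ c d : ℂ, ∃ c0 c1 : ℂ, C c * p2 + C d * p3 = C c0 * x 0 + C c1 * x 1 := by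
    intro c d
    by_contra hcon
    push Not at hcon
    refine hN s ![s, C a * x 0 + C b * x 1, C c * p2 + C d * p3] hsh hs0 ?_ ?_ ?_
    · intro i
      fin_cases i
      · exact hsh
      · exact (hC _ (hx 0)).add (hC _ (hx 1))
      · exact (hC _ hp2).add (hC _ hp3)
    · rw [Fintype.linearIndependent_iff]
      intro e he
      rw [Fin.sum_univ_three] at he
      have he' : C (e 0) * s + C (e 1) * (C a * x 0 + C b * x 1) +
          C (e 2) * (C c * p2 + C d * p3) = 0 := by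
        rw [← he]
        simp only [← smul_eq_C_mul]
        rfl
      have h2 : e 2 = 0 := by
        by_contra h2
        apply hcon (-(e 2)⁻¹ * (e 0 * g 0 + e 1 * a)) (-(e 2)⁻¹ * (e 0 * g 1 + e 1 * b))
        have h4 := C_inv_mul h2
        have h5 : ∀ z : ℂ, (C (-(e 2)⁻¹ * z) : Pn 5) = - C (e 2)⁻¹ * C z := by
          intro z
          rw [C_mul, C_neg]
        rw [h5, h5, C_add, C_add, C_mul, C_mul, C_mul, C_mul]
        rw [hs] at he'
        linear_combination C (e 2)⁻¹ * he' - (C c * p2 + C d * p3) * h4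
      rw [h2, C_0, zero_mul, add_zero] at he'
      obtain ⟨h0, h1⟩ := hab _ _ he'
      intro i
      fin_cases i
      · exact h0
      · exact h1
      · exact h2
    · intro i
      fin_cases i
      · show s * s ∈ Q
        have : s * s = (C (g 0) * x 0 + C (g 1) * x 1) * (C (-(g 2)) * p2 + C (-(g 3)) * p3) := by
          rw [← hs]
          nth_rewrite 2 [hsB]
          rw [C_neg, C_neg]
          ring
        rw [this]
        exact hQ1 _ _ _ _
      · show s * (C a * x 0 + C b * x 1) ∈ Q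
        have : s * (C a * x 0 + C b * x 1) =
            (C a * x 0 + C b * x 1) * (C (-(g 2)) * p2 + C (-(g 3)) * p3) := by
          rw [hsB, C_neg, C_neg]
          ring
        rw [this]
        exact hQ1 _ _ _ _
      · show s * (C c * p2 + C d * p3) ∈ Q
        rw [hs]
        exact hQ1 _ _ _ _
  obtain ⟨c00, c01, h2⟩ := key 1 0
  obtain ⟨c10, c11, h3⟩ := key 0 1
  rw [C_1, C_0, one_mul, zero_mul, add_zero] at h2
  rw [C_1, C_0, one_mul, zero_mul, zero_add] at h3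
  refine ⟨c00, c01, c10, c11, ?_, h2, h3⟩
  intro hD
  have hD' : (C c00 * C c11 - C c01 * C c10 : Pn 5) = 0 := by
    rw [← C_mul, ← C_mul, ← C_sub, hD, C_0]
  obtain ⟨e1, e2⟩ := hp' c11 (-c01) (by
    rw [C_neg, h2, h3]
    linear_combination x 0 * hD')
  obtain ⟨e3, e4⟩ := hp' c10 (-c00) (by
    rw [C_neg, h2, h3]
    linear_combination -x 1 * hD')
  have h4 : p2 = 0 := by
    rw [h2, neg_eq_zero.mp e2, neg_eq_zero.mp e4, C_0, zero_mul, zero_mul, add_zero]
  obtain ⟨k, _⟩ := hp' 1 0 (by rw [h4]; simp)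
  exact one_ne_zero k

/-- steps (2) - (5): `p 0 = p 1 = 0` -/
theorem cls_step2 {x : Fin 4 → Pn 5} (hx : ∀ a, (x a).IsHomogeneous 1)
    (hxi : LinearIndependent ℂ x) {p : Fin 4 → Pn 5} (hp : ∀ a, (p a).IsHomogeneous 1)
    (hp0 : p 0 = 0) (hp1 : p 1 = 0) {Q : Submodule ℂ (Pn 5)} (hQf : Module.Finite ℂ Q)
    (hQ : Module.finrank ℂ Q ≤ 4) (hq : ∀ a b, x a * p b - x b * p a ∈ Q) (hN : NoT Q)
    (hne : ∃ a, p a ≠ 0) :
    ∃ (s : Bool) (M M' : Fin 4 → Fin 4 → ℂ) (c : ℂ) (y : Fin 4 → Pn 5), Inv M M' ∧ c ≠ 0 ∧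
      (∀ a, y a = ∑ b, C (M a b) * x b) ∧
      ∀ a b, ∑ a', ∑ b', C (M a a' * M b b') * (x a' * p b' - x b' * p a') =
        C c * (y a * pat s y b - y b * pat s y a) := by
  have h02 : x 0 * p 2 ∈ Q := by
    have := hq 0 2
    rwa [hp0, mul_zero, sub_zero] at this
  have h03 : x 0 * p 3 ∈ Q := by
    have := hq 0 3
    rwa [hp0, mul_zero, sub_zero] at this
  have h12 : x 1 * p 2 ∈ Q := by
    have := hq 1 2
    rwa [hp1, mul_zero, sub_zero] at this
  have h13 : x 1 * p 3 ∈ Q := by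
    have := hq 1 3
    rwa [hp1, mul_zero, sub_zero] at this
  have h23 := hq 2 3
  have hne' : p 2 ≠ 0 ∨ p 3 ≠ 0 := by
    obtain ⟨a, ha⟩ := hne
    fin_cases a
    · exact absurd hp0 ha
    · exact absurd hp1 ha
    · exact Or.inl ha
    · exact Or.inr ha
  have hp23 := caseA hx hxi (hp 2) (hp 3) h02 h03 h12 h13 h23 hN hne'
  by_cases hli : LinearIndependent ℂ ![x 0, x 1, p 2, p 3]
  · obtain ⟨a, b, c, d, l, hl, e2, e3⟩ := case5 hx hxi (hp 2) (hp 3) hQf hQ h02 h03 h12 h13 h23 hli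
    let M : Fin 4 → Fin 4 → ℂ := ![![1, 0, 0, 0], ![0, 1, 0, 0], ![-b, -d, 1, 0], ![a, c, 0, 1]]
    let M' : Fin 4 → Fin 4 → ℂ := ![![1, 0, 0, 0], ![0, 1, 0, 0], ![b, d, 1, 0], ![-a, -c, 0, 1]]
    refine ⟨true, M, M', l, fun a => ∑ b, C (M a b) * x b, ⟨?_, ?_⟩, hl, fun _ => rfl, ?_⟩
    · funext i j
      fin_cases i <;> fin_cases j <;> simp [mm, idm, Fin.sum_univ_four, M, M']
    · funext i j
      fin_cases i <;> fin_cases j <;> simp [mm, idm, Fin.sum_univ_four, M, M']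
    · intro i j
      rw [bil (M i) (M j) x p]
      have hpp : ∀ k, ∑ b, C (M k b) * p b = C l * pat true (fun a => ∑ b, C (M a b) * x b) k := by
        intro k
        fin_cases k <;> simp [Fin.sum_univ_four, M, pat, hp0, hp1, e2, e3] <;> (left; ring)
      rw [hpp i, hpp j]
      ring
  · obtain ⟨c00, c01, c10, c11, hD, e2, e3⟩ := case4 hx hxi (hp 2) (hp 3) h02 h03 h12 h13 hN hp23 hli
    obtain ⟨D, hDD⟩ : ∃ D, D = c00 * c11 - c01 * c10 := ⟨_, rfl⟩
    rw [← hDD] at hD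
    let M : Fin 4 → Fin 4 → ℂ := ![![1, 0, 0, 0], ![0, 1, 0, 0], ![0, 0, D⁻¹ * c11, -(D⁻¹ * c01)],
      ![0, 0, -(D⁻¹ * c10), D⁻¹ * c00]]
    let M' : Fin 4 → Fin 4 → ℂ := ![![1, 0, 0, 0], ![0, 1, 0, 0], ![0, 0, c00, c01],
      ![0, 0, c10, c11]]
    refine ⟨false, M, M', 1, fun a => ∑ b, C (M a b) * x b, ⟨?_, ?_⟩, one_ne_zero, fun _ => rfl, ?_⟩
    · funext i j
      fin_cases i <;> fin_cases j <;> simp [mm, idm, Fin.sum_univ_four, M, M'] <;> field_simp <;>
        rw [hDD] <;> ring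
    · funext i j
      fin_cases i <;> fin_cases j <;> simp [mm, idm, Fin.sum_univ_four, M, M'] <;> field_simp <;>
        rw [hDD] <;> ring
    · intro i j
      rw [bil (M i) (M j) x p, C_1, one_mul]
      have hDC : (C D⁻¹ : Pn 5) * (C c00 * C c11 - C c01 * C c10) = 1 := by
        rw [← C_mul, ← C_mul, ← C_sub, ← hDD]
        exact C_inv_mul hD
      have hpp : ∀ k, ∑ b, C (M k b) * p b = pat false (fun a => ∑ b, C (M a b) * x b) k := by
        intro k
        fin_cases k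
        · simp [Fin.sum_univ_four, M, pat, hp0, hp1]
        · simp [Fin.sum_univ_four, M, pat, hp0, hp1]
        · simp [Fin.sum_univ_four, M, pat, hp0, hp1, e2, e3]
          linear_combination x 0 * hDC
        · simp [Fin.sum_univ_four, M, pat, hp0, hp1, e2, e3]
          linear_combination x 1 * hDC
      rw [hpp i, hpp j]

private theorem toM (A : Fin 4 → Fin 4 → ℂ) (B : Fin 4 → Fin 4 → ℂ) :
    mm A B = fun i j => (Matrix.of A * Matrix.of B) i j := by
  funext i j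
  rw [Matrix.mul_apply]
  rfl

private theorem Inv_iff {A B : Fin 4 → Fin 4 → ℂ} :
    Inv A B ↔ Matrix.of A * Matrix.of B = 1 ∧ Matrix.of B * Matrix.of A = 1 := by
  have h : ∀ A B : Fin 4 → Fin 4 → ℂ, mm A B = idm 4 ↔ Matrix.of A * Matrix.of B = 1 := by
    intro A B
    rw [toM]
    constructor
    · intro h
      ext i j
      have := congrFun (congrFun h i) j
      rw [this, Matrix.one_apply]
      rfl
    · intro h
      funext i j
      rw [h, Matrix.one_apply]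
      rfl
  unfold Pool.Agent.Helper71.FC.Inv
  rw [h, h]

private theorem Inv_mm {A A' B B' : Fin 4 → Fin 4 → ℂ} (hA : Inv A A') (hB : Inv B B') :
    Inv (mm A B) (mm B' A') := by
  rw [Inv_iff] at hA hB ⊢
  have e1 : Matrix.of (mm A B) = Matrix.of A * Matrix.of B := by
    rw [toM]
    rfl
  have e2 : Matrix.of (mm B' A') = Matrix.of B' * Matrix.of A' := by
    rw [toM]
    rfl
  rw [e1, e2]
  constructor
  · rw [Matrix.mul_assoc, ← Matrix.mul_assoc (Matrix.of B), hB.1, Matrix.one_mul, hA.1]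
  · rw [Matrix.mul_assoc, ← Matrix.mul_assoc (Matrix.of A'), hA.2, Matrix.one_mul, hB.2]

private theorem cb_cb (u : Fin 4 → ℂ) (M : Fin 4 → Fin 4 → ℂ) (x : Fin 4 → Pn 5) :
    ∑ a, C (u a) * (∑ b, C (M a b) * x b) = ∑ b, C (∑ a, u a * M a b) * x b := by
  simp only [map_sum, Finset.sum_mul, Finset.mul_sum, C_mul]
  rw [Finset.sum_comm]
  refine Finset.sum_congr rfl fun b _ => Finset.sum_congr rfl fun a _ => ?_
  ring

/-- the classification -/
theorem cls {x : Fin 4 → Pn 5} (hx : ∀ a, (x a).IsHomogeneous 1)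
    (hxi : LinearIndependent ℂ x) {p : Fin 4 → Pn 5} (hp : ∀ a, (p a).IsHomogeneous 1)
    {Q : Submodule ℂ (Pn 5)} (hQf : Module.Finite ℂ Q) (hQ : Module.finrank ℂ Q ≤ 4)
    (hq : ∀ a b, x a * p b - x b * p a ∈ Q) (hN : NoT Q)
    (hne : ∃ a b, x a * p b - x b * p a ≠ 0) :
    ∃ (s : Bool) (M M' : Fin 4 → Fin 4 → ℂ) (c : ℂ) (y : Fin 4 → Pn 5), Inv M M' ∧ c ≠ 0 ∧
      (∀ a, y a = ∑ b, C (M a b) * x b) ∧
      ∀ a b, ∑ a', ∑ b', C (M a a' * M b b') * (x a' * p b' - x b' * p a') =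
        C c * (y a * pat s y b - y b * pat s y a) := by
  obtain ⟨u, v, l, huv, hu, hv⟩ := cls_step1 hx hxi hp hQf hQ hq
  obtain ⟨g, g', hg, hgv⟩ := exists_basis (n := 4) (r := 2) (by norm_num) ![u, v] huv
  obtain ⟨M, hM⟩ : ∃ M : Fin 4 → Fin 4 → ℂ, M = fun a b => g b a := ⟨_, rfl⟩
  obtain ⟨M', hM'⟩ : ∃ M : Fin 4 → Fin 4 → ℂ, M = fun a b => g' b a := ⟨_, rfl⟩
  have hMi : Inv M M' := by
    rw [Inv_iff] at hg ⊢
    rw [hM, hM']
    constructor
    · have := congrArg Matrix.transpose hg.2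
      rw [Matrix.transpose_mul, Matrix.transpose_one] at this
      exact this
    · have := congrArg Matrix.transpose hg.1
      rw [Matrix.transpose_mul, Matrix.transpose_one] at this
      exact this
  have hcol : ∀ (i : Fin 2) (k : Fin 4), M (Fin.castLE (by norm_num) i) k =
      (![u, v] : Fin 2 → Fin 4 → ℂ) i k := by
    intro i k
    rw [← hgv i, hM]
    show g k _ = ∑ l, g k l * (if l = Fin.castLE _ i then (1 : ℂ) else 0)
    simp only [mul_ite, mul_one, mul_zero]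
    rw [Finset.sum_ite_eq', if_pos (Finset.mem_univ _)]
  have hM0 : ∀ k, M 0 k = u k := hcol 0
  have hM1 : ∀ k, M 1 k = v k := hcol 1
  obtain ⟨x', hx'⟩ : ∃ x' : Fin 4 → Pn 5, x' = fun a => ∑ b, C (M a b) * x b := ⟨_, rfl⟩
  obtain ⟨p', hp'⟩ : ∃ p' : Fin 4 → Pn 5, p' = fun a => ∑ b, C (M a b) * (p b - C l * x b) :=
    ⟨_, rfl⟩
  have hp2 : ∀ a, p' a = (∑ b, C (M a b) * p b) - C l * ∑ b, C (M a b) * x b := by
    intro a
    rw [hp', Finset.mul_sum, ← Finset.sum_sub_distrib]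
    refine Finset.sum_congr rfl fun b _ => ?_
    ring
  have hxh : ∀ a, (x' a).IsHomogeneous 1 := by
    intro a
    rw [hx']
    exact cb_hom hx _
  have hC : ∀ (c : ℂ) {f : Pn 5}, f.IsHomogeneous 1 → (C c * f).IsHomogeneous 1 := by
    intro c f hf
    have := (isHomogeneous_C (Fin 5) c).mul hf
    rwa [zero_add] at this
  have hph : ∀ a, (p' a).IsHomogeneous 1 := by
    intro a
    rw [hp']
    exact cb_hom (fun b => (hp b).sub (hC _ (hx b))) _
  have hxi' : LinearIndependent ℂ x' := by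
    rw [Fintype.linearIndependent_iff]
    intro c hc
    have h1 : ∑ a, C (c a) * x' a = 0 := by
      rw [← hc]
      exact Finset.sum_congr rfl fun a _ => (smul_eq_C_mul _ _).symm
    rw [hx'] at h1
    have h1' : ∑ a, C (c a) * (∑ b, C (M a b) * x b) = 0 := h1
    rw [cb_cb] at h1'
    have h2 := cb_zero hxi h1'
    have h3 := (Inv_iff.mp hMi).1
    have h4 : Matrix.vecMul c (Matrix.of M) = 0 := by
      funext b
      exact h2 b
    have h5 : Matrix.vecMul c (Matrix.of M * Matrix.of M') = 0 := by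
      rw [← Matrix.vecMul_vecMul, h4, Matrix.zero_vecMul]
    rw [h3, Matrix.vecMul_one] at h5
    exact fun a => congrFun h5 a
  have hp0' : p' 0 = 0 := by
    rw [hp2]
    simp only [hM0]
    rw [hu, sub_self]
  have hp1' : p' 1 = 0 := by
    rw [hp2]
    simp only [hM1]
    rw [hv, sub_self]
  have hbil : ∀ a b, x' a * p' b - x' b * p' a =
      ∑ a', ∑ b', C (M a a' * M b b') * (x a' * p b' - x b' * p a') := by
    intro a b
    rw [bil (M a) (M b) x p, hp2, hp2, hx']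
    ring
  have hq' : ∀ a b, x' a * p' b - x' b * p' a ∈ Q := by
    intro a b
    rw [hbil]
    refine Q.sum_mem fun a' _ => Q.sum_mem fun b' _ => ?_
    rw [← smul_eq_C_mul]
    exact Q.smul_mem _ (hq a' b')
  have hne' : ∃ a, p' a ≠ 0 := by
    by_contra hcon
    push Not at hcon
    obtain ⟨a, b, hab⟩ := hne
    apply hab
    have h1 : ∀ d, p d - C l * x d = 0 := by
      intro d
      have h3 := (Inv_iff.mp hMi).2
      have h4 : ∑ a, C (M' d a) * (∑ b, C (M a b) * (p b - C l * x b)) = p d - C l * x d := by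
        rw [cb_cb (M' d) M (fun b => p b - C l * x b)]
        have h5 : ∀ b, ∑ a, M' d a * M a b = if d = b then 1 else 0 := by
          intro b
          have := congrFun (congrFun h3 d) b
          rw [Matrix.mul_apply, Matrix.one_apply] at this
          exact this
        simp only [h5]
        rw [Finset.sum_eq_single d]
        · rw [if_pos rfl, C_1, one_mul]
        · intro b _ hb
          rw [if_neg (Ne.symm hb), C_0, zero_mul]
        · intro h
          exact absurd (Finset.mem_univ _) h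
      rw [← h4]
      refine Finset.sum_eq_zero fun a _ => ?_
      have := hcon a
      rw [hp'] at this
      rw [show ∑ b, C (M a b) * (p b - C l * x b) = 0 from this, mul_zero]
    have ha := h1 a
    have hb := h1 b
    linear_combination x a * hb - x b * ha
  obtain ⟨s, N, N', c, y, hN', hc, hy, hmain⟩ := cls_step2 hxh hxi' hph hp0' hp1' hQf hQ hq' hN hne'
  refine ⟨s, mm N M, mm M' N', c, y, Inv_mm hN' hMi, hc, ?_, ?_⟩
  · intro a
    rw [hy, hx', cb_cb]
    rfl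
  · intro a b
    rw [← hmain a b, bil, bil (N a) (N b) x' p']
    have e1 : ∀ a, ∑ a', C (mm N M a a') * x a' = ∑ a', C (N a a') * x' a' := by
      intro a
      rw [hx', cb_cb]
      rfl
    have e2 : ∀ a, ∑ a', C (N a a') * p' a' =
        (∑ a', C (mm N M a a') * p a') - C l * ∑ a', C (mm N M a a') * x a' := by
      intro a
      rw [hp', cb_cb (N a) M (fun b => p b - C l * x b), Finset.mul_sum, ← Finset.sum_sub_distrib]
      refine Finset.sum_congr rfl fun b _ => ?_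
      show C (mm N M a b) * (p b - C l * x b) = _
      ring
    rw [e2, e2, ← e1, ← e1]
    ring

end Pool.Agent.Helper18.LB
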