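import Pool.Agent.Helper18.LB.CRel
import Pool.Agent.Helper18.LB.Cls

/-! LB-13: case (c): the final normal forms (X3), (X4).
Proof of `CD.exists_XD`.  `x, L` from `CD.rel4`.  For every component `i` `skew_const`: `L d i = Σ_d' g_i(d,d') x_d'`, `g_i` skew.
`G_dd' = Σ_i g_i(d,d') q_i`, `F0_dd' = Σ_i g_i(d,d') A_i ∈ EE θ 3`, `F0_dd' ∧ σ = G_dd' θ`, `Σ_d' x_d' G_dd' = Σ_i L_(d,i) q_i = 0`.
`Z_d = Σ_d' x_d' F0_dd'` has `Z_d ∧ σ = 0`, so `Z_d = s_d σ` (`sig_of_w`), and `Σ_d x_d s_d σ = Σ x_d x_d' F0_dd' = 0`, so `Σ x_d s_d = 0`, `kos4_1`: `s_d = Σ t_dd' x_d'`;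
`F_dd' = F0_dd' - t_dd' σ`: `Σ_d' x_d' F_dd' = 0`, `F_dd' ∧ σ = G_dd' θ`, skew.
`star`: the dual of a skew 4x4 matrix; `Σ_d' x_d' G_dd' = 0` for all `d` means `x_a (star G)_bc + cyc = 0`; the same for `F`.
`kos4_2` for `star G`: `star G_ab = x_a p_b - x_b p_a`.  `Q = span (range q)`: `finrank ≤ 4`, contains all `G`; `NoT Q`: `t y_i = Σ c_ij q_j`, `ξ_i = Σ c_ij A_j`, `two_of_T` contradicts `e2`;
`G ≠ 0`: otherwise all `g_i = 0` (`CD.ind`), `L = 0`.  `cls` gives `M, c, y`; `F'_ab = c⁻¹ Σ M_aa' M_bb' (star F)_a'b'`; the cyclic identity is multilinear.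
`XD.gen`: the quadrics `y_a P_b - y_b P_a` span a space of dimension 4 for both patterns, so the map `(c, l) ↦ Σ c_ab F_ab + l σ` from `ℂ⁴ × ℂ⁵` (four suitable `F_ab`) to `EE θ 3` is
injective (wedge with `σ`), and `e3 = 9`. -/

set_option autoImplicit false

namespace Pool.Agent.Helper18.LB

open MvPolynomial
open scoped BigOperators
open Pool.Agent.Helper71.FC
open Pool.Agent.Helper71.FL (w12 pf ct Dec Closed dd res at0 emb)

/-- the output of case (c): `s = true` is (X3), `s = false` is (X4) -/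
structure XD (θ : F2 5) (s : Bool) (σ : F1 5) (x : Fin 4 → Pn 5) (F : Fin 4 → Fin 4 → F1 5) :
    Prop where
  fol : Fol θ
  e1 : EE θ 1 = ⊥
  e2 : Module.finrank ℂ (EE θ 2) = 1
  e3 : Module.finrank ℂ (EE θ 3) = 9
  hσ : σ ∈ EE θ 2
  hσ0 : σ ≠ 0
  hx : ∀ a, (x a).IsHomogeneous 1
  hxi : LinearIndependent ℂ x
  hF : ∀ a b, F a b ∈ EE θ 3
  skew : ∀ a b i, F a b i = - F b a i
  cyc : ∀ a b c i, x a * F b c i + x b * F c a i + x c * F a b i = 0
  wedge : ∀ a b i j, w11 (F a b) σ i j = (x a * pat s x b - x b * pat s x a) * θ i j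

/-- dual of a skew 4x4 matrix -/
def star {R : Type} [AddCommGroup R] (G : Fin 4 → Fin 4 → R) : Fin 4 → Fin 4 → R :=
  ![![0, G 2 3, - G 1 3, G 1 2], ![- G 2 3, 0, G 0 3, - G 0 2],
    ![G 1 3, - G 0 3, 0, G 0 1], ![- G 1 2, G 0 2, - G 0 1, 0]]

private theorem diag0 {R : Type} [AddCommGroup R] [Module (Pn 5) R] {G : Fin 4 → Fin 4 → R}
    (hs : ∀ a b, G a b = - G b a) (a : Fin 4) : G a a = 0 := by
  have h1 : (2 : Pn 5) • G a a = 0 := by
    rw [two_smul]
    nth_rewrite 1 [hs a a]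
    exact neg_add_cancel _
  have h2 : (C (1/2 : ℂ) : Pn 5) • (2 : Pn 5) • G a a = 0 := by rw [h1, smul_zero]
  rw [smul_smul] at h2
  have h3 : (C (1/2 : ℂ) * 2 : Pn 5) = 1 := by
    rw [show (2 : Pn 5) = C 2 from (map_ofNat C 2).symm, ← C_mul]
    norm_num
  rwa [h3, one_smul] at h2

theorem star_cyc {R : Type} [AddCommGroup R] [Module (Pn 5) R] {x : Fin 4 → Pn 5}
    {G : Fin 4 → Fin 4 → R} (hs : ∀ a b, G a b = - G b a) (h : ∀ a, ∑ b, x b • G a b = 0)
    (a b c : Fin 4) : x a • star G b c + x b • star G c a + x c • star G a b = 0 := by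
  have hd := diag0 hs
  have k0 : x 1 • G 0 1 + x 2 • G 0 2 + x 3 • G 0 3 = 0 := by
    have := h 0
    rw [Fin.sum_univ_four, hd 0, smul_zero, zero_add] at this
    exact this
  have k1 : -(x 0 • G 0 1) + x 2 • G 1 2 + x 3 • G 1 3 = 0 := by
    have := h 1
    rw [Fin.sum_univ_four, hd 1, smul_zero, add_zero, hs 1 0, smul_neg] at this
    exact this
  have k2 : -(x 0 • G 0 2) + -(x 1 • G 1 2) + x 3 • G 2 3 = 0 := by
    have := h 2
    rw [Fin.sum_univ_four, hd 2, smul_zero, add_zero, hs 2 0, hs 2 1, smul_neg, smul_neg] at this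
    exact this
  have k3 : -(x 0 • G 0 3) + -(x 1 • G 1 3) + -(x 2 • G 2 3) = 0 := by
    have := h 3
    rw [Fin.sum_univ_four, hd 3, smul_zero, add_zero, hs 3 0, hs 3 1, hs 3 2, smul_neg, smul_neg,
      smul_neg] at this
    exact this
  fin_cases a <;> fin_cases b <;> fin_cases c <;>
    simp only [star, Matrix.cons_val_zero, Matrix.cons_val_one, Matrix.cons_val, Fin.zero_eta,
      Fin.mk_one, Fin.reduceFinMk, Fin.isValue, smul_zero, smul_neg] <;>
    first
    | abel1
    | (refine Eq.trans ?_ k0; abel1)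
    | (refine Eq.trans ?_ k1; abel1)
    | (refine Eq.trans ?_ k2; abel1)
    | (refine Eq.trans ?_ k3; abel1)
    | (refine Eq.trans ?_ (neg_eq_zero.mpr k0); abel1)
    | (refine Eq.trans ?_ (neg_eq_zero.mpr k1); abel1)
    | (refine Eq.trans ?_ (neg_eq_zero.mpr k2); abel1)
    | (refine Eq.trans ?_ (neg_eq_zero.mpr k3); abel1)

private theorem star_skew {R : Type} [AddCommGroup R] (G : Fin 4 → Fin 4 → R) (a b : Fin 4) :
    star G a b = - star G b a := by
  fin_cases a <;> fin_cases b <;> simp [star]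

private theorem star_map {R S : Type} [AddCommGroup R] [AddCommGroup S] (f : R →+ S)
    (G : Fin 4 → Fin 4 → R) (a b : Fin 4) : f (star G a b) = star (fun a b => f (G a b)) a b := by
  fin_cases a <;> fin_cases b <;> simp [star]

private theorem star_mem {R : Type} [AddCommGroup R] {S : AddSubgroup R} {G : Fin 4 → Fin 4 → R}
    (h : ∀ a b, G a b ∈ S) (a b : Fin 4) : star G a b ∈ S := by
  fin_cases a <;> fin_cases b <;>
    simp only [star, Matrix.cons_val_zero, Matrix.cons_val_one, Matrix.cons_val, Fin.zero_eta,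
      Fin.mk_one, Fin.reduceFinMk, Fin.isValue] <;>
    first
    | exact S.zero_mem
    | exact h _ _
    | exact S.neg_mem (h _ _)

private theorem star_inj {R : Type} [AddCommGroup R] [Module (Pn 5) R] {G : Fin 4 → Fin 4 → R}
    (hs : ∀ a b, G a b = - G b a) (h : ∀ a b, star G a b = 0) (a b : Fin 4) : G a b = 0 := by
  have hd := diag0 hs
  have h01 : G 2 3 = 0 := h 0 1
  have h02 : G 1 3 = 0 := neg_eq_zero.mp (h 0 2)
  have h03 : G 1 2 = 0 := h 0 3
  have h12 : G 0 3 = 0 := h 1 2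
  have h13 : G 0 2 = 0 := neg_eq_zero.mp (h 1 3)
  have h23 : G 0 1 = 0 := h 2 3
  have h10 : G 3 2 = 0 := by rw [hs, h01, neg_zero]
  have h20 : G 3 1 = 0 := by rw [hs, h02, neg_zero]
  have h30 : G 2 1 = 0 := by rw [hs, h03, neg_zero]
  have h21 : G 3 0 = 0 := by rw [hs, h12, neg_zero]
  have h31 : G 2 0 = 0 := by rw [hs, h13, neg_zero]
  have h32 : G 1 0 = 0 := by rw [hs, h23, neg_zero]
  fin_cases a <;> fin_cases b <;> first | exact hd _ | assumption

private theorem comb_mem {ι : Type} [Fintype ι] {θ : F2 5} {d : ℕ} (c : ι → ℂ) (A : ι → F1 5)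
    (hA : ∀ i, A i ∈ EE θ d) : (fun k => ∑ i, C (c i) * A i k) ∈ EE θ d := by
  have h : (fun k => ∑ i, C (c i) * A i k) = ∑ i, c i • A i := by
    funext k
    rw [Finset.sum_apply]
    refine Finset.sum_congr rfl fun i _ => ?_
    rw [Pi.smul_apply, smul_eq_C_mul]
  rw [h]
  exact Submodule.sum_mem _ fun i _ => Submodule.smul_mem _ _ (hA i)

private theorem mul_mem_EE {θ : F2 5} {d k : ℕ} {t : Pn 5} (ht : t.IsHomogeneous k) {σ : F1 5}
    (hσ : σ ∈ EE θ d) : (fun i => t * σ i) ∈ EE θ (k + d) := by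
  refine ⟨fun i => ht.mul (hσ.1 i), fun i j l => ?_⟩
  rw [Pool.Agent.Helper71.FL.w12_smul, hσ.2, mul_zero]

/-- wedge with `σ` as a linear map -/
private noncomputable def W (σ : F1 5) (i j : Fin 5) : F1 5 →ₗ[Pn 5] Pn 5 :=
  (σ j) • LinearMap.proj i - (σ i) • LinearMap.proj j

private theorem W_apply (σ ξ : F1 5) (i j : Fin 5) : W σ i j ξ = w11 ξ σ i j := by
  unfold W w11
  simp only [LinearMap.sub_apply, LinearMap.smul_apply, LinearMap.proj_apply, smul_eq_mul]
  ring

private theorem w11_comb {ι : Type} [Fintype ι] (c : ι → ℂ) {A : ι → F1 5} {q : ι → Pn 5}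
    {σ : F1 5} {θ : F2 5} (w : ∀ i j k, w11 (A i) σ j k = q i * θ j k) (j k : Fin 5) :
    w11 (fun k => ∑ i, C (c i) * A i k) σ j k = (∑ i, C (c i) * q i) * θ j k := by
  rw [Finset.sum_mul]
  have : ∀ i, C (c i) * q i * θ j k = C (c i) * w11 (A i) σ j k := fun i => by rw [w, mul_assoc]
  rw [Finset.sum_congr rfl fun i _ => this i]
  unfold w11
  simp only [Finset.sum_mul, mul_sub, Finset.sum_sub_distrib, mul_assoc]

private theorem theta_ne {θ : F2 5} (h : Fol θ) : ∃ i j, θ i j ≠ 0 := by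
  by_contra hc
  push Not at hc
  have := h.prim 0 (fun i j => by rw [hc i j])
  exact not_isUnit_zero this

private theorem sigma_ne {σ : F1 5} (h : σ ≠ 0) : ∃ i, σ i ≠ 0 := by
  by_contra hc
  push Not at hc
  exact h (funext hc)

private theorem tri_lin {κ : Type} [Fintype κ] {R : Type} [CommRing R] (x : κ → R)
    (S : κ → κ → R) (h : ∀ a b c, x a * S b c + x b * S c a + x c * S a b = 0) (u v w : κ → R) :
    (∑ a, u a * x a) * (∑ b, ∑ c, v b * w c * S b c) +
      (∑ b, v b * x b) * (∑ c, ∑ a, w c * u a * S c a) +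
      (∑ c, w c * x c) * (∑ a, ∑ b, u a * v b * S a b) = 0 := by
  have e1 : (∑ a, u a * x a) * (∑ b, ∑ c, v b * w c * S b c) =
      ∑ a, ∑ b, ∑ c, u a * v b * w c * (x a * S b c) := by
    rw [Finset.sum_mul]
    refine Finset.sum_congr rfl fun a _ => ?_
    rw [Finset.mul_sum]
    refine Finset.sum_congr rfl fun b _ => ?_
    rw [Finset.mul_sum]
    refine Finset.sum_congr rfl fun c _ => ?_
    ring
  have e2 : (∑ b, v b * x b) * (∑ c, ∑ a, w c * u a * S c a) =
      ∑ a, ∑ b, ∑ c, u a * v b * w c * (x b * S c a) := by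
    refine Eq.trans ?_ Finset.sum_comm
    rw [Finset.sum_mul]
    refine Finset.sum_congr rfl fun b _ => ?_
    refine Eq.trans ?_ Finset.sum_comm
    rw [Finset.mul_sum]
    refine Finset.sum_congr rfl fun c _ => ?_
    rw [Finset.mul_sum]
    refine Finset.sum_congr rfl fun a _ => ?_
    ring
  have e3 : (∑ c, w c * x c) * (∑ a, ∑ b, u a * v b * S a b) =
      ∑ a, ∑ b, ∑ c, u a * v b * w c * (x c * S a b) := by
    refine Eq.trans ?_ (Finset.sum_congr rfl fun a _ => Finset.sum_comm)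
    refine Eq.trans ?_ Finset.sum_comm
    rw [Finset.sum_mul]
    refine Finset.sum_congr rfl fun c _ => ?_
    rw [Finset.mul_sum]
    refine Finset.sum_congr rfl fun a _ => ?_
    rw [Finset.mul_sum]
    refine Finset.sum_congr rfl fun b _ => ?_
    ring
  rw [e1, e2, e3, ← Finset.sum_add_distrib, ← Finset.sum_add_distrib]
  refine Finset.sum_eq_zero fun a _ => ?_
  rw [← Finset.sum_add_distrib, ← Finset.sum_add_distrib]
  refine Finset.sum_eq_zero fun b _ => ?_
  rw [← Finset.sum_add_distrib, ← Finset.sum_add_distrib]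
  refine Finset.sum_eq_zero fun c _ => ?_
  rw [← mul_add, ← mul_add, h, mul_zero]

private theorem lin_ind {x y : Fin 4 → Pn 5} (hxi : LinearIndependent ℂ x)
    {M M' : Fin 4 → Fin 4 → ℂ} (hM : Inv M M') (hy : ∀ a, y a = ∑ b, C (M a b) * x b) :
    LinearIndependent ℂ y := by
  rw [Fintype.linearIndependent_iff] at hxi ⊢
  intro c hc
  have h1 : ∑ b, (∑ a, c a * M a b) • x b = 0 := by
    rw [← hc]
    simp only [hy, Finset.sum_smul, Finset.smul_sum]
    rw [Finset.sum_comm]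
    refine Finset.sum_congr rfl fun a _ => Finset.sum_congr rfl fun b _ => ?_
    rw [mul_smul, smul_eq_C_mul (x b)]
  have h2 := hxi _ h1
  intro d
  have h3 : ∀ a, ∑ b, M a b * M' b d = if a = d then 1 else 0 := by
    intro a
    have := congrFun (congrFun hM.1 a) d
    unfold mm idm at this
    exact this
  have h4 : c d = ∑ b, (∑ a, c a * M a b) * M' b d := by
    simp only [Finset.sum_mul]
    rw [Finset.sum_comm]
    have : ∀ a, ∑ b, c a * M a b * M' b d = c a * (if a = d then 1 else 0) := by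
      intro a
      rw [← h3 a, Finset.mul_sum]
      exact Finset.sum_congr rfl fun b _ => mul_assoc _ _ _
    rw [Finset.sum_congr rfl fun a _ => this a]
    simp
  rw [h4]
  exact Finset.sum_eq_zero fun b _ => by rw [h2 b, zero_mul]

variable {θ : F2 5} {σ : F1 5} {q : Fin 4 → Pn 5} {A : Fin 4 → F1 5} {m b : Pn 3}

private theorem skew_sum {x : Fin 4 → Pn 5} {S : Fin 4 → Fin 4 → Pn 5}
    (hs : ∀ a b, S a b = - S b a) : ∑ d, x d * ∑ d', x d' * S d d' = 0 := by
  have h1 : ∑ d, x d * ∑ d', x d' * S d d' = - ∑ d, x d * ∑ d', x d' * S d d' := by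
    conv_lhs => simp only [Finset.mul_sum]
    rw [Finset.sum_comm, ← Finset.sum_neg_distrib]
    refine Finset.sum_congr rfl fun d _ => ?_
    rw [Finset.mul_sum, ← Finset.sum_neg_distrib]
    refine Finset.sum_congr rfl fun d' _ => ?_
    rw [hs d' d]
    ring
  have h2 : (2 : Pn 5) * ∑ d, x d * ∑ d', x d' * S d d' = 0 := by
    rw [two_mul]
    nth_rewrite 1 [h1]
    exact neg_add_cancel _
  rcases mul_eq_zero.mp h2 with h | h
  · exact absurd h two_ne_zero
  · exact h

theorem CD.exists_XD {θ : F2 5} {σ : F1 5} {q : Fin 4 → Pn 5} {A : Fin 4 → F1 5} {m b : Pn 3}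
    (h : CD θ σ q A m b) : ∃ (s : Bool) (x : Fin 4 → Pn 5) (F : Fin 4 → Fin 4 → F1 5),
      XD θ s σ x F := by
  obtain ⟨x, L, hx, hxi, hL, hLi, hxL⟩ := h.rel4
  have h1 : ∀ i, ∃ g : Fin 4 → Fin 4 → ℂ, (∀ d d', g d d' = - g d' d) ∧
      ∀ d, L d i = ∑ d', C (g d d') * x d' := fun i =>
    skew_const hx hxi (fun d => (hL d).1 i) (hxL i)
  choose g hgs hg using h1
  obtain ⟨G, hG⟩ : ∃ G : Fin 4 → Fin 4 → Pn 5, ∀ d d', G d d' = ∑ i, C (g i d d') * q i :=
    ⟨_, fun _ _ => rfl⟩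
  obtain ⟨F0, hF0⟩ : ∃ F0 : Fin 4 → Fin 4 → F1 5,
      ∀ d d', F0 d d' = fun k => ∑ i, C (g i d d') * A i k := ⟨_, fun _ _ => rfl⟩
  have hGs : ∀ d d', G d d' = - G d' d := by
    intro d d'
    rw [hG, hG, ← Finset.sum_neg_distrib]
    refine Finset.sum_congr rfl fun i _ => ?_
    rw [hgs i d d', C_neg, neg_mul]
  have hF0s : ∀ d d' k, F0 d d' k = - F0 d' d k := by
    intro d d' k
    rw [hF0, hF0]
    show ∑ i, C (g i d d') * A i k = - ∑ i, C (g i d' d) * A i k
    rw [← Finset.sum_neg_distrib]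
    refine Finset.sum_congr rfl fun i _ => ?_
    rw [hgs i d d', C_neg, neg_mul]
  have hF0m : ∀ d d', F0 d d' ∈ EE θ 3 := by
    intro d d'
    rw [hF0]
    exact comb_mem _ _ h.hA
  have hF0w : ∀ d d' i j, w11 (F0 d d') σ i j = G d d' * θ i j := by
    intro d d' i j
    rw [hF0, hG]
    exact w11_comb _ h.w i j
  have hGx : ∀ d, ∑ d', x d' * G d d' = 0 := by
    intro d
    rw [← (hL d).2]
    simp only [hG, Finset.mul_sum, hg, Finset.sum_mul]
    rw [Finset.sum_comm]
    refine Finset.sum_congr rfl fun i _ => Finset.sum_congr rfl fun d' _ => ?_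
    ring
  have hZw : ∀ d i j, w11 (fun k => ∑ d', x d' * F0 d d' k) σ i j = 0 := by
    intro d i j
    have h2 : w11 (fun k => ∑ d', x d' * F0 d d' k) σ i j =
        ∑ d', x d' * w11 (F0 d d') σ i j := by
      unfold w11
      simp only [Finset.sum_mul, mul_sub, Finset.sum_sub_distrib, mul_assoc]
    rw [h2]
    have h3 : ∀ d', x d' * w11 (F0 d d') σ i j = x d' * G d d' * θ i j := fun d' => by
      rw [hF0w, mul_assoc]
    rw [Finset.sum_congr rfl fun d' _ => h3 d', ← Finset.sum_mul, hGx, zero_mul]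
  have hZ : ∀ d, ∃ s : Pn 5, s.IsHomogeneous 2 ∧ ∀ k, ∑ d', x d' * F0 d d' k = s * σ k :=
    fun d => sig_of_w h.cc.e1 h.hσ h.hσ0 (k := 2) (ξ := fun k => ∑ d', x d' * F0 d d' k)
      (fun k => IsHomogeneous.sum _ _ _ fun d' _ => (hx d').mul ((hF0m d d').1 k)) (hZw d)
  choose s hsh hs using hZ
  obtain ⟨k0, hk0⟩ := sigma_ne h.hσ0
  have hxs : ∑ d, x d * s d = 0 := by
    have h2 : (∑ d, x d * s d) * σ k0 = 0 := by
      rw [Finset.sum_mul, ← skew_sum (x := x) (S := fun d d' => F0 d d' k0) (fun a b => hF0s a b k0)]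
      refine Finset.sum_congr rfl fun d _ => ?_
      rw [hs, mul_assoc]
    exact (mul_eq_zero.mp h2).resolve_right hk0
  obtain ⟨t, hth, hts, ht⟩ := kos4_1 hx hxi hsh hxs
  obtain ⟨F, hF⟩ : ∃ F : Fin 4 → Fin 4 → F1 5, ∀ d d', F d d' = fun k => F0 d d' k - t d d' * σ k :=
    ⟨_, fun _ _ => rfl⟩
  have hFs : ∀ d d', F d d' = - F d' d := by
    intro d d'
    rw [hF, hF]
    funext k
    show F0 d d' k - t d d' * σ k = -(F0 d' d k - t d' d * σ k)
    rw [hF0s d d', hts d d']
    ring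
  have hFm : ∀ d d', F d d' ∈ EE θ 3 := by
    intro d d'
    rw [hF]
    exact Submodule.sub_mem _ (hF0m d d') (mul_mem_EE (hth d d') h.hσ)
  have hFw : ∀ d d' i j, w11 (F d d') σ i j = G d d' * θ i j := by
    intro d d' i j
    rw [← hF0w, hF]
    unfold w11
    ring
  have hFx : ∀ d, ∑ d', x d' • F d d' = 0 := by
    intro d
    funext k
    rw [Finset.sum_apply]
    have h2 : ∀ d', (x d' • F d d') k = x d' * F0 d d' k - t d d' * x d' * σ k := by
      intro d'
      rw [Pi.smul_apply, smul_eq_mul, hF]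
      ring
    rw [Finset.sum_congr rfl fun d' _ => h2 d', Finset.sum_sub_distrib, hs, ← Finset.sum_mul,
      ← ht, sub_self]
    rfl
  -- the dual matrices
  have hGc : ∀ a b c, x a * star G b c + x b * star G c a + x c * star G a b = 0 := fun a b c =>
    star_cyc hGs (fun d => hGx d) a b c
  have hFc : ∀ a b c, x a • star F b c + x b • star F c a + x c • star F a b = 0 := fun a b c =>
    star_cyc hFs hFx a b c
  have hGh : ∀ a b, (star G a b).IsHomogeneous 2 := by
    intro a b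
    refine star_mem (S := (homogeneousSubmodule (Fin 5) ℂ 2).toAddSubgroup) (fun d d' => ?_) a b
    show (G d d').IsHomogeneous 2
    rw [hG]
    refine IsHomogeneous.sum _ _ _ fun i _ => ?_
    have := (isHomogeneous_C (Fin 5) (g i d d')).mul (h.hq i)
    rwa [zero_add] at this
  obtain ⟨p, hp, hpG⟩ := kos4_2 hx hxi hGh (star_skew G) hGc
  -- the space of quadrics
  have hQf : Module.Finite ℂ (Submodule.span ℂ (Set.range q)) :=
    FiniteDimensional.span_of_finite ℂ (Set.finite_range q)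
  have hQ : Module.finrank ℂ (Submodule.span ℂ (Set.range q)) ≤ 4 := by
    have := finrank_range_le_card (R := ℂ) q
    rw [Fintype.card_fin] at this
    exact this
  have hqQ : ∀ a b, x a * p b - x b * p a ∈ Submodule.span ℂ (Set.range q) := by
    intro a b
    rw [← hpG]
    refine star_mem (S := (Submodule.span ℂ (Set.range q)).toAddSubgroup) (fun d d' => ?_) a b
    show G d d' ∈ Submodule.span ℂ (Set.range q)
    rw [hG]
    refine Submodule.sum_mem _ fun i _ => ?_
    rw [← smul_eq_C_mul]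
    exact Submodule.smul_mem _ _ (Submodule.subset_span ⟨i, rfl⟩)
  have hN : NoT (Submodule.span ℂ (Set.range q)) := by
    intro t' y ht' ht0' hy' hyi' hty
    have h2 : ∀ i, ∃ c : Fin 4 → ℂ, ∑ j, c j • q j = t' * y i := fun i =>
      (Submodule.mem_span_range_iff_exists_fun ℂ).mp (hty i)
    choose c hc using h2
    have h3 := two_of_T h.cc.fol h.cc.e1 h.hσ h.hσ0
      (ξ := fun i k => ∑ j, C (c i j) * A j k) (fun i => comb_mem _ _ h.hA) ht' ht0' hy' hyi'
      (fun i j k => by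
        rw [w11_comb (c i) h.w j k, ← hc i]
        simp only [smul_eq_C_mul])
    rw [h.cc.e2] at h3
    omega
  have hne : ∃ a b, x a * p b - x b * p a ≠ 0 := by
    by_contra hcon
    push Not at hcon
    have h2 : ∀ d d', G d d' = 0 := star_inj hGs (fun a b => by rw [hpG, hcon])
    have h3 : ∀ i d d', g i d d' = 0 := by
      intro i d d'
      have h4 := h2 d d'
      rw [hG] at h4
      have h5 := (Fintype.linearIndependent_iff.mp h.ind) (fun i => g i d d') (by
        rw [← h4]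
        exact Finset.sum_congr rfl fun i _ => smul_eq_C_mul _ _)
      exact h5 i
    have h6 : L 0 = 0 := by
      funext i
      rw [hg i 0]
      exact Finset.sum_eq_zero fun d' _ => by rw [h3, C_0, zero_mul]
    exact hLi.ne_zero 0 h6
  obtain ⟨s', M, M', c, y, hM, hc0, hy, hcl⟩ := cls hx hxi hp hQf hQ hqQ hN hne
  have hcc : (C c⁻¹ : Pn 5) * C c = 1 := by
    rw [← C_mul, inv_mul_cancel₀ hc0, C_1]
  refine ⟨s', y, fun a b => c⁻¹ • ∑ a', ∑ b', (M a a' * M b b') • star F a' b',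
    h.cc.fol, h.cc.e1, h.cc.e2, h.cc.e3, h.hσ, h.hσ0, ?_, lin_ind hxi hM hy, ?_, ?_, ?_, ?_⟩
  · intro a
    rw [hy]
    refine IsHomogeneous.sum _ _ _ fun i _ => ?_
    have := (isHomogeneous_C (Fin 5) (M a i)).mul (hx i)
    rwa [zero_add] at this
  · intro a b
    refine Submodule.smul_mem _ _ (Submodule.sum_mem _ fun a' _ => Submodule.sum_mem _ fun b' _ =>
      Submodule.smul_mem _ _ ?_)
    exact star_mem (S := (EE θ 3).toAddSubgroup) hFm a' b'
  · intro a b i
    have h2 : ∑ a', ∑ b', (M a a' * M b b') • star F a' b' =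
        - ∑ a', ∑ b', (M b a' * M a b') • star F a' b' := by
      rw [Finset.sum_comm, ← Finset.sum_neg_distrib]
      refine Finset.sum_congr rfl fun a' _ => ?_
      rw [← Finset.sum_neg_distrib]
      refine Finset.sum_congr rfl fun b' _ => ?_
      rw [star_skew F b' a', smul_neg, mul_comm]
    rw [h2, smul_neg]
    rfl
  · intro a b d i
    have h2 : ∀ u v : Fin 4, (c⁻¹ • ∑ a', ∑ b', (M u a' * M v b') • star F a' b' : F1 5) i =
        C c⁻¹ * ∑ a', ∑ b', C (M u a') * C (M v b') * star F a' b' i := by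
      intro u v
      rw [Pi.smul_apply, smul_eq_C_mul, Finset.sum_apply]
      congr 1
      refine Finset.sum_congr rfl fun a' _ => ?_
      rw [Finset.sum_apply]
      refine Finset.sum_congr rfl fun b' _ => ?_
      rw [Pi.smul_apply, smul_eq_C_mul, C_mul]
    have h3 := tri_lin x (fun a b => star F a b i) (fun a b c => by
      have := congrFun (hFc a b c) i
      exact this) (fun k => C (M a k)) (fun k => C (M b k)) (fun k => C (M d k))
    rw [h2, h2, h2, hy a, hy b, hy d]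
    have h4 : ∀ X1 X2 X3 Y1 Y2 Y3 Z : Pn 5, X1 * Y1 + X2 * Y2 + X3 * Y3 = 0 →
        X1 * (Z * Y1) + X2 * (Z * Y2) + X3 * (Z * Y3) = 0 := by
      intro X1 X2 X3 Y1 Y2 Y3 Z h
      linear_combination Z * h
    exact h4 _ _ _ _ _ _ _ h3
  · intro a b i j
    have h2 : ∀ d d', W σ i j (star F d d') = star G d d' * θ i j := by
      intro d d'
      have e1 := star_map (W σ i j).toAddMonoidHom F d d'
      have e2 := star_map (AddMonoidHom.mulRight (θ i j)) G d d'
      have e3 : (fun a b => (W σ i j).toAddMonoidHom (F a b)) =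
          fun a b => AddMonoidHom.mulRight (θ i j) (G a b) := by
        funext a b
        show W σ i j (F a b) = G a b * θ i j
        rw [W_apply, hFw]
      rw [e3, ← e2] at e1
      exact e1
    rw [← W_apply, LinearMap.map_smul_of_tower, map_sum]
    have h3 : ∀ a', W σ i j (∑ b', (M a a' * M b b') • star F a' b') =
        (∑ b', C (M a a' * M b b') * (x a' * p b' - x b' * p a')) * θ i j := by
      intro a'
      rw [map_sum, Finset.sum_mul]
      refine Finset.sum_congr rfl fun b' _ => ?_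
      rw [LinearMap.map_smul_of_tower, h2, hpG, smul_eq_C_mul, mul_assoc]
    rw [Finset.sum_congr rfl fun a' _ => h3 a', ← Finset.sum_mul, hcl, smul_eq_C_mul, ← mul_assoc,
      ← mul_assoc, hcc, one_mul]

private theorem exists_pt {x : Fin 4 → Pn 5} (hx : ∀ a, (x a).IsHomogeneous 1)
    (hxi : LinearIndependent ℂ x) (v : Fin 4 → ℂ) : ∃ z : Fin 5 → ℂ, ∀ a, eval z (x a) = v a := by
  have h1 : ∀ a, ∃ α : Fin 5 → ℂ, x a = lf α := fun a => lf_of_hom (hx a)
  choose α hα using h1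
  have hαi : LinearIndependent ℂ α := by
    rw [Fintype.linearIndependent_iff] at hxi ⊢
    intro c hc
    refine hxi c ?_
    have h2 : ∀ a, c a • x a = ∑ i, C ((c a • α a) i) * X i := by
      intro a
      rw [hα a, smul_eq_C_mul]
      unfold lf
      rw [Finset.mul_sum]
      refine Finset.sum_congr rfl fun i _ => ?_
      rw [Pi.smul_apply, smul_eq_mul, C_mul, mul_assoc]
    rw [Finset.sum_congr rfl fun a _ => h2 a, Finset.sum_comm]
    refine Finset.sum_eq_zero fun i _ => ?_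
    rw [← Finset.sum_mul, ← map_sum, ← Finset.sum_apply, hc, Pi.zero_apply, C_0, zero_mul]
  obtain ⟨g, g', hg, hX⟩ := exists_coord (n := 5) (by norm_num) α hαi
  refine ⟨Pool.Agent.Helper93.lmap g (Fin.snoc (α := fun _ => ℂ) v 0), fun a => ?_⟩
  rw [← Pool.Agent.Helper93.eval_lsub, hα, hX, eval_X]
  have : Fin.castLE (by norm_num : 4 ≤ 5) a = Fin.castSucc a := rfl
  rw [this, Fin.snoc_castSucc]

private theorem gen_aux {θ : F2 5} {s : Bool} {σ : F1 5} {x : Fin 4 → Pn 5}
    {F : Fin 4 → Fin 4 → F1 5} (h : XD θ s σ x F) (u v : Fin 4 → Fin 4)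
    (hi : ∀ c : Fin 4 → ℂ, ∑ k, C (c k) * (x (u k) * pat s x (v k) - x (v k) * pat s x (u k)) = 0 →
      ∀ k, c k = 0) {ξ : F1 5} (hξ : ξ ∈ EE θ 3) :
    ∃ (c : Fin 4 → ℂ) (l : Pn 5), l.IsHomogeneous 1 ∧
      ∀ i, ξ i = ∑ k, C (c k) * F (u k) (v k) i + l * σ i := by
  have hlf : ∀ a : Fin 5 → ℂ, (lf a).IsHomogeneous 1 := by
    intro a
    unfold lf
    refine IsHomogeneous.sum _ _ _ fun i _ => ?_
    have := (isHomogeneous_C (Fin 5) (a i)).mul (isHomogeneous_X ℂ i)
    rwa [zero_add] at this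
  let T : ((Fin 4 → ℂ) × (Fin 5 → ℂ)) →ₗ[ℂ] EE θ 3 :=
    { toFun := fun w => ⟨fun i => ∑ k, C (w.1 k) * F (u k) (v k) i + lf w.2 * σ i,
        Submodule.add_mem _ (comb_mem _ _ fun k => h.hF _ _) (mul_mem_EE (hlf w.2) h.hσ)⟩
      map_add' := fun w w' => by
        apply Subtype.ext
        funext i
        show ∑ k, C (w.1 k + w'.1 k) * F (u k) (v k) i + lf (w.2 + w'.2) * σ i =
          (∑ k, C (w.1 k) * F (u k) (v k) i + lf w.2 * σ i) +
            (∑ k, C (w'.1 k) * F (u k) (v k) i + lf w'.2 * σ i)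
        have : lf (w.2 + w'.2) = lf w.2 + lf w'.2 := by
          unfold lf
          simp only [Pi.add_apply, C_add, add_mul, Finset.sum_add_distrib]
        rw [this]
        simp only [C_add, add_mul, Finset.sum_add_distrib]
        ring
      map_smul' := fun c w => by
        apply Subtype.ext
        funext i
        show ∑ k, C (c * w.1 k) * F (u k) (v k) i + lf (c • w.2) * σ i =
          c • (∑ k, C (w.1 k) * F (u k) (v k) i + lf w.2 * σ i)
        have : lf (c • w.2) = C c * lf w.2 := by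
          unfold lf
          simp only [Pi.smul_apply, smul_eq_mul, C_mul, Finset.mul_sum, mul_assoc]
        rw [this, smul_eq_C_mul, mul_add, Finset.mul_sum]
        simp only [C_mul, mul_assoc] }
  have hT : ∀ w i, (T w).1 i = ∑ k, C (w.1 k) * F (u k) (v k) i + lf w.2 * σ i := fun _ _ => rfl
  have : Module.Finite ℂ (EE θ 3) := finite_EE θ 3
  have hinj : Function.Injective T := by
    rw [injective_iff_map_eq_zero]
    intro w hw
    have h1 : ∀ i, ∑ k, C (w.1 k) * F (u k) (v k) i + lf w.2 * σ i = 0 := by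
      intro i
      rw [← hT, hw]
      rfl
    obtain ⟨i0, j0, h0⟩ := theta_ne h.fol
    have h2 : (∑ k, C (w.1 k) * (x (u k) * pat s x (v k) - x (v k) * pat s x (u k))) *
        θ i0 j0 = 0 := by
      rw [← w11_comb w.1 (A := fun k => F (u k) (v k)) (σ := σ) (fun k i j => h.wedge _ _ i j)]
      unfold w11
      have e1 := h1 i0
      have e2 := h1 j0
      linear_combination σ j0 * e1 - σ i0 * e2
    have h3 := hi w.1 ((mul_eq_zero.mp h2).resolve_right h0)
    obtain ⟨k0, hk0⟩ := sigma_ne h.hσ0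
    have h4 : lf w.2 = 0 := by
      have := h1 k0
      rw [Finset.sum_eq_zero (fun k _ => by rw [h3 k, C_0, zero_mul]), zero_add] at this
      exact (mul_eq_zero.mp this).resolve_right hk0
    have h5 : ∀ i, w.2 i = 0 := by
      intro i
      have h6 : pderiv i (lf w.2) = C (w.2 i) := by
        unfold lf
        rw [map_sum, Finset.sum_eq_single i]
        · rw [pderiv_C_mul, pderiv_X_self, mul_one]
        · intro j _ hj
          rw [pderiv_C_mul, pderiv_X_of_ne hj, mul_zero]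
        · intro h
          exact absurd (Finset.mem_univ _) h
      rw [h4, map_zero] at h6
      exact (C_eq_zero.mp h6.symm)
    exact Prod.ext (funext h3) (funext h5)
  have hsurj : Function.Surjective T := by
    refine (LinearMap.injective_iff_surjective_of_finrank_eq_finrank ?_).mp hinj
    rw [Module.finrank_prod, Module.finrank_fin_fun, Module.finrank_fin_fun, h.e3]
  obtain ⟨w, hw⟩ := hsurj ⟨ξ, hξ⟩
  refine ⟨w.1, lf w.2, hlf _, fun i => ?_⟩
  rw [← hT, hw]

private theorem sum_pairs (u v : Fin 4 → Fin 4) (c : Fin 4 → ℂ) (f : Fin 4 → Fin 4 → Pn 5) :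
    ∑ k, C (c k) * f (u k) (v k) =
      ∑ a, ∑ b, C (∑ k, if u k = a ∧ v k = b then c k else 0) * f a b := by
  have h1 : ∀ a b, C (∑ k, if u k = a ∧ v k = b then c k else 0) * f a b =
      ∑ k, if u k = a ∧ v k = b then C (c k) * f (u k) (v k) else 0 := by
    intro a b
    rw [map_sum, Finset.sum_mul]
    refine Finset.sum_congr rfl fun k _ => ?_
    split_ifs with h
    · rw [h.1, h.2]
    · rw [C_0, zero_mul]
  simp only [h1]
  have h2 : ∀ a, ∑ b, ∑ k, (if u k = a ∧ v k = b then C (c k) * f (u k) (v k) else 0) =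
      ∑ k, ∑ b, (if u k = a ∧ v k = b then C (c k) * f (u k) (v k) else 0) := fun a =>
    Finset.sum_comm
  rw [Finset.sum_congr rfl fun a _ => h2 a, Finset.sum_comm]
  refine Finset.sum_congr rfl fun k _ => ?_
  rw [Finset.sum_eq_single (u k), Finset.sum_eq_single (v k)]
  · rw [if_pos ⟨rfl, rfl⟩]
  · intro b _ hb
    rw [if_neg]
    rintro ⟨_, h⟩
    exact hb h.symm
  · intro h
    exact absurd (Finset.mem_univ _) h
  · intro a _ ha
    refine Finset.sum_eq_zero fun b _ => ?_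
    rw [if_neg]
    rintro ⟨h, _⟩
    exact ha h.symm
  · intro h
    exact absurd (Finset.mem_univ _) h

theorem XD.gen {θ : F2 5} {s : Bool} {σ : F1 5} {x : Fin 4 → Pn 5} {F : Fin 4 → Fin 4 → F1 5}
    (h : XD θ s σ x F) {ξ : F1 5} (hξ : ξ ∈ EE θ 3) :
    ∃ (c : Fin 4 → Fin 4 → ℂ) (l : Pn 5), l.IsHomogeneous 1 ∧
      ∀ i, ξ i = ∑ a, ∑ b, C (c a b) * F a b i + l * σ i := by
  have key : ∃ u v : Fin 4 → Fin 4, ∀ c : Fin 4 → ℂ,
      ∑ k, C (c k) * (x (u k) * pat s x (v k) - x (v k) * pat s x (u k)) = 0 →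
      ∀ k, c k = 0 := by
    have hev : ∀ (u v : Fin 4 → Fin 4) (c : Fin 4 → ℂ),
        ∑ k, C (c k) * (x (u k) * pat s x (v k) - x (v k) * pat s x (u k)) = 0 →
        ∀ w : Fin 4 → ℂ, ∃ z : Fin 5 → ℂ, (∀ a, eval z (x a) = w a) ∧
        ∑ k, c k * (w (u k) * eval z (pat s x (v k)) - w (v k) * eval z (pat s x (u k))) = 0 := by
      intro u v c hc w
      obtain ⟨z, hz⟩ := exists_pt h.hx h.hxi w
      refine ⟨z, hz, ?_⟩
      have := congrArg (eval z) hc
      rw [map_sum, map_zero] at this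
      rw [← this]
      refine Finset.sum_congr rfl fun k _ => ?_
      rw [map_mul, eval_C, map_sub, map_mul, map_mul, hz, hz]
    cases s
    · refine ⟨![0, 0, 1, 2], ![2, 3, 3, 3], fun c hc => ?_⟩
      have p1 := hev _ _ c hc ![1, 0, 0, 0]
      have p2 := hev _ _ c hc ![0, 1, 0, 0]
      have p3 := hev _ _ c hc ![1, 1, 0, 0]
      have p4 := hev _ _ c hc ![0, 1, 1, 0]
      obtain ⟨z1, hz1, p1⟩ := p1
      obtain ⟨z2, hz2, p2⟩ := p2
      obtain ⟨z3, hz3, p3⟩ := p3
      obtain ⟨z4, hz4, p4⟩ := p4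
      simp [Fin.sum_univ_four, pat, hz1] at p1
      simp [Fin.sum_univ_four, pat, hz2] at p2
      simp [Fin.sum_univ_four, pat, hz3] at p3
      simp [Fin.sum_univ_four, pat, hz4] at p4
      rw [p1, p2, zero_add, add_zero] at p3
      rw [p2, zero_add] at p4
      intro k
      fin_cases k <;> assumption
    · refine ⟨![0, 0, 1, 1], ![2, 3, 2, 3], fun c hc => ?_⟩
      have p1 := hev _ _ c hc ![1, 0, 1, 0]
      have p2 := hev _ _ c hc ![1, 0, 0, 1]
      have p3 := hev _ _ c hc ![0, 1, 1, 0]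
      have p4 := hev _ _ c hc ![0, 1, 0, 1]
      obtain ⟨z1, hz1, p1⟩ := p1
      obtain ⟨z2, hz2, p2⟩ := p2
      obtain ⟨z3, hz3, p3⟩ := p3
      obtain ⟨z4, hz4, p4⟩ := p4
      simp [Fin.sum_univ_four, pat, hz1] at p1
      simp [Fin.sum_univ_four, pat, hz2] at p2
      simp [Fin.sum_univ_four, pat, hz3] at p3
      simp [Fin.sum_univ_four, pat, hz4] at p4
      intro k
      fin_cases k <;> assumption
  obtain ⟨u, v, hi⟩ := key
  obtain ⟨c, l, hl, hc⟩ := gen_aux h u v hi hξ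
  refine ⟨fun a b => ∑ k, if u k = a ∧ v k = b then c k else 0, l, hl, fun i => ?_⟩
  rw [hc i, sum_pairs u v c (fun a b => F a b i)]

/-- case (c), complete -/
theorem caseC {θ : F2 5} (hF : Fol θ) (h1 : ge θ 3 1 = 0)
    (h2 : Module.finrank ℂ (EE θ 2) = 1) (h3 : ge θ 3 2 = 2) (h4 : ge θ 4 2 = 1)
    (hw : ∀ σ ∈ EE θ 2, σ ≠ 0 → Module.finrank ℂ (WW σ) ≤ 1) :
    ∃ g g' : Fin 5 → Fin 5 → ℂ, Inv g g' ∧ ∃ (s : Bool) (σ : F1 5) (x : Fin 4 → Pn 5)
      (F : Fin 4 → Fin 4 → F1 5), XD (pb2 g θ) s σ x F := by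
  obtain ⟨g, g', hg, hcc⟩ := exists_CC hF h1 h2 h3 h4 hw
  obtain ⟨σ, q, A, m, b, hcd⟩ := hcc.exists_CD
  obtain ⟨s, x, F, hx⟩ := hcd.exists_XD
  exact ⟨g, g', hg, s, σ, x, F, hx⟩

end Pool.Agent.Helper18.LB
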