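import Pool.Agent.Helper18.LB.CSyz

/-! LB-12: case (c): the second syzygy.
Proofs.  `two_of_T` (the condition `hN`): `ξ_i ∧ σ = t y_i θ`.  `y_j ξ_i - y_i ξ_j` has wedge zero with `σ`, so it is `s_ij σ` (`sig_of_w`), `s_ij` quadrics, skew,
`y_k s_ij + cyc = 0` (as `σ ≠ 0`), so `s_ij = y_j p_i - y_i p_j` with linear forms `p_i` (Koszul, `Reg3`-type argument; three independent linear
forms): `y_j (ξ_i - p_i σ) = y_i (ξ_j - p_j σ)`, so `ξ_i - p_i σ = y_i η` with one `η`, `η ∈ EE θ 2`, `η ∧ σ = t θ ≠ 0`: `η, σ` independent.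
`CD.relH`: let `L_d ∈ KQ q` be the lifts of `kap m β d` (`CD.lift`), `κ_d = at0 L_d`.  `Σ_(d<3) X_(d+1) κ_d` restricts to `Σ X_d kap_d = 0` on `P`, so it is `X_0 κ'`, `κ' ∈ KQ (at0 q)`;
its restriction to `P` is a combination of the `kap_d` (`CD.kP`), so `κ' = Σ c_d κ_d` (`kq_inj`).
`CD.c3`: if `c_3 = 0`: `y_d = X_(d+1) - c_d X_0` (`d < 3`) are independent and `Σ y_d κ_d = 0`: for every component `i` `skew_const`: `κ_(d,i) = Σ g_(i,d,d') y_d'`;
`G_dd' = Σ_i g_(i,d,d') q_i` (on `H`), `Σ_d' y_d' G_dd' = Σ_i κ_(d,i) q_i = 0`; `kos3_2`: `G_01 = y_2 t`, `G_12 = y_0 t`, `G_20 = y_1 t`; `t = 0` implies `G = 0`, `g = 0` (`CD.indH`),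
`κ = 0`, but `kap 0 ≠ 0`; `t ≠ 0`: `two_of_T` on `H` for `ξ = Σ_i g_i A_i|H` gives `e_2(H) ≥ 2`, contradiction to `e2H`.
`CD.rel4`: on `H`: `Σ_(d<4) y_d κ_d = 0`, `y_d` as above, `y_3 = - c_3 X_0`, independent; on `V`: `Σ emb(y_d) L_d = X_0 L'`, `L' ∈ KQ q`, `L' = Σ c'_d L_d` (both sides agree on `P`,
`kq_inj` twice); `x_d = emb y_d - c'_d X_0`.  `L` is independent because the `kap_d` are. -/

set_option autoImplicit false

namespace Pool.Agent.Helper18.LB

open MvPolynomial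
open scoped BigOperators
open Pool.Agent.Helper71.FC
open Pool.Agent.Helper71.FL (w12 pf ct Dec Closed dd res at0 emb)

private theorem cr_C {n : ℕ} (c : ℂ) : at0 n ℂ (C c) = C c := by
  unfold at0
  rw [aeval_C]
  rfl

private theorem cr_X0 {n : ℕ} : at0 n ℂ (X 0) = 0 := by
  unfold at0
  rw [aeval_X, Fin.cons_zero]

private theorem cr_Xs {n : ℕ} (i : Fin n) : at0 n ℂ (X i.succ) = X i := by
  unfold at0
  rw [aeval_X, Fin.cons_succ]

private theorem cr_emb {n : ℕ} (f : Pn n) : at0 n ℂ (emb n ℂ f) = f := by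
  have h : (at0 n ℂ).comp (emb n ℂ) = AlgHom.id ℂ (Pn n) := by
    apply MvPolynomial.algHom_ext
    intro i
    rw [AlgHom.comp_apply, AlgHom.id_apply]
    unfold emb
    rw [rename_X, cr_Xs]
  exact congrArg (fun g : Pn n →ₐ[ℂ] Pn n => g f) h

private theorem cr_emb_hom {n : ℕ} {f : Pn n} {d : ℕ} (h : f.IsHomogeneous d) :
    (emb n ℂ f).IsHomogeneous d := h.rename_isHomogeneous

private theorem cr_hom {n : ℕ} {f : Pn (n + 1)} {d : ℕ} (h : f.IsHomogeneous d) :
    (at0 n ℂ f).IsHomogeneous d := by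
  rw [at0_eq_lsub]
  exact lsub_hom h

private theorem cr_Cmul {n : ℕ} (c : ℂ) {f : Pn n} {d : ℕ} (h : f.IsHomogeneous d) :
    (C c * f).IsHomogeneous d := by
  have := (isHomogeneous_C (Fin n) c).mul h
  rwa [zero_add] at this

/-! ### independent linear forms are a regular sequence -/

private noncomputable def lfL (n : ℕ) : (Fin n → ℂ) →ₗ[ℂ] Pn n where
  toFun a := lf a
  map_add' := by
    intro a b
    unfold lf
    rw [← Finset.sum_add_distrib]
    refine Finset.sum_congr rfl fun i _ => ?_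
    rw [Pi.add_apply, C_add, add_mul]
  map_smul' := by
    intro c a
    unfold lf
    rw [RingHom.id_apply, Finset.smul_sum]
    refine Finset.sum_congr rfl fun i _ => ?_
    rw [Pi.smul_apply, smul_eq_mul, C_mul, smul_eq_C_mul, mul_assoc]

private theorem reg3_iso {S T : Type} [CommRing S] [CommRing T] (φ : S →+* T) (ψ : T →+* S)
    (h1 : ∀ a, ψ (φ a) = a) {g0 g1 g2 : S}
    (h : Pool.Agent.Helper28.FolReg.Reg3 (φ g0) (φ g1) (φ g2)) :
    Pool.Agent.Helper28.FolReg.Reg3 g0 g1 g2 := by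
  refine ⟨fun a ha => ?_, ?_, ?_⟩
  · have := h.1 (φ a) (by rw [← map_mul, ha, map_zero])
    rw [← h1 a, this, map_zero]
  · rintro a ⟨u, hu⟩
    obtain ⟨v, hv⟩ := h.2.1 (φ a) ⟨φ u, by rw [← map_mul, hu, map_mul]⟩
    exact ⟨ψ v, by rw [← h1 a, hv, map_mul, h1]⟩
  · rintro a ⟨u, v, hu⟩
    obtain ⟨w, z, hv⟩ := h.2.2 (φ a) ⟨φ u, φ v, by rw [← map_mul, hu, map_add, map_mul, map_mul]⟩
    exact ⟨ψ w, ψ z, by rw [← h1 a, hv, map_add, map_mul, map_mul, h1, h1]⟩

private theorem reg3_lin {n : ℕ} {x : Fin 3 → Pn n} (hx : ∀ d, (x d).IsHomogeneous 1)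
    (hxi : LinearIndependent ℂ x) : Pool.Agent.Helper28.FolReg.Reg3 (x 0) (x 1) (x 2) := by
  have h1 : ∀ d, ∃ a : Fin n → ℂ, x d = lf a := fun d => lf_of_hom (hx d)
  choose a ha using h1
  have hai : LinearIndependent ℂ a := by
    apply LinearIndependent.of_comp (lfL n)
    have : (lfL n : (Fin n → ℂ) → Pn n) ∘ a = x := by
      funext d
      exact (ha d).symm
    rw [this]
    exact hxi
  have hn : 3 ≤ n := by
    have := hai.fintype_card_le_finrank
    simpa using this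
  obtain ⟨g, g', hg, hgx⟩ := exists_coord hn a hai
  have h2 : ∀ f : Pn n, Pool.Agent.Helper93.lsub g' (Pool.Agent.Helper93.lsub g f) = f := by
    intro f
    rw [lsub_mm, hg.1, lsub_idm]
  have h3 : Pool.Agent.Helper28.FolReg.Reg3 (X (Fin.castLE hn 0) : Pn n) (X (Fin.castLE hn 1))
      (X (Fin.castLE hn 2)) := by
    apply Pool.Agent.Helper28.FolReg.reg3_of_regSeq
    have h4 := Pool.Agent.Helper28.FolReg.RegSeq_X (k := ℂ)
      [Fin.castLE hn 0, Fin.castLE hn 1, Fin.castLE hn 2] (∅ : Set (Fin n)) (by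
        simp [Fin.ext_iff]) (by simp)
    simpa using h4
  apply reg3_iso (Pool.Agent.Helper93.lsub g : Pn n →+* Pn n)
    (Pool.Agent.Helper93.lsub g' : Pn n →+* Pn n) h2
  have e : ∀ d : Fin 3, (Pool.Agent.Helper93.lsub g : Pn n →+* Pn n) (x d) = X (Fin.castLE hn d) := by
    intro d
    rw [ha d]
    exact hgx d
  rw [e, e, e]
  exact h3

theorem two_of_T {n : ℕ} {θ : F2 n} (hF : Fol θ) (h1 : EE θ 1 = ⊥) {σ : F1 n}
    (hσ : σ ∈ EE θ 2) (hσ0 : σ ≠ 0) {ξ : Fin 3 → F1 n} (hξ : ∀ i, ξ i ∈ EE θ 3)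
    {t : Pn n} {y : Fin 3 → Pn n} (ht : t.IsHomogeneous 1) (ht0 : t ≠ 0)
    (hy : ∀ i, (y i).IsHomogeneous 1) (hyi : LinearIndependent ℂ y)
    (h : ∀ i j k, w11 (ξ i) σ j k = t * y i * θ j k) : 2 ≤ Module.finrank ℂ (EE θ 2) := by
  have hθ0 : ∃ i j, θ i j ≠ 0 := by
    by_contra hc
    push Not at hc
    exact not_isUnit_zero (hF.prim 0 (fun i j => by rw [hc i j]))
  obtain ⟨l, hl⟩ : ∃ l, σ l ≠ 0 := by
    by_contra hc
    push Not at hc
    exact hσ0 (funext hc)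
  have hs : ∀ i j, ∃ s : Pn n, s.IsHomogeneous 2 ∧ ∀ k, y j * ξ i k - y i * ξ j k = s * σ k := by
    intro i j
    refine sig_of_w h1 hσ hσ0 (k := 2) (ξ := fun k => y j * ξ i k - y i * ξ j k) (fun k => ?_)
      (fun a b => ?_)
    · exact ((hy j).mul ((hξ i).1 k)).sub ((hy i).mul ((hξ j).1 k))
    · have h2 := h i a b
      have h3 := h j a b
      unfold w11 at h2 h3 ⊢
      linear_combination y j * h2 - y i * h3
  choose s hsh hs using hs
  have hR := reg3_lin hy hyi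
  have hcyc : y 0 * s 1 2 + y 1 * s 2 0 + y 2 * s 0 1 = 0 := by
    have h2 : (y 0 * s 1 2 + y 1 * s 2 0 + y 2 * s 0 1) * σ l = 0 := by
      have e0 := hs 1 2 l
      have e1 := hs 2 0 l
      have e2 := hs 0 1 l
      linear_combination (- y 0) * e0 - y 1 * e1 - y 2 * e2
    exact (mul_eq_zero.1 h2).resolve_right hl
  obtain ⟨c01, c02, c12, e0, e1, e2⟩ := hR.syz hcyc
  have hη : ∀ k, ∃ c, ξ 0 k + c12 * σ k = y 0 * c ∧ ξ 1 k - c02 * σ k = y 1 * c := by
    intro k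
    refine (Pool.Agent.Helper28.FolReg.reg2_of_reg3 hR).dvd_mul ?_
    have h2 := hs 0 1 k
    rw [e2] at h2
    linear_combination h2
  choose η hη0 hη1 using hη
  have hy0 : y 0 ≠ 0 := hyi.ne_zero 0
  have hw12 : ∀ i j k, w12 η θ i j k = 0 := by
    intro i j k
    have h2 : y 0 * w12 η θ i j k = 0 := by
      have a1 := (hξ 0).2 i j k
      have a2 := hσ.2 i j k
      unfold w12 at a1 a2 ⊢
      linear_combination a1 + c12 * a2 - θ j k * hη0 i - θ k i * hη0 j - θ i j * hη0 k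
    exact (mul_eq_zero.1 h2).resolve_left hy0
  have hw11 : ∀ a b, w11 η σ a b = t * θ a b := by
    intro a b
    have h2 : y 0 * (w11 η σ a b - t * θ a b) = 0 := by
      have a1 := h 0 a b
      unfold w11 at a1 ⊢
      linear_combination a1 - σ b * hη0 a + σ a * hη0 b
    exact sub_eq_zero.1 ((mul_eq_zero.1 h2).resolve_left hy0)
  -- the component of degree two
  let η2 : F1 n := fun k => homogeneousComponent 2 (η k)
  have cm : ∀ {f g : Pn n} {d : ℕ}, f.IsHomogeneous d → ∀ e,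
      homogeneousComponent (d + e) (g * f) = homogeneousComponent e g * f := by
    intro f g d hf e
    rw [mul_comm g f, Pool.Agent.Helper93.homComp_mul hf, mul_comm]
  have hη2 : η2 ∈ EE θ 2 := by
    refine ⟨fun i => homogeneousComponent_isHomogeneous 2 _, fun i j k => ?_⟩
    have h2 := congrArg (homogeneousComponent (3 + 2)) (hw12 i j k)
    unfold w12 at h2 ⊢
    rw [map_add, map_add, cm (hF.hom _ _), cm (hF.hom _ _), cm (hF.hom _ _), map_zero] at h2
    exact h2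
  have hη2w : ∀ a b, w11 η2 σ a b = t * θ a b := by
    intro a b
    have h2 := congrArg (homogeneousComponent (2 + 2)) (hw11 a b)
    unfold w11 at h2 ⊢
    rw [map_sub, cm (hσ.1 _), cm (hσ.1 _)] at h2
    have h3 : homogeneousComponent (2 + 2) (t * θ a b) = t * θ a b := by
      have h4 : (t * θ a b).IsHomogeneous (2 + 2) := ht.mul (hF.hom a b)
      rw [homogeneousComponent_of_mem h4, if_pos rfl]
    rw [h3] at h2
    exact h2
  obtain ⟨a, b, hab⟩ := hθ0
  have hlin : LinearIndependent ℂ ![(⟨η2, hη2⟩ : EE θ 2), ⟨σ, hσ⟩] := by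
    rw [LinearIndependent.pair_iff]
    intro c d hcd
    have h2 : c • η2 + d • σ = 0 := congrArg Subtype.val hcd
    have h3 : ∀ k, C c * η2 k + C d * σ k = 0 := by
      intro k
      have := congrFun h2 k
      rwa [Pi.add_apply, Pi.smul_apply, Pi.smul_apply, smul_eq_C_mul, smul_eq_C_mul] at this
    have h4 : C c * (t * θ a b) = 0 := by
      rw [← hη2w a b]
      unfold w11
      linear_combination σ b * h3 a - σ a * h3 b
    have hc : c = 0 := by
      rcases mul_eq_zero.1 h4 with h5 | h5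
      · exact (map_eq_zero_iff C (C_injective _ _)).1 h5
      · exact absurd h5 (mul_ne_zero ht0 hab)
    refine ⟨hc, ?_⟩
    have h5 := h3 l
    rw [hc, C_0, zero_mul, zero_add] at h5
    rcases mul_eq_zero.1 h5 with h6 | h6
    · exact (map_eq_zero_iff C (C_injective _ _)).1 h6
    · exact absurd h6 hl
  have := finite_EE θ 2
  have h6 := hlin.fintype_card_le_finrank
  simpa using h6

/-! ### syzygies divisible by `X 0` -/

private theorem kq_div {n : ℕ} {q : Fin 4 → Pn (n + 1)} {S : Fin 4 → Pn (n + 1)}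
    (hS : ∀ i, (S i).IsHomogeneous 2) (h0 : ∀ i, at0 n ℂ (S i) = 0)
    (hq : ∑ i, S i * q i = 0) : ∃ κ ∈ KQ q, ∀ i, S i = X 0 * κ i := by
  have h1 : ∀ i, ∃ g, S i = X 0 * g := fun i => (at0_eq_zero_iff (S i)).1 (h0 i)
  choose κ hκ using h1
  refine ⟨κ, ⟨fun i => ?_, ?_⟩, hκ⟩
  · have h2 := hS i
    rw [hκ i] at h2
    exact hom_right (d := 1) (e := 1) h2 (isHomogeneous_X _ _) (X_ne_zero 0)
  · have h2 : (X 0 : Pn (n + 1)) * ∑ i, κ i * q i = 0 := by
      rw [← hq, Finset.mul_sum]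
      refine Finset.sum_congr rfl fun i _ => ?_
      rw [hκ i]
      ring
    exact (mul_eq_zero.1 h2).resolve_left (X_ne_zero 0)

private theorem kq_comb {n : ℕ} {q : Fin 4 → Pn (n + 1)}
    (hi : LinearIndependent ℂ (fun i => at0 n ℂ (q i))) {κ : Fin 4 → Pn (n + 1)}
    (hκ : κ ∈ KQ q) {K : Fin 4 → Fin 4 → Pn (n + 1)} (hK : ∀ d, K d ∈ KQ q) (c : Fin 4 → ℂ)
    (h0 : ∀ i, at0 n ℂ (κ i) = ∑ d, C (c d) * at0 n ℂ (K d i)) (i : Fin 4) :
    κ i = ∑ d, C (c d) * K d i := by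
  have e : ∀ i, (κ - ∑ d, c d • K d) i = κ i - ∑ d, C (c d) * K d i := by
    intro i
    rw [Pi.sub_apply, Finset.sum_apply]
    congr 1
    refine Finset.sum_congr rfl fun d _ => ?_
    rw [Pi.smul_apply, smul_eq_C_mul]
  have h1 : (κ - ∑ d, c d • K d) ∈ KQ q :=
    (KQ q).sub_mem hκ ((KQ q).sum_mem fun d _ => (KQ q).smul_mem _ (hK d))
  have h2 := kq_inj hi h1 (fun i => by
    rw [e, map_sub, h0 i, map_sum, sub_eq_zero]
    refine Finset.sum_congr rfl fun d _ => ?_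
    rw [map_mul, cr_C])
  have h3 := congrFun h2 i
  rw [e] at h3
  exact sub_eq_zero.1 h3

variable {θ : F2 5} {σ : F1 5} {q : Fin 4 → Pn 5} {A : Fin 4 → F1 5} {m b : Pn 3}

private theorem kap_rel (m : Pn 3) (β : Fin 3 → Pn 3) (i : Fin 4) :
    X 0 * kap m β 0 i + X 1 * kap m β 1 i + X 2 * kap m β 2 i = 0 := by
  fin_cases i
  · show X 0 * (0 : Pn 3) + X 1 * (- X 2) + X 2 * X 1 = 0
    ring
  · show X 0 * (X 2 : Pn 3) + X 1 * 0 + X 2 * (- X 0) = 0
    ring
  · show X 0 * (- X 1 : Pn 3) + X 1 * X 0 + X 2 * 0 = 0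
    ring
  · show X 0 * (0 : Pn 3) + X 1 * 0 + X 2 * 0 = 0
    ring

theorem CD.relH (h : CD θ σ q A m b) : ∃ (L : Fin 4 → Fin 4 → Pn 5) (β : Fin 3 → Pn 3)
    (c : Fin 4 → ℂ), (∀ d, L d ∈ KQ q) ∧ (∀ d i, r2 (L d i) = kap m β d i) ∧
      (∀ i, (β i).IsHomogeneous 1) ∧ ∑ i, X i * β i = b ∧
      ∀ i, (∑ d : Fin 3, (X d.succ - C (c d.castSucc) * X 0) * at0 4 ℂ (L d.castSucc i)) -
        C (c 3) * X 0 * at0 4 ℂ (L 3 i) = 0 := by
  obtain ⟨β, hβ, hb⟩ := h.beta
  have hex : ∀ d, ∃ L ∈ KQ q, ∀ i, r2 (L i) = kap m β d i :=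
    fun d => h.lift (h.kap_mem hβ hb d)
  choose L hL hr using hex
  have hLH : ∀ d, (fun i => at0 4 ℂ (L d i)) ∈ KQ (fun i => at0 4 ℂ (q i)) :=
    fun d => kq_res (hL d)
  have hS : ∀ i, (X 1 * at0 4 ℂ (L 0 i) + X 2 * at0 4 ℂ (L 1 i) +
      X 3 * at0 4 ℂ (L 2 i) : Pn 4).IsHomogeneous 2 := fun i =>
    (((isHomogeneous_X _ _).mul ((hLH 0).1 i)).add ((isHomogeneous_X _ _).mul ((hLH 1).1 i))).add
      ((isHomogeneous_X _ _).mul ((hLH 2).1 i))
  obtain ⟨κ, hκ, hκS⟩ := kq_div (q := fun i => at0 4 ℂ (q i)) hS (fun i => by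
    rw [map_add, map_add, map_mul, map_mul, map_mul]
    have e1 : at0 3 ℂ (X 1) = X 0 := cr_Xs 0
    have e2 : at0 3 ℂ (X 2) = X 1 := cr_Xs 1
    have e3 : at0 3 ℂ (X 3) = X 2 := cr_Xs 2
    rw [e1, e2, e3]
    have f0 : at0 3 ℂ (at0 4 ℂ (L 0 i)) = kap m β 0 i := hr 0 i
    have f1 : at0 3 ℂ (at0 4 ℂ (L 1 i)) = kap m β 1 i := hr 1 i
    have f2 : at0 3 ℂ (at0 4 ℂ (L 2 i)) = kap m β 2 i := hr 2 i
    rw [f0, f1, f2]
    exact kap_rel m β i) (by
    have g0 := (hLH 0).2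
    have g1 := (hLH 1).2
    have g2 := (hLH 2).2
    simp only [Fin.sum_univ_four] at g0 g1 g2 ⊢
    linear_combination X 1 * g0 + X 2 * g1 + X 3 * g2)
  have hκP : (fun i => at0 3 ℂ (κ i)) ∈ KQ (fun i => r2 (q i)) := kq_res hκ
  obtain ⟨c, hc⟩ := h.kP hβ hb hκP
  have hκ2 : ∀ i, κ i = ∑ d, C (c d) * at0 4 ℂ (L d i) :=
    kq_comb (q := fun i => at0 4 ℂ (q i)) h.indP hκ hLH c (fun i => by
      rw [hc i]
      refine Finset.sum_congr rfl fun d _ => ?_
      rw [← hr d i]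
      rfl)
  refine ⟨L, β, c, hL, hr, hβ, hb, fun i => ?_⟩
  have h1 := hκS i
  have h2 := hκ2 i
  rw [Fin.sum_univ_four] at h2
  rw [h2] at h1
  rw [Fin.sum_univ_three]
  show (X 1 - C (c 0) * X 0) * at0 4 ℂ (L 0 i) + (X 2 - C (c 1) * X 0) * at0 4 ℂ (L 1 i) +
    (X 3 - C (c 2) * X 0) * at0 4 ℂ (L 2 i) - C (c 3) * X 0 * at0 4 ℂ (L 3 i) = 0
  linear_combination h1

/-- the linear forms `X (d+1) - c_d X 0` -/
private noncomputable def yy (c : Fin 4 → ℂ) (d : Fin 3) : Pn 4 :=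
  X d.succ - C (c d.castSucc) * X 0

private theorem yy_hom (c : Fin 4 → ℂ) (d : Fin 3) : (yy c d).IsHomogeneous 1 :=
  (isHomogeneous_X _ _).sub (cr_Cmul _ (isHomogeneous_X _ _))

private theorem at0_yy (c : Fin 4 → ℂ) (d : Fin 3) : at0 3 ℂ (yy c d) = X d := by
  unfold yy
  rw [map_sub, map_mul, cr_X0, mul_zero, sub_zero, cr_Xs]

private theorem X_ind (n : ℕ) : LinearIndependent ℂ (fun i : Fin n => (X i : Pn n)) := by
  classical
  rw [Fintype.linearIndependent_iff]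
  intro g hg i
  have h1 := congrArg (coeff (Finsupp.single i 1)) hg
  rw [coeff_sum, coeff_zero, Finset.sum_eq_single i] at h1
  · rw [coeff_smul, coeff_X, if_pos rfl, smul_eq_mul, mul_one] at h1
    exact h1
  · intro j _ hj
    rw [coeff_smul, coeff_X, if_neg, smul_zero]
    intro h2
    exact hj (Finsupp.single_left_injective one_ne_zero h2)
  · intro h2; exact absurd (Finset.mem_univ _) h2

private theorem yy_ind (c : Fin 4 → ℂ) : LinearIndependent ℂ (yy c) := by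
  apply LinearIndependent.of_comp (at0 3 ℂ).toLinearMap
  have : ((at0 3 ℂ).toLinearMap : Pn 4 → Pn 3) ∘ yy c = fun i : Fin 3 => (X i : Pn 3) := by
    funext d
    exact at0_yy c d
  rw [this]
  exact X_ind 3

theorem CD.c3 (h : CD θ σ q A m b) {L : Fin 4 → Fin 4 → Pn 5} {β : Fin 3 → Pn 3}
    {c : Fin 4 → ℂ} (hL : ∀ d, L d ∈ KQ q) (hr : ∀ d i, r2 (L d i) = kap m β d i)
    (hc : ∀ i, (∑ d : Fin 3, (X d.succ - C (c d.castSucc) * X 0) * at0 4 ℂ (L d.castSucc i)) -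
        C (c 3) * X 0 * at0 4 ℂ (L 3 i) = 0) : c 3 ≠ 0 := by
  intro hc3
  have hLH : ∀ d, (fun i => at0 4 ℂ (L d i)) ∈ KQ (fun i => at0 4 ℂ (q i)) :=
    fun d => kq_res (hL d)
  have hrel : ∀ i, ∑ d : Fin 3, yy c d * at0 4 ℂ (L d.castSucc i) = 0 := by
    intro i
    have h1 := hc i
    rw [hc3, C_0, zero_mul, zero_mul, sub_zero] at h1
    exact h1
  have hex : ∀ i, ∃ g : Fin 3 → Fin 3 → ℂ, (∀ d d', g d d' = - g d' d) ∧
      ∀ d : Fin 3, at0 4 ℂ (L d.castSucc i) = ∑ d', C (g d d') * yy c d' := fun i =>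
    skew_const (yy_hom c) (yy_ind c) (κ := fun d : Fin 3 => at0 4 ℂ (L d.castSucc i))
      (fun d => (hLH d.castSucc).1 i) (hrel i)
  choose g hgs hg using hex
  let G : Fin 3 → Fin 3 → Pn 4 := fun d d' => ∑ i, C (g i d d') * at0 4 ℂ (q i)
  have hqH : ∀ i, (at0 4 ℂ (q i)).IsHomogeneous 2 := fun i => cr_hom (h.hq i)
  have hGh : ∀ d d', (G d d').IsHomogeneous 2 := fun d d' =>
    IsHomogeneous.sum _ _ _ fun i _ => cr_Cmul _ (hqH i)
  have hGs : ∀ d d', G d d' = - G d' d := by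
    intro d d'
    show ∑ i, C (g i d d') * at0 4 ℂ (q i) = - ∑ i, C (g i d' d) * at0 4 ℂ (q i)
    rw [← Finset.sum_neg_distrib]
    refine Finset.sum_congr rfl fun i _ => ?_
    rw [hgs i d d', C_neg]
    ring
  have hGr : ∀ d, ∑ d', yy c d' * G d d' = 0 := by
    intro d
    have h1 := (hLH d.castSucc).2
    have h2 : ∑ d', yy c d' * G d d' =
        ∑ i, at0 4 ℂ (L d.castSucc i) * at0 4 ℂ (q i) := by
      show ∑ d', yy c d' * (∑ i, C (g i d d') * at0 4 ℂ (q i)) = _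
      simp only [Finset.mul_sum]
      rw [Finset.sum_comm]
      refine Finset.sum_congr rfl fun i _ => ?_
      rw [hg i d, Finset.sum_mul]
      refine Finset.sum_congr rfl fun d' _ => ?_
      ring
    rw [h2]
    exact h1
  obtain ⟨t, hth, t01, t12, t20⟩ := kos3_2 (yy_hom c) (yy_ind c) hGh hGs hGr
  by_cases ht0 : t = 0
  · -- then all `g` vanish
    subst ht0
    rw [mul_zero] at t01 t12 t20
    have hG0 : ∀ d d', G d d' = 0 := by
      have hd : ∀ d, G d d = 0 := by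
        intro d
        have h1 := hGs d d
        have h2 : (2 : Pn 4) * G d d = 0 := by linear_combination h1
        have h3 : (2 : Pn 4) ≠ 0 := two_ne_zero
        exact (mul_eq_zero.1 h2).resolve_left h3
      intro d d'
      fin_cases d <;> fin_cases d'
      · exact hd 0
      · exact t01
      · exact (hGs 0 2).trans (by rw [t20, neg_zero])
      · exact (hGs 1 0).trans (by rw [t01, neg_zero])
      · exact hd 1
      · exact t12
      · exact t20
      · exact (hGs 2 1).trans (by rw [t12, neg_zero])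
      · exact hd 2
    have hg0 : ∀ i d d', g i d d' = 0 := by
      intro i d d'
      have h1 := h.indH
      rw [Fintype.linearIndependent_iff] at h1
      refine h1 (fun i => g i d d') ?_ i
      have h2 := hG0 d d'
      have h3 : G d d' = ∑ i, g i d d' • at0 4 ℂ (q i) := by
        show ∑ i, C (g i d d') * at0 4 ℂ (q i) = _
        refine Finset.sum_congr rfl fun i _ => ?_
        rw [smul_eq_C_mul]
      rw [h3] at h2
      exact h2
    have h1 : at0 4 ℂ (L 0 1) = 0 := by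
      have h2 := hg 1 0
      have h3 : at0 4 ℂ (L 0 1) = ∑ d', C (g 1 0 d') * yy c d' := h2
      rw [h3]
      refine Finset.sum_eq_zero fun d' _ => ?_
      rw [hg0, C_0, zero_mul]
    have h4 : r2 (L 0 1) = X 2 := hr 0 1
    unfold r2 at h4
    rw [h1, map_zero] at h4
    exact X_ne_zero 2 h4.symm
  · -- a second element of degree two on `H`
    have hne : ∃ i j, rs2 θ i j ≠ 0 := by
      by_contra hcon
      push Not at hcon
      exact not_isUnit_zero (h.cc.folH.prim 0 (fun i j => by rw [hcon i j]))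
    have hσH : res σ ∈ EE (rs2 θ) 2 := res_mem_EE h.hσ
    have hσH0 : res σ ≠ 0 := by
      intro h0
      obtain ⟨η, hη, hση⟩ := EE_ker (k := 1) hne h.hσ (fun i => congrFun h0 i)
      rw [h.cc.e1, Submodule.mem_bot] at hη
      apply h.hσ0
      funext i
      rw [hση i, hη, Pi.zero_apply, mul_zero]
    have hwH : ∀ i j k, w11 (res (A i)) (res σ) j k = at0 4 ℂ (q i) * rs2 θ j k := by
      intro i j k
      have h1 := congrArg (at0 4 ℂ) (h.w i j.succ k.succ)
      unfold w11 at h1 ⊢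
      rw [map_sub, map_mul, map_mul, map_mul] at h1
      exact h1
    have hcomb : ∀ d d', (fun k => ∑ i, C (g i d d') * res (A i) k) ∈ EE (rs2 θ) 3 ∧
        ∀ j k, w11 (fun k => ∑ i, C (g i d d') * res (A i) k) (res σ) j k =
          G d d' * rs2 θ j k := by
      intro d d'
      constructor
      · have h1 : (∑ i, g i d d' • res (A i)) ∈ EE (rs2 θ) 3 :=
          (EE (rs2 θ) 3).sum_mem fun i _ => (EE (rs2 θ) 3).smul_mem _ (res_mem_EE (h.hA i))
        have h2 : (∑ i, g i d d' • res (A i)) = fun k => ∑ i, C (g i d d') * res (A i) k := by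
          funext k
          rw [Finset.sum_apply]
          refine Finset.sum_congr rfl fun i _ => ?_
          rw [Pi.smul_apply, smul_eq_C_mul]
        rw [h2] at h1
        exact h1
      · intro j k
        show (∑ i, C (g i d d') * res (A i) j) * res σ k -
          (∑ i, C (g i d d') * res (A i) k) * res σ j =
          (∑ i, C (g i d d') * at0 4 ℂ (q i)) * rs2 θ j k
        rw [Finset.sum_mul, Finset.sum_mul, Finset.sum_mul, ← Finset.sum_sub_distrib]
        refine Finset.sum_congr rfl fun i _ => ?_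
        have h1 := hwH i j k
        unfold w11 at h1
        linear_combination C (g i d d') * h1
    have h2 : 2 ≤ Module.finrank ℂ (EE (rs2 θ) 2) := by
      refine two_of_T h.cc.folH h.cc.e1H hσH hσH0 (t := t) (y := yy c)
        (ξ := ![fun k => ∑ i, C (g i 1 2) * res (A i) k, fun k => ∑ i, C (g i 2 0) * res (A i) k,
          fun k => ∑ i, C (g i 0 1) * res (A i) k]) ?_ hth ht0 (yy_hom c) (yy_ind c) ?_
      · intro i
        fin_cases i
        · exact (hcomb 1 2).1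
        · exact (hcomb 2 0).1
        · exact (hcomb 0 1).1
      · intro i j k
        fin_cases i
        · show w11 (fun k => ∑ i, C (g i 1 2) * res (A i) k) (res σ) j k = t * yy c 0 * rs2 θ j k
          rw [(hcomb 1 2).2 j k, t12]
          ring
        · show w11 (fun k => ∑ i, C (g i 2 0) * res (A i) k) (res σ) j k = t * yy c 1 * rs2 θ j k
          rw [(hcomb 2 0).2 j k, t20]
          ring
        · show w11 (fun k => ∑ i, C (g i 0 1) * res (A i) k) (res σ) j k = t * yy c 2 * rs2 θ j k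
          rw [(hcomb 0 1).2 j k, t01]
          ring
    have h3 := h.cc.e2H
    omega

/-- the four linear forms on `H` -/
private noncomputable def y4 (c : Fin 4 → ℂ) : Fin 4 → Pn 4 :=
  ![yy c 0, yy c 1, yy c 2, - (C (c 3) * X 0)]

private theorem y4_hom (c : Fin 4 → ℂ) (d : Fin 4) : (y4 c d).IsHomogeneous 1 := by
  fin_cases d
  · exact yy_hom c 0
  · exact yy_hom c 1
  · exact yy_hom c 2
  · exact (cr_Cmul _ (isHomogeneous_X _ _)).neg

private theorem y4_ind (c : Fin 4 → ℂ) (hc : c 3 ≠ 0) : LinearIndependent ℂ (y4 c) := by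
  rw [Fintype.linearIndependent_iff]
  intro g hg
  rw [Fin.sum_univ_four] at hg
  have hg' : g 0 • yy c 0 + g 1 • yy c 1 + g 2 • yy c 2 + g 3 • (- (C (c 3) * X 0)) = 0 := hg
  have h1 := congrArg (at0 3 ℂ) hg'
  rw [map_add, map_add, map_add, map_smul, map_smul, map_smul, map_smul, map_neg, map_mul, cr_X0,
    mul_zero, neg_zero, smul_zero, add_zero, at0_yy, at0_yy, at0_yy, map_zero] at h1
  have h2 := X_ind 3
  rw [Fintype.linearIndependent_iff] at h2
  have h3 := h2 (fun i => ![g 0, g 1, g 2] i) (by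
    rw [Fin.sum_univ_three]
    exact h1)
  have g0 : g 0 = 0 := h3 0
  have g1 : g 1 = 0 := h3 1
  have g2 : g 2 = 0 := h3 2
  rw [g0, g1, g2, zero_smul, zero_smul, zero_smul, zero_add, zero_add, zero_add, smul_neg,
    neg_eq_zero, smul_eq_C_mul] at hg'
  have g3 : g 3 = 0 := by
    rcases mul_eq_zero.1 hg' with h4 | h4
    · exact (map_eq_zero_iff C (C_injective _ _)).1 h4
    · rcases mul_eq_zero.1 h4 with h5 | h5
      · exact absurd ((map_eq_zero_iff C (C_injective _ _)).1 h5) hc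
      · exact absurd h5 (X_ne_zero 0)
  intro i
  fin_cases i
  · exact g0
  · exact g1
  · exact g2
  · exact g3

private noncomputable def r2L : (Fin 4 → Pn 5) →ₗ[ℂ] (Fin 4 → Pn 3) where
  toFun l := fun i => r2 (l i)
  map_add' := by
    intro a b
    funext i
    show at0 3 ℂ (at0 4 ℂ (a i + b i)) = at0 3 ℂ (at0 4 ℂ (a i)) + at0 3 ℂ (at0 4 ℂ (b i))
    rw [map_add, map_add]
  map_smul' := by
    intro c a
    funext i
    show at0 3 ℂ (at0 4 ℂ (c • a i)) = c • at0 3 ℂ (at0 4 ℂ (a i))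
    rw [map_smul, map_smul]

private theorem kap_ind {m : Pn 3} (hm : m ≠ 0) (β : Fin 3 → Pn 3) :
    LinearIndependent ℂ (kap m β) := by
  rw [Fintype.linearIndependent_iff]
  intro g hg
  rw [Fin.sum_univ_four] at hg
  have e3 : g 0 • (0 : Pn 3) + g 1 • (0 : Pn 3) + g 2 • (0 : Pn 3) + g 3 • (- m) = 0 :=
    congrFun hg 3
  have g3 : g 3 = 0 := by
    rw [smul_zero, smul_zero, smul_zero, zero_add, zero_add, zero_add, smul_neg, neg_eq_zero,
      smul_eq_C_mul] at e3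
    rcases mul_eq_zero.1 e3 with h4 | h4
    · exact (map_eq_zero_iff C (C_injective _ _)).1 h4
    · exact absurd h4 hm
  have e0 : g 0 • (0 : Pn 3) + g 1 • (- X 2 : Pn 3) + g 2 • (X 1 : Pn 3) + g 3 • β 0 = 0 :=
    congrFun hg 0
  have e1 : g 0 • (X 2 : Pn 3) + g 1 • (0 : Pn 3) + g 2 • (- X 0 : Pn 3) + g 3 • β 1 = 0 :=
    congrFun hg 1
  have h2 := X_ind 3
  rw [Fintype.linearIndependent_iff] at h2
  rw [g3, zero_smul, add_zero] at e0 e1
  have h3 := h2 (fun i => ![0, g 2, - g 1] i) (by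
    rw [Fin.sum_univ_three]
    show (0 : ℂ) • (X 0 : Pn 3) + g 2 • X 1 + (- g 1) • X 2 = 0
    rw [zero_smul, zero_add, neg_smul, ← smul_neg]
    rw [smul_zero, zero_add] at e0
    rw [add_comm]
    exact e0)
  have h4 := h2 (fun i => ![- g 2, 0, g 0] i) (by
    rw [Fin.sum_univ_three]
    show (- g 2) • (X 0 : Pn 3) + (0 : ℂ) • X 1 + g 0 • X 2 = 0
    rw [zero_smul, add_zero, neg_smul, ← smul_neg]
    rw [smul_zero, add_zero] at e1
    rw [add_comm]
    exact e1)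
  have g2 : g 2 = 0 := h3 1
  have g1 : g 1 = 0 := neg_eq_zero.1 (h3 2)
  have g0 : g 0 = 0 := h4 2
  intro i
  fin_cases i
  · exact g0
  · exact g1
  · exact g2
  · exact g3

theorem CD.rel4 (h : CD θ σ q A m b) : ∃ (x : Fin 4 → Pn 5) (L : Fin 4 → Fin 4 → Pn 5),
    (∀ d, (x d).IsHomogeneous 1) ∧ LinearIndependent ℂ x ∧ (∀ d, L d ∈ KQ q) ∧
      LinearIndependent ℂ L ∧ ∀ i, ∑ d, x d * L d i = 0 := by
  obtain ⟨L, β, c, hL, hr, hβ, hb, hc⟩ := h.relH
  have hc3 := h.c3 hL hr hc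
  have hLH : ∀ d, (fun i => at0 4 ℂ (L d i)) ∈ KQ (fun i => at0 4 ℂ (q i)) :=
    fun d => kq_res (hL d)
  have hrel : ∀ i, ∑ d, y4 c d * at0 4 ℂ (L d i) = 0 := by
    intro i
    have h1 := hc i
    rw [Fin.sum_univ_three] at h1
    have h2 : (X 1 - C (c 0) * X 0) * at0 4 ℂ (L 0 i) + (X 2 - C (c 1) * X 0) * at0 4 ℂ (L 1 i) +
      (X 3 - C (c 2) * X 0) * at0 4 ℂ (L 2 i) - C (c 3) * X 0 * at0 4 ℂ (L 3 i) = 0 := h1
    rw [Fin.sum_univ_four]
    show (X 1 - C (c 0) * X 0) * at0 4 ℂ (L 0 i) + (X 2 - C (c 1) * X 0) * at0 4 ℂ (L 1 i) +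
      (X 3 - C (c 2) * X 0) * at0 4 ℂ (L 2 i) + (- (C (c 3) * X 0)) * at0 4 ℂ (L 3 i) = 0
    linear_combination h2
  -- on `V`
  obtain ⟨κ, hκ, hκS⟩ := kq_div (q := q) (S := fun i => ∑ d, emb 4 ℂ (y4 c d) * L d i)
    (fun i => IsHomogeneous.sum _ _ _ fun d _ => (cr_emb_hom (y4_hom c d)).mul ((hL d).1 i))
    (fun i => by
      rw [map_sum, ← hrel i]
      refine Finset.sum_congr rfl fun d _ => ?_
      rw [map_mul, cr_emb]) (by
      have h1 : ∑ i, (∑ d, emb 4 ℂ (y4 c d) * L d i) * q i =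
          ∑ d, emb 4 ℂ (y4 c d) * ∑ i, L d i * q i := by
        simp only [Finset.mul_sum, Finset.sum_mul]
        rw [Finset.sum_comm]
        refine Finset.sum_congr rfl fun d _ => Finset.sum_congr rfl fun i _ => ?_
        ring
      rw [h1]
      refine Finset.sum_eq_zero fun d _ => ?_
      rw [(hL d).2, mul_zero])
  have hκH : (fun i => at0 4 ℂ (κ i)) ∈ KQ (fun i => at0 4 ℂ (q i)) := kq_res hκ
  have hκP : (fun i => r2 (κ i)) ∈ KQ (fun i => r2 (q i)) := kq_res hκH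
  obtain ⟨c', hc'⟩ := h.kP hβ hb hκP
  have h1 : ∀ i, at0 4 ℂ (κ i) = ∑ d, C (c' d) * at0 4 ℂ (L d i) :=
    kq_comb (q := fun i => at0 4 ℂ (q i)) h.indP hκH hLH c' (fun i => by
      have h2 := hc' i
      show r2 (κ i) = _
      rw [h2]
      refine Finset.sum_congr rfl fun d _ => ?_
      rw [← hr d i]
      rfl)
  have h2 : ∀ i, κ i = ∑ d, C (c' d) * L d i := kq_comb (q := q) h.indH hκ hL c' h1
  refine ⟨fun d => emb 4 ℂ (y4 c d) - C (c' d) * X 0, L, fun d => ?_, ?_, hL, ?_, fun i => ?_⟩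
  · exact (cr_emb_hom (y4_hom c d)).sub (cr_Cmul _ (isHomogeneous_X _ _))
  · apply LinearIndependent.of_comp (at0 4 ℂ).toLinearMap
    have h3 : ((at0 4 ℂ).toLinearMap : Pn 5 → Pn 4) ∘ (fun d => emb 4 ℂ (y4 c d) - C (c' d) * X 0) =
        y4 c := by
      funext d
      show at0 4 ℂ (emb 4 ℂ (y4 c d) - C (c' d) * X 0) = y4 c d
      rw [map_sub, map_mul, cr_X0, mul_zero, sub_zero, cr_emb]
    rw [h3]
    exact y4_ind c hc3
  · apply LinearIndependent.of_comp r2L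
    have h3 : (r2L : (Fin 4 → Pn 5) → (Fin 4 → Pn 3)) ∘ L = kap m β := by
      funext d i
      exact hr d i
    rw [h3]
    exact kap_ind h.hm0 β
  · have h3 := hκS i
    have h4 : ∑ d, emb 4 ℂ (y4 c d) * L d i = X 0 * κ i := h3
    have h5 : ∑ d, (emb 4 ℂ (y4 c d) - C (c' d) * X 0) * L d i =
        ∑ d, emb 4 ℂ (y4 c d) * L d i - X 0 * ∑ d, C (c' d) * L d i := by
      rw [Finset.mul_sum, ← Finset.sum_sub_distrib]
      refine Finset.sum_congr rfl fun d _ => ?_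
      ring
    rw [h5, h4, h2 i, sub_self]

end Pool.Agent.Helper18.LB
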