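import Pool.Agent.Helper71.FC.GL2
import Pool.Agent.Helper28.FolReg.Use

/-! LB-9: Koszul relations of independent linear forms in low degree.
Proofs.  Use `exists_coord` to assume that the linear forms are coordinates `X 0, X 1, ..` (apply `lsub g`, then `lsub g'`).
`skew_const`: compare the coefficients of `X_d X_d'` and `X_d X_l` (`l` not among the forms).  `kos4_1`, `kos4_2`, `kos3_2`: coordinates are regular
sequences (`NZD_X`, `RegSeq_X`, `reg4_of_regSeq` in `Helper28/FolReg`), `syz4`, `Reg3.syz2`; then take homogeneous components.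
`kos4_2`: from `(0,1,c)`, `c = 2, 3`: `x_0 q_1c + x_1 q_c0 + x_c q_01 = 0`; `q_01 ∈ (x_0, x_1)`: `q_01 = x_0 p_1 - x_1 p_0`; subtract: then
`q_01 = 0`, `x_0 q_1c = x_1 q_0c`, `q_0c = x_0 p_c`, `q_1c = x_1 p_c`; finally `(0,2,3)`: `x_0 q_23 + x_2 q_30 + x_3 q_02 = 0` gives
`q_23 = x_2 p_3 - x_3 p_2`. -/

set_option autoImplicit false

namespace Pool.Agent.Helper18.LB

open MvPolynomial
open scoped BigOperators
open Pool.Agent.Helper71.FC
open Pool.Agent.Helper28.FolReg (Reg2 Reg3)
open Pool.Agent.Helper93 (lsub lmap)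

variable {n r : ℕ}

private theorem hc_mul {x : Pn n} (hx : x.IsHomogeneous 1) (c : Pn n) (m : ℕ) :
    homogeneousComponent (m + 1) (x * c) = x * homogeneousComponent m c := by
  have hsum : x * c = ∑ i ∈ Finset.range (c.totalDegree + 1), x * homogeneousComponent i c := by
    rw [← Finset.mul_sum, sum_homogeneousComponent]
  have h1 : ∀ i, homogeneousComponent (m + 1) (x * homogeneousComponent i c) =
      if m = i then x * homogeneousComponent i c else 0 := by
    intro i
    rw [homogeneousComponent_of_mem (hx.mul (homogeneousComponent_isHomogeneous i c))]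
    by_cases h : m = i
    · rw [if_pos (by omega), if_pos h]
    · rw [if_neg (by omega), if_neg h]
  rw [hsum, map_sum, Finset.sum_congr rfl fun i _ => h1 i, Finset.sum_ite_eq]
  split_ifs with h2
  · rfl
  · rw [Finset.mem_range, not_lt] at h2
    rw [homogeneousComponent_eq_zero m c (by omega), mul_zero]

private theorem lf_add (a b : Fin n → ℂ) : lf (a + b) = lf a + lf b := by
  unfold lf
  rw [← Finset.sum_add_distrib]
  refine Finset.sum_congr rfl fun i _ => ?_
  rw [Pi.add_apply, C_add, add_mul]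

private theorem lf_smul (c : ℂ) (a : Fin n → ℂ) : lf (c • a) = c • lf a := by
  unfold lf
  rw [Finset.smul_sum]
  refine Finset.sum_congr rfl fun i _ => ?_
  rw [Pi.smul_apply, smul_eq_mul, C_mul, smul_eq_C_mul, mul_assoc]

private theorem eval_lf (a v : Fin n → ℂ) : eval v (lf a) = ∑ i, a i * v i := by
  unfold lf
  rw [map_sum]
  exact Finset.sum_congr rfl fun i _ => by rw [map_mul, eval_C, eval_X]

private theorem eval_hom_add {l : Pn n} (h : l.IsHomogeneous 1) (v w : Fin n → ℂ) :
    eval (v + w) l = eval v l + eval w l := by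
  obtain ⟨a, rfl⟩ := lf_of_hom h
  simp only [eval_lf, Pi.add_apply, mul_add, Finset.sum_add_distrib]

/-- coordinates adapted to independent linear forms -/
private theorem coord {x : Fin r → Pn n} (hx : ∀ d, (x d).IsHomogeneous 1)
    (hxi : LinearIndependent ℂ x) : ∃ (e : Fin r → Fin n) (g g' : Fin n → Fin n → ℂ),
      Function.Injective e ∧ Inv g g' ∧ ∀ i, lsub g (x i) = X (e i) := by
  choose a ha using fun d => lf_of_hom (hx d)
  have hai : LinearIndependent ℂ a := by
    let L : (Fin n → ℂ) →ₗ[ℂ] Pn n :=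
      { toFun := lf, map_add' := lf_add, map_smul' := lf_smul }
    have h1 : x = L ∘ a := funext ha
    rw [h1] at hxi
    exact LinearIndependent.of_comp L hxi
  have hr : r ≤ n := by
    have := hai.fintype_card_le_finrank
    rwa [Fintype.card_fin, Module.finrank_fin_fun] at this
  obtain ⟨g, g', hg, h⟩ := exists_coord hr a hai
  exact ⟨Fin.castLE hr, g, g', Fin.castLE_injective hr, hg, fun i => by rw [ha, h]⟩

private theorem lsub_inv' {g g' : Fin n → Fin n → ℂ} (hg : Inv g g') (p : Pn n) :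
    lsub g' (lsub g p) = p := by
  rw [lsub_mm, hg.1, lsub_idm]

/-- independent linear forms: regular sequences -/
private theorem reg4 {x : Fin 4 → Pn n} (hx : ∀ d, (x d).IsHomogeneous 1)
    (hxi : LinearIndependent ℂ x) : Pool.Agent.Helper71.FL.Reg4 (x 0) (x 1) (x 2) (x 3) := by
  obtain ⟨e, g, g', he, hg, h⟩ := coord hx hxi
  have h1 := Pool.Agent.Helper28.FolReg.RegSeq_X (k := ℂ) [e 0, e 1, e 2, e 3] ∅
    (by simp [he.eq_iff]) (by simp)
  rw [Set.image_empty, Ideal.span_empty] at h1
  obtain ⟨r0, r1, r2, r3⟩ := Pool.Agent.Helper28.FolReg.reg4_of_regSeq h1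
  refine ⟨fun a ha => ?_, fun a ha => ?_, fun a ha => ?_, fun a ha => ?_⟩
  · have := congrArg (lsub g) ha
    rw [map_mul, h, map_zero] at this
    rw [← lsub_inv' hg a, r0 _ this, map_zero]
  · obtain ⟨u, hu⟩ := ha
    have := congrArg (lsub g) hu
    rw [map_mul, map_mul, h, h] at this
    obtain ⟨w, hw⟩ := r1 _ ⟨_, this⟩
    refine ⟨lsub g' w, ?_⟩
    rw [← lsub_inv' hg a, hw, map_mul, ← h 0, lsub_inv' hg]
  · obtain ⟨u, v, hu⟩ := ha
    have := congrArg (lsub g) hu
    simp only [map_mul, map_add, h] at this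
    obtain ⟨w, w', hw⟩ := r2 _ ⟨_, _, this⟩
    refine ⟨lsub g' w, lsub g' w', ?_⟩
    rw [← lsub_inv' hg a, hw, map_add, map_mul, map_mul, ← h 0, ← h 1, lsub_inv' hg,
      lsub_inv' hg]
  · obtain ⟨u, v, z, hu⟩ := ha
    have := congrArg (lsub g) hu
    simp only [map_mul, map_add, h] at this
    obtain ⟨w, w', w'', hw⟩ := r3 _ ⟨_, _, _, this⟩
    refine ⟨lsub g' w, lsub g' w', lsub g' w'', ?_⟩
    rw [← lsub_inv' hg a, hw, map_add, map_add, map_mul, map_mul, map_mul, ← h 0, ← h 1, ← h 2,
      lsub_inv' hg, lsub_inv' hg, lsub_inv' hg]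

private theorem reg3 {x : Fin 3 → Pn n} (hx : ∀ d, (x d).IsHomogeneous 1)
    (hxi : LinearIndependent ℂ x) : Reg3 (x 0) (x 1) (x 2) := by
  obtain ⟨e, g, g', he, hg, h⟩ := coord hx hxi
  have h1 := Pool.Agent.Helper28.FolReg.RegSeq_X (k := ℂ) [e 0, e 1, e 2] ∅
    (by simp [he.eq_iff]) (by simp)
  rw [Set.image_empty, Ideal.span_empty] at h1
  obtain ⟨r0, r1, r2⟩ := Pool.Agent.Helper28.FolReg.reg3_of_regSeq h1
  refine ⟨fun a ha => ?_, fun a ha => ?_, fun a ha => ?_⟩
  · have := congrArg (lsub g) ha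
    rw [map_mul, h, map_zero] at this
    rw [← lsub_inv' hg a, r0 _ this, map_zero]
  · obtain ⟨u, hu⟩ := ha
    have := congrArg (lsub g) hu
    rw [map_mul, map_mul, h, h] at this
    obtain ⟨w, hw⟩ := r1 _ ⟨_, this⟩
    refine ⟨lsub g' w, ?_⟩
    rw [← lsub_inv' hg a, hw, map_mul, ← h 0, lsub_inv' hg]
  · obtain ⟨u, v, hu⟩ := ha
    have := congrArg (lsub g) hu
    simp only [map_mul, map_add, h] at this
    obtain ⟨w, w', hw⟩ := r2 _ ⟨_, _, this⟩
    refine ⟨lsub g' w, lsub g' w', ?_⟩
    rw [← lsub_inv' hg a, hw, map_add, map_mul, map_mul, ← h 0, ← h 1, lsub_inv' hg,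
      lsub_inv' hg]

private theorem skew_diag {A : Pn n} (h : A = - A) : A = 0 := by
  have h5 : (2 : Pn n) * A = 0 := by linear_combination h
  exact (mul_eq_zero.mp h5).resolve_left two_ne_zero

private theorem hcs {p : Pn n} {m : ℕ} (h : p.IsHomogeneous m) :
    homogeneousComponent m p = p := by
  rw [homogeneousComponent_of_mem h, if_pos rfl]

theorem skew_const {x κ : Fin r → Pn n} (hx : ∀ d, (x d).IsHomogeneous 1)
    (hxi : LinearIndependent ℂ x) (hκ : ∀ d, (κ d).IsHomogeneous 1) (h : ∑ d, x d * κ d = 0) :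
    ∃ g : Fin r → Fin r → ℂ, (∀ d d', g d d' = - g d' d) ∧ ∀ d, κ d = ∑ d', C (g d d') * x d' := by
  obtain ⟨e, φ, φ', he, hφ, hc⟩ := coord hx hxi
  -- dual vectors
  let v : Fin r → Fin n → ℂ := fun d => lmap φ (Pi.single (e d) 1)
  have hv : ∀ d d', eval (v d') (x d) = if d = d' then 1 else 0 := by
    intro d d'
    show eval (lmap φ (Pi.single (e d') 1)) (x d) = _
    rw [← Pool.Agent.Helper93.eval_lsub, hc, eval_X, Pi.single_apply]
    simp only [he.eq_iff]
  -- polarisation
  have hpol : ∀ u w : Fin n → ℂ, ∑ d, (eval u (x d) * eval w (κ d) + eval w (x d) * eval u (κ d))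
      = 0 := by
    intro u w
    have e0 : ∀ z : Fin n → ℂ, ∑ d, eval z (x d) * eval z (κ d) = 0 := by
      intro z
      have := congrArg (eval z) h
      simpa only [map_sum, map_mul, map_zero] using this
    have e1 := e0 (u + w)
    have e2 := e0 u
    have e3 := e0 w
    have e4 : ∀ d, eval (u + w) (x d) * eval (u + w) (κ d) = eval u (x d) * eval u (κ d) +
        eval w (x d) * eval w (κ d) +
        (eval u (x d) * eval w (κ d) + eval w (x d) * eval u (κ d)) := by
      intro d
      rw [eval_hom_add (hx d), eval_hom_add (hκ d)]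
      ring
    rw [Finset.sum_congr rfl fun d _ => e4 d, Finset.sum_add_distrib, Finset.sum_add_distrib, e2,
      e3, zero_add, zero_add] at e1
    exact e1
  have hpol2 : ∀ (d : Fin r) (w : Fin n → ℂ), eval w (κ d) = - ∑ d', eval w (x d') *
      eval (v d) (κ d') := by
    intro d w
    have := hpol (v d) w
    rw [Finset.sum_add_distrib] at this
    have h2 : ∑ d', eval (v d) (x d') * eval w (κ d') = eval w (κ d) := by
      simp only [hv, ite_mul, one_mul, zero_mul, Finset.sum_ite_eq', Finset.mem_univ, if_true]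
    rw [h2] at this
    linear_combination this
  refine ⟨fun d d' => - eval (v d) (κ d'), fun d d' => ?_, fun d => ?_⟩
  · have h1 := hpol2 d (v d')
    have h2 : ∑ q, eval (v d') (x q) * eval (v d) (κ q) = eval (v d) (κ d') := by
      simp only [hv, ite_mul, one_mul, zero_mul, Finset.sum_ite_eq', Finset.mem_univ, if_true]
    rw [h2] at h1
    show - eval (v d) (κ d') = - - eval (v d') (κ d)
    rw [h1, neg_neg]
  · apply MvPolynomial.funext
    intro w
    rw [hpol2 d w, map_sum, ← Finset.sum_neg_distrib]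
    refine Finset.sum_congr rfl fun d' _ => ?_
    rw [map_mul, eval_C]
    ring

theorem kos4_1 {x s : Fin 4 → Pn n} (hx : ∀ d, (x d).IsHomogeneous 1)
    (hxi : LinearIndependent ℂ x) (hs : ∀ d, (s d).IsHomogeneous 2) (h : ∑ d, x d * s d = 0) :
    ∃ t : Fin 4 → Fin 4 → Pn n, (∀ d d', (t d d').IsHomogeneous 1) ∧ (∀ d d', t d d' = - t d' d) ∧
      ∀ d, s d = ∑ d', t d d' * x d' := by
  rw [Fin.sum_univ_four] at h
  obtain ⟨c01, c02, c03, c12, c13, c23, e0, e1, e2, e3⟩ :=
    Pool.Agent.Helper28.FolReg.syz4 (reg4 hx hxi) h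
  have H := fun (c : Pn n) => homogeneousComponent_isHomogeneous 1 c
  have f0 := congrArg (homogeneousComponent 2) e0
  have f1 := congrArg (homogeneousComponent 2) e1
  have f2 := congrArg (homogeneousComponent 2) e2
  have f3 := congrArg (homogeneousComponent 2) e3
  simp only [map_add, map_sub, map_neg, hcs (hs _), hc_mul (hx _)] at f0 f1 f2 f3
  have hz : (0 : Pn n).IsHomogeneous 1 := isHomogeneous_zero _ _ _
  refine ⟨![![0, homogeneousComponent 1 c01, homogeneousComponent 1 c02,
        homogeneousComponent 1 c03],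
      ![-homogeneousComponent 1 c01, 0, homogeneousComponent 1 c12, homogeneousComponent 1 c13],
      ![-homogeneousComponent 1 c02, -homogeneousComponent 1 c12, 0,
        homogeneousComponent 1 c23],
      ![-homogeneousComponent 1 c03, -homogeneousComponent 1 c13, -homogeneousComponent 1 c23,
        0]], ?_, ?_, ?_⟩
  · intro d d'
    fin_cases d <;> fin_cases d' <;> simp only [Fin.zero_eta, Fin.mk_one, Fin.reduceFinMk,
      Matrix.cons_val] <;> first | exact hz | exact H _ | exact (H _).neg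
  · intro d d'
    fin_cases d <;> fin_cases d' <;> simp
  · intro d
    fin_cases d
    · simp [Fin.sum_univ_four]
      linear_combination f0
    · simp [Fin.sum_univ_four]
      linear_combination f1
    · simp [Fin.sum_univ_four]
      linear_combination f2
    · simp [Fin.sum_univ_four]
      linear_combination f3

theorem kos4_2 {x : Fin 4 → Pn n} (hx : ∀ d, (x d).IsHomogeneous 1)
    (hxi : LinearIndependent ℂ x) {q : Fin 4 → Fin 4 → Pn n}
    (hq : ∀ a b, (q a b).IsHomogeneous 2) (hs : ∀ a b, q a b = - q b a)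
    (h : ∀ a b c, x a * q b c + x b * q c a + x c * q a b = 0) :
    ∃ p : Fin 4 → Pn n, (∀ a, (p a).IsHomogeneous 1) ∧ ∀ a b, q a b = x a * p b - x b * p a := by
  have R := reg4 hx hxi
  have hx0 : x 0 ≠ 0 := hxi.ne_zero 0
  have R2 : Reg2 (x 0) (x 1) := ⟨R.1, R.2.1⟩
  have hd : ∀ a, q a a = 0 := fun a => skew_diag (hs a a)
  obtain ⟨u, v, huv⟩ := R.2.2.1 (q 0 1) ⟨-q 1 2, -q 2 0, by linear_combination h 0 1 2⟩
  -- `p 0 = -v`, `p 1 = u`
  have key : ∀ c, ∃ p, q 0 c + x c * (-v) = x 0 * p ∧ q 1 c + x c * u = x 1 * p := by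
    intro c
    apply R2.dvd_mul
    have h1 := h 0 1 c
    have h2 := hs c 0
    linear_combination (-1 : Pn n) * h1 + x 1 * h2 + x c * huv
  obtain ⟨p2, h02, h12⟩ := key 2
  obtain ⟨p3, h03, h13⟩ := key 3
  have h23 : q 2 3 = x 2 * p3 - x 3 * p2 := by
    apply mul_left_cancel₀ hx0
    linear_combination h 0 2 3 + x 2 * h03 - x 2 * hs 3 0 - x 3 * h02
  let p : Fin 4 → Pn n := ![-v, u, p2, p3]
  have hp : ∀ a b, a < b → q a b = x a * p b - x b * p a := by
    intro a b hab
    fin_cases a <;> fin_cases b <;> first | exact absurd hab (by decide) | skip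
    · show q 0 1 = x 0 * u - x 1 * (-v)
      linear_combination huv
    · show q 0 2 = x 0 * p2 - x 2 * (-v)
      linear_combination h02
    · show q 0 3 = x 0 * p3 - x 3 * (-v)
      linear_combination h03
    · show q 1 2 = x 1 * p2 - x 2 * u
      linear_combination h12
    · show q 1 3 = x 1 * p3 - x 3 * u
      linear_combination h13
    · exact h23
  have hp' : ∀ a b, q a b = x a * p b - x b * p a := by
    intro a b
    rcases lt_trichotomy a b with hab | rfl | hab
    · exact hp a b hab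
    · rw [hd, sub_self]
    · rw [hs a b, hp b a hab]
      ring
  refine ⟨fun a => homogeneousComponent 1 (p a), fun a => homogeneousComponent_isHomogeneous 1 _,
    fun a b => ?_⟩
  have := congrArg (homogeneousComponent 2) (hp' a b)
  rwa [map_sub, hcs (hq a b), hc_mul (hx a), hc_mul (hx b)] at this

theorem kos3_2 {x : Fin 3 → Pn n} (hx : ∀ d, (x d).IsHomogeneous 1)
    (hxi : LinearIndependent ℂ x) {G : Fin 3 → Fin 3 → Pn n}
    (hG : ∀ a b, (G a b).IsHomogeneous 2) (hs : ∀ a b, G a b = - G b a)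
    (h : ∀ a, ∑ b, x b * G a b = 0) :
    ∃ t : Pn n, t.IsHomogeneous 1 ∧ G 0 1 = x 2 * t ∧ G 1 2 = x 0 * t ∧ G 2 0 = x 1 * t := by
  have R := reg3 hx hxi
  have hd : ∀ a, G a a = 0 := fun a => skew_diag (hs a a)
  have e0 := h 0
  have e1 := h 1
  have e2 := h 2
  rw [Fin.sum_univ_three, hd] at e0 e1 e2
  rw [hs 1 0] at e1
  rw [hs 2 0, hs 2 1] at e2
  obtain ⟨t, h01, h02, h12⟩ := R.syz2 (c01 := G 0 1) (c02 := G 0 2) (c12 := G 1 2)
    (by linear_combination e0) (by linear_combination e1) (by linear_combination -e2)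
  refine ⟨homogeneousComponent 1 t, homogeneousComponent_isHomogeneous 1 _, ?_, ?_, ?_⟩
  · have := congrArg (homogeneousComponent 2) h01
    rwa [hcs (hG 0 1), hc_mul (hx 2)] at this
  · have := congrArg (homogeneousComponent 2) h12
    rwa [hcs (hG 1 2), hc_mul (hx 0)] at this
  · have := congrArg (homogeneousComponent 2) h02
    rw [map_neg, hcs (hG 0 2), hc_mul (hx 1)] at this
    rw [hs 2 0, this, neg_neg]

/-- Koszul syzygies with values in a module of vectors -/
theorem kos3_1 {x : Fin 3 → Pn n} (hx : ∀ d, (x d).IsHomogeneous 1)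
    (hxi : LinearIndependent ℂ x) {p : Fin 3 → Pn n} (hp : ∀ d, (p d).IsHomogeneous 1)
    {q : Fin 3 → Fin 3 → Pn n} (hq : ∀ a b, q a b = x a * p b - x b * p a)
    (h : ∀ a b, q a b = 0) : ∃ c : ℂ, ∀ a, p a = C c * x a := by
  have R := reg3 hx hxi
  have hx0 : x 0 ≠ 0 := hxi.ne_zero 0
  have R2 : Reg2 (x 0) (x 1) := ⟨R.1, R.2.1⟩
  have h1 : ∀ a b, x a * p b = x b * p a := fun a b => by
    have := hq a b
    rw [h] at this
    linear_combination -this
  obtain ⟨c, hc, _⟩ := R2.dvd_mul (h1 1 0)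
  have h2 : p 0 = x 0 * C (coeff 0 c) := by
    have := congrArg (homogeneousComponent 1) hc
    rwa [hcs (hp 0), hc_mul (hx 0), homogeneousComponent_zero] at this
  refine ⟨coeff 0 c, fun a => ?_⟩
  apply mul_left_cancel₀ hx0
  rw [h1 0 a, h2]
  ring

end Pool.Agent.Helper18.LB
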