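import Pool.Agent.Helper18.LB.CC
import Pool.Agent.Helper18.LB.Kos
import Pool.Agent.Helper50.FC.Div

/-! LB-11: case (c): linear syzygies `KQ q` of the four quadrics `q` on `V = ℂ⁵`, `H = ℂ⁴`, `P = ℂ³`.
Proofs.  `sig_of_w`: `ξ ∧ σ = 0`, `ξ ∈ EE θ (k+2)`: `σ` has no common factor (a common factor `f`: `σ = f ξ'`, `ξ' ∈ EE θ 1` or `EE θ 0`, both zero), so
`ξ = s σ` (`prop_vec`, or `div1_hom` in `Helper50/FC/Div.lean`), `s` homogeneous of degree `k`.
`kq_le`: the linear map `(l, s) ↦ Σ l_i A_i + s σ` from `S_1⁴ × S_2` (dimension `4 (n+1) + (n+2).choose 2`, `finrank_homog`) to `EE θ 4`; if `(l, s)` is in the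
kernel, wedge with `σ`: `Σ l_i q_i θ = 0`, so `l ∈ KQ q`, and `l = 0` implies `s = 0`: the kernel has dimension at most `finrank (KQ q)`.
`kq_inj`: `at0 (l i) = 0` for all `i`: `l i = C (c i) * X 0`, `Σ c_i q_i = 0`, so `c = 0`.
`CD.indP`: `Σ c_i X_i m + c_3 b = 0` implies `m ∣ c_3 b`, so `c_3 = 0` (`hb` with a constant; `m` is not a unit), `m Σ c_i X_i = 0`.
`CD.beta`: a quadric is `Σ X_i β_i`.  `CD.kP`: `m Σ l_i X_i + l_3 b = 0`: `m ∣ b l_3`, so `l_3 = - c m`; `Σ X_i (l_i - c β_i) = 0`, so `l - c κ_3` is a combination of the three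
Koszul syzygies (compare coefficients, or `skew_const` with `r = 3`).
`CD.lift`: `kq_le` on `V` and `H` gives `finrank ≥ 4` (`e4`, `e4H`), `KQ q → KQ (at0 q) → KQ (r2 q)` are injective, the last space has dimension at most 4 (`kP`),
so both maps are bijective. -/

set_option autoImplicit false

namespace Pool.Agent.Helper18.LB

open MvPolynomial
open scoped BigOperators
open Pool.Agent.Helper71.FC
open Pool.Agent.Helper71.FL (w12 pf ct Dec Closed dd res at0 emb)

private theorem cs_w12_smul {n : ℕ} {p : Pn n} {σ τ : F1 n} (h : ∀ i, σ i = p * τ i) (θ : F2 n)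
    (i j k : Fin n) : w12 σ θ i j k = p * w12 τ θ i j k := by
  unfold w12
  rw [h, h, h]
  ring

private theorem cs_prim {n : ℕ} {θ : F2 n} (h1 : EE θ 1 = ⊥) {σ : F1 n} (hσ : σ ∈ EE θ 2)
    (hσ0 : σ ≠ 0) : Pool.Agent.Helper50.FC.Prim σ := by
  intro p hp
  choose τ hτ using hp
  obtain ⟨i0, hi0⟩ : ∃ i, σ i ≠ 0 := by
    by_contra hcon
    push Not at hcon
    exact hσ0 (funext hcon)
  have hp0 : p ≠ 0 := by
    rintro rfl
    exact hi0 (by rw [hτ, zero_mul])
  have hτ0 : τ i0 ≠ 0 := by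
    intro h
    exact hi0 (by rw [hτ, h, mul_zero])
  have h2 : (p * τ i0).IsHomogeneous 2 := by
    rw [← hτ]
    exact hσ.1 i0
  obtain ⟨e, e', he, -, hee⟩ := hom_of_mul h2 hp0 hτ0
  have hτh : ∀ i, (τ i).IsHomogeneous e' := by
    intro i
    have h3 : (p * τ i).IsHomogeneous (e + e') := by
      rw [← hτ, hee]
      exact hσ.1 i
    exact hom_right h3 he hp0
  have hw : ∀ i j k, w12 τ θ i j k = 0 := by
    intro i j k
    have h3 := hσ.2 i j k
    rw [cs_w12_smul hτ] at h3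
    exact (mul_eq_zero.1 h3).resolve_left hp0
  have hmem : τ ∈ EE θ e' := ⟨hτh, hw⟩
  have hne : τ ≠ 0 := fun h => hτ0 (congrFun h i0)
  have hcase : e = 0 ∨ e = 1 ∨ e = 2 := by omega
  rcases hcase with rfl | rfl | rfl
  · have h4 : p.totalDegree = 0 := by
      exact Nat.le_zero.1 he.totalDegree_le
    rw [totalDegree_eq_zero_iff_eq_C] at h4
    rw [h4]
    apply IsUnit.map C
    rw [isUnit_iff_ne_zero]
    intro h5
    rw [h5, C_0] at h4
    exact hp0 h4
  · exfalso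
    have h5 : e' = 1 := by omega
    subst h5
    rw [h1] at hmem
    exact hne ((Submodule.mem_bot ℂ).1 hmem)
  · exfalso
    have h5 : e' = 0 := by omega
    subst h5
    have h6 : (fun i => X i0 * τ i) ∈ EE θ 1 := by
      refine ⟨fun i => ?_, fun i j k => ?_⟩
      · have h7 := (isHomogeneous_X ℂ i0).mul (hτh i)
        rwa [add_zero] at h7
      · rw [cs_w12_smul (fun _ => rfl), hw, mul_zero]
    rw [h1] at h6
    have h7 := congrFun ((Submodule.mem_bot ℂ).1 h6) i0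
    exact hτ0 ((mul_eq_zero.1 h7).resolve_left (X_ne_zero i0))

theorem sig_of_w {n : ℕ} {θ : F2 n} (h1 : EE θ 1 = ⊥) {σ : F1 n} (hσ : σ ∈ EE θ 2)
    (hσ0 : σ ≠ 0) {k : ℕ} {ξ : F1 n} (hξ : ∀ i, (ξ i).IsHomogeneous (k + 2))
    (h : ∀ i j, w11 ξ σ i j = 0) : ∃ s : Pn n, s.IsHomogeneous k ∧ ∀ i, ξ i = s * σ i := by
  obtain ⟨g, hg, -, hgi⟩ := Pool.Agent.Helper50.FC.div1_hom (cs_prim h1 hσ hσ0) h hξ hσ.1
  rw [Nat.add_sub_cancel] at hg
  exact ⟨g, hg, hgi⟩

/-- linear syzygies of four quadrics -/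
noncomputable def KQ {n : ℕ} (q : Fin 4 → Pn n) : Submodule ℂ (Fin 4 → Pn n) where
  carrier := {l | (∀ i, (l i).IsHomogeneous 1) ∧ ∑ i, l i * q i = 0}
  add_mem' := by
    rintro a b ⟨h1, h2⟩ ⟨h3, h4⟩
    refine ⟨fun i => (h1 i).add (h3 i), ?_⟩
    simp only [Pi.add_apply, add_mul, Finset.sum_add_distrib, h2, h4, add_zero]
  zero_mem' := ⟨fun i => isHomogeneous_zero _ _ _, by simp⟩
  smul_mem' := by
    rintro c a ⟨h1, h2⟩
    refine ⟨fun i => ?_, ?_⟩
    · have := (isHomogeneous_C (Fin n) c).mul (h1 i)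
      rw [zero_add] at this
      rw [Pi.smul_apply, smul_eq_C_mul]
      exact this
    · simp only [Pi.smul_apply, smul_mul_assoc, ← Finset.smul_sum, h2, smul_zero]

private theorem cs_fin {n : ℕ} (q : Fin 4 → Pn n) : Module.Finite ℂ (KQ q) := by
  have := finite_homog n 1
  refine Module.Finite.of_injective
    ({ toFun := fun l i => ⟨l.1 i, l.2.1 i⟩, map_add' := fun _ _ => rfl, map_smul' := fun _ _ => rfl } :
      KQ q →ₗ[ℂ] (Fin 4 → homogeneousSubmodule (Fin n) ℂ 1)) ?_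
  intro a b hab
  apply Subtype.ext
  funext i
  exact congrArg Subtype.val (congrFun hab i)

/-- the map `(l, s) ↦ Σ l_i A_i + s σ` -/
private noncomputable def csPhi {n : ℕ} (σ : F1 n) (A : Fin 4 → F1 n) :
    ((Fin 4 → homogeneousSubmodule (Fin n) ℂ 1) × homogeneousSubmodule (Fin n) ℂ 2) →ₗ[ℂ] F1 n where
  toFun x := fun j => ∑ i, (x.1 i : Pn n) * A i j + (x.2 : Pn n) * σ j
  map_add' x y := by
    funext j
    show ∑ i, ((x.1 i : Pn n) + (y.1 i : Pn n)) * A i j + ((x.2 : Pn n) + (y.2 : Pn n)) * σ j = _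
    simp only [add_mul, Finset.sum_add_distrib, Pi.add_apply]
    ring
  map_smul' c x := by
    funext j
    show ∑ i, (c • (x.1 i : Pn n)) * A i j + (c • (x.2 : Pn n)) * σ j = _
    simp only [smul_mul_assoc, ← Finset.smul_sum, RingHom.id_apply, Pi.smul_apply, smul_add]

theorem kq_le {n : ℕ} {θ : F2 (n + 1)} (hF : Fol θ) {σ : F1 (n + 1)} (hσ : σ ∈ EE θ 2)
    (hσ0 : σ ≠ 0) {q : Fin 4 → Pn (n + 1)} {A : Fin 4 → F1 (n + 1)} (hA : ∀ i, A i ∈ EE θ 3)
    (w : ∀ i j k, w11 (A i) σ j k = q i * θ j k) :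
    4 * (n + 1) + (n + 2).choose 2 ≤
      Module.finrank ℂ (EE θ 4) + Module.finrank ℂ (KQ q) := by
  have f1 := finite_homog (n + 1) 1
  have f2 := finite_homog (n + 1) 2
  have f3 := finite_EE θ 4
  have f4 := cs_fin q
  have hdim : Module.finrank ℂ ((Fin 4 → homogeneousSubmodule (Fin (n + 1)) ℂ 1) ×
      homogeneousSubmodule (Fin (n + 1)) ℂ 2) = 4 * (n + 1) + (n + 2).choose 2 := by
    rw [Module.finrank_prod, Module.finrank_pi_fintype, finrank_homog, finrank_homog]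
    simp
  have hrange : LinearMap.range (csPhi σ A) ≤ EE θ 4 := by
    rintro _ ⟨x, rfl⟩
    refine ⟨fun j => ?_, fun i j k => ?_⟩
    · refine IsHomogeneous.add (IsHomogeneous.sum _ _ _ fun i _ => ?_) ?_
      · exact (x.1 i).2.mul ((hA i).1 j)
      · exact x.2.2.mul (hσ.1 j)
    · have h1 : w12 (csPhi σ A x) θ i j k =
          ∑ a, (x.1 a : Pn (n + 1)) * w12 (A a) θ i j k + (x.2 : Pn (n + 1)) * w12 σ θ i j k := by
        unfold w12
        show (∑ a, (x.1 a : Pn (n + 1)) * A a i + (x.2 : Pn (n + 1)) * σ i) * θ j k +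
          (∑ a, (x.1 a : Pn (n + 1)) * A a j + (x.2 : Pn (n + 1)) * σ j) * θ k i +
          (∑ a, (x.1 a : Pn (n + 1)) * A a k + (x.2 : Pn (n + 1)) * σ k) * θ i j = _
        simp only [mul_add, Finset.sum_add_distrib, add_mul, Finset.sum_mul, mul_assoc]
        ring
      rw [h1, hσ.2, mul_zero, add_zero]
      exact Finset.sum_eq_zero fun a _ => by rw [(hA a).2, mul_zero]
  have hker : Module.finrank ℂ (LinearMap.ker (csPhi σ A)) ≤ Module.finrank ℂ (KQ q) := by
    obtain ⟨j0, k0, hjk⟩ : ∃ j k, θ j k ≠ 0 := by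
      by_contra hcon
      push Not at hcon
      have h0 := hF.prim 0 (fun i j => by rw [hcon])
      exact not_isUnit_zero h0
    have hmem : ∀ x : LinearMap.ker (csPhi σ A), (fun i => ((x.1.1 i : homogeneousSubmodule (Fin (n + 1)) ℂ 1) :
        Pn (n + 1))) ∈ KQ q := by
      rintro ⟨x, hx⟩
      refine ⟨fun i => (x.1 i).2, ?_⟩
      have hx' : ∀ j, ∑ i, (x.1 i : Pn (n + 1)) * A i j + (x.2 : Pn (n + 1)) * σ j = 0 :=
        fun j => congrFun (LinearMap.mem_ker.1 hx) j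
      have h1 : (∑ i, (x.1 i : Pn (n + 1)) * q i) * θ j0 k0 = 0 := by
        have h2 : (∑ i, (x.1 i : Pn (n + 1)) * q i) * θ j0 k0 =
            ∑ i, (x.1 i : Pn (n + 1)) * (A i j0 * σ k0 - A i k0 * σ j0) := by
          rw [Finset.sum_mul]
          refine Finset.sum_congr rfl fun i _ => ?_
          have h3 := w i j0 k0
          unfold w11 at h3
          rw [mul_assoc, ← h3]
        have h4 : ∑ i, (x.1 i : Pn (n + 1)) * (A i j0 * σ k0 - A i k0 * σ j0) =
            (∑ i, (x.1 i : Pn (n + 1)) * A i j0) * σ k0 - (∑ i, (x.1 i : Pn (n + 1)) * A i k0) * σ j0 := by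
          rw [Finset.sum_mul, Finset.sum_mul, ← Finset.sum_sub_distrib]
          exact Finset.sum_congr rfl fun i _ => by ring
        rw [h2, h4]
        linear_combination σ k0 * hx' j0 - σ j0 * hx' k0
      exact (mul_eq_zero.1 h1).resolve_right hjk
    let G : LinearMap.ker (csPhi σ A) →ₗ[ℂ] KQ q :=
      { toFun := fun x => ⟨_, hmem x⟩, map_add' := fun _ _ => rfl, map_smul' := fun _ _ => rfl }
    refine LinearMap.finrank_le_finrank_of_injective (f := G) ?_
    rintro ⟨x, hx⟩ ⟨y, hy⟩ hxy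
    have h1 : ∀ i, (x.1 i : Pn (n + 1)) = (y.1 i : Pn (n + 1)) :=
      fun i => congrFun (congrArg Subtype.val hxy) i
    have hx' : ∀ j, ∑ i, (x.1 i : Pn (n + 1)) * A i j + (x.2 : Pn (n + 1)) * σ j = 0 :=
      fun j => congrFun (LinearMap.mem_ker.1 hx) j
    have hy' : ∀ j, ∑ i, (y.1 i : Pn (n + 1)) * A i j + (y.2 : Pn (n + 1)) * σ j = 0 :=
      fun j => congrFun (LinearMap.mem_ker.1 hy) j
    obtain ⟨i0, hi0⟩ : ∃ i, σ i ≠ 0 := by
      by_contra hcon
      push Not at hcon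
      exact hσ0 (funext hcon)
    have h2 : (x.2 : Pn (n + 1)) = (y.2 : Pn (n + 1)) := by
      have h3 := hx' i0
      have h4 := hy' i0
      rw [Finset.sum_congr rfl (fun i _ => by rw [h1])] at h3
      apply mul_right_cancel₀ hi0
      linear_combination h3 - h4
    apply Subtype.ext
    refine Prod.ext (funext fun i => Subtype.ext (h1 i)) (Subtype.ext h2)
  have hrn := LinearMap.finrank_range_add_finrank_ker (csPhi σ A)
  rw [hdim] at hrn
  have hr := Submodule.finrank_mono hrange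
  omega

private theorem cs_at0_X0 {n : ℕ} : at0 n ℂ (X 0) = 0 := by
  unfold at0
  rw [aeval_X, Fin.cons_zero]

private theorem cs_at0_C {n : ℕ} (c : ℂ) : at0 n ℂ (C c) = C c := by
  unfold at0
  rw [aeval_C]
  rfl

private theorem cs_at0_hom {n : ℕ} {f : Pn (n + 1)} {d : ℕ} (h : f.IsHomogeneous d) :
    (at0 n ℂ f).IsHomogeneous d := by
  unfold at0
  have h1 := h.aeval (Fin.cons (0 : Pn n) (fun i => (X i : Pn n)) : Fin (n + 1) → Pn n) (n := 1)
    (by
      intro i
      refine Fin.cases ?_ (fun j => ?_) i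
      · rw [Fin.cons_zero]; exact isHomogeneous_zero _ _ _
      · rw [Fin.cons_succ]; exact isHomogeneous_X _ _)
  rwa [one_mul] at h1

private theorem cs_const {n : ℕ} {p : Pn n} (h : p.IsHomogeneous 0) : ∃ c, p = C c := by
  have h4 : p.totalDegree = 0 := Nat.le_zero.1 h.totalDegree_le
  rw [totalDegree_eq_zero_iff_eq_C] at h4
  exact ⟨_, h4⟩

theorem kq_inj {n : ℕ} {q : Fin 4 → Pn (n + 1)}
    (hi : LinearIndependent ℂ (fun i => at0 n ℂ (q i))) {l : Fin 4 → Pn (n + 1)}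
    (hl : l ∈ KQ q) (h0 : ∀ i, at0 n ℂ (l i) = 0) : l = 0 := by
  have h1 : ∀ i, ∃ c : ℂ, l i = X 0 * C c := by
    intro i
    obtain ⟨g, hg⟩ := (at0_eq_zero_iff _).1 (h0 i)
    have h2 : (X 0 * g).IsHomogeneous (1 + 0) := by
      rw [← hg]
      exact hl.1 i
    obtain ⟨c, hc⟩ := cs_const (hom_right h2 (isHomogeneous_X ℂ 0) (X_ne_zero 0))
    exact ⟨c, by rw [hg, hc]⟩
  choose c hc using h1
  have h2 : X 0 * ∑ i, C (c i) * q i = 0 := by
    rw [← hl.2, Finset.mul_sum]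
    refine Finset.sum_congr rfl fun i _ => ?_
    rw [hc, mul_assoc]
  have h3 := (mul_eq_zero.1 h2).resolve_left (X_ne_zero 0)
  have h4 : ∑ i, c i • at0 n ℂ (q i) = 0 := by
    have h5 := congrArg (at0 n ℂ) h3
    rw [map_sum, map_zero] at h5
    rw [← h5]
    refine Finset.sum_congr rfl fun i _ => ?_
    rw [map_mul, cs_at0_C, smul_eq_C_mul]
  have h5 := Fintype.linearIndependent_iff.1 hi c h4
  funext i
  rw [hc, h5, C_0, mul_zero]
  rfl

theorem kq_res {n : ℕ} {q : Fin 4 → Pn (n + 1)} {l : Fin 4 → Pn (n + 1)} (hl : l ∈ KQ q) :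
    (fun i => at0 n ℂ (l i)) ∈ KQ (fun i => at0 n ℂ (q i)) := by
  refine ⟨fun i => cs_at0_hom (hl.1 i), ?_⟩
  have h5 := congrArg (at0 n ℂ) hl.2
  rw [map_sum, map_zero] at h5
  rw [← h5]
  exact Finset.sum_congr rfl fun i _ => (map_mul _ _ _).symm

variable {θ : F2 5} {σ : F1 5} {q : Fin 4 → Pn 5} {A : Fin 4 → F1 5} {m b : Pn 3}

private theorem cs_lin3 (c : Fin 3 → ℂ) (h : ∑ i, C (c i) * (X i : Pn 3) = 0) (i : Fin 3) : c i = 0 := by
  classical
  have h1 := congrArg (coeff (Finsupp.single i 1)) h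
  rw [coeff_sum, coeff_zero, Finset.sum_eq_single i] at h1
  · rw [coeff_C_mul, coeff_X, if_pos rfl, mul_one] at h1
    exact h1
  · intro j _ hj
    rw [coeff_C_mul, coeff_X, if_neg, mul_zero]
    intro h2
    exact hj ((Finsupp.single_left_inj one_ne_zero).1 h2)
  · intro h2
    exact absurd (Finset.mem_univ i) h2

private theorem cs_indX : LinearIndependent ℂ (fun i : Fin 3 => (X i : Pn 3)) := by
  rw [Fintype.linearIndependent_iff]
  intro c hc i
  apply cs_lin3 c _ i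
  rw [← hc]
  exact Finset.sum_congr rfl fun i _ => (smul_eq_C_mul _ _).symm

private theorem cs_not_unit {m : Pn 3} (hm : m.IsHomogeneous 1) (hm0 : m ≠ 0) {c : ℂ}
    (h : m ∣ C c) : c = 0 := by
  by_contra hc
  have h1 : IsUnit m := isUnit_of_dvd_unit h ((isUnit_iff_ne_zero.2 hc).map C)
  obtain ⟨u, hu⟩ := h1.exists_right_inv
  have hu0 : u ≠ 0 := by
    rintro rfl
    rw [mul_zero] at hu
    exact zero_ne_one hu
  have h2 := totalDegree_mul_of_isDomain hm0 hu0
  rw [hu, totalDegree_one, hm.totalDegree hm0] at h2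
  omega

theorem CD.indP (h : CD θ σ q A m b) : LinearIndependent ℂ (fun i => r2 (q i)) := by
  rw [Fintype.linearIndependent_iff]
  intro c hc
  have h1 : m * ∑ i : Fin 3, C (c i.castSucc) * X i + C (c 3) * b = 0 := by
    rw [← hc, Fin.sum_univ_castSucc (fun i => c i • r2 (q i))]
    have h2 : ∀ i : Fin 3, c i.castSucc • r2 (q i.castSucc) = m * (C (c i.castSucc) * X i) := by
      intro i
      rw [h.hqm, smul_eq_C_mul]
      ring
    rw [Finset.sum_congr rfl (fun i _ => h2 i), ← Finset.mul_sum]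
    show _ = _ + c 3 • r2 (q 3)
    rw [h.hqb, smul_eq_C_mul]
  have h3 : c 3 = 0 := by
    apply cs_not_unit h.hm h.hm0
    apply h.hb
    exact ⟨- ∑ i : Fin 3, C (c i.castSucc) * X i, by linear_combination h1⟩
  rw [h3, C_0, zero_mul, add_zero] at h1
  have h4 := cs_lin3 (fun i => c i.castSucc) ((mul_eq_zero.1 h1).resolve_left h.hm0)
  intro i
  refine Fin.lastCases ?_ (fun j => ?_) i
  · exact h3
  · exact h4 j

theorem CD.indH (h : CD θ σ q A m b) : LinearIndependent ℂ (fun i => at0 4 ℂ (q i)) := by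
  have h1 := h.indP
  exact LinearIndependent.of_comp (at0 3 ℂ).toLinearMap (v := fun i => at0 4 ℂ (q i)) h1

theorem CD.ind (h : CD θ σ q A m b) : LinearIndependent ℂ q := by
  have h1 := h.indH
  exact LinearIndependent.of_comp (at0 4 ℂ).toLinearMap (v := q) h1

/-- the four syzygies on the plane -/
noncomputable def kap (m : Pn 3) (β : Fin 3 → Pn 3) : Fin 4 → Fin 4 → Pn 3 :=
  ![![0, X 2, - X 1, 0], ![- X 2, 0, X 0, 0], ![X 1, - X 0, 0, 0], ![β 0, β 1, β 2, - m]]

theorem CD.beta (h : CD θ σ q A m b) :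
    ∃ β : Fin 3 → Pn 3, (∀ i, (β i).IsHomogeneous 1) ∧ ∑ i, X i * β i = b := by
  have hbh : b.IsHomogeneous 2 := by
    rw [← h.hqb]
    exact cs_at0_hom (cs_at0_hom (h.hq 3))
  refine ⟨fun i => C (1 / 2) * pderiv i b, fun i => ?_, ?_⟩
  · have h1 := (isHomogeneous_C (Fin 3) (1 / 2 : ℂ)).mul (hbh.pderiv (i := i))
    exact h1
  · have h1 := hbh.sum_X_mul_pderiv
    have h2 : ∑ i : Fin 3, X i * (C (1 / 2) * pderiv i b) = C (1 / 2) * ∑ i : Fin 3, X i * pderiv i b := by
      rw [Finset.mul_sum]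
      exact Finset.sum_congr rfl fun i _ => by ring
    rw [h2, h1, ← Nat.cast_smul_eq_nsmul ℂ, smul_eq_C_mul, ← mul_assoc, ← C_mul]
    norm_num

theorem CD.kap_mem (h : CD θ σ q A m b) {β : Fin 3 → Pn 3} (hβ : ∀ i, (β i).IsHomogeneous 1)
    (hb : ∑ i, X i * β i = b) (d : Fin 4) : kap m β d ∈ KQ (fun i => r2 (q i)) := by
  have q0 : r2 (q 0) = m * X 0 := h.hqm 0
  have q1 : r2 (q 1) = m * X 1 := h.hqm 1
  have q2 : r2 (q 2) = m * X 2 := h.hqm 2
  have q3 : r2 (q 3) = b := h.hqb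
  have hX : ∀ i : Fin 3, (X i : Pn 3).IsHomogeneous 1 := fun i => isHomogeneous_X ℂ i
  have h0 : (0 : Pn 3).IsHomogeneous 1 := isHomogeneous_zero _ _ _
  rw [Fin.sum_univ_three] at hb
  refine ⟨?_, ?_⟩
  · intro i
    fin_cases d <;> fin_cases i
    · exact h0
    · exact hX 2
    · exact (hX 1).neg
    · exact h0
    · exact (hX 2).neg
    · exact h0
    · exact hX 0
    · exact h0
    · exact hX 1
    · exact (hX 0).neg
    · exact h0
    · exact h0
    · exact hβ 0
    · exact hβ 1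
    · exact hβ 2
    · exact h.hm.neg
  · rw [Fin.sum_univ_four]
    beta_reduce
    rw [q0, q1, q2, q3]
    fin_cases d
    · show 0 * (m * X 0) + X 2 * (m * X 1) + (- X 1) * (m * X 2) + 0 * b = 0
      ring
    · show (- X 2) * (m * X 0) + 0 * (m * X 1) + X 0 * (m * X 2) + 0 * b = 0
      ring
    · show X 1 * (m * X 0) + (- X 0) * (m * X 1) + 0 * (m * X 2) + 0 * b = 0
      ring
    · show β 0 * (m * X 0) + β 1 * (m * X 1) + β 2 * (m * X 2) + (- m) * b = 0
      rw [← hb]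
      ring

theorem CD.kP (h : CD θ σ q A m b) {β : Fin 3 → Pn 3} (hβ : ∀ i, (β i).IsHomogeneous 1)
    (hb : ∑ i, X i * β i = b) {l : Fin 4 → Pn 3} (hl : l ∈ KQ (fun i => r2 (q i))) :
    ∃ c : Fin 4 → ℂ, ∀ i, l i = ∑ d, C (c d) * kap m β d i := by
  have q0 : r2 (q 0) = m * X 0 := h.hqm 0
  have q1 : r2 (q 1) = m * X 1 := h.hqm 1
  have q2 : r2 (q 2) = m * X 2 := h.hqm 2
  have q3 : r2 (q 3) = b := h.hqb
  have hs := hl.2
  rw [Fin.sum_univ_four] at hs
  beta_reduce at hs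
  rw [q0, q1, q2, q3] at hs
  have hd : m ∣ l 3 := by
    apply h.hb
    exact ⟨- (l 0 * X 0 + l 1 * X 1 + l 2 * X 2), by linear_combination hs⟩
  obtain ⟨u, hu⟩ := hd
  have hu1 : (m * u).IsHomogeneous (1 + 0) := by
    rw [← hu]
    exact hl.1 3
  obtain ⟨c, hc⟩ := cs_const (hom_right hu1 h.hm h.hm0)
  rw [hc] at hu
  have h1 : ∑ d : Fin 3, X d * (l d.castSucc - C (- c) * β d) = 0 := by
    apply (mul_eq_zero.1 _).resolve_left h.hm0
    rw [Fin.sum_univ_three] at hb ⊢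
    show m * (X 0 * (l 0 - C (- c) * β 0) + X 1 * (l 1 - C (- c) * β 1) +
      X 2 * (l 2 - C (- c) * β 2)) = 0
    rw [C_neg]
    rw [hu, ← hb] at hs
    linear_combination hs
  obtain ⟨g, hg, hκ⟩ := skew_const (fun d => isHomogeneous_X ℂ d) cs_indX
    (fun d => (hl.1 d.castSucc).sub (by
      have h2 := (isHomogeneous_C (Fin 3) (- c)).mul (hβ d)
      rwa [zero_add] at h2)) h1
  have g00 : g 0 0 = 0 := by have := hg 0 0; linear_combination this / 2
  have g11 : g 1 1 = 0 := by have := hg 1 1; linear_combination this / 2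
  have g22 : g 2 2 = 0 := by have := hg 2 2; linear_combination this / 2
  have k0 : l 0 - C (- c) * β 0 = C (g 0 0) * X 0 + C (g 0 1) * X 1 + C (g 0 2) * X 2 := by
    have := hκ 0
    rw [Fin.sum_univ_three] at this
    exact this
  have k1 : l 1 - C (- c) * β 1 = C (g 1 0) * X 0 + C (g 1 1) * X 1 + C (g 1 2) * X 2 := by
    have := hκ 1
    rw [Fin.sum_univ_three] at this
    exact this
  have k2 : l 2 - C (- c) * β 2 = C (g 2 0) * X 0 + C (g 2 1) * X 1 + C (g 2 2) * X 2 := by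
    have := hκ 2
    rw [Fin.sum_univ_three] at this
    exact this
  rw [g00, C_0] at k0
  rw [g11, C_0, hg 1 0, C_neg] at k1
  rw [g22, C_0, hg 2 0, hg 2 1, C_neg, C_neg] at k2
  refine ⟨![g 1 2, - g 0 2, g 0 1, - c], fun i => ?_⟩
  rw [Fin.sum_univ_four]
  fin_cases i
  · show l 0 = C (g 1 2) * 0 + C (- g 0 2) * (- X 2) + C (g 0 1) * X 1 + C (- c) * β 0
    simp only [C_neg] at k0 ⊢
    linear_combination k0
  · show l 1 = C (g 1 2) * X 2 + C (- g 0 2) * 0 + C (g 0 1) * (- X 0) + C (- c) * β 1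
    simp only [C_neg] at k1 ⊢
    linear_combination k1
  · show l 2 = C (g 1 2) * (- X 1) + C (- g 0 2) * X 0 + C (g 0 1) * 0 + C (- c) * β 2
    simp only [C_neg] at k2 ⊢
    linear_combination k2
  · show l 3 = C (g 1 2) * 0 + C (- g 0 2) * 0 + C (g 0 1) * 0 + C (- c) * (- m)
    simp only [C_neg]
    linear_combination hu

/-- all syzygies lift from the plane -/
theorem CD.lift (h : CD θ σ q A m b) {l : Fin 4 → Pn 3} (hl : l ∈ KQ (fun i => r2 (q i))) :
    ∃ L ∈ KQ q, ∀ i, r2 (L i) = l i := by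
  have f1 := cs_fin q
  have f2 := cs_fin (fun i => r2 (q i))
  have hR : ∀ L ∈ KQ q, (fun i => r2 (L i)) ∈ KQ (fun i => r2 (q i)) := fun L hL =>
    kq_res (kq_res hL)
  let R : KQ q →ₗ[ℂ] KQ (fun i => r2 (q i)) :=
    { toFun := fun L => ⟨fun i => r2 (L.1 i), hR L.1 L.2⟩
      map_add' := fun x y => Subtype.ext (funext fun i => by
        show r2 (x.1 i + y.1 i) = r2 (x.1 i) + r2 (y.1 i)
        unfold r2
        rw [map_add, map_add])
      map_smul' := fun c x => Subtype.ext (funext fun i => by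
        show r2 (c • x.1 i) = c • r2 (x.1 i)
        unfold r2
        rw [map_smul, map_smul]) }
  have hinj : Function.Injective R := by
    rw [← LinearMap.ker_eq_bot, LinearMap.ker_eq_bot']
    intro L hL
    have h1 : ∀ i, at0 3 ℂ (at0 4 ℂ (L.1 i)) = 0 := fun i => congrFun (congrArg Subtype.val hL) i
    have h2 := kq_inj (q := fun i => at0 4 ℂ (q i)) h.indP (kq_res L.2) h1
    have h3 := kq_inj h.indH L.2 (fun i => congrFun h2 i)
    exact Subtype.ext h3
  have hV : 4 ≤ Module.finrank ℂ (KQ q) := by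
    have h1 : 4 * (4 + 1) + (4 + 2).choose 2 ≤
        Module.finrank ℂ (EE θ 4) + Module.finrank ℂ (KQ q) :=
      kq_le (n := 4) h.cc.fol h.hσ h.hσ0 h.hA h.w
    have h2 := h.cc.e4
    have h3 : (4 + 2).choose 2 = 15 := by decide
    omega
  have hP : Module.finrank ℂ (KQ (fun i => r2 (q i))) ≤ 4 := by
    obtain ⟨β, hβ, hb⟩ := h.beta
    have h1 : KQ (fun i => r2 (q i)) ≤ Submodule.span ℂ (Set.range (kap m β)) := by
      intro x hx
      obtain ⟨c, hc⟩ := h.kP hβ hb hx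
      have h2 : x = ∑ d, c d • kap m β d := by
        funext i
        rw [hc i, Finset.sum_apply]
        exact Finset.sum_congr rfl fun d _ => by rw [Pi.smul_apply, smul_eq_C_mul]
      rw [h2]
      exact Submodule.sum_mem _ fun d _ => Submodule.smul_mem _ _
        (Submodule.subset_span (Set.mem_range_self d))
    have h3 : Module.Finite ℂ (Submodule.span ℂ (Set.range (kap m β))) :=
      Module.Finite.span_of_finite ℂ (Set.finite_range _)
    have h4 := Submodule.finrank_mono h1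
    have h5 := finrank_range_le_card (R := ℂ) (kap m β)
    rw [Fintype.card_fin] at h5
    exact h4.trans h5
  have hle := LinearMap.finrank_le_finrank_of_injective hinj
  have heq : Module.finrank ℂ (KQ q) = Module.finrank ℂ (KQ (fun i => r2 (q i))) := by omega
  have hsurj : Function.Surjective R :=
    (LinearMap.injective_iff_surjective_of_finrank_eq_finrank heq).1 hinj
  obtain ⟨L, hL⟩ := hsurj ⟨l, hl⟩
  exact ⟨L.1, L.2, fun i => congrFun (congrArg Subtype.val hL) i⟩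

end Pool.Agent.Helper18.LB
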