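import Pool.Agent.Helper71.FC.Bert
import Pool.Agent.Helper71.FC.Rest

/-! LB-5: dimension bounds for `EE θ k` on `ℂ³` (replaces Macaulay): `e_(k+1) ≤ e_k + 2k + 1` for `k ≥ 1`.
Proofs.  `finrank_homog`: `homogeneousSubmodule_eq_finsupp_supported`, number of exponents of degree `d` in `n + 1` variables (`Sym`, stars and bars).
`syz2_le`: three binary cubics without common factor.  Some two constant combinations `u, v` of them are coprime: if `w 0 ≠ 0` has the (at most
three) linear factors `l_j`, a general combination `v` of `w 1, w 2` and `w 0` is not divisible by any `l_j` (factor binary forms, or: vanish at the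
finitely many roots of `w 0`).  After a constant invertible change `w = (u, v, t)` and the transposed change of `ζ`: the map `ζ ↦ ζ 2` has kernel
`{ζ 0 u + ζ 1 v = 0} = (v, -u) S_(k-2)` (`u, v` coprime), so the dimension is at most `(k + 2) + (k - 1)`; use `finrank_homog`.
`e_step0`: the map `ξ ↦ (at0 (ξ i))_i` on `EE θ (k+1)` has values in `Syz (at0 θ_12, at0 θ_20, at0 θ_01)` and kernel `X 0 * EE θ k`.
`e_step`: by `cop_gen` (`m = 2`) for general `g` the family `at0 (pb2 g θ i j)` has no common factor (`at0 (pb2 g θ i j)` are constant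
combinations of `lsub φ (θ k l)`, `φ` = last two columns of `g`, and conversely); `finrank_EE_pb2`. -/

set_option autoImplicit false

namespace Pool.Agent.Helper18.LB

open MvPolynomial
open scoped BigOperators
open Pool.Agent.Helper71.FC
open Pool.Agent.Helper71.FL (w12 pf ct Dec Closed dd at0 res)

/-! ### auxiliary facts on homogeneous components -/

private theorem hcm {n : ℕ} {f g : Pn n} {d : ℕ} (hg : g.IsHomogeneous d) (m : ℕ) :
    homogeneousComponent (m + d) (f * g) = homogeneousComponent m f * g := by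
  have h1 : ∀ i, homogeneousComponent (m + d) (homogeneousComponent i f * g) =
      if i = m then homogeneousComponent m f * g else 0 := by
    intro i
    rw [homogeneousComponent_of_mem (n := i + d) ((homogeneousComponent_isHomogeneous i f).mul hg)]
    by_cases h : i = m
    · rw [if_pos h, if_pos (by omega), h]
    · rw [if_neg h, if_neg (by omega)]
  conv_lhs => rw [← sum_homogeneousComponent f, Finset.sum_mul, map_sum]
  rw [Finset.sum_congr rfl (fun i _ => h1 i), Finset.sum_ite_eq']
  split_ifs with h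
  · rfl
  · rw [homogeneousComponent_eq_zero, zero_mul]
    rw [Finset.mem_range] at h
    omega

private theorem hcm_lt {n : ℕ} {f g : Pn n} {d : ℕ} (hg : g.IsHomogeneous d) {m : ℕ} (hm : m < d) :
    homogeneousComponent m (f * g) = 0 := by
  have h1 : ∀ i, homogeneousComponent m (homogeneousComponent i f * g) = 0 := by
    intro i
    rw [homogeneousComponent_of_mem (n := i + d) ((homogeneousComponent_isHomogeneous i f).mul hg),
      if_neg (by omega)]
  conv_lhs => rw [← sum_homogeneousComponent f, Finset.sum_mul, map_sum]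
  exact Finset.sum_eq_zero fun i _ => h1 i

/-- homogeneous quotients -/
private theorem hom_quot {n : ℕ} {f g : Pn n} {m d : ℕ} (hg : g.IsHomogeneous d) (hg0 : g ≠ 0)
    (h : (f * g).IsHomogeneous (m + d)) : f.IsHomogeneous m := by
  have h1 := hcm (f := f) hg m
  rw [homogeneousComponent_eq_self h] at h1
  have h2 := mul_right_cancel₀ hg0 h1
  rw [h2]
  exact homogeneousComponent_isHomogeneous m f

private theorem hom_quot0 {n : ℕ} {f g : Pn n} {m d : ℕ} (hg : g.IsHomogeneous d) (hg0 : g ≠ 0)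
    (hmd : m < d) (h : (f * g).IsHomogeneous m) : f = 0 := by
  have h1 := hcm_lt (f := f) hg hmd
  rw [homogeneousComponent_eq_self h] at h1
  exact (mul_eq_zero.1 h1).resolve_right hg0

private noncomputable def cf (n d : ℕ) : homogeneousSubmodule (Fin n) ℂ d →ₗ[ℂ]
    ((Finset.finsuppAntidiag (Finset.univ : Finset (Fin n)) d) → ℂ) where
  toFun := fun p ν => coeff ν.1 p.1
  map_add' := by
    intro a b
    funext ν
    exact coeff_add _ _ _
  map_smul' := by
    intro c a
    funext ν
    exact coeff_smul _ _ _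

private theorem mem_anti {n d : ℕ} {ν : Fin n →₀ ℕ} :
    ν ∈ Finset.finsuppAntidiag (Finset.univ : Finset (Fin n)) d ↔ ν.degree = d := by
  rw [Finset.mem_finsuppAntidiag, Finsupp.degree_eq_sum]
  constructor
  · exact fun h => h.1
  · exact fun h => ⟨h, Finset.subset_univ _⟩

private theorem cf_inj (n d : ℕ) : Function.Injective (cf n d) := by
  intro a b hab
  apply Subtype.ext
  ext ν
  by_cases hν : ν ∈ Finset.finsuppAntidiag (Finset.univ : Finset (Fin n)) d
  · exact congrFun hab ⟨ν, hν⟩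
  · have hdeg : Finsupp.degree ν ≠ d := fun h => hν (mem_anti.2 h)
    rw [IsHomogeneous.coeff_eq_zero a.2 hdeg, IsHomogeneous.coeff_eq_zero b.2 hdeg]

private theorem cf_surj (n d : ℕ) : Function.Surjective (cf n d) := by
  classical
  intro c
  refine ⟨⟨∑ ν, monomial ν.1 (c ν), ?_⟩, ?_⟩
  · rw [mem_homogeneousSubmodule]
    refine IsHomogeneous.sum _ _ _ (fun ν _ => isHomogeneous_monomial _ (mem_anti.1 ν.2))
  · funext ν
    change coeff ν.1 (∑ μ, monomial μ.1 (c μ)) = c ν
    rw [coeff_sum, Finset.sum_eq_single ν]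
    · rw [coeff_monomial, if_pos rfl]
    · intro μ _ hμ
      rw [coeff_monomial, if_neg (fun h => hμ (Subtype.ext h))]
    · intro h; exact absurd (Finset.mem_univ _) h

theorem finrank_homog (n d : ℕ) :
    Module.finrank ℂ (homogeneousSubmodule (Fin (n + 1)) ℂ d) = (n + d).choose d := by
  rw [LinearEquiv.finrank_eq (LinearEquiv.ofBijective (cf (n + 1) d) ⟨cf_inj _ _, cf_surj _ _⟩),
    Module.finrank_fintype_fun_eq_card, Fintype.card_coe, Finset.card_finsuppAntidiag_nat_eq_choose,
    Finset.card_univ, Fintype.card_fin]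
  congr 1
  omega

theorem finite_homog (n d : ℕ) : Module.Finite ℂ (homogeneousSubmodule (Fin n) ℂ d) :=
  Module.Finite.of_injective (cf n d) (cf_inj n d)

/-- homogeneous syzygies -/
noncomputable def Syz {n : ℕ} (w : Fin 3 → Pn n) (k : ℕ) : Submodule ℂ (Fin 3 → Pn n) where
  carrier := {ζ | (∀ i, (ζ i).IsHomogeneous k) ∧ ∑ i, ζ i * w i = 0}
  add_mem' := by
    rintro a b ⟨h1, h2⟩ ⟨h3, h4⟩
    refine ⟨fun i => (h1 i).add (h3 i), ?_⟩
    simp only [Pi.add_apply, add_mul, Finset.sum_add_distrib, h2, h4, add_zero]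
  zero_mem' := ⟨fun i => isHomogeneous_zero _ _ _, by simp⟩
  smul_mem' := by
    rintro c a ⟨h1, h2⟩
    refine ⟨fun i => ?_, ?_⟩
    · have := (isHomogeneous_C (Fin n) c).mul (h1 i)
      rw [zero_add] at this
      rw [Pi.smul_apply, smul_eq_C_mul]
      exact this
    · simp only [Pi.smul_apply, smul_mul_assoc, ← Finset.smul_sum, h2, smul_zero]

/-- two elements without common irreducible factor -/
private theorem exists_good {u a b : Pn 2} (hu : u ≠ 0)
    (h : ∀ p, p ∣ u → p ∣ a → p ∣ b → IsUnit p) : ∃ t : ℂ, IsRelPrime u (a + C t * b) := by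
  classical
  have hfin : (⋃ q ∈ (UniqueFactorizationMonoid.factors u).toFinset, {t : ℂ | q ∣ a + C t * b}).Finite := by
    refine Set.Finite.biUnion (Finset.finite_toSet _) (fun q hq => ?_)
    apply Set.Subsingleton.finite
    intro t ht t' ht'
    by_contra hne
    rw [Finset.mem_coe, Multiset.mem_toFinset] at hq
    have hq1 : Irreducible q := UniqueFactorizationMonoid.irreducible_of_factor q hq
    have hq2 : q ∣ u := UniqueFactorizationMonoid.dvd_of_mem_factors hq
    have h1 : q ∣ C (t - t') * b := by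
      have h2 := dvd_sub ht ht'
      have h3 : a + C t * b - (a + C t' * b) = C (t - t') * b := by
        rw [C_sub]; ring
      rwa [h3] at h2
    have hb : q ∣ b := by
      have h2 : b = C (t - t')⁻¹ * (C (t - t') * b) := by
        rw [← mul_assoc, ← C_mul, inv_mul_cancel₀ (sub_ne_zero.2 hne), C_1, one_mul]
      rw [h2]
      exact h1.mul_left _
    have ha : q ∣ a := by
      have h2 := dvd_sub ht (hb.mul_left (C t))
      rwa [add_sub_cancel_right] at h2
    exact hq1.not_isUnit (h q hq2 ha hb)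
  obtain ⟨t, ht⟩ := hfin.infinite_compl.nonempty
  refine ⟨t, fun d hd1 hd2 => ?_⟩
  by_contra hd
  have hd0 : d ≠ 0 := by
    rintro rfl
    exact hu (zero_dvd_iff.1 hd1)
  obtain ⟨p, hp1, hp2⟩ := WfDvdMonoid.exists_irreducible_factor hd hd0
  obtain ⟨q, hq1, hq2⟩ := UniqueFactorizationMonoid.exists_mem_factors_of_dvd hu hp1 (hp2.trans hd1)
  apply ht
  rw [Set.mem_iUnion₂]
  exact ⟨q, Multiset.mem_toFinset.2 hq1, hq2.symm.dvd.trans (hp2.trans hd2)⟩

/-- two coprime constant combinations of coprime binary cubics -/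
theorem exists_cop2 {w : Fin 3 → Pn 2} (hw : ∀ i, (w i).IsHomogeneous 3) (hc : CopF w) :
    ∃ A A' : Fin 3 → Fin 3 → ℂ, Inv A A' ∧
      IsRelPrime (∑ j, C (A 0 j) * w j) (∑ j, C (A 1 j) * w j) := by
  have h0 : ∃ i, w i ≠ 0 := by
    by_contra h
    push Not at h
    exact not_isUnit_zero (hc 0 (fun i => by rw [h i]))
  obtain ⟨i0, hi0⟩ := h0
  obtain ⟨t, ht⟩ := exists_good (a := w (i0 + 1)) (b := w (i0 + 2)) hi0 (by
    intro p h1 h2 h3
    refine hc p (fun i => ?_)
    have : i = i0 ∨ i = i0 + 1 ∨ i = i0 + 2 := by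
      fin_cases i0 <;> fin_cases i <;> decide
    rcases this with rfl | rfl | rfl <;> assumption)
  fin_cases i0
  · refine ⟨![![1, 0, 0], ![0, 1, t], ![0, 0, 1]], ![![1, 0, 0], ![0, 1, -t], ![0, 0, 1]], ?_, ?_⟩
    · constructor <;> funext i j <;> fin_cases i <;> fin_cases j <;>
        simp [mm, idm, Fin.sum_univ_three]
    · simpa [Fin.sum_univ_three] using ht
  · refine ⟨![![0, 1, 0], ![t, 0, 1], ![1, 0, 0]], ![![0, 0, 1], ![1, 0, 0], ![0, 1, -t]], ?_, ?_⟩
    · constructor <;> funext i j <;> fin_cases i <;> fin_cases j <;>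
        simp [mm, idm, Fin.sum_univ_three]
    · have e1 : ((1 : Fin 3) + 1) = 2 := rfl
      have e2 : ((1 : Fin 3) + 2) = 0 := rfl
      simp only [Fin.mk_one, e1, e2] at ht
      simpa [Fin.sum_univ_three, add_comm] using ht
  · refine ⟨![![0, 0, 1], ![1, t, 0], ![0, 1, 0]], ![![0, 1, -t], ![0, 0, 1], ![1, 0, 0]], ?_, ?_⟩
    · constructor <;> funext i j <;> fin_cases i <;> fin_cases j <;>
        simp [mm, idm, Fin.sum_univ_three]
    · have e1 : ((2 : Fin 3) + 1) = 0 := rfl
      have e2 : ((2 : Fin 3) + 2) = 1 := rfl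
      simp only [Fin.reduceFinMk, e1, e2] at ht
      simpa [Fin.sum_univ_three] using ht

private theorem not_unit3 {p : Pn 2} (hp : p.IsHomogeneous 3) : ¬ IsUnit p := by
  intro h
  obtain ⟨q, hq⟩ := h.exists_left_inv
  have hp0 : p ≠ 0 := by
    rintro rfl
    rw [mul_zero] at hq
    exact zero_ne_one hq
  have h1 : (q * p).IsHomogeneous 0 := by
    rw [hq]
    exact isHomogeneous_one _ _
  have h2 := hom_quot0 hp hp0 (by omega) h1
  rw [h2, zero_mul] at hq
  exact zero_ne_one hq

private theorem finite_Syz {n : ℕ} (w : Fin 3 → Pn n) (k : ℕ) : Module.Finite ℂ (Syz w k) := by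
  have := finite_homog n k
  let F : Syz w k →ₗ[ℂ] (Fin 3 → homogeneousSubmodule (Fin n) ℂ k) :=
    { toFun := fun ζ i => ⟨ζ.1 i, ζ.2.1 i⟩
      map_add' := fun a b => rfl
      map_smul' := fun c a => rfl }
  refine Module.Finite.of_injective F (fun a b hab => Subtype.ext (funext fun i => ?_))
  exact congrArg Subtype.val (congrFun hab i)

theorem syz2_le {w : Fin 3 → Pn 2} (hw : ∀ i, (w i).IsHomogeneous 3) (hc : CopF w) {k : ℕ}
    (hk : 1 ≤ k) : Module.finrank ℂ (Syz w (k + 1)) ≤ 2 * k + 1 := by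
  obtain ⟨A, A', ⟨hA1, hA2⟩, hrel⟩ := exists_cop2 hw hc
  have := finite_Syz w (k + 1)
  have := finite_homog 2 (k + 1)
  set u : Pn 2 := ∑ j, C (A 0 j) * w j with hu
  set v : Pn 2 := ∑ j, C (A 1 j) * w j with hv
  have hcomb : ∀ a : Fin 3 → ℂ, (∑ j, C (a j) * w j).IsHomogeneous 3 := by
    intro a
    refine IsHomogeneous.sum _ _ _ (fun j _ => ?_)
    have := (isHomogeneous_C (Fin 2) (a j)).mul (hw j)
    rwa [zero_add] at this
  have hu3 : u.IsHomogeneous 3 := hcomb _
  have hv3 : v.IsHomogeneous 3 := hcomb _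
  have hu0 : u ≠ 0 := by
    intro h0
    rw [h0] at hrel
    exact not_unit3 hv3 (hrel (dvd_zero _) dvd_rfl)
  -- the new syzygy
  let Z : Syz w (k + 1) → Fin 3 → Pn 2 := fun ζ r => ∑ i, C (A' i r) * ζ.1 i
  have hback : ∀ (ζ : Syz w (k + 1)) (i : Fin 3), ζ.1 i = ∑ r, C (A r i) * Z ζ r := by
    intro ζ i
    have h1 : ∀ j, ∑ r, A' j r * A r i = if j = i then 1 else 0 := by
      intro j
      exact congrFun (congrFun hA2 j) i
    have h2 : ∑ r, C (A r i) * Z ζ r = ∑ j, C (∑ r, A' j r * A r i) * ζ.1 j := by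
      simp only [Z, Finset.mul_sum, map_sum, Finset.sum_mul, C_mul]
      rw [Finset.sum_comm]
      exact Finset.sum_congr rfl fun _ _ => Finset.sum_congr rfl fun _ _ => by ring
    rw [h2]
    simp only [h1]
    rw [Finset.sum_eq_single i]
    · simp
    · intro j _ hj
      rw [if_neg hj]; simp
    · intro h; exact absurd (Finset.mem_univ _) h
  have hZ : ∀ ζ : Syz w (k + 1), ∑ r, Z ζ r * (∑ j, C (A r j) * w j) = 0 := by
    intro ζ
    have h1 : ∀ i j, ∑ r, A' i r * A r j = if i = j then 1 else 0 := by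
      intro i j
      exact congrFun (congrFun hA2 i) j
    have hwi : ∀ i, ∑ r, C (A' i r) * (∑ j, C (A r j) * w j) = w i := by
      intro i
      calc ∑ r, C (A' i r) * (∑ j, C (A r j) * w j) = ∑ r, ∑ j, C (A' i r * A r j) * w j := by
            refine Finset.sum_congr rfl fun r _ => ?_
            rw [Finset.mul_sum]
            exact Finset.sum_congr rfl fun j _ => by rw [C_mul]; ring
        _ = ∑ j, ∑ r, C (A' i r * A r j) * w j := Finset.sum_comm
        _ = ∑ j, C (∑ r, A' i r * A r j) * w j := by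
            refine Finset.sum_congr rfl fun j _ => ?_
            rw [map_sum, Finset.sum_mul]
        _ = w i := by
            simp only [h1]
            rw [Finset.sum_eq_single i]
            · simp
            · intro j _ hj
              rw [if_neg (Ne.symm hj)]; simp
            · intro h; exact absurd (Finset.mem_univ _) h
    calc ∑ r, Z ζ r * (∑ j, C (A r j) * w j)
        = ∑ r, ∑ i, ζ.1 i * (C (A' i r) * (∑ j, C (A r j) * w j)) := by
          refine Finset.sum_congr rfl fun r _ => ?_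
          change (∑ i, C (A' i r) * ζ.1 i) * _ = _
          rw [Finset.sum_mul]
          exact Finset.sum_congr rfl fun i _ => by ring
      _ = ∑ i, ∑ r, ζ.1 i * (C (A' i r) * (∑ j, C (A r j) * w j)) := Finset.sum_comm
      _ = ∑ i, ζ.1 i * w i := by
          refine Finset.sum_congr rfl fun i _ => ?_
          rw [← Finset.mul_sum, hwi]
      _ = 0 := ζ.2.2
  have hZhom : ∀ (ζ : Syz w (k + 1)) (r : Fin 3), (Z ζ r).IsHomogeneous (k + 1) := by
    intro ζ r
    refine IsHomogeneous.sum _ _ _ (fun j _ => ?_)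
    have := (isHomogeneous_C (Fin 2) (A' j r)).mul (ζ.2.1 j)
    rwa [zero_add] at this
  let f : Syz w (k + 1) →ₗ[ℂ] homogeneousSubmodule (Fin 2) ℂ (k + 1) :=
    { toFun := fun ζ => ⟨Z ζ 2, hZhom ζ 2⟩
      map_add' := by
        intro a b
        apply Subtype.ext
        change ∑ i, C (A' i 2) * (a.1 i + b.1 i) = ∑ i, C (A' i 2) * a.1 i + ∑ i, C (A' i 2) * b.1 i
        rw [← Finset.sum_add_distrib]
        exact Finset.sum_congr rfl fun _ _ => mul_add _ _ _
      map_smul' := by
        intro c a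
        apply Subtype.ext
        change ∑ i, C (A' i 2) * (c • a.1 i) = c • ∑ i, C (A' i 2) * a.1 i
        rw [Finset.smul_sum]
        exact Finset.sum_congr rfl fun _ _ => mul_smul_comm _ _ _ }
  have hker : ∀ ζ : Syz w (k + 1), f ζ = 0 → ∃ c : Pn 2, (c * u).IsHomogeneous (k + 1) ∧
      ∀ i, ζ.1 i = C (A 0 i) * (-(v * c)) + C (A 1 i) * (u * c) := by
    intro ζ hζ
    have hz2 : Z ζ 2 = 0 := congrArg Subtype.val hζ
    have h1 := hZ ζ
    rw [Fin.sum_univ_three, hz2, zero_mul, add_zero, ← hu, ← hv] at h1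
    have h2 : u ∣ Z ζ 1 * v := ⟨- Z ζ 0, by linear_combination h1⟩
    obtain ⟨c, hc'⟩ := hrel.dvd_of_dvd_mul_right h2
    have h3 : Z ζ 0 = -(v * c) := by
      apply mul_right_cancel₀ hu0
      rw [hc'] at h1
      linear_combination h1
    refine ⟨c, ?_, fun i => ?_⟩
    · rw [mul_comm, ← hc']
      exact hZhom ζ 1
    · rw [hback ζ i, Fin.sum_univ_three, hz2, mul_zero, add_zero, h3, hc']
  have hrange : Module.finrank ℂ (LinearMap.range f) ≤ k + 2 := by
    refine (Submodule.finrank_le _).trans ?_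
    have h1 := finrank_homog 1 (k + 1)
    rw [show 1 + (k + 1) = (k + 1) + 1 by omega, Nat.choose_succ_self_right] at h1
    exact h1.le
  have hkerrank : Module.finrank ℂ (LinearMap.ker f) ≤ k - 1 := by
    rcases Nat.lt_or_ge k 2 with hk2 | hk2
    · have h1 : LinearMap.ker f = ⊥ := by
        rw [Submodule.eq_bot_iff]
        intro ζ hζ
        obtain ⟨c, hc1, hc2⟩ := hker ζ (LinearMap.mem_ker.1 hζ)
        have hc0 : c = 0 := hom_quot0 hu3 hu0 (by omega) hc1
        apply Subtype.ext
        funext i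
        rw [hc2 i, hc0]
        simp
      rw [h1, finrank_bot]
      omega
    · obtain ⟨m, rfl⟩ : ∃ m, k = m + 2 := ⟨k - 2, by omega⟩
      have := finite_homog 2 m
      let L : homogeneousSubmodule (Fin 2) ℂ m →ₗ[ℂ] (Fin 3 → Pn 2) :=
        { toFun := fun c i => C (A 0 i) * (-(v * c.1)) + C (A 1 i) * (u * c.1)
          map_add' := by
            intro a b
            funext i
            change C (A 0 i) * (-(v * (a.1 + b.1))) + C (A 1 i) * (u * (a.1 + b.1)) =
              (C (A 0 i) * (-(v * a.1)) + C (A 1 i) * (u * a.1)) +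
              (C (A 0 i) * (-(v * b.1)) + C (A 1 i) * (u * b.1))
            ring
          map_smul' := by
            intro c a
            funext i
            change C (A 0 i) * (-(v * (c • a.1))) + C (A 1 i) * (u * (c • a.1)) =
              c • (C (A 0 i) * (-(v * a.1)) + C (A 1 i) * (u * a.1))
            simp only [smul_eq_C_mul]
            ring }
      have h1 : (LinearMap.ker f).map (Syz w (m + 2 + 1)).subtype ≤ LinearMap.range L := by
        rintro _ ⟨ζ, hζ, rfl⟩
        obtain ⟨c, hc1, hc2⟩ := hker ζ (LinearMap.mem_ker.1 hζ)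
        refine ⟨⟨c, hom_quot hu3 hu0 hc1⟩, ?_⟩
        funext i
        exact (hc2 i).symm
      rw [← Submodule.finrank_map_subtype_eq]
      refine (Submodule.finrank_mono h1).trans ((LinearMap.finrank_range_le L).trans ?_)
      have h2 := finrank_homog 1 m
      rw [show 1 + m = m + 1 by omega, Nat.choose_succ_self_right] at h2
      exact h2.le
  have := LinearMap.finrank_range_add_finrank_ker f
  omega

private theorem at0_hom {f : Pn 3} {d : ℕ} (h : f.IsHomogeneous d) : (at0 2 ℂ f).IsHomogeneous d := by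
  rw [at0_eq_lsub]
  exact lsub_hom h

theorem e_step0 {θ : F2 3} (hF : Fol θ)
    (hc : CopF (fun q : Fin 3 × Fin 3 => at0 2 ℂ (θ q.1 q.2))) {k : ℕ} (hk : 1 ≤ k) :
    Module.finrank ℂ (EE θ (k + 1)) ≤ Module.finrank ℂ (EE θ k) + (2 * k + 1) := by
  have := finite_EE θ (k + 1)
  have := finite_EE θ k
  set w : Fin 3 → Pn 2 := ![at0 2 ℂ (θ 1 2), at0 2 ℂ (θ 2 0), at0 2 ℂ (θ 0 1)] with hw
  have := finite_Syz w (k + 1)
  have hw3 : ∀ i, (w i).IsHomogeneous 3 := by
    intro i
    fin_cases i <;> exact at0_hom (hF.hom _ _)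
  have hcw : CopF w := by
    intro p hp
    apply hc p
    have h12 : p ∣ at0 2 ℂ (θ 1 2) := hp 0
    have h20 : p ∣ at0 2 ℂ (θ 2 0) := hp 1
    have h01 : p ∣ at0 2 ℂ (θ 0 1) := hp 2
    have hneg : ∀ i j, p ∣ at0 2 ℂ (θ i j) → p ∣ at0 2 ℂ (θ j i) := by
      intro i j h
      rw [hF.dec.2.1 j i, map_neg]
      exact (dvd_neg).2 h
    have hz : ∀ i, p ∣ at0 2 ℂ (θ i i) := by
      intro i
      rw [hF.dec.1, map_zero]
      exact dvd_zero _
    rintro ⟨i, j⟩
    fin_cases i <;> fin_cases j
    · exact hz 0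
    · exact h01
    · exact hneg 2 0 h20
    · exact hneg 0 1 h01
    · exact hz 1
    · exact h12
    · exact h20
    · exact hneg 1 2 h12
    · exact hz 2
  have hmem : ∀ ξ ∈ EE θ (k + 1), (fun i => at0 2 ℂ (ξ i)) ∈ Syz w (k + 1) := by
    intro ξ hξ
    refine ⟨fun i => at0_hom (hξ.1 i), ?_⟩
    have h1 := congrArg (at0 2 ℂ) (hξ.2 0 1 2)
    unfold w12 at h1
    rw [Fin.sum_univ_three]
    change at0 2 ℂ (ξ 0) * at0 2 ℂ (θ 1 2) + at0 2 ℂ (ξ 1) * at0 2 ℂ (θ 2 0)
      + at0 2 ℂ (ξ 2) * at0 2 ℂ (θ 0 1) = 0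
    simpa only [map_add, map_mul, map_zero] using h1
  let G : EE θ (k + 1) →ₗ[ℂ] Syz w (k + 1) :=
    { toFun := fun ξ => ⟨fun i => at0 2 ℂ (ξ.1 i), hmem ξ.1 ξ.2⟩
      map_add' := by
        intro a b
        apply Subtype.ext
        funext i
        exact map_add _ _ _
      map_smul' := by
        intro c a
        apply Subtype.ext
        funext i
        exact map_smul (at0 2 ℂ) c (a.1 i) }
  let M : F1 3 →ₗ[ℂ] F1 3 :=
    { toFun := fun η i => (X 0 : Pn 3) * η i
      map_add' := by
        intro a b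
        funext i
        exact mul_add (X 0 : Pn 3) (a i) (b i)
      map_smul' := by
        intro c a
        funext i
        exact mul_smul_comm c (X 0 : Pn 3) (a i) }
  have hX0 : (X 0 : Pn 3) ≠ 0 := X_ne_zero 0
  have hker : (LinearMap.ker G).map (EE θ (k + 1)).subtype ≤ (EE θ k).map M := by
    rintro _ ⟨ξ, hξ, rfl⟩
    have h1 : ∀ i, at0 2 ℂ (ξ.1 i) = 0 := fun i =>
      congrFun (congrArg Subtype.val (LinearMap.mem_ker.1 hξ)) i
    have h2 : ∀ i, ∃ g, ξ.1 i = X 0 * g := fun i => (at0_eq_zero_iff (n := 2) _).1 (h1 i)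
    choose η hη using h2
    refine ⟨η, ⟨fun i => ?_, fun i j l => ?_⟩, ?_⟩
    · refine hom_quot (isHomogeneous_X ℂ (0 : Fin 3)) hX0 ?_
      rw [mul_comm, ← hη i]
      exact ξ.2.1 i
    · have h3 := ξ.2.2 i j l
      have h4 : w12 ξ.1 θ i j l = X 0 * w12 η θ i j l := by
        unfold w12
        rw [hη i, hη j, hη l]
        ring
      rw [h4] at h3
      exact (mul_eq_zero.1 h3).resolve_left hX0
    · funext i
      exact (hη i).symm
  have h1 : Module.finrank ℂ (LinearMap.ker G) ≤ Module.finrank ℂ (EE θ k) := by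
    rw [← Submodule.finrank_map_subtype_eq]
    have : Module.Finite ℂ ((EE θ k).map M) := inferInstance
    exact (Submodule.finrank_mono hker).trans (Submodule.finrank_map_le M _)
  have h2 : Module.finrank ℂ (LinearMap.range G) ≤ 2 * k + 1 :=
    (Submodule.finrank_le _).trans (syz2_le hw3 hcw hk)
  have := LinearMap.finrank_range_add_finrank_ker G
  omega

theorem e_step {θ : F2 3} (hF : Fol θ) {k : ℕ} (hk : 1 ≤ k) :
    Module.finrank ℂ (EE θ (k + 1)) ≤ Module.finrank ℂ (EE θ k) + (2 * k + 1) := by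
  have h1 : GenM (fun φ : Fin 3 → Fin 2 → ℂ =>
      CopF (fun q : Fin 3 × Fin 3 => Pool.Agent.Helper93.lsub φ (θ q.1 q.2))) :=
    cop_gen (by omega) (by omega) (fun q => hF.hom q.1 q.2)
      (fun p hp => hF.prim p (fun i j => hp (i, j)))
  have h2 : GenM (fun φ : Fin 3 → Fin 3 → ℂ =>
      CopF (fun q : Fin 3 × Fin 3 => Pool.Agent.Helper93.lsub (fun i (j : Fin 2) => φ i j.succ) (θ q.1 q.2))) :=
    h1.cols (fun l : Fin 2 => l.succ) (Fin.succ_injective 2)
  obtain ⟨g, hg1, g', hg⟩ := (h2.and (GenM.inv 3)).exists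
  have h3 : ∀ f : Pn 3, at0 2 ℂ (Pool.Agent.Helper93.lsub g f) =
      Pool.Agent.Helper93.lsub (fun i (j : Fin 2) => g i j.succ) f := by
    intro f
    have h30 : mm g (fun (k : Fin (2 + 1)) (l : Fin 2) => if k = l.succ then (1 : ℂ) else 0) =
        fun i (j : Fin 2) => g i j.succ := by
      funext i j
      unfold mm
      rw [Finset.sum_eq_single j.succ]
      · beta_reduce
        rw [if_pos rfl, mul_one]
      · intro l _ hl
        beta_reduce
        rw [if_neg hl, mul_zero]
      · intro h; exact absurd (Finset.mem_univ _) h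
    have e1 := at0_eq_lsub (n := 2) (Pool.Agent.Helper93.lsub g f)
    have e2 := lsub_mm g (fun (k : Fin (2 + 1)) (l : Fin 2) => if k = l.succ then (1 : ℂ) else 0) f
    rw [h30] at e2
    exact e1.trans e2
  rw [← finrank_EE_pb2 θ (k + 1) hg, ← finrank_EE_pb2 θ k hg]
  refine e_step0 (Fol_pb2 hF hg) (fun p hp => hg1 p ?_) hk
  rintro ⟨a, b⟩
  change p ∣ Pool.Agent.Helper93.lsub (fun i (j : Fin 2) => g i j.succ) (θ a b)
  rw [← h3]
  have h4 : ∀ x y, ∑ i, g x i * g' i y = if x = y then 1 else 0 := fun x y =>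
    congrFun (congrFun hg.1 x) y
  have h5 : Pool.Agent.Helper93.lsub g (θ a b) = ∑ i, ∑ j, C (g' i a * g' j b) * pb2 g θ i j := by
    have e1 : ∑ i, ∑ j, C (g' i a * g' j b) * pb2 g θ i j =
        ∑ x, ∑ y, C ((∑ i, g x i * g' i a) * (∑ j, g y j * g' j b)) *
          Pool.Agent.Helper93.lsub g (θ x y) := by
      unfold pb2
      simp only [Finset.mul_sum, Finset.sum_mul, map_sum, C_mul]
      rw [Finset.sum_congr rfl fun i _ => Finset.sum_comm]
      rw [Finset.sum_comm]
      refine Finset.sum_congr rfl fun x _ => ?_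
      rw [Finset.sum_congr rfl fun i _ => Finset.sum_comm]
      rw [Finset.sum_comm]
      refine Finset.sum_congr rfl fun y _ => ?_
      rw [Finset.sum_comm]
      exact Finset.sum_congr rfl fun _ _ => Finset.sum_congr rfl fun _ _ => by ring
    rw [e1]
    simp only [h4]
    rw [Finset.sum_eq_single a, Finset.sum_eq_single b]
    · simp
    · intro y _ hy
      rw [if_neg hy]; simp
    · intro h; exact absurd (Finset.mem_univ _) h
    · intro x _ hx
      rw [if_neg hx]; simp
    · intro h; exact absurd (Finset.mem_univ _) h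
  rw [h5, map_sum]
  refine Finset.dvd_sum fun i _ => ?_
  rw [map_sum]
  refine Finset.dvd_sum fun j _ => ?_
  rw [map_mul]
  exact (hp (i, j)).mul_left _

end Pool.Agent.Helper18.LB
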