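import Pool.Agent.Helper18.LB.Pres
import Pool.Agent.Helper18.LB.Dim3
import Pool.Agent.Helper71.FC.Sat

/-! LB-6: the module `M = B^sat / B` on `ℂ³` for the normal form (`M[d]` is dual to `(S/(a,b,m))_(e+2-d)`).
Proof of `NF.mM_le`.  Let `b ∈ BS θ d`, `K` large with `f b ∈ B` for all `f` of degree `K` (one `K` for the whole finite-dimensional `BS θ d`),
`g_i = X_i^K`.  `g_i b = c_i ∧ θ`, `c_i` homogeneous of degree `d + K - 3`; `g_j c_i - g_i c_j` is annihilated by `∧ θ`, `= Xi (e_ij)`,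
`Xi (f,g,k) = f σ1 + g σ2 + k τ` (`NF.gen`), and `g_2 e_01 - g_1 e_02 + g_0 e_12 = (a f, -b f, -m f)` (`NF.ker`), `f` homogeneous of degree
`D = d + 3K - 5 - e`; all choices homogeneous (take components).  So `a f, b f, m f ∈ (g)`.  `f ∈ (g)` implies `b ∈ B` (as in `b_of_cech`: change the
`e_ij`, then the `c_i`; only `g_0, g_1, g_2` regular is used).
Let `Λ(f)(h)` be the coefficient of `(X_0 X_1 X_2)^(K-1)` in `f h`, `h` homogeneous of degree `3K - 3 - D = e + 2 - d = j`: members of `(g)`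
have coefficient 0 there, so `Λ(f)` vanishes on the members of `(a,b,m)` of degree `j`; if `f ∉ (g)` (monomial ideal) then `Λ(f) ≠ 0` (and for `D > 3K - 3`
always `f ∈ (g)`: `NF.mM_zero`).  The pairs `(b, f)` form a vector space `R`, `R → BS θ d` is onto, and `(b,f) ↦ Λ(f)` has kernel inside the preimage of
`BB θ d`; so `mM θ d = dim R/(preimage of BB) ≤ rank Λ ≤ dim (S_j / (a,b,m)_j)`.
Corollaries: `e = 1`: `a, b, m` are three independent linear forms, `S_j = (a,b,m)_j` for `j ≥ 1`.  `e = 2`: dimensions 1, 2, 1, 0 for `j = 0, 1, 2, ≥ 3`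
(`S/(m) = ℂ[x,y]`, `a, b` coprime quadrics there, use `reg`). -/

set_option autoImplicit false

namespace Pool.Agent.Helper18.LB

open MvPolynomial
open scoped BigOperators
open Pool.Agent.Helper71.FC
open Pool.Agent.Helper71.FL (w12 pf ct Dec Closed dd)
open Pool.Agent.Helper28.FolReg (Reg2 Reg3)

/-! ### the ideals generated by powers of the variables -/

private theorem mem_IX {J : Set (Fin 3)} {K : ℕ} {f : Pn 3} :
    f ∈ Ideal.span ((fun i : Fin 3 => (X i : Pn 3) ^ K) '' J) ↔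
      ∀ s ∈ f.support, ∃ i ∈ J, K ≤ s i := by
  have h1 : (fun i : Fin 3 => (X i : Pn 3) ^ K) '' J =
      (fun s => monomial s (1 : ℂ)) '' ((fun i => Finsupp.single i K) '' J) := by
    rw [Set.image_image]
    apply Set.image_congr
    intro i _
    exact X_pow_eq_monomial
  rw [h1, mem_ideal_span_monomial_image]
  apply forall_congr'; intro s
  apply forall_congr'; intro _
  constructor
  · rintro ⟨t, ⟨i, hi, rfl⟩, ht⟩
    exact ⟨i, hi, by simpa using (Finsupp.single_le_iff.mp ht)⟩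
  · rintro ⟨i, hi, hs⟩
    exact ⟨_, ⟨i, hi, rfl⟩, Finsupp.single_le_iff.mpr hs⟩

private theorem reg_last {K : ℕ} {E u v : Pn 3} (h : X 2 ^ K * E = X 1 ^ K * u + X 0 ^ K * v) :
    ∃ F0 F1 : Pn 3, E = X 1 ^ K * F0 - X 0 ^ K * F1 := by
  have h1 : X 2 ^ K * E ∈ Ideal.span ((fun i : Fin 3 => (X i : Pn 3) ^ K) '' {1, 0}) := by
    rw [h]
    apply Ideal.add_mem
    · apply Ideal.mul_mem_right
      exact Ideal.subset_span ⟨1, by simp, rfl⟩
    · apply Ideal.mul_mem_right
      exact Ideal.subset_span ⟨0, by simp, rfl⟩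
  rw [mem_IX] at h1
  have h2 : E ∈ Ideal.span ((fun i : Fin 3 => (X i : Pn 3) ^ K) '' {1, 0}) := by
    rw [mem_IX]
    intro s hs
    have h3 : Finsupp.single 2 K + s ∈ (X 2 ^ K * E : Pn 3).support := by
      rw [mem_support_iff, X_pow_eq_monomial, coeff_monomial_mul, one_mul]
      exact mem_support_iff.mp hs
    obtain ⟨i, hi, h4⟩ := h1 _ h3
    refine ⟨i, hi, ?_⟩
    have h5 : i ≠ 2 := by
      rcases hi with rfl | rfl <;> decide
    rw [Finsupp.add_apply, Finsupp.single_apply, if_neg (Ne.symm h5), zero_add] at h4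
    exact h4
  rw [Set.image_pair, Ideal.mem_span_pair] at h2
  obtain ⟨p, q, hpq⟩ := h2
  exact ⟨p, -q, by rw [← hpq]; ring⟩

private theorem mem_three {K : ℕ} {f : Pn 3} (h : ∀ s ∈ f.support, ∃ i, K ≤ s i) :
    ∃ h0 h1 h2 : Pn 3, f = X 2 ^ K * h0 - X 1 ^ K * h1 + X 0 ^ K * h2 := by
  have h1 : f ∈ Ideal.span ((fun i : Fin 3 => (X i : Pn 3) ^ K) '' {2, 1, 0}) := by
    rw [mem_IX]
    intro s hs
    obtain ⟨i, hi⟩ := h s hs
    refine ⟨i, ?_, hi⟩
    fin_cases i <;> simp
  rw [Set.image_insert_eq, Set.image_pair, Ideal.mem_span_insert] at h1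
  obtain ⟨p, z, hz, hf⟩ := h1
  rw [Ideal.mem_span_pair] at hz
  obtain ⟨q, r, hqr⟩ := hz
  exact ⟨p, -q, r, by rw [hf, ← hqr]; ring⟩

private theorem coeff_zero {K : ℕ} {h0 h1 h2 : Pn 3} {s : Fin 3 →₀ ℕ} (hs : ∀ i, s i < K) :
    coeff s (X 2 ^ K * h0 - X 1 ^ K * h1 + X 0 ^ K * h2) = 0 := by
  have h : ∀ (i : Fin 3) (p : Pn 3), coeff s (X i ^ K * p) = 0 := by
    intro i p
    rw [X_pow_eq_monomial, coeff_monomial_mul', if_neg]
    intro hle
    have := Finsupp.single_le_iff.mp hle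
    exact absurd (hs i) (not_lt.mpr this)
  rw [coeff_add, coeff_sub, h, h, h]
  ring

/-- a homogeneous polynomial paired to zero with all polynomials of complementary degree -/
private theorem mem_of_pair {K D j : ℕ} (hK : 0 < K) (hDj : D + j = 3 * K - 3) {f : Pn 3}
    (hf : f.IsHomogeneous D)
    (h : ∀ g : Pn 3, g.IsHomogeneous j →
      coeff (Finsupp.equivFunOnFinite.symm (fun _ : Fin 3 => K - 1)) (f * g) = 0) :
    ∃ h0 h1 h2 : Pn 3, f = X 2 ^ K * h0 - X 1 ^ K * h1 + X 0 ^ K * h2 := by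
  apply mem_three
  intro s hs
  by_contra hcon
  push Not at hcon
  set μ : Fin 3 →₀ ℕ := Finsupp.equivFunOnFinite.symm (fun _ : Fin 3 => K - 1) with hμ
  have hμi : ∀ i, μ i = K - 1 := fun i => rfl
  have hle : s ≤ μ := by
    intro i
    have := hcon i
    rw [hμi]
    omega
  have hdeg : s.degree = D := by
    rw [mem_support_iff] at hs
    have := hf hs
    rw [Finsupp.degree_eq_weight_one]
    exact this
  have hμd : μ.degree = 3 * K - 3 := by
    rw [Finsupp.degree_eq_sum, Fin.sum_univ_three, hμi, hμi, hμi]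
    omega
  have h1 := h (monomial (μ - s) 1) (isHomogeneous_monomial 1 (by
    have h2 : (μ - s).degree + s.degree = μ.degree := by
      rw [← map_add, tsub_add_cancel_of_le hle]
    omega))
  rw [coeff_mul_monomial', if_pos tsub_le_self, mul_one] at h1
  have h3 : μ - (μ - s) = s := tsub_tsub_cancel_of_le hle
  rw [h3] at h1
  exact (mem_support_iff.mp hs) h1

private theorem mem_of_deg {K D : ℕ} (hD : 3 * K < D + 3) {f : Pn 3} (hf : f.IsHomogeneous D) :
    ∃ h0 h1 h2 : Pn 3, f = X 2 ^ K * h0 - X 1 ^ K * h1 + X 0 ^ K * h2 := by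
  apply mem_three
  intro s hs
  by_contra hcon
  push Not at hcon
  have hdeg : s.degree = D := by
    rw [mem_support_iff] at hs
    have := hf hs
    rw [Finsupp.degree_eq_weight_one]
    exact this
  rw [Finsupp.degree_eq_sum, Fin.sum_univ_three] at hdeg
  have h0 := hcon 0
  have h1 := hcon 1
  have h2 := hcon 2
  omega

/-! ### the relation between 3-forms of the saturation and polynomials -/

/-- generators of `E` -/
private noncomputable def sg (σ1 σ2 : F1 3) (a b : Pn 3) (φ1 φ2 : F1 3) : Fin 3 → F1 3 :=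
  ![σ1, σ2, tau a b φ1 φ2]

/-- the relation between the generators -/
private noncomputable def rl (a b m : Pn 3) : Fin 3 → Pn 3 := ![a, -b, -m]

private def Rel (θ : F2 3) (σ : Fin 3 → F1 3) (r : Fin 3 → Pn 3) (K : ℕ) (bb : F3 3) (f : Pn 3) :
    Prop :=
  ∃ (c0 c1 : F1 3) (E0 E1 E2 : Fin 3 → Pn 3),
    (∀ i j k, X 0 ^ K * bb i j k = w12 c0 θ i j k) ∧
    (∀ i, X 1 ^ K * c0 i - X 0 ^ K * c1 i = ∑ s, E0 s * σ s i) ∧
    (∀ s, X 2 ^ K * E0 s - X 1 ^ K * E1 s + X 0 ^ K * E2 s = f * r s)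

private theorem w12_sum (θ : F2 3) (F : Fin 3 → Pn 3) (σ : Fin 3 → F1 3)
    (hσ : ∀ s i j k, w12 (σ s) θ i j k = 0) (i j k : Fin 3) :
    w12 (fun l => ∑ s, F s * σ s l) θ i j k = 0 := by
  have h : w12 (fun l => ∑ s, F s * σ s l) θ i j k = ∑ s, F s * w12 (σ s) θ i j k := by
    unfold w12
    simp only [Finset.sum_mul, mul_add, Finset.sum_add_distrib]
    congr 1
    · congr 1
      · apply Finset.sum_congr rfl; intro s _; ring
      · apply Finset.sum_congr rfl; intro s _; ring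
    · apply Finset.sum_congr rfl; intro s _; ring
  rw [h]
  apply Finset.sum_eq_zero
  intro s _
  rw [hσ, mul_zero]

private theorem rel_close {θ : F2 3} {σ : Fin 3 → F1 3} {r : Fin 3 → Pn 3}
    (hσ : ∀ s i j k, w12 (σ s) θ i j k = 0) (hr : ∀ i, ∑ s, r s * σ s i = 0) {K : ℕ}
    {bb : F3 3} {f : Pn 3} (h : Rel θ σ r K bb f)
    (hf : ∃ h0 h1 h2 : Pn 3, f = X 2 ^ K * h0 - X 1 ^ K * h1 + X 0 ^ K * h2) : IsB θ bb := by
  obtain ⟨c0, c1, E0, E1, E2, hc, h01, hE⟩ := h
  obtain ⟨h0, h1, h2, hf⟩ := hf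
  have hF : ∀ s, ∃ F0 F1 : Pn 3, E0 s - h0 * r s = X 1 ^ K * F0 - X 0 ^ K * F1 := by
    intro s
    apply reg_last (u := E1 s - h1 * r s) (v := - (E2 s - h2 * r s))
    have := hE s
    rw [hf] at this
    linear_combination this
  choose F0 F1 hF using hF
  have hdv : ∀ i, (X 0 : Pn 3) ^ K ∣ c0 i - ∑ s, F0 s * σ s i := by
    intro i
    have h3 : X 1 ^ K * (c0 i - ∑ s, F0 s * σ s i) = X 0 ^ K * (c1 i - ∑ s, F1 s * σ s i) := by
      have h4 : ∑ s, E0 s * σ s i = X 1 ^ K * ∑ s, F0 s * σ s i - X 0 ^ K * ∑ s, F1 s * σ s i := by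
        rw [Finset.mul_sum, Finset.mul_sum, ← Finset.sum_sub_distrib]
        have h5 : ∑ s, E0 s * σ s i = ∑ s, (E0 s - h0 * r s) * σ s i := by
          have h6 : ∑ s, (E0 s - h0 * r s) * σ s i = ∑ s, E0 s * σ s i - h0 * ∑ s, r s * σ s i := by
            rw [Finset.mul_sum, ← Finset.sum_sub_distrib]
            apply Finset.sum_congr rfl; intro s _; ring
          rw [h6, hr, mul_zero, sub_zero]
        rw [h5]
        apply Finset.sum_congr rfl; intro s _
        rw [hF]; ring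
      have h7 := h01 i
      rw [h4] at h7
      linear_combination h7
    have hp : Prime (X 0 : Pn 3) := prime_of_hom_one (isHomogeneous_X ℂ 0) (X_ne_zero 0)
    apply hp.pow_dvd_of_dvd_mul_left K (a := X 1 ^ K)
    · intro hd
      have := hp.dvd_of_dvd_pow hd
      rw [X_dvd_X] at this
      exact absurd this (by decide)
    · exact ⟨_, h3⟩
  choose c hc' using hdv
  refine ⟨c, fun i j k => ?_⟩
  have hX : (X 0 : Pn 3) ^ K ≠ 0 := pow_ne_zero _ (X_ne_zero 0)
  apply mul_left_cancel₀ hX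
  rw [hc, ← Pool.Agent.Helper71.FL.w12_smul]
  have h8 : c0 = fun l => (fun l => X 0 ^ K * c l) l + (fun l => ∑ s, F0 s * σ s l) l := by
    funext l
    show c0 l = X 0 ^ K * c l + ∑ s, F0 s * σ s l
    rw [← hc']
    ring
  have h9 : w12 c0 θ i j k = w12 (fun l => X 0 ^ K * c l) θ i j k +
      w12 (fun l => ∑ s, F0 s * σ s l) θ i j k := by
    conv_lhs => rw [h8]
    exact Pool.Agent.Helper71.FL.w12_add _ _ _ _ _ _
  rw [h9, w12_sum θ F0 σ hσ, add_zero]

private theorem Rel.add {θ : F2 3} {σ : Fin 3 → F1 3} {r : Fin 3 → Pn 3} {K : ℕ} {b b' : F3 3}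
    {f f' : Pn 3} (h : Rel θ σ r K b f) (h' : Rel θ σ r K b' f') : Rel θ σ r K (b + b') (f + f') := by
  obtain ⟨c0, c1, E0, E1, E2, hc, h01, hE⟩ := h
  obtain ⟨c0', c1', E0', E1', E2', hc', h01', hE'⟩ := h'
  refine ⟨fun l => c0 l + c0' l, fun l => c1 l + c1' l, fun l => E0 l + E0' l,
    fun l => E1 l + E1' l, fun l => E2 l + E2' l, ?_, ?_, ?_⟩
  · intro i j k
    rw [Pool.Agent.Helper71.FL.w12_add, ← hc, ← hc']
    show X 0 ^ K * (b i j k + b' i j k) = _
    ring
  · intro i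
    have h1 := h01 i
    have h2 := h01' i
    simp only [add_mul, Finset.sum_add_distrib]
    linear_combination h1 + h2
  · intro s
    have h1 := hE s
    have h2 := hE' s
    linear_combination h1 + h2

private theorem Rel.smul {θ : F2 3} {σ : Fin 3 → F1 3} {r : Fin 3 → Pn 3} {K : ℕ} {b : F3 3}
    {f : Pn 3} (h : Rel θ σ r K b f) (t : ℂ) : Rel θ σ r K (t • b) (t • f) := by
  obtain ⟨c0, c1, E0, E1, E2, hc, h01, hE⟩ := h
  refine ⟨fun l => C t * c0 l, fun l => C t * c1 l, fun l => C t * E0 l,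
    fun l => C t * E1 l, fun l => C t * E2 l, ?_, ?_, ?_⟩
  · intro i j k
    rw [Pool.Agent.Helper71.FL.w12_smul, ← hc]
    show X 0 ^ K * (t • b i j k) = _
    rw [smul_eq_C_mul]
    ring
  · intro i
    have h1 := h01 i
    simp only [mul_assoc, ← Finset.mul_sum]
    linear_combination C t * h1
  · intro s
    have h1 := hE s
    rw [smul_eq_C_mul]
    linear_combination C t * h1

private theorem Rel.zero {θ : F2 3} {σ : Fin 3 → F1 3} {r : Fin 3 → Pn 3} {K : ℕ} :
    Rel θ σ r K 0 0 := by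
  refine ⟨fun _ => 0, fun _ => 0, fun _ => 0, fun _ => 0, fun _ => 0, ?_, ?_, ?_⟩
  · intro i j k
    simp [w12]
  · intro i; simp
  · intro s; simp

private theorem sg_hom {θ : F2 3} {e : ℕ} {σ1 σ2 : F1 3} {a b m : Pn 3} {ρ φ1 φ2 : F1 3}
    (h : NF θ e σ1 σ2 a b m ρ φ1 φ2) (l : Fin 3) : (σ1 l).IsHomogeneous 2 ∧
      (σ2 l).IsHomogeneous 2 ∧ (tau a b φ1 φ2 l).IsHomogeneous (e + 1) :=
  ⟨h.mem1.1 l, h.mem2.1 l, h.memt.1 l⟩

private theorem sg_ann {θ : F2 3} {e : ℕ} {σ1 σ2 : F1 3} {a b m : Pn 3} {ρ φ1 φ2 : F1 3}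
    (h : NF θ e σ1 σ2 a b m ρ φ1 φ2) (s i j k : Fin 3) : w12 (sg σ1 σ2 a b φ1 φ2 s) θ i j k = 0 := by
  fin_cases s
  · exact h.mem1.2 i j k
  · exact h.mem2.2 i j k
  · exact h.memt.2 i j k

private theorem rl_sum {θ : F2 3} {e : ℕ} {σ1 σ2 : F1 3} {a b m : Pn 3} {ρ φ1 φ2 : F1 3}
    (h : NF θ e σ1 σ2 a b m ρ φ1 φ2) (i : Fin 3) :
    ∑ s, rl a b m s * sg σ1 σ2 a b φ1 φ2 s i = 0 := by
  rw [Fin.sum_univ_three]
  show a * σ1 i + -b * σ2 i + -m * tau a b φ1 φ2 i = 0
  have := h.m_tau i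
  linear_combination -this

private theorem a_ne {θ : F2 3} {e : ℕ} {σ1 σ2 : F1 3} {a b m : Pn 3} {ρ φ1 φ2 : F1 3}
    (h : NF θ e σ1 σ2 a b m ρ φ1 φ2) : a ≠ 0 := by
  rintro rfl
  obtain ⟨u, v, huv⟩ := h.reg.2.2 1 ⟨0, 0, by ring⟩
  have h1 := congrArg (fun p => coeff 0 p) huv
  have he : 0 < e := by rcases h.he with rfl | rfl <;> norm_num
  simp only [coeff_add] at h1
  rw [coeff_one, if_pos rfl] at h1
  have h2 : coeff 0 (m * u) = 0 := by
    rw [← constantCoeff_eq, map_mul]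
    have : constantCoeff m = 0 := by
      rw [constantCoeff_eq]
      exact h.hm.coeff_eq_zero (by simp)
    rw [this, zero_mul]
  have h3 : coeff 0 (b * v) = 0 := by
    rw [← constantCoeff_eq, map_mul]
    have : constantCoeff b = 0 := by
      rw [constantCoeff_eq]
      exact h.hb.coeff_eq_zero (by simp; omega)
    rw [this, zero_mul]
  rw [h2, h3] at h1
  norm_num at h1

private theorem rel_exists {θ : F2 3} {e : ℕ} {σ1 σ2 : F1 3} {a b m : Pn 3} {ρ φ1 φ2 : F1 3}
    (h : NF θ e σ1 σ2 a b m ρ φ1 φ2) (hF : Fol θ) {d K D : ℕ} (hK : 3 ≤ K)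
    (hD : D + 5 + e = d + 3 * K) {bb : F3 3} (hb : ∀ i j k, (bb i j k).IsHomogeneous d)
    (hKb : ∀ l : Fin 3, IsB θ (fun i j k => X l ^ K * bb i j k)) :
    ∃ f : Pn 3, f.IsHomogeneous D ∧ Rel θ (sg σ1 σ2 a b φ1 φ2) (rl a b m) K bb f := by
  have he := h.he
  -- homogeneous 1-forms c
  have hc : ∀ l : Fin 3, ∃ c : F1 3, (∀ i, (c i).IsHomogeneous (d + K - 3)) ∧
      ∀ i j k, X l ^ K * bb i j k = w12 c θ i j k := by
    intro l
    have h1 : (fun i j k => X l ^ K * bb i j k) ∈ BB θ (d + K - 3 + 3) := by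
      refine ⟨?_, hKb l⟩
      intro i j k
      have := (isHomogeneous_X_pow (R := ℂ) l K).mul (hb i j k)
      rw [show d + K - 3 + 3 = K + d by omega]
      exact this
    exact (mem_BB_iff hF.hom).mp h1
  choose c hc1 hc2 using hc
  -- the syzygies
  have hE : ∀ l l' : Fin 3, ∃ E : Fin 3 → Pn 3,
      (E 0).IsHomogeneous (d + 2 * K - 5) ∧ (E 1).IsHomogeneous (d + 2 * K - 5) ∧
      (E 2).IsHomogeneous (d + 2 * K - 4 - e) ∧
      ∀ i, X l' ^ K * c l i - X l ^ K * c l' i = ∑ s, E s * sg σ1 σ2 a b φ1 φ2 s i := by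
    intro l l'
    have h1 : ∀ i j k, w12 (fun i => X l' ^ K * c l i - X l ^ K * c l' i) θ i j k = 0 := by
      intro i j k
      rw [Pool.Agent.Helper71.FL.w12_sub (fun i => X l' ^ K * c l i) (fun i => X l ^ K * c l' i),
        Pool.Agent.Helper71.FL.w12_smul, Pool.Agent.Helper71.FL.w12_smul, ← hc2, ← hc2]
      ring
    obtain ⟨f, g, k, hfgk⟩ := h.gen hF h1
    refine ⟨![homogeneousComponent (d + 2 * K - 5) f, homogeneousComponent (d + 2 * K - 5) g,
      homogeneousComponent (d + 2 * K - 4 - e) k], homogeneousComponent_isHomogeneous _ _,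
      homogeneousComponent_isHomogeneous _ _, homogeneousComponent_isHomogeneous _ _, ?_⟩
    intro i
    rw [Fin.sum_univ_three]
    show _ = homogeneousComponent (d + 2 * K - 5) f * σ1 i +
      homogeneousComponent (d + 2 * K - 5) g * σ2 i +
      homogeneousComponent (d + 2 * K - 4 - e) k * tau a b φ1 φ2 i
    obtain ⟨h2, h3, h4⟩ := sg_hom h i
    rw [← sat_hc_mul _ _ _ _ h2, ← sat_hc_mul _ _ _ _ h3, ← sat_hc_mul _ _ _ _ h4]
    rw [show d + 2 * K - 5 + 2 = d + 2 * K - 3 by omega,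
      show d + 2 * K - 4 - e + (e + 1) = d + 2 * K - 3 by omega, ← map_add, ← map_add, ← hfgk]
    have h5 : (X l' ^ K * c l i - X l ^ K * c l' i).IsHomogeneous (d + 2 * K - 3) := by
      apply IsHomogeneous.sub
      · have := (isHomogeneous_X_pow (R := ℂ) l' K).mul (hc1 l i)
        rwa [show K + (d + K - 3) = d + 2 * K - 3 by omega] at this
      · have := (isHomogeneous_X_pow (R := ℂ) l K).mul (hc1 l' i)
        rwa [show K + (d + K - 3) = d + 2 * K - 3 by omega] at this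
    exact (homogeneousComponent_eq_self h5).symm
  obtain ⟨E0, hE00, hE01, hE02, hE0⟩ := hE 0 1
  obtain ⟨E1, hE10, hE11, hE12, hE1⟩ := hE 0 2
  obtain ⟨E2, hE20, hE21, hE22, hE2⟩ := hE 1 2
  -- the cocycle
  have hco : ∀ i, (X 2 ^ K * E0 0 - X 1 ^ K * E1 0 + X 0 ^ K * E2 0) * σ1 i +
      (X 2 ^ K * E0 1 - X 1 ^ K * E1 1 + X 0 ^ K * E2 1) * σ2 i +
      (X 2 ^ K * E0 2 - X 1 ^ K * E1 2 + X 0 ^ K * E2 2) * tau a b φ1 φ2 i = 0 := by
    intro i
    have h1 := hE0 i
    have h2 := hE1 i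
    have h3 := hE2 i
    rw [Fin.sum_univ_three] at h1 h2 h3
    change _ = E0 0 * σ1 i + E0 1 * σ2 i + E0 2 * tau a b φ1 φ2 i at h1
    change _ = E1 0 * σ1 i + E1 1 * σ2 i + E1 2 * tau a b φ1 φ2 i at h2
    change _ = E2 0 * σ1 i + E2 1 * σ2 i + E2 2 * tau a b φ1 φ2 i at h3
    linear_combination -(X 2 ^ K * h1) + X 1 ^ K * h2 - X 0 ^ K * h3
  obtain ⟨f, hf0, hf1, hf2⟩ := h.ker hF hco
  refine ⟨homogeneousComponent D f, homogeneousComponent_isHomogeneous _ _, c 0, c 1, E0, E1, E2,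
    hc2 0, hE0, ?_⟩
  have hhom : ∀ {p q r : Pn 3} {N : ℕ}, p.IsHomogeneous N → q.IsHomogeneous N → r.IsHomogeneous N →
      (X 2 ^ K * p - X 1 ^ K * q + X 0 ^ K * r).IsHomogeneous (K + N) := by
    intro p q r N hp hq hr
    exact (((isHomogeneous_X_pow (R := ℂ) 2 K).mul hp).sub
      ((isHomogeneous_X_pow (R := ℂ) 1 K).mul hq)).add ((isHomogeneous_X_pow (R := ℂ) 0 K).mul hr)
  intro s
  fin_cases s
  · show X 2 ^ K * E0 0 - X 1 ^ K * E1 0 + X 0 ^ K * E2 0 = homogeneousComponent D f * a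
    rw [← sat_hc_mul _ _ _ _ h.ha, mul_comm f a, ← hf0]
    have := hhom hE00 hE10 hE20
    rw [show K + (d + 2 * K - 5) = D + e by omega] at this
    exact (homogeneousComponent_eq_self this).symm
  · show X 2 ^ K * E0 1 - X 1 ^ K * E1 1 + X 0 ^ K * E2 1 = homogeneousComponent D f * (-b)
    have h1 : homogeneousComponent D f * (-b) = homogeneousComponent (D + e) (f * (-b)) :=
      (sat_hc_mul _ _ _ _ h.hb.neg).symm
    rw [h1, show f * (-b) = -(b * f) by ring, ← hf1]
    have := hhom hE01 hE11 hE21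
    rw [show K + (d + 2 * K - 5) = D + e by omega] at this
    exact (homogeneousComponent_eq_self this).symm
  · show X 2 ^ K * E0 2 - X 1 ^ K * E1 2 + X 0 ^ K * E2 2 = homogeneousComponent D f * (-m)
    have h1 : homogeneousComponent D f * (-m) = homogeneousComponent (D + 1) (f * (-m)) :=
      (sat_hc_mul _ _ _ _ h.hm.neg).symm
    rw [h1, show f * (-m) = -(m * f) by ring, ← hf2]
    have := hhom hE02 hE12 hE22
    rw [show K + (d + 2 * K - 4 - e) = D + 1 by omega] at this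
    exact (homogeneousComponent_eq_self this).symm

/-- one exponent for the whole space -/
private theorem exists_K (θ : F2 3) (d : ℕ) : ∃ K0 : ℕ, ∀ b ∈ BS θ d, ∀ K, K0 ≤ K →
    ∀ f : Pn 3, f.IsHomogeneous K → IsB θ (fun i j k => f * b i j k) := by
  have := finite_BS θ d
  obtain ⟨s, hs⟩ := (Module.finite_def.mp (finite_BS θ d))
  have hb : ∀ x : BS θ d, ∃ K : ℕ, ∀ f : Pn 3, f.IsHomogeneous K →
      IsB θ (fun i j k => f * x.1 i j k) := fun x => x.2.2
  choose Kx hKx using hb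
  refine ⟨s.sup Kx, ?_⟩
  intro b hb K hK
  have key : ∀ x : BS θ d, ∀ f : Pn 3, f.IsHomogeneous K → IsB θ (fun i j k => f * x.1 i j k) := by
    intro x
    have hx : x ∈ Submodule.span ℂ (s : Set (BS θ d)) := by rw [hs]; trivial
    induction hx using Submodule.span_induction with
    | mem x hx =>
      intro f hf
      exact IsB_up ((Finset.le_sup (f := Kx) hx).trans hK) (hKx x) f hf
    | zero =>
      intro f _
      refine ⟨fun _ => 0, fun i j k => ?_⟩
      simp [w12]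
    | add x y _ _ hx hy =>
      intro f hf
      have h1 := (hx f hf).add (hy f hf)
      have h2 : (fun i j k => f * (x + y).1 i j k) = fun i j k => f * x.1 i j k + f * y.1 i j k := by
        funext i j k
        show f * (x.1 i j k + y.1 i j k) = _
        ring
      rw [h2]
      exact h1
    | smul t x _ hx =>
      intro f hf
      have h1 := (hx f hf).smul (C t)
      have h2 : (fun i j k => f * (t • x).1 i j k) = fun i j k => C t * (f * x.1 i j k) := by
        funext i j k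
        show f * (t • x.1 i j k) = _
        rw [smul_eq_C_mul]
        ring
      rw [h2]
      exact h1
  exact key ⟨b, hb⟩

private theorem rel_pair {θ : F2 3} {σ : Fin 3 → F1 3} {a b m : Pn 3} {K : ℕ} (hK : 0 < K)
    {bb : F3 3} {f : Pn 3} (h : Rel θ σ (rl a b m) K bb f) {g : Pn 3}
    (hg : g ∈ Ideal.span {a, b, m}) :
    coeff (Finsupp.equivFunOnFinite.symm (fun _ : Fin 3 => K - 1)) (f * g) = 0 := by
  obtain ⟨c0, c1, E0, E1, E2, hc, h01, hE⟩ := h
  have hs : ∀ i : Fin 3, (Finsupp.equivFunOnFinite.symm (fun _ : Fin 3 => K - 1) : Fin 3 →₀ ℕ) i < K := by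
    intro i
    show K - 1 < K
    omega
  rw [Ideal.mem_span_insert] at hg
  obtain ⟨p, z, hz, hg⟩ := hg
  rw [Ideal.mem_span_pair] at hz
  obtain ⟨q, r, hqr⟩ := hz
  have h0 := hE 0
  have h1 := hE 1
  have h2 := hE 2
  change _ = f * a at h0
  change _ = f * -b at h1
  change _ = f * -m at h2
  have h3 : f * g = X 2 ^ K * (p * E0 0 - q * E0 1 - r * E0 2) -
      X 1 ^ K * (p * E1 0 - q * E1 1 - r * E1 2) +
      X 0 ^ K * (p * E2 0 - q * E2 1 - r * E2 2) := by
    rw [hg, ← hqr]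
    linear_combination -p * h0 + q * h1 + r * h2
  rw [h3]
  exact coeff_zero hs

/-- the homogeneous members of degree `j` of the ideal `(a,b,m)` -/
noncomputable def RR (a b m : Pn 3) (j : ℕ) : Submodule ℂ (homogeneousSubmodule (Fin 3) ℂ j) :=
  ((Ideal.span {a, b, m} : Ideal (Pn 3)).restrictScalars ℂ).comap
    (homogeneousSubmodule (Fin 3) ℂ j).subtype

variable {θ : F2 3} {e : ℕ} {σ1 σ2 : F1 3} {a b m : Pn 3} {ρ φ1 φ2 : F1 3}

theorem NF.mM_le (h : NF θ e σ1 σ2 a b m ρ φ1 φ2) (hF : Fol θ) {d j : ℕ} (hdj : d + j = e + 2) :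
    mM θ d ≤ Module.finrank ℂ (homogeneousSubmodule (Fin 3) ℂ j ⧸ RR a b m j) := by
  classical
  have := finite_BS θ d
  have := finite_BB θ d
  have := finite_homog 3 j
  obtain ⟨K0, hK0⟩ := exists_K θ d
  set K := K0 + 3 with hKdef
  obtain ⟨D, hD⟩ : ∃ D, D + 5 + e = d + 3 * K := ⟨d + 3 * K - 5 - e, by
    have := h.he; omega⟩
  set μ : Fin 3 →₀ ℕ := Finsupp.equivFunOnFinite.symm (fun _ : Fin 3 => K - 1) with hμ
  -- the relation
  let R : Submodule ℂ (F3 3 × Pn 3) :=
    { carrier := {x | x.1 ∈ BS θ d ∧ x.2.IsHomogeneous D ∧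
        Rel θ (sg σ1 σ2 a b φ1 φ2) (rl a b m) K x.1 x.2}
      add_mem' := by
        rintro x y ⟨h1, h2, h3⟩ ⟨h4, h5, h6⟩
        exact ⟨(BS θ d).add_mem h1 h4, h2.add h5, h3.add h6⟩
      zero_mem' := ⟨(BS θ d).zero_mem, isHomogeneous_zero _ _ _, Rel.zero⟩
      smul_mem' := by
        rintro t x ⟨h1, h2, h3⟩
        refine ⟨(BS θ d).smul_mem t h1, ?_, h3.smul t⟩
        have := (isHomogeneous_C (Fin 3) t).mul h2
        rw [zero_add] at this
        show (t • x.2).IsHomogeneous D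
        rw [smul_eq_C_mul]
        exact this }
  let P : R →ₗ[ℂ] BS θ d :=
    { toFun := fun x => ⟨x.1.1, x.2.1⟩
      map_add' := fun _ _ => rfl
      map_smul' := fun _ _ => rfl }
  have hP : Function.Surjective P := by
    rintro ⟨bb, hbb⟩
    obtain ⟨f, hf1, hf2⟩ := rel_exists h hF (K := K) (D := D) (by omega) hD hbb.1
      (fun l => hK0 bb hbb K (by omega) (X l ^ K) (isHomogeneous_X_pow l K))
    exact ⟨⟨(bb, f), hbb, hf1, hf2⟩, rfl⟩
  let Λ : R →ₗ[ℂ] Module.Dual ℂ (homogeneousSubmodule (Fin 3) ℂ j) :=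
    { toFun := fun x =>
        { toFun := fun g => coeff μ (x.1.2 * g.1)
          map_add' := by
            intro g g'
            show coeff μ (x.1.2 * (g.1 + g'.1)) = _
            rw [mul_add, coeff_add]
          map_smul' := by
            intro t g
            show coeff μ (x.1.2 * (t • g.1)) = t • coeff μ (x.1.2 * g.1)
            rw [mul_smul_comm, coeff_smul] }
      map_add' := by
        intro x y
        ext g
        show coeff μ ((x.1.2 + y.1.2) * g.1) = coeff μ (x.1.2 * g.1) + coeff μ (y.1.2 * g.1)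
        rw [add_mul, coeff_add]
      map_smul' := by
        intro t x
        ext g
        show coeff μ ((t • x.1.2) * g.1) = t • coeff μ (x.1.2 * g.1)
        rw [smul_mul_assoc, coeff_smul] }
  have hΛ : LinearMap.range Λ ≤ (RR a b m j).dualAnnihilator := by
    rintro _ ⟨x, rfl⟩
    rw [Submodule.mem_dualAnnihilator]
    intro g hg
    exact rel_pair (by omega) x.2.2.2 hg
  -- the kernel
  let Bc : Submodule ℂ (BS θ d) := (BB θ d).comap (BS θ d).subtype
  have hker : LinearMap.ker Λ ≤ LinearMap.ker (Bc.mkQ ∘ₗ P) := by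
    intro x hx
    rw [LinearMap.mem_ker] at hx ⊢
    show Bc.mkQ (P x) = 0
    rw [Submodule.mkQ_apply, Submodule.Quotient.mk_eq_zero]
    show (P x).1 ∈ BB θ d
    refine ⟨x.2.1.1, ?_⟩
    refine rel_close (fun s i j k => sg_ann h s i j k) (rl_sum h) x.2.2.2 ?_
    refine mem_of_pair (K := K) (D := D) (j := j) (by omega) (by omega) x.2.2.1 ?_
    intro g hg
    have := LinearMap.congr_fun hx ⟨g, hg⟩
    exact this
  have hsurj : Function.Surjective (Bc.mkQ ∘ₗ P) := by
    rw [LinearMap.coe_comp]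
    exact (Submodule.mkQ_surjective _).comp hP
  have h1 : Module.finrank ℂ (BS θ d ⧸ Bc) ≤ Module.finrank ℂ (LinearMap.range Λ) := by
    let G : (R ⧸ LinearMap.ker Λ) →ₗ[ℂ] (BS θ d ⧸ Bc) := (LinearMap.ker Λ).liftQ (Bc.mkQ ∘ₗ P) hker
    have hG : Function.Surjective G := by
      intro y
      obtain ⟨x, hx⟩ := hsurj y
      exact ⟨Submodule.Quotient.mk x, hx⟩
    let E := (LinearMap.quotKerEquivRange Λ)
    have h2 : Function.Surjective (G ∘ₗ E.symm.toLinearMap) := by
      rw [LinearMap.coe_comp]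
      exact hG.comp E.symm.surjective
    exact LinearMap.finrank_le_finrank_of_surjective h2
  have h2 : Module.finrank ℂ (LinearMap.range Λ) ≤ Module.finrank ℂ (RR a b m j).dualAnnihilator :=
    Submodule.finrank_mono hΛ
  have h3 := Subspace.finrank_add_finrank_dualAnnihilator_eq (RR a b m j)
  have h4 := Submodule.finrank_quotient_add_finrank (RR a b m j)
  have h5 := Submodule.finrank_quotient_add_finrank Bc
  have h6 : Module.finrank ℂ Bc = Module.finrank ℂ (BB θ d) :=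
    (Submodule.comapSubtypeEquivOfLe (BB_le_BS θ d)).finrank_eq
  unfold mM
  omega

theorem NF.mM_zero (h : NF θ e σ1 σ2 a b m ρ φ1 φ2) (hF : Fol θ) {d : ℕ} (hd : e + 2 < d) :
    mM θ d = 0 := by
  rw [mM_eq_zero_iff]
  intro bb hbb
  obtain ⟨K0, hK0⟩ := exists_K θ d
  set K := K0 + 3 with hKdef
  obtain ⟨D, hD⟩ : ∃ D, D + 5 + e = d + 3 * K := ⟨d + 3 * K - 5 - e, by
    have := h.he; omega⟩
  obtain ⟨f, hf1, hf2⟩ := rel_exists h hF (K := K) (D := D) (by omega) hD hbb.1
    (fun l => hK0 bb hbb K (by omega) (X l ^ K) (isHomogeneous_X_pow l K))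
  exact rel_close (fun s i j k => sg_ann h s i j k) (rl_sum h) hf2
    (mem_of_deg (K := K) (D := D) (by omega) hf1)


/-! ### the dimensions for `e = 1, 2` -/

private theorem dimS (d : ℕ) :
    Module.finrank ℂ (homogeneousSubmodule (Fin 3) ℂ d) = (2 + d).choose d := finrank_homog 2 d

private theorem in_zero {w m b u v : Pn 3} {k k' : ℕ} (hw : w.IsHomogeneous 0)
    (hm : m.IsHomogeneous k) (hk : 0 < k) (hb : b.IsHomogeneous k') (hk' : 0 < k')
    (h : w = m * u + b * v) : w = 0 := by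
  have h1 := homogeneousComponent_eq_self hw
  rw [← h1, h, map_add, mul_comm m u, mul_comm b v, sat_hc_low 0 k hk _ _ hm,
    sat_hc_low 0 k' hk' _ _ hb, add_zero]

private theorem in_one {w m b u v : Pn 3} (hw : w.IsHomogeneous 1)
    (hm : m.IsHomogeneous 1) (hb : b.IsHomogeneous 2)
    (h : w = m * u + b * v) : ∃ c : ℂ, w = C c * m := by
  refine ⟨coeff 0 u, ?_⟩
  have h1 := homogeneousComponent_eq_self hw
  rw [← h1, h, map_add, mul_comm m u, mul_comm b v, sat_hc_low 1 2 (by norm_num) _ _ hb,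
    add_zero]
  have h2 := sat_hc_mul 0 1 u m hm
  rw [zero_add] at h2
  rw [h2, homogeneousComponent_zero]

/-- the map `(u, v, w) ↦ m u + b v + a w` -/
private noncomputable def Psi {e : ℕ} {a b m : Pn 3} (ha : a.IsHomogeneous e)
    (hb : b.IsHomogeneous e) (hm : m.IsHomogeneous 1) (p q j : ℕ) (hp : 1 + p = j) (hq : e + q = j) :
    (homogeneousSubmodule (Fin 3) ℂ p × homogeneousSubmodule (Fin 3) ℂ q ×
      homogeneousSubmodule (Fin 3) ℂ q) →ₗ[ℂ] homogeneousSubmodule (Fin 3) ℂ j where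
  toFun x := ⟨m * x.1.1 + b * x.2.1.1 + a * x.2.2.1, by
    rw [mem_homogeneousSubmodule]
    have h1 := hm.mul ((mem_homogeneousSubmodule p x.1.1).mp x.1.2)
    have h2 := hb.mul ((mem_homogeneousSubmodule q x.2.1.1).mp x.2.1.2)
    have h3 := ha.mul ((mem_homogeneousSubmodule q x.2.2.1).mp x.2.2.2)
    rw [hp] at h1
    rw [hq] at h2 h3
    exact (h1.add h2).add h3⟩
  map_add' := by
    intro x y
    apply Subtype.ext
    show m * (x.1.1 + y.1.1) + b * (x.2.1.1 + y.2.1.1) + a * (x.2.2.1 + y.2.2.1) =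
      (m * x.1.1 + b * x.2.1.1 + a * x.2.2.1) + (m * y.1.1 + b * y.2.1.1 + a * y.2.2.1)
    ring
  map_smul' := by
    intro t x
    apply Subtype.ext
    show m * (t • x.1.1) + b * (t • x.2.1.1) + a * (t • x.2.2.1) =
      t • (m * x.1.1 + b * x.2.1.1 + a * x.2.2.1)
    simp only [smul_eq_C_mul]
    ring

private theorem Psi_range {e : ℕ} {a b m : Pn 3} (ha : a.IsHomogeneous e)
    (hb : b.IsHomogeneous e) (hm : m.IsHomogeneous 1) (p q j : ℕ) (hp : 1 + p = j)
    (hq : e + q = j) : LinearMap.range (Psi ha hb hm p q j hp hq) ≤ RR a b m j := by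
  rintro _ ⟨x, rfl⟩
  show m * x.1.1 + b * x.2.1.1 + a * x.2.2.1 ∈ Ideal.span {a, b, m}
  refine Ideal.add_mem _ (Ideal.add_mem _ ?_ ?_) ?_
  · exact Ideal.mul_mem_right _ _ (Ideal.subset_span (by simp))
  · exact Ideal.mul_mem_right _ _ (Ideal.subset_span (by simp))
  · exact Ideal.mul_mem_right _ _ (Ideal.subset_span (by simp))

private theorem le_RR {e : ℕ} {a b m : Pn 3} (ha : a.IsHomogeneous e)
    (hb : b.IsHomogeneous e) (hm : m.IsHomogeneous 1) (p q j : ℕ) (hp : 1 + p = j)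
    (hq : e + q = j) :
    (2 + p).choose p + ((2 + q).choose q + (2 + q).choose q) ≤ Module.finrank ℂ (RR a b m j) +
      Module.finrank ℂ (LinearMap.ker (Psi ha hb hm p q j hp hq)) := by
  have i1 := finite_homog 3 p
  have i2 := finite_homog 3 q
  have i3 := finite_homog 3 j
  have h1 := LinearMap.finrank_range_add_finrank_ker (Psi ha hb hm p q j hp hq)
  rw [Module.finrank_prod, Module.finrank_prod, dimS, dimS] at h1
  have h2 := Submodule.finrank_mono (Psi_range ha hb hm p q j hp hq)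
  omega

private theorem ker_zero {e : ℕ} {a b m : Pn 3} (ha : a.IsHomogeneous e)
    (hb : b.IsHomogeneous e) (hm : m.IsHomogeneous 1) (he : 0 < e) (reg : Reg3 m b a)
    (p j : ℕ) (hp : 1 + p = j) (hq : e + 0 = j) :
    Module.finrank ℂ (LinearMap.ker (Psi ha hb hm p 0 j hp hq)) = 0 := by
  have h1 : LinearMap.ker (Psi ha hb hm p 0 j hp hq) = ⊥ := by
    rw [LinearMap.ker_eq_bot']
    intro x hx
    have h2 : m * x.1.1 + b * x.2.1.1 + a * x.2.2.1 = 0 := congrArg Subtype.val hx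
    have hw : x.2.2.1 = 0 := by
      obtain ⟨u, v, huv⟩ := reg.2.2 x.2.2.1 ⟨-x.1.1, -x.2.1.1, by linear_combination h2⟩
      exact in_zero ((mem_homogeneousSubmodule _ _).mp x.2.2.2) hm one_pos hb he huv
    rw [hw, mul_zero, add_zero] at h2
    have hv : x.2.1.1 = 0 := by
      obtain ⟨u, hu⟩ := reg.2.1 x.2.1.1 ⟨-x.1.1, by linear_combination h2⟩
      exact in_zero (b := 0) (u := u) (v := 0) ((mem_homogeneousSubmodule _ _).mp x.2.1.2) hm one_pos
        (isHomogeneous_zero _ _ 1) one_pos (by rw [hu]; ring)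
    rw [hv, mul_zero, add_zero] at h2
    have hu : x.1.1 = 0 := reg.1 _ h2
    refine Prod.ext (Subtype.ext hu) (Prod.ext (Subtype.ext hv) (Subtype.ext hw))
  rw [h1]
  exact finrank_bot ℂ _

private theorem ker_two {a b m : Pn 3} (ha : a.IsHomogeneous 2)
    (hb : b.IsHomogeneous 2) (hm : m.IsHomogeneous 1) (reg : Reg3 m b a) (hp : 1 + 2 = 3)
    (hq : 2 + 1 = 3) :
    Module.finrank ℂ (LinearMap.ker (Psi ha hb hm 2 1 3 hp hq)) ≤ 2 := by
  have hm1 : m ∈ homogeneousSubmodule (Fin 3) ℂ 1 := (mem_homogeneousSubmodule _ _).mpr hm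
  have ha2 : a ∈ homogeneousSubmodule (Fin 3) ℂ 2 := (mem_homogeneousSubmodule _ _).mpr ha
  have hb2 : b ∈ homogeneousSubmodule (Fin 3) ℂ 2 := (mem_homogeneousSubmodule _ _).mpr hb
  let T : (ℂ × ℂ) →ₗ[ℂ] LinearMap.ker (Psi ha hb hm 2 1 3 hp hq) :=
    { toFun := fun c => ⟨(⟨-(c.1 • a) - c.2 • b, Submodule.sub_mem _ (Submodule.neg_mem _
          (Submodule.smul_mem _ _ ha2)) (Submodule.smul_mem _ _ hb2)⟩,
          ⟨c.2 • m, Submodule.smul_mem _ _ hm1⟩, ⟨c.1 • m, Submodule.smul_mem _ _ hm1⟩), by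
        rw [LinearMap.mem_ker]
        apply Subtype.ext
        show m * (-(c.1 • a) - c.2 • b) + b * (c.2 • m) + a * (c.1 • m) = 0
        simp only [smul_eq_C_mul]
        ring⟩
      map_add' := by
        intro c c'
        apply Subtype.ext
        refine Prod.ext (Subtype.ext ?_) (Prod.ext (Subtype.ext ?_) (Subtype.ext ?_))
        · show -((c.1 + c'.1) • a) - (c.2 + c'.2) • b = (-(c.1 • a) - c.2 • b) + (-(c'.1 • a) - c'.2 • b)
          simp only [smul_eq_C_mul, C_add]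
          ring
        · show (c.2 + c'.2) • m = c.2 • m + c'.2 • m
          exact add_smul _ _ _
        · show (c.1 + c'.1) • m = c.1 • m + c'.1 • m
          exact add_smul _ _ _
      map_smul' := by
        intro t c
        apply Subtype.ext
        refine Prod.ext (Subtype.ext ?_) (Prod.ext (Subtype.ext ?_) (Subtype.ext ?_))
        · show -((t * c.1) • a) - (t * c.2) • b = t • (-(c.1 • a) - c.2 • b)
          simp only [smul_eq_C_mul, C_mul]
          ring
        · show (t * c.2) • m = t • (c.2 • m)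
          exact mul_smul _ _ _
        · show (t * c.1) • m = t • (c.1 • m)
          exact mul_smul _ _ _ }
  have hT : Function.Surjective T := by
    rintro ⟨x, hx⟩
    rw [LinearMap.mem_ker] at hx
    have h2 : m * x.1.1 + b * x.2.1.1 + a * x.2.2.1 = 0 := congrArg Subtype.val hx
    obtain ⟨u, v, huv⟩ := reg.2.2 x.2.2.1 ⟨-x.1.1, -x.2.1.1, by linear_combination h2⟩
    obtain ⟨c, hc⟩ := in_one ((mem_homogeneousSubmodule _ _).mp x.2.2.2) hm hb huv
    rw [hc] at h2
    obtain ⟨u', hu'⟩ := reg.2.1 x.2.1.1 ⟨-x.1.1 - C c * a, by linear_combination h2⟩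
    obtain ⟨c', hc'⟩ := in_one (b := 0) (u := u') (v := 0) ((mem_homogeneousSubmodule _ _).mp x.2.1.2) hm
      (isHomogeneous_zero _ _ 2) (by rw [hu']; ring)
    rw [hc'] at h2
    have h3 : x.1.1 + C c * a + C c' * b = 0 := by
      apply reg.1
      linear_combination h2
    refine ⟨(c, c'), ?_⟩
    apply Subtype.ext
    refine Prod.ext (Subtype.ext ?_) (Prod.ext (Subtype.ext ?_) (Subtype.ext ?_))
    · show -(c • a) - c' • b = x.1.1
      simp only [smul_eq_C_mul]
      linear_combination -h3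
    · show c' • m = x.2.1.1
      rw [hc', smul_eq_C_mul]
    · show c • m = x.2.2.1
      rw [hc, smul_eq_C_mul]
  have := LinearMap.finrank_le_finrank_of_surjective hT
  rw [Module.finrank_prod, Module.finrank_self] at this
  exact this

private theorem RR_top {a b m : Pn 3} {j j' : ℕ} (hjj : j ≤ j')
    (h : Module.finrank ℂ (homogeneousSubmodule (Fin 3) ℂ j) ≤ Module.finrank ℂ (RR a b m j)) :
    Module.finrank ℂ (homogeneousSubmodule (Fin 3) ℂ j' ⧸ RR a b m j') = 0 := by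
  have i1 := finite_homog 3 j
  have i2 := finite_homog 3 j'
  have h1 : RR a b m j = ⊤ := Submodule.eq_top_of_finrank_eq
    (le_antisymm (Submodule.finrank_le _) h)
  have h2 : RR a b m j' = ⊤ := by
    rw [eq_top_iff]
    rintro ⟨f, hf⟩ _
    show f ∈ Ideal.span {a, b, m}
    rw [mem_homogeneousSubmodule] at hf
    rw [f.as_sum]
    apply Ideal.sum_mem
    intro s hs
    have hdeg : s.degree = j' := by
      rw [mem_support_iff] at hs
      have := hf hs
      rw [Finsupp.degree_eq_weight_one]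
      exact this
    obtain ⟨u, hu, hd⟩ := exists_le_deg s (K := j) (by omega)
    have h3 : (⟨monomial u 1, (mem_homogeneousSubmodule _ _).mpr (isHomogeneous_monomial 1 hd)⟩ :
        homogeneousSubmodule (Fin 3) ℂ j) ∈ RR a b m j := by rw [h1]; trivial
    have h4 : (monomial u 1 : Pn 3) ∈ Ideal.span {a, b, m} := h3
    have h5 : (monomial s (coeff s f) : Pn 3) = monomial (s - u) (coeff s f) * monomial u 1 := by
      rw [monomial_mul, tsub_add_cancel_of_le hu, mul_one]
    rw [h5]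
    exact Ideal.mul_mem_left _ _ h4
  rw [h2]
  have h3 := Submodule.finrank_quotient_add_finrank
    (⊤ : Submodule ℂ (homogeneousSubmodule (Fin 3) ℂ j'))
  rw [finrank_top] at h3
  omega

/-- `e = 1`: `M_P = (0,1,0)` -/
theorem NF.mM1 (h : NF θ 1 σ1 σ2 a b m ρ φ1 φ2) (hF : Fol θ) (d : ℕ) :
    mM θ d ≤ if d = 3 then 1 else 0 := by
  rcases lt_trichotomy d 3 with hd | rfl | hd
  · rw [if_neg (by omega)]
    have h1 := h.mM_le hF (d := d) (j := 3 - d) (by omega)
    have h2 := le_RR h.ha h.hb h.hm 0 0 1 rfl rfl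
    rw [ker_zero h.ha h.hb h.hm one_pos h.reg 0 1 rfl rfl] at h2
    have h3 := RR_top (a := a) (b := b) (m := m) (j := 1) (j' := 3 - d) (by omega) (by
      rw [dimS]
      have h4 : (2 + 1).choose 1 = 3 := by decide
      have h5 : (2 + 0).choose 0 = 1 := by decide
      rw [h5] at h2
      rw [h4]
      omega)
    omega
  · rw [if_pos rfl]
    have h1 := h.mM_le hF (d := 3) (j := 0) rfl
    have i1 := finite_homog 3 0
    have h2 := Submodule.finrank_quotient_add_finrank (RR a b m 0)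
    rw [dimS] at h2
    have h5 : (2 + 0).choose 0 = 1 := by decide
    rw [h5] at h2
    omega
  · rw [if_neg (by omega), h.mM_zero hF (by omega)]

/-- `e = 2`: `M_P = (1,2,1)` in degrees 2, 3, 4 -/
theorem NF.mM2 (h : NF θ 2 σ1 σ2 a b m ρ φ1 φ2) (hF : Fol θ) (d : ℕ) :
    mM θ d ≤ if d = 2 then 1 else if d = 3 then 2 else if d = 4 then 1 else 0 := by
  have c0 : (2 + 0).choose 0 = 1 := by decide
  have c1 : (2 + 1).choose 1 = 3 := by decide
  have c2 : (2 + 2).choose 2 = 6 := by decide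
  have c3 : (2 + 3).choose 3 = 10 := by decide
  have hsmall : d < 2 → mM θ d = 0 := by
    intro hd
    have h1 := h.mM_le hF (d := d) (j := 4 - d) (by omega)
    have h2 := le_RR h.ha h.hb h.hm 2 1 3 rfl rfl
    have h4 := ker_two h.ha h.hb h.hm h.reg rfl rfl
    rw [c2, c1] at h2
    have h3 := RR_top (a := a) (b := b) (m := m) (j := 3) (j' := 4 - d) (by omega) (by
      rw [dimS, c3]
      omega)
    omega
  by_cases hd1 : d < 2
  · rw [hsmall hd1]
    exact Nat.zero_le _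
  by_cases hd2 : d = 2
  · rw [if_pos hd2]
    subst hd2
    have h1 := h.mM_le hF (d := 2) (j := 2) rfl
    have h2 := le_RR h.ha h.hb h.hm 1 0 2 rfl rfl
    rw [ker_zero h.ha h.hb h.hm two_pos h.reg 1 2 rfl rfl, c1, c0] at h2
    have i1 := finite_homog 3 2
    have h3 := Submodule.finrank_quotient_add_finrank (RR a b m 2)
    rw [dimS, c2] at h3
    omega
  rw [if_neg hd2]
  by_cases hd3 : d = 3
  · rw [if_pos hd3]
    subst hd3
    have h1 := h.mM_le hF (d := 3) (j := 1) rfl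
    have i1 := finite_homog 3 1
    have h3 := Submodule.finrank_quotient_add_finrank (RR a b m 1)
    rw [dimS, c1] at h3
    have h4 : 0 < Module.finrank ℂ (RR a b m 1) := by
      apply (Module.finrank_pos_iff_exists_ne_zero (R := ℂ) (M := RR a b m 1)).mpr
      refine ⟨⟨⟨m, (mem_homogeneousSubmodule _ _).mpr h.hm⟩, ?_⟩, ?_⟩
      · exact Ideal.subset_span (by simp)
      · intro h5
        exact h.hm0 (congrArg (fun x => x.1.1) h5)
    omega
  rw [if_neg hd3]
  by_cases hd4 : d = 4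
  · rw [if_pos hd4]
    subst hd4
    have h1 := h.mM_le hF (d := 4) (j := 0) rfl
    have i1 := finite_homog 3 0
    have h2 := Submodule.finrank_quotient_add_finrank (RR a b m 0)
    rw [dimS, c0] at h2
    omega
  rw [if_neg hd4, h.mM_zero hF (by omega)]

end Pool.Agent.Helper18.LB
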