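import Pool.Agent.Helper18.LB.SatB
import Pool.Agent.Helper18.LB.MP
import Pool.Agent.Helper71.FC.Flag

/-! LB-7: LEMMA C (counting): `e_2(V) = 1` implies that `σ` kills at least two vectors, or `n = 5` and the exceptional case (c).
Proofs.  `w11_av`: contract `σ ∧ θ = 0` with the constant vector `v`: `σ ∧ i_v θ = σ(v) θ`.
`count_A`: linear map `(v, c) ↦ av θ v + lf c * σ` from `ℂⁿ × ℂⁿ` to `EE θ 3`; if `(v, c)` is in the kernel, wedge with `σ`: `σ(v) θ = 0`, so
`v ∈ WW σ`, and `v = 0` implies `lf c * σ = 0`, `c = 0`: the kernel has dimension at most `finrank (WW σ)`.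
`e1_bot`: `ge_gen`, `bot_of_gen`.
`e3_ub`: induction on `n`; `n = 4`: `exists_flag1`: `e_3(V) ≤ e_3(P) + e_2(V) ≤ (e_2(P) + 5) + 1` (`le_res`, `e_step`); `n → n + 1`: `exists_flag1`,
on `H`: `ge (rs2 θ') 3 k = ge θ 3 k` (`ge_pb2`, `rs2_pb2`, `ge_inv`), `e_2(H) ≤ 1` (otherwise `lift_two`), induction, `le_res`.
`lift_ge`: induction on `n`, `n = 4`: `ge_self`; step: `exists_flag1`, induction on `H`, `lift_two`.
`two_of_three`: `exists_flag1` (`n = 3`), on `P` `e_2 = 3` (`≤ 3` by `e_step`), so `NF` with `e = 1` (`exists_NF'`, `NF.finrank2`), `NF.mM1`; `count_M0`,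
`count_M` on `H`: `m_0 = m_1 = m_2 = 0`, `m_3 ≤ 1`, `m_4 ≤ m_3 ≤ 1`; `count_E` with `k = 1`: `3 + 0 = e_2(H) + kM(4)`, `kM(4) ≤ mM(4) ≤ 1` (`kM_le`).
`tri`: `e_2 = 1`; `ge θ 3 2 ≤ 2`: otherwise a general 4-dimensional section has `e_2 ≥ 2` (`two_of_three`, `ge_pb2`), so `ge θ 4 2 ≥ 2`, `lift_ge`.
`count_A` and `e3_ub`: `2 n ≤ ge θ 3 2 + n + 2 + w`: for `ge θ 3 2 ≤ 1` `w ≥ n - 3`; for `ge θ 3 2 = 2` the second or the third alternative.  `ge θ 4 2 = 1`: `≤ 1` by `lift_ge`, `≥ 1`: `pb φ σ ≠ 0` for general `φ` (as in `bot_of_gen`: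
if `ge θ 4 2 = 0` then `EE θ 2 = ⊥`). -/

set_option autoImplicit false

namespace Pool.Agent.Helper18.LB

open MvPolynomial
open scoped BigOperators
open Pool.Agent.Helper71.FC
open Pool.Agent.Helper71.FL (w12 pf ct Dec Closed dd res)

variable {n : ℕ}

/-- the constant vectors killed by `σ` -/
noncomputable def WW (σ : F1 n) : Submodule ℂ (Fin n → ℂ) where
  carrier := {v | ∑ i, C (v i) * σ i = 0}
  add_mem' := by
    intro a b ha hb
    show ∑ i, C (a i + b i) * σ i = 0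
    simp only [C_add, add_mul, Finset.sum_add_distrib]
    rw [show ∑ i, C (a i) * σ i = 0 from ha, show ∑ i, C (b i) * σ i = 0 from hb, add_zero]
  zero_mem' := by simp
  smul_mem' := by
    intro c a ha
    show ∑ i, C (c * a i) * σ i = 0
    simp only [C_mul, mul_assoc, ← Finset.mul_sum]
    rw [show ∑ i, C (a i) * σ i = 0 from ha, mul_zero]

theorem w11_av {θ : F2 n} (hd : Dec θ) {σ : F1 n} (hσ : ∀ i j k, w12 σ θ i j k = 0)
    (v : Fin n → ℂ) (i j : Fin n) : w11 σ (av θ v) i j = (∑ l, C (v l) * σ l) * θ i j := by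
  have h1 : ∀ l, σ i * θ l j - σ j * θ l i = σ l * θ i j := by
    intro l
    have h2 := hσ l i j
    unfold w12 at h2
    rw [hd.2.1 j l] at h2
    linear_combination -h2
  show σ i * (∑ l, C (v l) * θ l j) - σ j * (∑ l, C (v l) * θ l i) = _
  rw [Finset.mul_sum, Finset.mul_sum, ← Finset.sum_sub_distrib, Finset.sum_mul]
  refine Finset.sum_congr rfl fun l _ => ?_
  rw [mul_assoc, ← h1]
  ring

private theorem cn_nz {θ : F2 n} (hF : Fol θ) : ∃ i j, θ i j ≠ 0 := by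
  by_contra hcon
  push Not at hcon
  have := hF.prim 0 (fun i j => by rw [hcon])
  exact not_isUnit_zero this

private theorem cn_lf_add (a a' : Fin n → ℂ) : lf (a + a') = lf a + lf a' := by
  unfold lf
  rw [← Finset.sum_add_distrib]
  refine Finset.sum_congr rfl fun i _ => ?_
  rw [Pi.add_apply, C_add, add_mul]

private theorem cn_lf_smul (c : ℂ) (a : Fin n → ℂ) : lf (c • a) = C c * lf a := by
  unfold lf
  rw [Finset.mul_sum]
  refine Finset.sum_congr rfl fun i _ => ?_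
  rw [Pi.smul_apply, smul_eq_mul, C_mul, mul_assoc]

private theorem cn_lf_hom (a : Fin n → ℂ) : (lf a).IsHomogeneous 1 := by
  unfold lf
  refine IsHomogeneous.sum _ _ _ fun i _ => ?_
  have := (isHomogeneous_C (Fin n) (a i)).mul (isHomogeneous_X ℂ i)
  rwa [zero_add] at this

private theorem cn_lf_zero {a : Fin n → ℂ} (h : lf a = 0) : a = 0 := by
  funext i
  have h1 := congrArg (eval (Pi.single i (1 : ℂ))) h
  unfold lf at h1
  rw [map_sum, map_zero, Finset.sum_eq_single i] at h1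
  · rw [map_mul, eval_C, eval_X, Pi.single_eq_same, mul_one] at h1
    exact h1
  · intro j _ hj
    rw [map_mul, eval_C, eval_X, Pi.single_eq_of_ne hj, mul_zero]
  · intro hh
    exact absurd (Finset.mem_univ _) hh

private theorem cn_av_add (θ : F2 n) (v v' : Fin n → ℂ) (j : Fin n) :
    av θ (v + v') j = av θ v j + av θ v' j := by
  show ∑ l, C ((v + v') l) * θ l j = ∑ l, C (v l) * θ l j + ∑ l, C (v' l) * θ l j
  rw [← Finset.sum_add_distrib]
  refine Finset.sum_congr rfl fun i _ => ?_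
  rw [Pi.add_apply, C_add, add_mul]

private theorem cn_av_smul (θ : F2 n) (c : ℂ) (v : Fin n → ℂ) (j : Fin n) :
    av θ (c • v) j = C c * av θ v j := by
  show ∑ l, C ((c • v) l) * θ l j = C c * ∑ l, C (v l) * θ l j
  rw [Finset.mul_sum]
  refine Finset.sum_congr rfl fun i _ => ?_
  rw [Pi.smul_apply, smul_eq_mul, C_mul, mul_assoc]

theorem count_A {θ : F2 n} (hF : Fol θ) {σ : F1 n} (hσ : σ ∈ EE θ 2) (hσ0 : σ ≠ 0) :
    2 * n ≤ Module.finrank ℂ (EE θ 3) + Module.finrank ℂ (WW σ) := by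
  have hmem : ∀ v c : Fin n → ℂ, (fun j => av θ v j + lf c * σ j) ∈ EE θ 3 := by
    intro v c
    have h1 := av_mem_EE hF.dec hF.hom v
    refine (EE θ 3).add_mem (x := av θ v) (y := fun j => lf c * σ j) h1 ⟨fun i => ?_, fun i j l => ?_⟩
    · have := (cn_lf_hom c).mul (hσ.1 i)
      exact this
    · rw [Pool.Agent.Helper71.FL.w12_smul, hσ.2, mul_zero]
  let T : ((Fin n → ℂ) × (Fin n → ℂ)) →ₗ[ℂ] EE θ 3 :=
    { toFun := fun x => ⟨fun j => av θ x.1 j + lf x.2 * σ j, hmem x.1 x.2⟩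
      map_add' := by
        intro x y
        apply Subtype.ext
        refine _root_.funext fun j => ?_
        show av θ (x.1 + y.1) j + lf (x.2 + y.2) * σ j =
          (av θ x.1 j + lf x.2 * σ j) + (av θ y.1 j + lf y.2 * σ j)
        rw [cn_av_add, cn_lf_add]
        ring
      map_smul' := by
        intro c x
        apply Subtype.ext
        refine _root_.funext fun j => ?_
        show av θ (c • x.1) j + lf (c • x.2) * σ j = c • (av θ x.1 j + lf x.2 * σ j)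
        rw [cn_av_smul, cn_lf_smul, smul_eq_C_mul]
        ring }
  obtain ⟨i0, j0, hij⟩ := cn_nz hF
  have hk : ∀ x ∈ LinearMap.ker T, x.1 ∈ WW σ := by
    intro x hx
    have h0 : ∀ j, av θ x.1 j + lf x.2 * σ j = 0 := fun j =>
      congrFun (congrArg Subtype.val (LinearMap.mem_ker.1 hx)) j
    have h1 := w11_av hF.dec hσ.2 x.1 i0 j0
    have h2 : w11 σ (av θ x.1) i0 j0 = 0 := by
      unfold w11
      have h3 := h0 i0
      have h4 := h0 j0
      linear_combination σ i0 * h4 - σ j0 * h3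
    rw [h2] at h1
    exact (mul_eq_zero.1 h1.symm).resolve_right hij
  let U : LinearMap.ker T →ₗ[ℂ] WW σ :=
    { toFun := fun x => ⟨x.1.1, hk x.1 x.2⟩
      map_add' := fun x y => rfl
      map_smul' := fun c x => rfl }
  have hU : Function.Injective U := by
    rw [injective_iff_map_eq_zero]
    rintro ⟨⟨v, c⟩, hx⟩ h0
    have hv : v = 0 := congrArg Subtype.val h0
    have h1 : ∀ j, av θ v j + lf c * σ j = 0 := fun j =>
      congrFun (congrArg Subtype.val (LinearMap.mem_ker.1 hx)) j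
    obtain ⟨j, hj⟩ : ∃ j, σ j ≠ 0 := by
      by_contra hcon
      push Not at hcon
      exact hσ0 (_root_.funext hcon)
    have h2 := h1 j
    have h3 : av θ v j = 0 := by
      rw [hv]
      have := cn_av_smul θ 0 0 j
      rw [zero_smul, C_0, zero_mul] at this
      exact this
    rw [h3, zero_add] at h2
    have h4 := cn_lf_zero ((mul_eq_zero.1 h2).resolve_right hj)
    apply Subtype.ext
    exact Prod.ext hv h4
  have h1 := LinearMap.finrank_range_add_finrank_ker T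
  have h2 := LinearMap.finrank_le_finrank_of_injective hU
  have := finite_EE θ 3
  have h3 : Module.finrank ℂ (LinearMap.range T) ≤ Module.finrank ℂ (EE θ 3) :=
    Submodule.finrank_le _
  rw [Module.finrank_prod, Module.finrank_fin_fun] at h1
  omega

private theorem cn_bot {θ : F2 n} {k : ℕ} (h : Module.finrank ℂ (EE θ k) = 0) : EE θ k = ⊥ := by
  have := finite_EE θ k
  exact Submodule.finrank_eq_zero.1 h

private theorem cn_true {m k : ℕ} : GenM (fun _ : Fin m → Fin k → ℂ => True) :=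
  ⟨1, one_ne_zero, fun _ _ => trivial⟩

theorem e1_bot {θ : F2 n} (h : ge θ 3 1 = 0) : EE θ 1 = ⊥ := by
  refine bot_of_gen (m := 3) (by norm_num) ((ge_gen θ 3 1).mono fun φ hφ => ?_)
  exact cn_bot (hφ.trans h)

theorem lift_ge (hn : 4 ≤ n) {θ : F2 n} (hF : Fol θ) (h1 : ge θ 3 1 = 0) (h2 : 2 ≤ ge θ 4 2) :
    2 ≤ Module.finrank ℂ (EE θ 2) := by
  induction n, hn using Nat.le_induction with
  | base => rw [← ge_self]; exact h2
  | succ n hn ih =>
    obtain ⟨g, g', hg, -, ⟨hq1, hq2⟩, hF', h0, hFH⟩ := exists_flag1 (by omega) hF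
      (p := fun _ => True) cn_true ((ge_pb2 θ (m := 3) (k := n) (by omega) (by omega) 1).and
        (ge_pb2 θ (m := 4) (k := n) hn (by omega) 2))
    rw [← rs2_pb2] at hq1 hq2
    have h3 := ih hFH (hq1.trans h1) (by rw [hq2]; exact h2)
    have h4 := lift_two hn hF' hFH h0 (e1_bot (hq1.trans h1)) h3
    rwa [finrank_EE_pb2 θ 2 hg] at h4

theorem e3_ub (hn : 4 ≤ n) {θ : F2 n} (hF : Fol θ) (h1 : ge θ 3 1 = 0)
    (h2 : Module.finrank ℂ (EE θ 2) ≤ 1) :
    Module.finrank ℂ (EE θ 3) ≤ ge θ 3 2 + n + 2 := by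
  induction n, hn using Nat.le_induction with
  | base =>
    obtain ⟨g, g', hg, -, ⟨hq1, hq2⟩, hF', h0, hFH⟩ := exists_flag1 (n := 3) (by omega) hF
      (p := fun _ => True) cn_true ((ge_pb2 θ (m := 3) (k := 3) (by omega) (by omega) 1).and
        (ge_pb2 θ (m := 3) (k := 3) (by omega) (by omega) 2))
    rw [← rs2_pb2] at hq1 hq2
    have h3 := le_res (cn_nz hFH) 2
    have h4 := e_step hFH (k := 2) (by norm_num)
    rw [ge_self] at hq2
    rw [finrank_EE_pb2 θ 3 hg, finrank_EE_pb2 θ 2 hg] at h3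
    omega
  | succ n hn ih =>
    obtain ⟨g, g', hg, -, ⟨hq1, hq2⟩, hF', h0, hFH⟩ := exists_flag1 (by omega) hF
      (p := fun _ => True) cn_true ((ge_pb2 θ (m := 3) (k := n) (by omega) (by omega) 1).and
        (ge_pb2 θ (m := 3) (k := n) (by omega) (by omega) 2))
    rw [← rs2_pb2] at hq1 hq2
    have h3 : Module.finrank ℂ (EE (rs2 (pb2 g θ)) 2) ≤ 1 := by
      by_contra hcon
      have h4 := lift_two hn hF' hFH h0 (e1_bot (hq1.trans h1)) (by omega)
      rw [finrank_EE_pb2 θ 2 hg] at h4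
      omega
    have h5 := ih hFH (hq1.trans h1) h3
    have h6 := le_res (cn_nz hFH) 2
    simp only [Nat.reduceAdd] at h6
    rw [finrank_EE_pb2 θ 3 hg, finrank_EE_pb2 θ 2 hg] at h6
    rw [hq2] at h5
    omega

theorem two_of_three {θ : F2 4} (hF : Fol θ) (h1 : ge θ 3 1 = 0) (h3 : 3 ≤ ge θ 3 2) :
    2 ≤ Module.finrank ℂ (EE θ 2) := by
  obtain ⟨g, g', hg, -, ⟨hq1, hq2⟩, hF', h0, hFH⟩ := exists_flag1 (n := 3) (by omega) hF
    (p := fun _ => True) cn_true ((ge_pb2 θ (m := 3) (k := 3) (by omega) (by omega) 1).and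
      (ge_pb2 θ (m := 3) (k := 3) (by omega) (by omega) 2))
  rw [← rs2_pb2] at hq1 hq2
  have h1' := e1_bot (hq1.trans h1)
  rw [ge_self] at hq1 hq2
  have h4 := e_step hFH (k := 1) le_rfl
  simp only [Nat.reduceAdd, Nat.reduceMul] at h4
  have h5 : Module.finrank ℂ (EE (rs2 (pb2 g θ)) 2) = 3 := by omega
  obtain ⟨e, σ1, σ2, a, b, m, ρ, φ1, φ2, h⟩ := exists_NF' hFH h1' (by omega)
  have hM : ∀ d, mM (rs2 (pb2 g θ)) d ≤ if d = 3 then 1 else 0 := by
    intro d
    rcases h.he with rfl | rfl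
    · exact h.mM1 hFH d
    · have := h.finrank2 hFH
      omega
  have c0 := count_M0 (by omega) hF'.hom hF'.dec hFH.prim h0
  have c1 := count_M (by omega) hF'.hom hF'.dec hFH.prim h0 0
  have c2 := count_M (by omega) hF'.hom hF'.dec hFH.prim h0 1
  have c3 := count_M (by omega) hF'.hom hF'.dec hFH.prim h0 2
  have c4 := count_M (by omega) hF'.hom hF'.dec hFH.prim h0 3
  have m0 := hM 0
  have m1 := hM 1
  have m2 := hM 2
  have m3 := hM 3
  have m4 := hM 4
  rw [if_neg (by norm_num)] at m0 m1 m2 m4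
  rw [if_pos rfl] at m3
  have e1 := count_E (by omega) hF'.hom hF'.dec hFH.prim h0 1
  have e2 := kM_le (pb2 g θ) 4
  rw [← finrank_EE_pb2 θ 2 hg]
  simp only [Nat.reduceAdd] at c1 c2 c3 c4 e1
  omega

/-- LEMMA C -/
theorem tri (hn : 5 ≤ n) {θ : F2 n} (hF : Fol θ) (h1 : ge θ 3 1 = 0) (h2 : EE θ 2 ≠ ⊥) :
    2 ≤ Module.finrank ℂ (EE θ 2) ∨
    (Module.finrank ℂ (EE θ 2) = 1 ∧ ∀ σ ∈ EE θ 2, σ ≠ 0 → n ≤ Module.finrank ℂ (WW σ) + 3) ∨
    (Module.finrank ℂ (EE θ 2) = 1 ∧ ge θ 3 2 = 2 ∧ ge θ 4 2 = 1 ∧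
      ∃ σ ∈ EE θ 2, σ ≠ 0 ∧ Module.finrank ℂ (WW σ) + 4 ≤ n) := by
  by_cases h3 : 2 ≤ Module.finrank ℂ (EE θ 2)
  · exact Or.inl h3
  have h4 : Module.finrank ℂ (EE θ 2) = 1 := by
    have h5 : Module.finrank ℂ (EE θ 2) ≠ 0 := fun h => h2 (cn_bot h)
    omega
  have h5 : ge θ 3 2 ≤ 2 := by
    by_contra hcon
    obtain ⟨ψ, ⟨hψF, hψ1⟩, hψ2, hψ3⟩ := (((Fol_gen (m := 4) (by norm_num) (by omega) hF).and
      (ge_pb2 θ (m := 3) (k := 4) (by omega) (by omega) 1)).and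
      ((ge_pb2 θ (m := 3) (k := 4) (by omega) (by omega) 2).and (ge_gen θ 4 2))).exists
    have h6 := two_of_three hψF (hψ1.trans h1) (by rw [hψ2]; omega)
    rw [hψ3] at h6
    exact h3 (lift_ge (by omega) hF h1 h6)
  have h6 := e3_ub (by omega) hF h1 h4.le
  have h7 : ∀ σ ∈ EE θ 2, σ ≠ 0 → n ≤ ge θ 3 2 + 2 + Module.finrank ℂ (WW σ) := by
    intro σ hσ hσ0
    have := count_A hF hσ hσ0
    omega
  by_cases h8 : ∀ σ ∈ EE θ 2, σ ≠ 0 → n ≤ Module.finrank ℂ (WW σ) + 3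
  · exact Or.inr (Or.inl ⟨h4, h8⟩)
  push Not at h8
  obtain ⟨σ, hσ, hσ0, h9⟩ := h8
  have h10 := h7 σ hσ hσ0
  refine Or.inr (Or.inr ⟨h4, by omega, ?_, σ, hσ, hσ0, by omega⟩)
  have h11 : ge θ 4 2 ≤ 1 := by
    by_contra hcon
    exact h3 (lift_ge (by omega) hF h1 (by omega))
  have h12 : ge θ 4 2 ≠ 0 := by
    intro h0
    refine h2 (bot_of_gen (m := 4) (by norm_num) ((ge_gen θ 4 2).mono fun φ hφ => ?_))
    exact cn_bot (hφ.trans h0)
  omega

end Pool.Agent.Helper18.LB
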