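import Pool.Agent.Helper18.LB.CFin

/-! LB-14: case (c) descends to five variables; Lemma C in the final form.
`gen_row`: `(g⁻¹ u)_0 ≠ 0` iff the matrix `g` with its column 0 replaced by `u` is invertible (Cramer): a determinant, a non zero polynomial in `g`.
`res_WW`: let `v = (0, v')`, `at0 (σ(v)) = 0`.  `w11_av` on `H`: `res σ ∧ res (av θ v) = at0 (σ(v)) θ_H = 0`, so `res (av θ v) = l (res σ)` (`sig_of_w` on `H`, `k = 1`);
`av θ v - emb l * σ` is in `EE θ 3` and restricts to 0, so it is `X 0 * η`, `η ∈ EE θ 2 = ℂ σ` (`EE_ker`, `finrank = 1`): `av θ v = (..) σ`, so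
`σ(v) θ = σ ∧ av θ v = 0`, `v ∈ WW σ`.  `res_cone`: if moreover `av (rs2 θ) v' = 0`, `v' ≠ 0`, then `res (av θ v) = 0`, so `av θ v = C c * X 0 * σ`.
`HC.step`: `L = {(v, c) | av θ v = lf c * σ}`; `v ∈ WW σ` and `v ↦ c` is linear, injective (`¬ Cone`), so the space `L₂` of all such `c` has dimension at most
`finrank (WW σ) < n + 1`; choose `u0 ≠ 0` in `ℂ^(n+1)` with `∑ c i u0 i = 0` for all `c ∈ L₂`, and `u1 ∈ WW σ`, `u1 ≠ 0` if `WW σ ≠ ⊥`.  `exists_flag1` with `gen_row` for `u0`, `u1` and the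
generic values `ge (pb2 φ θ) 3 1`, `3 2`, `4 2` (`ge_pb2`).  For `θ' = pb2 g θ`, `σ' = pb g σ`, `WW σ' = g⁻¹ WW σ`, `ge θ' = ge θ` (`ge_inv`):
`e_2(H) = 1`: `≥ 1` as `res σ' ≠ 0` (`EE_ker`), `≤ 1` by `lift_two`.  `WW (res σ')` embeds by `v' ↦ (0, v')` into the hyperplane `{v_0 = 0}` of `WW σ'` (`res_WW`), which is proper by `u1`.
`¬ Cone (rs2 θ')`: by `res_cone` `av θ' v = C c * X 0 * σ'`, `v_0 = 0`, `v ≠ 0`, `c ≠ 0` (`¬ Cone θ'`); in the old coordinates `X 0` becomes the linear form with coefficient vector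
row 0 of `g⁻¹` (times `c`), it lies in `L₂`, so its value `c (g⁻¹ u0)_0` at `u0` vanishes: contradiction. -/

set_option autoImplicit false

namespace Pool.Agent.Helper18.LB

open MvPolynomial
open scoped BigOperators
open Pool.Agent.Helper71.FC
open Pool.Agent.Helper71.FL (w12 pf ct Dec Closed dd res at0 emb)
open Pool.Agent.Helper93 (lmap)
open Pool.Agent.Helper93 (pb)

section auxD
variable {n : ℕ}

private theorem dc_nz {θ : F2 n} (hF : Fol θ) : ∃ i j, θ i j ≠ 0 := by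
  by_contra hcon
  push Not at hcon
  have := hF.prim 0 (fun i j => by rw [hcon])
  exact not_isUnit_zero this

private theorem dc_bot0 {θ : F2 (n + 1)} (h1 : EE θ 1 = ⊥) : EE θ 0 = ⊥ := by
  rw [eq_bot_iff]
  intro ξ hξ
  have hm : (fun i => X 0 * ξ i : F1 (n + 1)) ∈ EE θ 1 := by
    refine ⟨fun i => (isHomogeneous_X ℂ (0 : Fin (n + 1))).mul (hξ.1 i), fun i j l => ?_⟩
    rw [Pool.Agent.Helper71.FL.w12_smul, hξ.2, mul_zero]
  rw [h1, Submodule.mem_bot] at hm
  rw [Submodule.mem_bot]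
  funext i
  have h2 := congrFun hm i
  rcases mul_eq_zero.mp h2 with h3 | h3
  · exact absurd h3 (X_ne_zero 0)
  · exact h3

private theorem dc_up {θ : F2 (n + 2)} (h : ∃ i j, rs2 θ i j ≠ 0) (h1 : EE (rs2 θ) 1 = ⊥) :
    EE θ 1 = ⊥ := by
  have h0 : EE θ 0 = ⊥ := by
    rw [eq_bot_iff]
    intro ξ hξ
    rw [Submodule.mem_bot]
    have h2 := res_mem_EE hξ
    rw [dc_bot0 h1, Submodule.mem_bot] at h2
    exact EE_ker0 h hξ (fun i => congrFun h2 i)
  rw [eq_bot_iff]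
  intro ξ hξ
  rw [Submodule.mem_bot]
  have h2 := res_mem_EE hξ
  rw [h1, Submodule.mem_bot] at h2
  obtain ⟨η, hη, he⟩ := EE_ker h (k := 0) hξ (fun i => congrFun h2 i)
  rw [h0, Submodule.mem_bot] at hη
  funext i
  rw [he i, hη]
  exact mul_zero _

private theorem dc_at0_C (c : ℂ) : at0 n ℂ (C c) = C c := by
  unfold at0
  rw [aeval_C]
  rfl

private theorem dc_at0_emb (f : Pn n) : at0 n ℂ (emb n ℂ f) = f := by
  unfold at0 emb
  rw [aeval_rename]
  have h1 : (Fin.cons (0 : Pn n) (fun i => (X i : Pn n)) : Fin (n + 1) → Pn n) ∘ Fin.succ =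
      (X : Fin n → Pn n) := by
    funext i
    exact Fin.cons_succ _ _ _
  rw [h1, aeval_X_left_apply]

private theorem dc_lsub_C {m : ℕ} (φ : Fin n → Fin m → ℂ) (c : ℂ) :
    Pool.Agent.Helper93.lsub φ (C c) = C c := by
  unfold Pool.Agent.Helper93.lsub
  rw [aeval_C]
  rfl

private theorem dc_lsub_X {m : ℕ} (φ : Fin n → Fin m → ℂ) (i : Fin n) :
    Pool.Agent.Helper93.lsub φ (X i) = lf (φ i) := by
  unfold Pool.Agent.Helper93.lsub
  rw [aeval_X]
  rfl

/-- contraction commutes with restriction -/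
private theorem dc_res_av (θ : F2 (n + 1)) (v' : Fin n → ℂ) (j : Fin n) :
    res (av θ (Fin.cons 0 v' : Fin (n + 1) → ℂ)) j = av (rs2 θ) v' j := by
  show at0 n ℂ (∑ i, C ((Fin.cons 0 v' : Fin (n + 1) → ℂ) i) * θ i j.succ) =
    ∑ i, C (v' i) * at0 n ℂ (θ i.succ j.succ)
  rw [Fin.sum_univ_succ, map_add, map_sum, Fin.cons_zero, C_0, zero_mul, map_zero, zero_add]
  refine Finset.sum_congr rfl fun i _ => ?_
  rw [map_mul, Fin.cons_succ, dc_at0_C]

private theorem dc_res_pair (σ : F1 (n + 1)) (v' : Fin n → ℂ) :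
    at0 n ℂ (∑ i, C ((Fin.cons 0 v' : Fin (n + 1) → ℂ) i) * σ i) = ∑ i, C (v' i) * res σ i := by
  rw [Fin.sum_univ_succ, map_add, map_sum, Fin.cons_zero, C_0, zero_mul, map_zero, zero_add]
  refine Finset.sum_congr rfl fun i _ => ?_
  rw [map_mul, Fin.cons_succ, dc_at0_C]
  rfl

private theorem dc_one {θ : F2 n} {k : ℕ} (h : Module.finrank ℂ (EE θ k) = 1) {σ : F1 n}
    (hσ : σ ∈ EE θ k) (hσ0 : σ ≠ 0) {η : F1 n} (hη : η ∈ EE θ k) :
    ∃ c : ℂ, ∀ i, η i = C c * σ i := by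
  have hx : (⟨σ, hσ⟩ : EE θ k) ≠ 0 := fun h0 => hσ0 (congrArg Subtype.val h0)
  obtain ⟨c, hc⟩ := exists_smul_eq_of_finrank_eq_one h hx ⟨η, hη⟩
  refine ⟨c, fun i => ?_⟩
  have h1 : c • σ = η := congrArg Subtype.val hc
  rw [← h1, Pi.smul_apply, smul_eq_C_mul]

private theorem dc_pb_inv {g g' : Fin n → Fin n → ℂ} (hg : Inv g g') (ξ : F1 n) :
    pb g' (pb g ξ) = ξ := by
  rw [pb_mm, hg.1, pb_idm]

private theorem dc_lsub_inv {g g' : Fin n → Fin n → ℂ} (hg : Inv g g') (p : Pn n) :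
    Pool.Agent.Helper93.lsub g' (Pool.Agent.Helper93.lsub g p) = p := by
  rw [lsub_mm, hg.1, lsub_idm]

private theorem dc_lmap_inv {g g' : Fin n → Fin n → ℂ} (hg : Inv g g') (v : Fin n → ℂ) :
    lmap g (lmap g' v) = v := by
  funext i
  show ∑ l, g i l * ∑ j, g' l j * v j = v i
  have h1 : ∑ l, g i l * ∑ j, g' l j * v j = ∑ j, mm g g' i j * v j := by
    unfold mm
    simp only [Finset.mul_sum, Finset.sum_mul]
    rw [Finset.sum_comm]
    refine Finset.sum_congr rfl fun j _ => Finset.sum_congr rfl fun l _ => ?_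
    ring
  rw [h1, hg.1]
  unfold idm
  simp

private theorem dc_mem_WW {σ : F1 n} {v : Fin n → ℂ} : v ∈ WW σ ↔ ∑ i, C (v i) * σ i = 0 :=
  Iff.rfl

private theorem dc_WW_pb {g g' : Fin n → Fin n → ℂ} (hg : Inv g g') {σ : F1 n} {v : Fin n → ℂ}
    (hv : v ∈ WW (pb g σ)) : lmap g v ∈ WW σ := by
  rw [dc_mem_WW] at hv ⊢
  have h1 : Pool.Agent.Helper93.lsub g (∑ i, C (lmap g v i) * σ i) = ∑ i, C (v i) * pb g σ i := by
    rw [map_sum]
    have h2 : ∀ j, Pool.Agent.Helper93.lsub g (C (lmap g v j) * σ j) =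
        ∑ i, C (v i) * (C (g j i) * Pool.Agent.Helper93.lsub g (σ j)) := by
      intro j
      rw [map_mul, dc_lsub_C]
      show C (∑ i, g j i * v i) * _ = _
      rw [map_sum, Finset.sum_mul]
      refine Finset.sum_congr rfl fun i _ => ?_
      rw [C_mul]
      ring
    rw [Finset.sum_congr rfl fun j _ => h2 j, Finset.sum_comm]
    refine Finset.sum_congr rfl fun i _ => ?_
    show _ = C (v i) * ∑ j, C (g j i) * Pool.Agent.Helper93.lsub g (σ j)
    rw [Finset.mul_sum]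
  rw [hv] at h1
  have h3 := congrArg (Pool.Agent.Helper93.lsub g') h1
  rwa [dc_lsub_inv hg, map_zero] at h3

private theorem dc_lmap_inj {g g' : Fin n → Fin n → ℂ} (hg : Inv g g') :
    Function.Injective (lmap g) := by
  intro a b hab
  have h := congrArg (lmap g') hab
  rwa [dc_lmap_inv hg.symm, dc_lmap_inv hg.symm] at h

private theorem dc_WW_le {g g' : Fin n → Fin n → ℂ} (hg : Inv g g') (σ : F1 n) :
    Module.finrank ℂ (WW (pb g σ)) ≤ Module.finrank ℂ (WW σ) := by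
  let T : WW (pb g σ) →ₗ[ℂ] WW σ :=
    { toFun := fun x => ⟨lmap g x.1, dc_WW_pb hg x.2⟩
      map_add' := fun x y => Subtype.ext (map_add (lmap g) x.1 y.1)
      map_smul' := fun c x => Subtype.ext (map_smul (lmap g) c x.1) }
  have hT : Function.Injective T := by
    intro x y hxy
    exact Subtype.ext (dc_lmap_inj hg (congrArg Subtype.val hxy))
  exact LinearMap.finrank_le_finrank_of_injective hT

private theorem dc_WW_mul {σ τ : F1 n} {c : ℂ} (hτ : τ ≠ 0) (h : ∀ i, τ i = C c * σ i) :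
    Module.finrank ℂ (WW τ) ≤ Module.finrank ℂ (WW σ) := by
  have hc : c ≠ 0 := by
    rintro rfl
    apply hτ
    funext i
    rw [h i, C_0, zero_mul]
    rfl
  apply Submodule.finrank_mono
  intro v hv
  rw [dc_mem_WW] at hv ⊢
  have h1 : C c * ∑ i, C (v i) * σ i = 0 := by
    rw [Finset.mul_sum, ← hv]
    refine Finset.sum_congr rfl fun i _ => ?_
    rw [h i]
    ring
  exact (mul_eq_zero.1 h1).resolve_left (fun h0 => hc (C_eq_zero.1 h0))

private theorem dc_lf_add (a a' : Fin n → ℂ) : lf (a + a') = lf a + lf a' := by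
  unfold lf
  rw [← Finset.sum_add_distrib]
  refine Finset.sum_congr rfl fun i _ => ?_
  rw [Pi.add_apply, C_add, add_mul]

private theorem dc_lf_smul (c : ℂ) (a : Fin n → ℂ) : lf (c • a) = C c * lf a := by
  unfold lf
  rw [Finset.mul_sum]
  refine Finset.sum_congr rfl fun i _ => ?_
  rw [Pi.smul_apply, smul_eq_mul, C_mul, mul_assoc]

private theorem dc_lf_zero {a : Fin n → ℂ} (h : lf a = 0) : a = 0 := by
  funext i
  have h1 := congrArg (eval (Pi.single i (1 : ℂ))) h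
  unfold lf at h1
  rw [map_sum, map_zero, Finset.sum_eq_single i] at h1
  · rw [map_mul, eval_C, eval_X, Pi.single_eq_same, mul_one] at h1
    exact h1
  · intro j _ hj
    rw [map_mul, eval_C, eval_X, Pi.single_eq_of_ne hj, mul_zero]
  · intro hh
    exact absurd (Finset.mem_univ _) hh

private theorem dc_av_add (θ : F2 n) (v v' : Fin n → ℂ) (j : Fin n) :
    av θ (v + v') j = av θ v j + av θ v' j := by
  show ∑ l, C ((v + v') l) * θ l j = ∑ l, C (v l) * θ l j + ∑ l, C (v' l) * θ l j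
  rw [← Finset.sum_add_distrib]
  refine Finset.sum_congr rfl fun i _ => ?_
  rw [Pi.add_apply, C_add, add_mul]

private theorem dc_av_smul (θ : F2 n) (c : ℂ) (v : Fin n → ℂ) (j : Fin n) :
    av θ (c • v) j = C c * av θ v j := by
  show ∑ l, C ((c • v) l) * θ l j = C c * ∑ l, C (v l) * θ l j
  rw [Finset.mul_sum]
  refine Finset.sum_congr rfl fun i _ => ?_
  rw [Pi.smul_apply, smul_eq_mul, C_mul, mul_assoc]

/-- the pairs `(v, c)` with `av θ v = lf c * σ` -/
private noncomputable def dcL (θ : F2 n) (σ : F1 n) : Submodule ℂ ((Fin n → ℂ) × (Fin n → ℂ)) where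
  carrier := {x | ∀ j, av θ x.1 j = lf x.2 * σ j}
  add_mem' := by
    intro a b ha hb j
    show av θ (a.1 + b.1) j = lf (a.2 + b.2) * σ j
    rw [dc_av_add, dc_lf_add, ha j, hb j]
    ring
  zero_mem' := by
    intro j
    show av θ 0 j = lf 0 * σ j
    have h1 := dc_av_smul θ 0 0 j
    have h2 := dc_lf_smul (0 : ℂ) (0 : Fin n → ℂ)
    rw [zero_smul, C_0, zero_mul] at h1 h2
    rw [h1, h2, zero_mul]
  smul_mem' := by
    intro c a ha j
    show av θ (c • a.1) j = lf (c • a.2) * σ j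
    rw [dc_av_smul, dc_lf_smul, ha j]
    ring

private theorem dcL_le {θ : F2 n} (hF : Fol θ) {σ : F1 n} (hσ : ∀ i j k, w12 σ θ i j k = 0)
    (hσ0 : σ ≠ 0) : Module.finrank ℂ (dcL θ σ) ≤ Module.finrank ℂ (WW σ) := by
  obtain ⟨i0, j0, hij⟩ := dc_nz hF
  have hk : ∀ x ∈ dcL θ σ, x.1 ∈ WW σ := by
    intro x hx
    have h1 := w11_av hF.dec hσ x.1 i0 j0
    have h2 : w11 σ (av θ x.1) i0 j0 = 0 := by
      unfold w11
      rw [hx i0, hx j0]
      ring
    rw [h2] at h1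
    exact (mul_eq_zero.1 h1.symm).resolve_right hij
  let U : dcL θ σ →ₗ[ℂ] WW σ :=
    { toFun := fun x => ⟨x.1.1, hk x.1 x.2⟩
      map_add' := fun x y => rfl
      map_smul' := fun c x => rfl }
  have hU : Function.Injective U := by
    rw [injective_iff_map_eq_zero]
    rintro ⟨⟨v, c⟩, hx⟩ h0
    have hv : v = 0 := congrArg Subtype.val h0
    have h1 : ∀ j, av θ v j = lf c * σ j := hx
    obtain ⟨j, hj⟩ : ∃ j, σ j ≠ 0 := by
      by_contra hcon
      push Not at hcon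
      exact hσ0 (_root_.funext hcon)
    have h2 := h1 j
    have h3 : av θ v j = 0 := by
      rw [hv]
      have := dc_av_smul θ 0 0 j
      rw [zero_smul, C_0, zero_mul] at this
      exact this
    rw [h3] at h2
    have h4 := dc_lf_zero ((mul_eq_zero.1 h2.symm).resolve_right hj)
    apply Subtype.ext
    exact Prod.ext hv h4
  exact LinearMap.finrank_le_finrank_of_injective hU

end auxD

theorem gen_row {n : ℕ} {u : Fin (n + 1) → ℂ} (hu : u ≠ 0) :
    GenM (fun g : Fin (n + 1) → Fin (n + 1) → ℂ => ∀ g', Inv g g' → lmap g' u 0 ≠ 0) := by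
  have ev : ∀ g : Fin (n + 1) → Fin (n + 1) → ℂ,
      eval (fun q : Fin (n + 1) × Fin (n + 1) => g q.1 q.2)
      (Matrix.det ((Matrix.of fun i j : Fin (n + 1) =>
        (X (i, j) : MvPolynomial (Fin (n + 1) × Fin (n + 1)) ℂ)).updateCol 0
          (fun i => C (u i)))) =
      Matrix.det ((Matrix.of g).updateCol 0 u) := by
    intro g
    rw [RingHom.map_det]
    congr 1
    ext i j
    rw [RingHom.mapMatrix_apply, Matrix.map_apply, Matrix.updateCol_apply, Matrix.updateCol_apply]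
    split
    · rw [eval_C]
    · rw [Matrix.of_apply, Matrix.of_apply, eval_X]
  refine ⟨Matrix.det ((Matrix.of fun i j : Fin (n + 1) =>
        (X (i, j) : MvPolynomial (Fin (n + 1) × Fin (n + 1)) ℂ)).updateCol 0
          (fun i => C (u i))), ?_, fun g hg g' hg' h0 => ?_⟩
  · intro h0
    obtain ⟨g, g', hg, hgu⟩ := exists_basis (n := n + 1) (r := 1) (by omega) (fun _ => u)
      (linearIndependent_unique_iff.2 hu)
    have h1 := ev g
    rw [h0, map_zero] at h1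
    have h2 : (Matrix.of g).updateCol 0 u = Matrix.of g := by
      ext i j
      rw [Matrix.updateCol_apply]
      split
      · rename_i hj
        have h3 := congrFun (hgu 0) i
        have h4 : ∑ l, g i l * (if l = Fin.castLE (by omega : 1 ≤ n + 1) 0 then (1 : ℂ) else 0) =
            u i := h3
        rw [Finset.sum_eq_single (0 : Fin (n + 1))] at h4
        · rw [← h4, Matrix.of_apply, hj]
          simp
        · intro l _ hl
          have : l ≠ Fin.castLE (by omega : 1 ≤ n + 1) 0 := hl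
          rw [if_neg this, mul_zero]
        · intro h; exact absurd (Finset.mem_univ _) h
      · rfl
    rw [h2] at h1
    have h3 : Matrix.of g * Matrix.of g' = 1 := by
      ext i j
      rw [Matrix.mul_apply, Matrix.one_apply]
      exact congrFun (congrFun hg.1 i) j
    have h4 := congrArg Matrix.det h3
    rw [Matrix.det_mul, ← h1, zero_mul, Matrix.det_one] at h4
    exact zero_ne_one h4
  · rw [ev] at hg
    have h1 : lmap g (lmap g' u) = u := dc_lmap_inv hg' u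
    let w : Fin (n + 1) → ℂ := fun j => if j = 0 then -1 else lmap g' u j
    have h2 : ((Matrix.of g).updateCol 0 u).mulVec w = 0 := by
      funext i
      show ∑ j, ((Matrix.of g).updateCol 0 u) i j * w j = 0
      have h3 := congrFun h1 i
      have h4 : ∑ j, g i j * lmap g' u j = u i := h3
      rw [Fin.sum_univ_succ] at h4 ⊢
      rw [h0, mul_zero, zero_add] at h4
      rw [Matrix.updateCol_self]
      have h5 : w 0 = -1 := if_pos rfl
      rw [h5, ← h4]
      have h6 : ∀ j : Fin n, ((Matrix.of g).updateCol 0 u) i j.succ * w j.succ =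
          g i j.succ * lmap g' u j.succ := by
        intro j
        rw [Matrix.updateCol_ne (Fin.succ_ne_zero j)]
        have h7 : w j.succ = lmap g' u j.succ := if_neg (Fin.succ_ne_zero j)
        rw [h7]
        rfl
      rw [Finset.sum_congr rfl fun j _ => h6 j]
      ring
    have h3 := Matrix.eq_zero_of_mulVec_eq_zero hg h2
    have h4 : w 0 = 0 := congrFun h3 0
    have h5 : w 0 = -1 := if_pos rfl
    rw [h5] at h4
    exact one_ne_zero (neg_eq_zero.1 h4)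

theorem res_WW {n : ℕ} {θ : F2 (n + 1)} (hF : Fol θ) (hFH : Fol (rs2 θ))
    (h1H : EE (rs2 θ) 1 = ⊥) (h2 : Module.finrank ℂ (EE θ 2) = 1) {σ : F1 (n + 1)}
    (hσ : σ ∈ EE θ 2) (hσ0 : σ ≠ 0) {v' : Fin n → ℂ} (hv : v' ∈ WW (res σ)) :
    (Fin.cons 0 v' : Fin (n + 1) → ℂ) ∈ WW σ := by
  have hnz := dc_nz hFH
  have h1 : EE θ 1 = ⊥ := by
    rcases n with _ | n
    · obtain ⟨i, -, -⟩ := hnz
      exact i.elim0
    · exact dc_up hnz h1H
  have hρ : res σ ≠ 0 := by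
    intro h0
    obtain ⟨η, hη, he⟩ := EE_ker hnz hσ (fun i => congrFun h0 i)
    rw [h1, Submodule.mem_bot] at hη
    apply hσ0
    funext i
    rw [he i, hη]
    exact mul_zero _
  have hρE := res_mem_EE hσ
  have hp : ∑ l, C (v' l) * res σ l = 0 := hv
  have h3 : ∀ i j, w11 (av (rs2 θ) v') (res σ) i j = 0 := by
    intro i j
    have h4 := w11_av hFH.dec hρE.2 v' i j
    rw [hp, zero_mul] at h4
    unfold w11 at h4 ⊢
    linear_combination -h4
  obtain ⟨s, hs, hse⟩ := sig_of_w h1H hρE hρ (k := 1)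
    (av_mem_EE hFH.dec hFH.hom v').1 h3
  have hζ : (fun j => av θ (Fin.cons 0 v' : Fin (n + 1) → ℂ) j - emb n ℂ s * σ j) ∈ EE θ 3 := by
    have h4 := av_mem_EE hF.dec hF.hom (Fin.cons 0 v' : Fin (n + 1) → ℂ)
    have h5 : (fun j => emb n ℂ s * σ j : F1 (n + 1)) ∈ EE θ 3 := by
      refine ⟨fun i => ?_, fun i j l => ?_⟩
      · have h6 : (emb n ℂ s).IsHomogeneous 1 := hs.rename_isHomogeneous
        exact h6.mul (hσ.1 i)
      · rw [Pool.Agent.Helper71.FL.w12_smul, hσ.2, mul_zero]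
    exact (EE θ 3).sub_mem h4 h5
  have hζ0 : ∀ i, res (fun j => av θ (Fin.cons 0 v' : Fin (n + 1) → ℂ) j - emb n ℂ s * σ j) i = 0 := by
    intro i
    show at0 n ℂ (av θ (Fin.cons 0 v' : Fin (n + 1) → ℂ) i.succ - emb n ℂ s * σ i.succ) = 0
    rw [map_sub, map_mul, dc_at0_emb]
    have h4 := dc_res_av θ v' i
    have h5 : at0 n ℂ (av θ (Fin.cons 0 v' : Fin (n + 1) → ℂ) i.succ) = av (rs2 θ) v' i := h4
    have h6 : at0 n ℂ (σ i.succ) = res σ i := rfl
    rw [h5, h6, hse i, sub_self]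
  obtain ⟨η, hη, he⟩ := EE_ker hnz hζ hζ0
  obtain ⟨c, hc⟩ := dc_one h2 hσ hσ0 hη
  have h4 : ∀ i, av θ (Fin.cons 0 v' : Fin (n + 1) → ℂ) i = (emb n ℂ s + X 0 * C c) * σ i := by
    intro i
    have h5 : av θ (Fin.cons 0 v' : Fin (n + 1) → ℂ) i - emb n ℂ s * σ i = X 0 * η i := he i
    rw [hc i] at h5
    linear_combination h5
  obtain ⟨i0, j0, hij⟩ := dc_nz hF
  have h5 := w11_av hF.dec hσ.2 (Fin.cons 0 v' : Fin (n + 1) → ℂ) i0 j0
  have h6 : w11 σ (av θ (Fin.cons 0 v' : Fin (n + 1) → ℂ)) i0 j0 = 0 := by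
    unfold w11
    rw [h4 i0, h4 j0]
    ring
  rw [h6] at h5
  exact (mul_eq_zero.1 h5.symm).resolve_right hij

theorem res_cone {n : ℕ} {θ : F2 (n + 1)} (hF : Fol θ) (hFH : Fol (rs2 θ))
    (h2 : Module.finrank ℂ (EE θ 2) = 1) {σ : F1 (n + 1)} (hσ : σ ∈ EE θ 2) (hσ0 : σ ≠ 0)
    {v' : Fin n → ℂ} (hv : ∀ j, av (rs2 θ) v' j = 0) :
    ∃ c : ℂ, ∀ j, av θ (Fin.cons 0 v' : Fin (n + 1) → ℂ) j = C c * X 0 * σ j := by
  have hnz := dc_nz hFH
  have h4 := av_mem_EE hF.dec hF.hom (Fin.cons 0 v' : Fin (n + 1) → ℂ)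
  obtain ⟨η, hη, he⟩ := EE_ker hnz h4 (fun i => (dc_res_av θ v' i).trans (hv i))
  obtain ⟨c, hc⟩ := dc_one h2 hσ hσ0 hη
  refine ⟨c, fun j => ?_⟩
  rw [he j, hc j]
  ring

/-- hypotheses of case (c) in `n` variables -/
structure HC {n : ℕ} (θ : F2 n) (σ : F1 n) : Prop where
  fol : Fol θ
  nc : ¬ Cone θ
  g1 : ge θ 3 1 = 0
  e2 : Module.finrank ℂ (EE θ 2) = 1
  g32 : ge θ 3 2 = 2
  g42 : ge θ 4 2 = 1
  hσ : σ ∈ EE θ 2
  hσ0 : σ ≠ 0
  w : Module.finrank ℂ (WW σ) + 4 ≤ n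

theorem HC.step {n : ℕ} (hn : 5 ≤ n) {θ : F2 (n + 1)} {σ : F1 (n + 1)} (h : HC θ σ) :
    ∃ (θ' : F2 n) (σ' : F1 n), HC θ' σ' := by
  have hw := h.w
  -- the vector `u0`
  obtain ⟨u0, hu0, hu0L⟩ : ∃ u0 : Fin (n + 1) → ℂ, u0 ≠ 0 ∧
      ∀ x ∈ dcL θ σ, ∑ i, x.2 i * u0 i = 0 := by
    have h1 := dcL_le h.fol h.hσ.2 h.hσ0
    have h2 : Module.finrank ℂ ((dcL θ σ).map (LinearMap.snd ℂ (Fin (n + 1) → ℂ)
        (Fin (n + 1) → ℂ))) ≤ Module.finrank ℂ (dcL θ σ) := Submodule.finrank_map_le _ _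
    have h3 : (dcL θ σ).map (LinearMap.snd ℂ (Fin (n + 1) → ℂ) (Fin (n + 1) → ℂ)) < ⊤ := by
      rw [lt_top_iff_ne_top]
      intro h4
      rw [h4, finrank_top, Module.finrank_fin_fun] at h2
      omega
    obtain ⟨f, hf, hfk⟩ := Submodule.exists_le_ker_of_lt_top _ h3
    refine ⟨fun i => f (fun j => if i = j then 1 else 0), fun h4 => hf ?_, fun x hx => ?_⟩
    · refine LinearMap.ext fun y => ?_
      rw [LinearMap.pi_apply_eq_sum_univ f y, LinearMap.zero_apply]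
      refine Finset.sum_eq_zero fun i _ => ?_
      have h5 := congrFun h4 i
      have h6 : f (fun j => if i = j then 1 else 0) = 0 := h5
      rw [h6, smul_zero]
    · have h5 : f x.2 = 0 := hfk (Submodule.mem_map_of_mem (f := LinearMap.snd ℂ
        (Fin (n + 1) → ℂ) (Fin (n + 1) → ℂ)) hx)
      rw [LinearMap.pi_apply_eq_sum_univ f x.2] at h5
      exact h5
  -- the vector `u1`
  obtain ⟨u1, hu1, hu1W⟩ : ∃ u1 : Fin (n + 1) → ℂ, u1 ≠ 0 ∧ (WW σ ≠ ⊥ → u1 ∈ WW σ) := by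
    by_cases h1 : WW σ = ⊥
    · exact ⟨u0, hu0, fun h2 => absurd h1 h2⟩
    · obtain ⟨u1, h2, h3⟩ := (Submodule.ne_bot_iff _).1 h1
      exact ⟨u1, h3, fun _ => h2⟩
  obtain ⟨g, g', hg, ⟨hp0, hp1⟩, ⟨hq1, hq2, hq3⟩, hF', hz', hFH⟩ := exists_flag1 (by omega) h.fol
    ((gen_row hu0).and (gen_row hu1))
    ((ge_pb2 θ (m := 3) (k := n) (by omega) (by omega) 1).and
      ((ge_pb2 θ (m := 3) (k := n) (by omega) (by omega) 2).and
        (ge_pb2 θ (m := 4) (k := n) (by omega) (by omega) 2)))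
  have hr0 := hp0 g' hg
  have hr1 := hp1 g' hg
  rw [← rs2_pb2] at hq1 hq2 hq3
  have hnz := dc_nz hFH
  have h1H : EE (rs2 (pb2 g θ)) 1 = ⊥ := e1_bot (hq1.trans h.g1)
  have h1' : EE (pb2 g θ) 1 = ⊥ := e1_bot ((ge_inv θ 3 1 hg).trans h.g1)
  have h2' : Module.finrank ℂ (EE (pb2 g θ) 2) = 1 := by rw [finrank_EE_pb2 θ 2 hg, h.e2]
  have hσ' : pb g σ ∈ EE (pb2 g θ) 2 := EE_pb h.hσ g
  have hσ'0 : pb g σ ≠ 0 := by
    intro h0
    apply h.hσ0
    rw [← dc_pb_inv hg σ, h0]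
    funext i
    show ∑ j, C (g' j i) * Pool.Agent.Helper93.lsub g' ((0 : F1 (n + 1)) j) = 0
    refine Finset.sum_eq_zero fun j _ => ?_
    rw [Pi.zero_apply, map_zero, mul_zero]
  have hρ0 : res (pb g σ) ≠ 0 := by
    intro h0
    obtain ⟨η, hη, he⟩ := EE_ker hnz hσ' (fun i => congrFun h0 i)
    rw [h1', Submodule.mem_bot] at hη
    apply hσ'0
    funext i
    rw [he i, hη]
    exact mul_zero _
  have hρE := res_mem_EE hσ'
  have hcons : ∀ v' : Fin n → ℂ, v' ∈ WW (res (pb g σ)) →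
      lmap g (Fin.cons 0 v' : Fin (n + 1) → ℂ) ∈ WW σ := fun v' hv' =>
    dc_WW_pb hg (res_WW hF' hFH h1H h2' hσ' hσ'0 hv')
  refine ⟨rs2 (pb2 g θ), res (pb g σ), hFH, ?_, hq1.trans h.g1, ?_, hq2.trans h.g32,
    hq3.trans h.g42, hρE, hρ0, ?_⟩
  · -- not a cone
    rintro ⟨v', hv'0, hv'⟩
    obtain ⟨c, hc⟩ := res_cone hF' hFH h2' hσ' hσ'0 hv'
    have h3 : av θ (lmap g (Fin.cons 0 v' : Fin (n + 1) → ℂ)) =
        fun j => lf (c • g' 0) * σ j := by
      rw [← dc_pb_inv hg (av θ (lmap g (Fin.cons 0 v' : Fin (n + 1) → ℂ))), ← av_pb2]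
      have h4 : av (pb2 g θ) (Fin.cons 0 v' : Fin (n + 1) → ℂ) =
          fun j => (C c * X 0) * pb g σ j := _root_.funext hc
      rw [h4, pb_smul, dc_pb_inv hg, map_mul, dc_lsub_C, dc_lsub_X, dc_lf_smul]
    have h5 := hu0L (lmap g (Fin.cons 0 v' : Fin (n + 1) → ℂ), c • g' 0)
      (fun j => congrFun h3 j)
    have h6 : c * lmap g' u0 0 = 0 := by
      rw [← h5]
      show c * ∑ l, g' 0 l * u0 l = ∑ i, (c * g' 0 i) * u0 i
      rw [Finset.mul_sum]
      refine Finset.sum_congr rfl fun i _ => ?_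
      ring
    have h7 : c = 0 := (mul_eq_zero.1 h6).resolve_right hr0
    apply h.nc
    rw [← Cone_pb2 θ hg]
    refine ⟨(Fin.cons 0 v' : Fin (n + 1) → ℂ), fun h8 => hv'0 ?_, fun j => ?_⟩
    · funext i
      have h9 := congrFun h8 i.succ
      rw [Fin.cons_succ] at h9
      exact h9
    · rw [hc j, h7, C_0, zero_mul, zero_mul]
  · -- `e_2 = 1`
    have := finite_EE (rs2 (pb2 g θ)) 2
    apply le_antisymm
    · by_contra hcon
      have h4 := lift_two (by omega) hF' hFH hz' h1H (by omega)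
      omega
    · rw [Nat.one_le_iff_ne_zero]
      intro h0
      rw [Submodule.finrank_eq_zero] at h0
      rw [h0, Submodule.mem_bot] at hρE
      exact hρ0 hρE
  · -- the kernel
    let T : WW (res (pb g σ)) →ₗ[ℂ] WW σ :=
      { toFun := fun x => ⟨lmap g (Fin.cons 0 x.1 : Fin (n + 1) → ℂ), hcons x.1 x.2⟩
        map_add' := by
          intro x y
          apply Subtype.ext
          show lmap g (Fin.cons 0 (x.1 + y.1) : Fin (n + 1) → ℂ) =
            lmap g (Fin.cons 0 x.1 : Fin (n + 1) → ℂ) + lmap g (Fin.cons 0 y.1 : Fin (n + 1) → ℂ)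
          rw [← map_add]
          congr 1
          funext i
          refine Fin.cases ?_ (fun i => ?_) i
          · simp
          · simp
        map_smul' := by
          intro c x
          apply Subtype.ext
          show lmap g (Fin.cons 0 (c • x.1) : Fin (n + 1) → ℂ) =
            c • lmap g (Fin.cons 0 x.1 : Fin (n + 1) → ℂ)
          rw [← map_smul]
          congr 1
          funext i
          refine Fin.cases ?_ (fun i => ?_) i
          · simp
          · simp }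
    have hT : Function.Injective T := by
      intro x y hxy
      have h3 := dc_lmap_inj hg (congrArg Subtype.val hxy)
      apply Subtype.ext
      funext i
      have h4 := congrFun h3 i.succ
      rw [Fin.cons_succ, Fin.cons_succ] at h4
      exact h4
    by_cases hb : WW σ = ⊥
    · have h3 := LinearMap.finrank_le_finrank_of_injective hT
      rw [hb, finrank_bot] at h3
      omega
    · have h3 := LinearMap.finrank_range_of_inj hT
      have h4 : LinearMap.range T < ⊤ := by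
        rw [lt_top_iff_ne_top]
        intro h5
        have h6 : (⟨u1, hu1W hb⟩ : WW σ) ∈ LinearMap.range T := by
          rw [h5]
          exact Submodule.mem_top
        obtain ⟨x, hx⟩ := h6
        have h7 : lmap g (Fin.cons 0 x.1 : Fin (n + 1) → ℂ) = u1 := congrArg Subtype.val hx
        apply hr1
        rw [← h7, dc_lmap_inv hg.symm]
        rfl
      have h5 := Submodule.finrank_lt_finrank_of_lt h4
      rw [finrank_top, h3] at h5
      omega

theorem HC.five {n : ℕ} (hn : 5 ≤ n) {θ : F2 n} {σ : F1 n} (h : HC θ σ) :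
    ∃ (θ' : F2 5) (σ' : F1 5), HC θ' σ' := by
  induction n, hn using Nat.le_induction with
  | base => exact ⟨θ, σ, h⟩
  | succ n hn ih =>
    obtain ⟨θ', σ', h'⟩ := h.step hn
    exact ih h'

/-- the forms (X3), (X4) do not exist -/
def NoXD : Prop := ∀ (θ : F2 5) (s : Bool) (σ : F1 5) (x : Fin 4 → Pn 5)
  (F : Fin 4 → Fin 4 → F1 5), XD θ s σ x F → Module.finrank ℂ (WW σ) ≤ 1 → ¬ Cone θ → False

theorem HC.false (hX : NoXD) {n : ℕ} (hn : 5 ≤ n) {θ : F2 n} {σ : F1 n} (h : HC θ σ) :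
    False := by
  obtain ⟨θ, σ, h⟩ := h.five hn
  have hw := h.w
  obtain ⟨g, g', hg, s, τ, x, F, hXD⟩ := caseC h.fol h.g1 h.e2 h.g32 h.g42 (fun τ hτ hτ0 => by
    obtain ⟨c, hc⟩ := dc_one h.e2 h.hσ h.hσ0 hτ
    have := dc_WW_mul hτ0 hc
    omega)
  have hσ' : pb g σ ∈ EE (pb2 g θ) 2 := EE_pb h.hσ g
  have hσ'0 : pb g σ ≠ 0 := by
    intro h0
    apply h.hσ0
    rw [← dc_pb_inv hg σ, h0]
    funext i
    show ∑ j, C (g' j i) * Pool.Agent.Helper93.lsub g' ((0 : F1 5) j) = 0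
    refine Finset.sum_eq_zero fun j _ => ?_
    rw [Pi.zero_apply, map_zero, mul_zero]
  refine hX (pb2 g θ) s τ x F hXD ?_ (fun hc => h.nc ((Cone_pb2 θ hg).1 hc))
  obtain ⟨c, hc⟩ := dc_one hXD.e2 hσ' hσ'0 hXD.hσ
  have h1 := dc_WW_mul hXD.hσ0 hc
  have h2 := dc_WW_le hg σ
  omega

/-- Lemma B and Lemma C: if `E_2 ≠ 0` then `e_2 ≥ 2` or some `σ ∈ E_2` kills `n - 3` constant vectors -/
theorem lemC (hX : NoXD) {n : ℕ} (hn : 5 ≤ n) {θ : F2 n} (hF : Fol θ) (hc : ¬ Cone θ)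
    (h1 : ge θ 3 1 = 0) (h2 : EE θ 2 ≠ ⊥) :
    2 ≤ Module.finrank ℂ (EE θ 2) ∨
      ∃ σ ∈ EE θ 2, σ ≠ 0 ∧ n ≤ Module.finrank ℂ (WW σ) + 3 := by
  rcases tri hn hF h1 h2 with h | h | h
  · exact Or.inl h
  · obtain ⟨h3, h4⟩ := h
    obtain ⟨σ, hσ, hσ0⟩ := (Submodule.ne_bot_iff _).1 h2
    exact Or.inr ⟨σ, hσ, hσ0, h4 σ hσ hσ0⟩
  · obtain ⟨h3, h4, h5, σ, hσ, hσ0, h6⟩ := h
    exact (HC.false hX hn (θ := θ) (σ := σ) ⟨hF, hc, h1, h3, h4, h5, hσ, hσ0, h6⟩).elim

end Pool.Agent.Helper18.LB
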