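import Pool.Agent.Helper18.LB.Desc
import Pool.Agent.Helper71.FC.Class

/-! Assembly of part (C2) of the classification from Lemma B, Lemma C, case (c) and the two types of normal forms. -/

set_option autoImplicit false

namespace Pool.Agent.Helper18.LB

open MvPolynomial
open scoped BigOperators
open Pool.Agent.Helper71.FC
open Pool.Agent.Helper71.FL (w12 pf ct Dec Closed dd)

/-- gluing: `E_0 = E_1 = 0` on general planes -/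
def IG1 : Prop := ∀ (n : ℕ), 5 ≤ n → ∀ θ : F2 n, Fol θ → ¬ Cone θ → EE θ 0 = ⊥ → EE θ 1 = ⊥ →
  ge θ 3 1 = 0

/-- type (3a) -/
def I3a : Prop := ∀ (n : ℕ), 5 ≤ n → ∀ θ : F2 n, Fol θ → ¬ Cone θ → EE θ 0 = ⊥ → EE θ 1 = ⊥ →
  ∀ (σ1 σ2 : F1 n) (a b m : Pn n) (ρ φ1 φ2 : F1 n), NF θ 1 σ1 σ2 a b m ρ φ1 φ2 →
    OKF θ ∨ ∃ σ ∈ EE θ 2, σ ≠ 0 ∧ Van3 σ

/-- type (4) -/
def I4 : Prop := ∀ (n : ℕ), 5 ≤ n → ∀ θ : F2 n, Fol θ → ¬ Cone θ → EE θ 0 = ⊥ → EE θ 1 = ⊥ →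
  ∀ (σ1 σ2 : F1 n) (a b m : Pn n) (ρ φ1 φ2 : F1 n), NF θ 2 σ1 σ2 a b m ρ φ1 φ2 →
    OKF θ ∨ ∃ σ ∈ EE θ 2, σ ≠ 0 ∧ Van3 σ

theorem IC2_of (hg : IG1) (h3 : I3a) (h4 : I4) (hX : NoXD) : IC2 := by
  intro n hn θ hF hc e0 e1 e2
  rcases lemC hX hn hF hc (hg n hn θ hF hc e0 e1) e2 with h | h
  · obtain ⟨e, σ1, σ2, a, b, m, ρ, φ1, φ2, hnf⟩ := exists_NF' hF e1 h
    rcases hnf.he with rfl | rfl
    · exact h3 n hn θ hF hc e0 e1 σ1 σ2 a b m ρ φ1 φ2 hnf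
    · exact h4 n hn θ hF hc e0 e1 σ1 σ2 a b m ρ φ1 φ2 hnf
  · obtain ⟨σ, hσ, hσ0, hw⟩ := h
    refine Or.inr ⟨σ, hσ, hσ0, WW σ, hw, fun v hv => ?_⟩
    exact hv

end Pool.Agent.Helper18.LB
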