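import Pool.Agent.Helper18.LB.Alg
import Pool.Agent.Helper71.FC.Rest
import Pool.Agent.Helper28.FolReg.Use

/-! LB-2: LEMMA B, the normal form of `θ` with two independent 1-forms `σ1, σ2` in `EE θ 2` (`EE θ 1 = ⊥`).
Proof of `exists_NF`.  (1) `wedge_eq_mul` (`Helper71/FC/Rest.lean`): `σ1 ∧ σ2 = m θ`, `m` homogeneous of degree 1 (`hom_right`).
(2) `m ≠ 0`: otherwise `prop_vec` in `Pn n`: `σ1 = b ρ`, `σ2 = a ρ`, `a, b` of degree `e`; `e = 0` contradicts the linear independence; `e ≥ 1`: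
`ρ ∈ EE θ (2 - e)` (cancel `a` or `b`), so `ρ = 0` (for `e = 2` look at `X l * ρ ∈ EE θ 1`).
(3) Take `p, i` of `exists_quot`.  `p σ1 ≠ 0`, `p σ2 ≠ 0` (otherwise `σ = m ξ`, `ξ ∈ EE θ 1 = ⊥`); the vectors `p σ1`, `p σ2` are proportional,
`prop_vec`: `p σ1 = b' ρ'`, `p σ2 = a' ρ'`, `a', b'` relatively prime of degree `e`.  `e = 0`: `a' σ1 - b' σ2 = m ξ`, `ξ ∈ EE θ 1`: contradiction.
(4) `a = i a'`, `b = i b'`, `ρ = i ρ'`; `σ1 - b ρ = m φ1`, `σ2 - a ρ = m φ2` (`hom_right`).  (5) `m θ = σ1 ∧ σ2`: expand and cancel `m`.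
(6) `Reg3 m b a`: `a x = m u + b v` gives `a' p x = b' p v`, so `b' ∣ p x`, `x = b u' + m v'`; the same for `Reg3 m a b`. -/

set_option autoImplicit false

namespace Pool.Agent.Helper18.LB

open MvPolynomial
open scoped BigOperators
open Pool.Agent.Helper71.FC
open Pool.Agent.Helper71.FL (w12 pf ct Dec Closed dd)
open Pool.Agent.Helper28.FolReg (Reg2 Reg3)

variable {n : ℕ}

/-- normal form of `θ` with two independent quadratic 1-forms `σ1, σ2` -/
structure NF (θ : F2 n) (e : ℕ) (σ1 σ2 : F1 n) (a b m : Pn n) (ρ φ1 φ2 : F1 n) : Prop where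
  he : e = 1 ∨ e = 2
  ha : a.IsHomogeneous e
  hb : b.IsHomogeneous e
  hm : m.IsHomogeneous 1
  hm0 : m ≠ 0
  hρ : ∀ i, (ρ i).IsHomogeneous (2 - e)
  hρ0 : ∃ i, ¬ m ∣ ρ i
  hφ1 : ∀ i, (φ1 i).IsHomogeneous 1
  hφ2 : ∀ i, (φ2 i).IsHomogeneous 1
  hσ1 : ∀ i, σ1 i = b * ρ i + m * φ1 i
  hσ2 : ∀ i, σ2 i = a * ρ i + m * φ2 i
  hθ : ∀ i j, θ i j = w11 ρ (fun k => b * φ2 k - a * φ1 k) i j + m * w11 φ1 φ2 i j
  reg : Reg3 m b a
  reg' : Reg3 m a b

/-- the third generator -/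
noncomputable def tau (a b : Pn n) (φ1 φ2 : F1 n) : F1 n := fun i => a * φ1 i - b * φ2 i

private theorem lb_w11_hom {α β : F1 n} {k l : ℕ} (h1 : ∀ i, (α i).IsHomogeneous k) (h2 : ∀ i, (β i).IsHomogeneous l)
    (i j : Fin n) : (w11 α β i j).IsHomogeneous (k + l) :=
  ((h1 i).mul (h2 j)).sub ((h1 j).mul (h2 i))

/-- cancel a factor of a member of `EE θ` -/
private theorem lb_cancel {θ : F2 n} {k k' : ℕ} {σ ξ : F1 n} {q : Pn n} (hσ : σ ∈ EE θ k) (hq : q ≠ 0)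
    (h : ∀ i, σ i = q * ξ i) (hξ : ∀ i, (ξ i).IsHomogeneous k') : ξ ∈ EE θ k' := by
  refine ⟨hξ, fun i j l => ?_⟩
  apply mul_left_cancel₀ hq
  rw [mul_zero, ← Pool.Agent.Helper71.FL.w12_smul]
  have h1 : (fun l => q * ξ l) = σ := funext fun i => (h i).symm
  rw [h1]
  exact hσ.2 i j l

private theorem lb_reg {τ : Type} {p : Pn n →ₐ[ℂ] MvPolynomial τ ℂ} {ι : MvPolynomial τ ℂ →ₐ[ℂ] Pn n} {m : Pn n}
    (hpi : ∀ f, p (ι f) = f) (hp0 : ∀ f, p f = 0 ↔ m ∣ f) (hm0 : m ≠ 0) {a' b' : MvPolynomial τ ℂ}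
    (hb0 : b' ≠ 0) (hab : IsRelPrime b' a') : Reg3 m (ι b') (ι a') := by
  have hpm : p m = 0 := (hp0 m).mpr dvd_rfl
  refine ⟨fun x hx => ?_, fun x hx => ?_, fun x hx => ?_⟩
  · rcases mul_eq_zero.mp hx with h | h
    · exact absurd h hm0
    · exact h
  · obtain ⟨u, hu⟩ := hx
    have h1 := congrArg p hu
    rw [map_mul, map_mul, hpi, hpm, zero_mul] at h1
    rcases mul_eq_zero.mp h1 with h | h
    · exact absurd h hb0
    · exact (hp0 x).mp h
  · obtain ⟨u, v, hu⟩ := hx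
    have h1 := congrArg p hu
    rw [map_mul, map_add, map_mul, map_mul, hpi, hpi, hpm, zero_mul, zero_add] at h1
    have h2 : b' ∣ p x := hab.dvd_of_dvd_mul_left (by rw [h1]; exact dvd_mul_right _ _)
    obtain ⟨y, hy⟩ := h2
    have h3 : m ∣ x - ι b' * ι y := by
      rw [← hp0, map_sub, map_mul, hpi, hpi, hy, sub_self]
    obtain ⟨z, hz⟩ := h3
    exact ⟨z, ι y, by linear_combination hz⟩

private theorem lb_const {τ : Type} {f : MvPolynomial τ ℂ} (h : f.IsHomogeneous 0) : ∃ c : ℂ, f = C c :=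
  ⟨_, totalDegree_eq_zero_iff_eq_C.mp (Nat.le_zero.mp h.totalDegree_le)⟩

private theorem lb_li {σ1 σ2 : F1 n} (hli : LinearIndependent ℂ ![σ1, σ2]) {α β : ℂ}
    (h : ∀ i, C α * σ1 i = C β * σ2 i) : α = 0 ∧ β = 0 := by
  rw [LinearIndependent.pair_iff] at hli
  have h1 := hli α (-β) (by
    funext i
    rw [Pi.add_apply, Pi.smul_apply, Pi.smul_apply, smul_eq_C_mul, smul_eq_C_mul, h i, C_neg, Pi.zero_apply]
    ring)
  exact ⟨h1.1, neg_eq_zero.mp h1.2⟩

/-- LEMMA B -/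
theorem exists_NF {θ : F2 n} (hF : Fol θ) (h1 : EE θ 1 = ⊥) {σ1 σ2 : F1 n} (hs1 : σ1 ∈ EE θ 2)
    (hs2 : σ2 ∈ EE θ 2) (hli : LinearIndependent ℂ ![σ1, σ2]) :
    ∃ (e : ℕ) (a b m : Pn n) (ρ φ1 φ2 : F1 n), NF θ e σ1 σ2 a b m ρ φ1 φ2 := by
  classical
  have hz1 : ∀ ξ : F1 n, ξ ∈ EE θ 1 → ∀ i, ξ i = 0 := by
    intro ξ hξ i
    rw [h1, Submodule.mem_bot] at hξ
    rw [hξ]
    rfl
  have hσ1 : ∃ i, σ1 i ≠ 0 := by
    by_contra hcon
    push Not at hcon
    have := lb_li hli (α := 1) (β := 0) (fun i => by rw [hcon i, C_0, zero_mul, mul_zero])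
    exact one_ne_zero this.1
  have hσ2 : ∃ i, σ2 i ≠ 0 := by
    by_contra hcon
    push Not at hcon
    have := lb_li hli (α := 0) (β := 1) (fun i => by rw [hcon i, C_0, zero_mul, mul_zero])
    exact one_ne_zero this.2
  obtain ⟨k0, l0, hkl⟩ : ∃ k l, θ k l ≠ 0 := by
    by_contra hcon
    push Not at hcon
    have := hF.prim 0 (fun i j => by rw [hcon])
    exact not_isUnit_zero this
  -- (1)
  obtain ⟨m, hm⟩ := wedge_eq_mul hF.dec hF.prim hs1.2 hs2.2
  have hmh : m.IsHomogeneous 1 := by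
    apply hom_right (f := θ k0 l0) (g := m) (d := 3) (e := 1) _ (hF.hom k0 l0) hkl
    rw [mul_comm, ← hm]
    exact lb_w11_hom hs1.1 hs2.1 k0 l0
  -- (2)
  have hm0 : m ≠ 0 := by
    intro hm0
    obtain ⟨e, e', a, b, ρ, hee, ha, hb, hρ, h3, h4, hab⟩ := prop_vec (s := σ1) (t := σ2) hs1.1 hs2.1 (by
      intro i j
      have := hm i j
      rw [hm0, zero_mul] at this
      unfold w11 at this
      exact sub_eq_zero.mp this) hσ2
    have ha0 : a ≠ 0 := by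
      rintro rfl
      obtain ⟨i, hi⟩ := hσ2
      exact hi (by rw [h4 i, zero_mul])
    rcases Nat.eq_zero_or_pos e with he | he
    · subst he
      obtain ⟨α, rfl⟩ := lb_const ha
      obtain ⟨β, rfl⟩ := lb_const hb
      have := lb_li hli (α := α) (β := β) (fun i => by rw [h3 i, h4 i]; ring)
      exact ha0 (by rw [this.1, C_0])
    · have hρ0 : ∀ i, ρ i = 0 := by
        have h5 : e' = 1 ∨ e' = 0 := by omega
        rcases h5 with h5 | h5
        · subst h5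
          exact hz1 ρ (lb_cancel hs2 ha0 h4 hρ)
        · subst h5
          have h6 : ρ ∈ EE θ 0 := lb_cancel hs2 ha0 h4 hρ
          have h7 : (fun i => X k0 * ρ i) ∈ EE θ 1 := by
            refine ⟨fun i => (isHomogeneous_X ℂ k0).mul (h6.1 i), fun i j l => ?_⟩
            rw [Pool.Agent.Helper71.FL.w12_smul, h6.2, mul_zero]
          intro i
          have h8 := hz1 _ h7 i
          rcases mul_eq_zero.mp h8 with h9 | h9
          · exact absurd h9 (X_ne_zero k0)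
          · exact h9
      obtain ⟨i, hi⟩ := hσ2
      exact hi (by rw [h4 i, hρ0 i, mul_zero])
  -- (3)
  obtain ⟨τ, p, ι, hpi, hp0, hph, hih⟩ := exists_quot hmh hm0
  have hpm : p m = 0 := (hp0 m).mpr dvd_rfl
  have hnz : ∀ σ : F1 n, σ ∈ EE θ 2 → (∃ i, σ i ≠ 0) → ∃ i, p (σ i) ≠ 0 := by
    intro σ hσ hne
    by_contra hcon
    push Not at hcon
    have h5 : ∀ i, m ∣ σ i := fun i => (hp0 _).mp (hcon i)
    choose ξ hξ using h5
    have h6 : ξ ∈ EE θ 1 := lb_cancel hσ hm0 hξ (fun i =>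
      hom_right (f := m) (g := ξ i) (d := 1) (e := 1) (by rw [← hξ i]; exact hσ.1 i) hmh hm0)
    obtain ⟨i, hi⟩ := hne
    exact hi (by rw [hξ i, hz1 ξ h6 i, mul_zero])
  obtain ⟨e, e', a', b', ρ', hee, ha', hb', hρ', h3, h4, hab⟩ :=
    prop_vec (s := fun i => p (σ1 i)) (t := fun i => p (σ2 i)) (d := 2)
      (fun i => hph _ _ (hs1.1 i)) (fun i => hph _ _ (hs2.1 i)) (by
      intro i j
      have := congrArg p (hm i j)
      unfold w11 at this
      rw [map_sub, map_mul, map_mul, map_mul, hpm, zero_mul] at this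
      exact sub_eq_zero.mp this) (hnz σ2 hs2 hσ2)
  have ha0 : a' ≠ 0 := by
    rintro rfl
    obtain ⟨i, hi⟩ := hnz σ2 hs2 hσ2
    exact hi ((h4 i).trans (zero_mul _))
  have hb0 : b' ≠ 0 := by
    rintro rfl
    obtain ⟨i, hi⟩ := hnz σ1 hs1 hσ1
    exact hi ((h3 i).trans (zero_mul _))
  have he0 : e ≠ 0 := by
    rintro rfl
    obtain ⟨α, rfl⟩ := lb_const ha'
    obtain ⟨β, rfl⟩ := lb_const hb'
    have h5 : ∀ i, m ∣ C α * σ1 i - C β * σ2 i := by
      intro i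
      rw [← hp0, map_sub, map_mul, map_mul]
      have e1 : p (C α) = C α := by rw [← algebraMap_eq, AlgHom.commutes]; rfl
      have e2 : p (C β) = C β := by rw [← algebraMap_eq, AlgHom.commutes]; rfl
      rw [e1, e2]
      have e3 := h3 i
      have e4 := h4 i
      rw [e3, e4]
      ring
    choose ξ hξ using h5
    have h8 : (fun i => C α * σ1 i - C β * σ2 i) ∈ EE θ 2 := by
      have := (EE θ 2).sub_mem ((EE θ 2).smul_mem α hs1) ((EE θ 2).smul_mem β hs2)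
      have h9 : (α • σ1 - β • σ2 : F1 n) = fun i => C α * σ1 i - C β * σ2 i := by
        funext i
        rw [Pi.sub_apply, Pi.smul_apply, Pi.smul_apply, smul_eq_C_mul, smul_eq_C_mul]
      rwa [h9] at this
    have h6 : ξ ∈ EE θ 1 := lb_cancel h8 hm0 hξ (fun i =>
      hom_right (f := m) (g := ξ i) (d := 1) (e := 1) (by rw [← hξ i]; exact h8.1 i) hmh hm0)
    have := lb_li hli (α := α) (β := β) (fun i => by
      have h10 := hξ i
      rw [hz1 ξ h6 i, mul_zero] at h10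
      exact sub_eq_zero.mp h10)
    exact ha0 (by rw [this.1, C_0])
  -- (4)
  have hρh : ∀ i, (ι (ρ' i)).IsHomogeneous (2 - e) := by
    intro i
    have : e' = 2 - e := by omega
    rw [← this]
    exact hih _ _ (hρ' i)
  have hah : (ι a').IsHomogeneous e := hih _ _ ha'
  have hbh : (ι b').IsHomogeneous e := hih _ _ hb'
  have hd1 : ∀ i, m ∣ σ1 i - ι b' * ι (ρ' i) := by
    intro i
    rw [← hp0, map_sub, map_mul, hpi, hpi]
    exact sub_eq_zero.mpr (h3 i)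
  have hd2 : ∀ i, m ∣ σ2 i - ι a' * ι (ρ' i) := by
    intro i
    rw [← hp0, map_sub, map_mul, hpi, hpi]
    exact sub_eq_zero.mpr (h4 i)
  choose φ1 hφ1 using hd1
  choose φ2 hφ2 using hd2
  have h2e : e + (2 - e) = 2 := by omega
  refine ⟨e, ι a', ι b', m, fun i => ι (ρ' i), φ1, φ2, ?_⟩
  refine ⟨by omega, hah, hbh, hmh, hm0, hρh, ?_, ?_, ?_, ?_, ?_, ?_, ?_, ?_⟩
  · obtain ⟨i, hi⟩ := hnz σ2 hs2 hσ2
    refine ⟨i, fun hdvd => hi ?_⟩
    have h5 := (hp0 _).mpr hdvd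
    rw [hpi] at h5
    have h6 := h4 i
    rw [h6, h5, mul_zero]
  · intro i
    apply hom_right (f := m) (g := φ1 i) (d := 1) (e := 1) _ hmh hm0
    rw [← hφ1 i]
    apply IsHomogeneous.sub (hs1.1 i)
    have := hbh.mul (hρh i)
    rwa [h2e] at this
  · intro i
    apply hom_right (f := m) (g := φ2 i) (d := 1) (e := 1) _ hmh hm0
    rw [← hφ2 i]
    apply IsHomogeneous.sub (hs2.1 i)
    have := hah.mul (hρh i)
    rwa [h2e] at this
  · intro i
    linear_combination hφ1 i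
  · intro i
    linear_combination hφ2 i
  · intro i j
    apply mul_left_cancel₀ hm0
    have h5 := hm i j
    have e1 := hφ1 i
    have e2 := hφ1 j
    have e3 := hφ2 i
    have e4 := hφ2 j
    have f1 : σ1 i = ι b' * ι (ρ' i) + m * φ1 i := by linear_combination e1
    have f2 : σ1 j = ι b' * ι (ρ' j) + m * φ1 j := by linear_combination e2
    have f3 : σ2 i = ι a' * ι (ρ' i) + m * φ2 i := by linear_combination e3
    have f4 : σ2 j = ι a' * ι (ρ' j) + m * φ2 j := by linear_combination e4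
    unfold w11 at h5 ⊢
    rw [f1, f2, f3, f4] at h5
    linear_combination -h5
  · exact lb_reg hpi hp0 hm0 hb0 hab.symm
  · exact lb_reg hpi hp0 hm0 ha0 hab

/-- two independent members from the dimension -/
theorem exists_NF' {θ : F2 n} (hF : Fol θ) (h1 : EE θ 1 = ⊥) (h2 : 2 ≤ Module.finrank ℂ (EE θ 2)) :
    ∃ (e : ℕ) (σ1 σ2 : F1 n) (a b m : Pn n) (ρ φ1 φ2 : F1 n), NF θ e σ1 σ2 a b m ρ φ1 φ2 := by
  have hpos : 0 < Module.finrank ℂ (EE θ 2) := by omega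
  have hnt : Nontrivial (EE θ 2) := Module.nontrivial_of_finrank_pos hpos
  obtain ⟨x, hx⟩ := exists_ne (0 : EE θ 2)
  obtain ⟨y, hxy⟩ := exists_linearIndependent_pair_of_one_lt_finrank (R := ℂ) (by omega) hx
  have hli : LinearIndependent ℂ ![(x : F1 n), (y : F1 n)] := by
    have h3 := hxy.map' (EE θ 2).subtype (Submodule.ker_subtype _)
    have h4 : (EE θ 2).subtype ∘ ![x, y] = ![(x : F1 n), (y : F1 n)] := by
      funext i
      fin_cases i <;> rfl
    rwa [h4] at h3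
  obtain ⟨e, a, b, m, ρ, φ1, φ2, h⟩ := exists_NF hF h1 x.2 y.2 hli
  exact ⟨e, _, _, a, b, m, ρ, φ1, φ2, h⟩

end Pool.Agent.Helper18.LB
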