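import Pool.Agent.Helper18.LB.NF

/-! LB-3: presentation of `E` for the normal form `NF`: generators `σ1, σ2, τ = a φ1 - b φ2` (`τ` has degree `e + 1`), one relation `(a, -b, -m)`.
Proofs.  `m τ = a σ1 - b σ2`, `σ1 ∧ σ2 = m θ`, `σ1 ∧ τ = - b θ`, `σ2 ∧ τ = - a θ`: expand.  `NF.ann1`: `m (σ1 ∧ θ) = σ1 ∧ σ1 ∧ σ2 = 0`.
`NF.gen`: `ξ ∧ θ = 0`.  `wedge_eq_mul`: `ξ ∧ σ1 = γ1 θ`, `ξ ∧ σ2 = γ2 θ`.  For all `i j k`: `θ_jk (m ξ_i - γ2 σ1_i + γ1 σ2_i)
= (σ1 ∧ σ2)_jk ξ_i - (ξ ∧ σ2)_jk σ1_i + (ξ ∧ σ1)_jk σ2_i = w12 ξ (w11 σ1 σ2) i j k = m w12 ξ θ i j k = 0`, so `m ξ = γ2 σ1 - γ1 σ2`.  At an index `i`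
with `¬ m ∣ ρ_i`: `m ∣ (γ2 b - γ1 a) ρ_i`, and `m` is prime (`Reg2`-type argument: `m` is a non zero linear form, use `exists_quot`), so
`γ2 b = γ1 a + m u`; `reg` gives `γ1 = b h + m v` (and then `γ2 = a h + m w` by cancelling `b` modulo `m`); put `f = w`, `g = - v`:
`m ξ = (a h + m f) σ1 - (b h - m g) σ2 = m (f σ1 + g σ2 + h τ)`.
`NF.ker`: multiply by `m`: `(m f + a h) σ1 + (m g - b h) σ2 = 0`, wedge with `σ2` and `σ1`: `m f = - a h`, `m g = b h`; `reg'` (second clause):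
`h = - m c`, then `f = a c`, `g = - b c`.
`NF.gen1`, `NF.gen2`, `NF.gen2'`: homogeneous components of `NF.gen`. -/

set_option autoImplicit false

namespace Pool.Agent.Helper18.LB

open MvPolynomial
open scoped BigOperators
open Pool.Agent.Helper71.FC
open Pool.Agent.Helper71.FL (w12 pf ct Dec Closed dd)
open Pool.Agent.Helper28.FolReg (Reg2 Reg3)

variable {n : ℕ} {θ : F2 n} {e : ℕ} {σ1 σ2 : F1 n} {a b m : Pn n} {ρ φ1 φ2 : F1 n}

section aux

private theorem prx_hc_mul {f g : Pn n} {d : ℕ} (hg : g.IsHomogeneous d) (m : ℕ) :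
    homogeneousComponent (m + d) (f * g) = homogeneousComponent m f * g := by
  have h1 : ∀ i, homogeneousComponent (m + d) (homogeneousComponent i f * g) =
      if i = m then homogeneousComponent m f * g else 0 := by
    intro i
    rw [homogeneousComponent_of_mem (n := i + d) ((homogeneousComponent_isHomogeneous i f).mul hg)]
    by_cases h : i = m
    · rw [if_pos h, if_pos (by omega), h]
    · rw [if_neg h, if_neg (by omega)]
  conv_lhs => rw [← sum_homogeneousComponent f, Finset.sum_mul, map_sum]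
  rw [Finset.sum_congr rfl (fun i _ => h1 i), Finset.sum_ite_eq']
  split_ifs with h
  · rfl
  · rw [homogeneousComponent_eq_zero, zero_mul]
    rw [Finset.mem_range] at h
    omega

private theorem prx_hc_mul_lt {f g : Pn n} {d : ℕ} (hg : g.IsHomogeneous d) {m : ℕ} (hm : m < d) :
    homogeneousComponent m (f * g) = 0 := by
  have h1 : ∀ i, homogeneousComponent m (homogeneousComponent i f * g) = 0 := by
    intro i
    rw [homogeneousComponent_of_mem (n := i + d) ((homogeneousComponent_isHomogeneous i f).mul hg),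
      if_neg (by omega)]
  conv_lhs => rw [← sum_homogeneousComponent f, Finset.sum_mul, map_sum]
  exact Finset.sum_eq_zero fun i _ => h1 i

private theorem prx_prime {m : Pn n} (hm : m.IsHomogeneous 1) (hm0 : m ≠ 0) {f g : Pn n}
    (h : m ∣ f * g) (hg : ¬ m ∣ g) : m ∣ f := by
  obtain ⟨τ, p, -, -, hp, -, -⟩ := exists_quot hm hm0
  have h1 : p (f * g) = 0 := (hp _).2 h
  rw [map_mul] at h1
  rcases mul_eq_zero.1 h1 with h2 | h2
  · exact (hp _).1 h2
  · exact absurd ((hp _).1 h2) hg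

private theorem prx_const0 {m c : Pn n} (hm : m.IsHomogeneous 1) {r : ℂ} (h : C r = m * c) :
    r = 0 := by
  have h1 := congrArg (constantCoeff (σ := Fin n) (R := ℂ)) h
  rw [constantCoeff_C, map_mul] at h1
  have h2 : constantCoeff m = 0 := by
    rw [constantCoeff_eq]
    by_contra hne
    have := hm hne
    simp at this
  rw [h1, h2, zero_mul]

private theorem prx_C0 {f : Pn n} (h : f.IsHomogeneous 0) : ∃ c : ℂ, f = C c := by
  refine ⟨coeff 0 f, ?_⟩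
  rw [← homogeneousComponent_zero]
  exact (homogeneousComponent_eq_self h).symm

end aux

theorem NF.m_tau (h : NF θ e σ1 σ2 a b m ρ φ1 φ2) (i : Fin n) :
    m * tau a b φ1 φ2 i = a * σ1 i - b * σ2 i := by
  rw [h.hσ1, h.hσ2]
  unfold tau
  ring

theorem NF.w12' (h : NF θ e σ1 σ2 a b m ρ φ1 φ2) (i j : Fin n) : w11 σ1 σ2 i j = m * θ i j := by
  rw [h.hθ]
  unfold w11
  rw [h.hσ1, h.hσ1, h.hσ2, h.hσ2]
  ring

theorem NF.w1t (h : NF θ e σ1 σ2 a b m ρ φ1 φ2) (i j : Fin n) :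
    w11 σ1 (tau a b φ1 φ2) i j = - (b * θ i j) := by
  rw [h.hθ]
  unfold w11 tau
  rw [h.hσ1, h.hσ1]
  ring

theorem NF.w2t (h : NF θ e σ1 σ2 a b m ρ φ1 φ2) (i j : Fin n) :
    w11 σ2 (tau a b φ1 φ2) i j = - (a * θ i j) := by
  rw [h.hθ]
  unfold w11 tau
  rw [h.hσ2, h.hσ2]
  ring

private theorem prx_hom1 (h : NF θ e σ1 σ2 a b m ρ φ1 φ2) (i : Fin n) :
    (σ1 i).IsHomogeneous 2 := by
  rw [h.hσ1]
  have h1 := h.hb.mul (h.hρ i)
  have h2 := h.hm.mul (h.hφ1 i)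
  have h3 : e + (2 - e) = 2 := by rcases h.he with h4 | h4 <;> omega
  rw [h3] at h1
  exact h1.add h2

private theorem prx_hom2 (h : NF θ e σ1 σ2 a b m ρ φ1 φ2) (i : Fin n) :
    (σ2 i).IsHomogeneous 2 := by
  rw [h.hσ2]
  have h1 := h.ha.mul (h.hρ i)
  have h2 := h.hm.mul (h.hφ2 i)
  have h3 : e + (2 - e) = 2 := by rcases h.he with h4 | h4 <;> omega
  rw [h3] at h1
  exact h1.add h2

private theorem prx_homt (h : NF θ e σ1 σ2 a b m ρ φ1 φ2) (i : Fin n) :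
    (tau a b φ1 φ2 i).IsHomogeneous (e + 1) :=
  (h.ha.mul (h.hφ1 i)).sub (h.hb.mul (h.hφ2 i))

theorem NF.mem1 (h : NF θ e σ1 σ2 a b m ρ φ1 φ2) : σ1 ∈ EE θ 2 := by
  refine ⟨prx_hom1 h, fun i j l => ?_⟩
  unfold w12
  rw [h.hθ, h.hθ, h.hθ, h.hσ1, h.hσ1, h.hσ1]
  unfold w11
  ring

theorem NF.mem2 (h : NF θ e σ1 σ2 a b m ρ φ1 φ2) : σ2 ∈ EE θ 2 := by
  refine ⟨prx_hom2 h, fun i j l => ?_⟩
  unfold w12
  rw [h.hθ, h.hθ, h.hθ, h.hσ2, h.hσ2, h.hσ2]
  unfold w11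
  ring

theorem NF.memt (h : NF θ e σ1 σ2 a b m ρ φ1 φ2) : tau a b φ1 φ2 ∈ EE θ (e + 1) := by
  refine ⟨prx_homt h, fun i j l => ?_⟩
  unfold w12
  rw [h.hθ, h.hθ, h.hθ]
  unfold w11 tau
  ring

private theorem prx_nz (hF : Fol θ) : ∃ i j, θ i j ≠ 0 := by
  by_contra hcon
  push Not at hcon
  have := hF.prim 0 (fun i j => by rw [hcon])
  exact not_isUnit_zero this

theorem NF.gen (h : NF θ e σ1 σ2 a b m ρ φ1 φ2) (hF : Fol θ) {ξ : F1 n}
    (hξ : ∀ i j k, w12 ξ θ i j k = 0) :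
    ∃ f g k : Pn n, ∀ i, ξ i = f * σ1 i + g * σ2 i + k * tau a b φ1 φ2 i := by
  obtain ⟨γ1, hγ1⟩ := wedge_eq_mul hF.dec hF.prim hξ h.mem1.2
  obtain ⟨γ2, hγ2⟩ := wedge_eq_mul hF.dec hF.prim hξ h.mem2.2
  obtain ⟨j0, k0, hjk⟩ := prx_nz hF
  have h1 : ∀ i, m * ξ i = γ2 * σ1 i - γ1 * σ2 i := by
    intro i
    have e1 := hγ1 j0 k0
    have e2 := hγ2 j0 k0
    have e3 := h.w12' j0 k0
    have e4 := h.w12' k0 i
    have e5 := h.w12' i j0
    have e6 := hξ i j0 k0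
    unfold w11 at e1 e2 e3 e4 e5
    unfold w12 at e6
    have e7 : θ j0 k0 * (m * ξ i - (γ2 * σ1 i - γ1 * σ2 i)) = 0 := by
      linear_combination m * e6 + σ1 i * e2 - σ2 i * e1 + ξ j0 * e4 + ξ k0 * e5
    rcases mul_eq_zero.1 e7 with h8 | h8
    · exact absurd h8 hjk
    · exact sub_eq_zero.1 h8
  obtain ⟨i0, hi0⟩ := h.hρ0
  have h2 : m ∣ (γ2 * b - γ1 * a) * ρ i0 := by
    refine ⟨ξ i0 - γ2 * φ1 i0 + γ1 * φ2 i0, ?_⟩
    have h3 := h1 i0
    rw [h.hσ1, h.hσ2] at h3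
    linear_combination -h3
  obtain ⟨u, hu⟩ := prx_prime h.hm h.hm0 h2 hi0
  obtain ⟨v, k, hk⟩ := h.reg.2.2 γ1 ⟨-u, γ2, by linear_combination -hu⟩
  obtain ⟨w, hw⟩ := h.reg.2.1 (γ2 - a * k) ⟨a * v + u, by
    rw [hk] at hu
    linear_combination hu⟩
  refine ⟨w, -v, k, fun i => ?_⟩
  apply mul_left_cancel₀ h.hm0
  have h3 := h1 i
  have h4 := h.m_tau i
  have h5 : γ2 = a * k + m * w := by linear_combination hw
  rw [h5, hk] at h3
  linear_combination h3 - k * h4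

theorem NF.ker (h : NF θ e σ1 σ2 a b m ρ φ1 φ2) (hF : Fol θ) {f g k : Pn n}
    (hk : ∀ i, f * σ1 i + g * σ2 i + k * tau a b φ1 φ2 i = 0) :
    ∃ c : Pn n, f = a * c ∧ g = - (b * c) ∧ k = - (m * c) := by
  obtain ⟨j0, k0, hjk⟩ := prx_nz hF
  have h1 : ∀ i, (m * f + k * a) * σ1 i + (m * g - k * b) * σ2 i = 0 := by
    intro i
    linear_combination m * hk i - k * h.m_tau i
  have e3 := h.w12' j0 k0
  unfold w11 at e3
  have hmθ : m * θ j0 k0 ≠ 0 := mul_ne_zero h.hm0 hjk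
  have h2 : m * f + k * a = 0 := by
    have : (m * θ j0 k0) * (m * f + k * a) = 0 := by
      linear_combination σ2 k0 * h1 j0 - σ2 j0 * h1 k0 - (m * f + k * a) * e3
    rcases mul_eq_zero.1 this with h8 | h8
    · exact absurd h8 hmθ
    · exact h8
  have h3 : m * g - k * b = 0 := by
    have : (m * θ j0 k0) * (m * g - k * b) = 0 := by
      linear_combination σ1 j0 * h1 k0 - σ1 k0 * h1 j0 - (m * g - k * b) * e3
    rcases mul_eq_zero.1 this with h8 | h8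
    · exact absurd h8 hmθ
    · exact h8
  obtain ⟨c, hc⟩ := h.reg'.2.1 k ⟨-f, by linear_combination h2⟩
  refine ⟨-c, ?_, ?_, ?_⟩
  · apply mul_left_cancel₀ h.hm0
    rw [hc] at h2
    linear_combination h2
  · apply mul_left_cancel₀ h.hm0
    rw [hc] at h3
    linear_combination h3
  · rw [hc]; ring

theorem NF.gen1 (h : NF θ 1 σ1 σ2 a b m ρ φ1 φ2) (hF : Fol θ) {d : ℕ} {ξ : F1 n}
    (hξ : ξ ∈ EE θ (d + 2)) : ∃ f g k : Pn n, f.IsHomogeneous d ∧ g.IsHomogeneous d ∧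
      k.IsHomogeneous d ∧ ∀ i, ξ i = f * σ1 i + g * σ2 i + k * tau a b φ1 φ2 i := by
  obtain ⟨f, g, k, hfg⟩ := h.gen hF hξ.2
  refine ⟨homogeneousComponent d f, homogeneousComponent d g, homogeneousComponent d k,
    homogeneousComponent_isHomogeneous _ _, homogeneousComponent_isHomogeneous _ _,
    homogeneousComponent_isHomogeneous _ _, fun i => ?_⟩
  have h1 := congrArg (homogeneousComponent (d + 2)) (hfg i)
  rw [homogeneousComponent_eq_self (hξ.1 i), map_add, map_add, prx_hc_mul (prx_hom1 h i),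
    prx_hc_mul (prx_hom2 h i), prx_hc_mul (prx_homt h i)] at h1
  exact h1

theorem NF.gen2 (h : NF θ 2 σ1 σ2 a b m ρ φ1 φ2) (hF : Fol θ) {d : ℕ} {ξ : F1 n}
    (hξ : ξ ∈ EE θ (d + 3)) : ∃ f g k : Pn n, f.IsHomogeneous (d + 1) ∧ g.IsHomogeneous (d + 1) ∧
      k.IsHomogeneous d ∧ ∀ i, ξ i = f * σ1 i + g * σ2 i + k * tau a b φ1 φ2 i := by
  obtain ⟨f, g, k, hfg⟩ := h.gen hF hξ.2
  refine ⟨homogeneousComponent (d + 1) f, homogeneousComponent (d + 1) g, homogeneousComponent d k,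
    homogeneousComponent_isHomogeneous _ _, homogeneousComponent_isHomogeneous _ _,
    homogeneousComponent_isHomogeneous _ _, fun i => ?_⟩
  have h1 := congrArg (homogeneousComponent (d + 3)) (hfg i)
  have h2 : homogeneousComponent (d + 3) (f * σ1 i) = homogeneousComponent (d + 1) f * σ1 i :=
    prx_hc_mul (prx_hom1 h i) (d + 1)
  have h3 : homogeneousComponent (d + 3) (g * σ2 i) = homogeneousComponent (d + 1) g * σ2 i :=
    prx_hc_mul (prx_hom2 h i) (d + 1)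
  have h4 : homogeneousComponent (d + 3) (k * tau a b φ1 φ2 i) =
      homogeneousComponent d k * tau a b φ1 φ2 i :=
    prx_hc_mul (prx_homt h i) d
  rw [homogeneousComponent_eq_self (hξ.1 i), map_add, map_add, h2, h3, h4] at h1
  exact h1

theorem NF.gen2' (h : NF θ 2 σ1 σ2 a b m ρ φ1 φ2) (hF : Fol θ) {ξ : F1 n} (hξ : ξ ∈ EE θ 2) :
    ∃ c1 c2 : ℂ, ∀ i, ξ i = C c1 * σ1 i + C c2 * σ2 i := by
  obtain ⟨f, g, k, hfg⟩ := h.gen hF hξ.2
  obtain ⟨c1, hc1⟩ := prx_C0 (homogeneousComponent_isHomogeneous 0 f)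
  obtain ⟨c2, hc2⟩ := prx_C0 (homogeneousComponent_isHomogeneous 0 g)
  refine ⟨c1, c2, fun i => ?_⟩
  have h1 := congrArg (homogeneousComponent 2) (hfg i)
  have h2 : homogeneousComponent 2 (f * σ1 i) = homogeneousComponent 0 f * σ1 i :=
    prx_hc_mul (prx_hom1 h i) 0
  have h3 : homogeneousComponent 2 (g * σ2 i) = homogeneousComponent 0 g * σ2 i :=
    prx_hc_mul (prx_hom2 h i) 0
  have h4 : homogeneousComponent 2 (k * tau a b φ1 φ2 i) = 0 :=
    prx_hc_mul_lt (prx_homt h i) (by norm_num)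
  rw [homogeneousComponent_eq_self (hξ.1 i), map_add, map_add, h2, h3, h4, add_zero, hc1, hc2] at h1
  exact h1

private theorem prx_finrank {N : ℕ} {p : Submodule ℂ (F1 n)} {v : Fin N → F1 n}
    (hv : ∀ j, v j ∈ p) (hli : ∀ c : Fin N → ℂ, (∑ j, c j • v j) = 0 → ∀ j, c j = 0)
    (hsp : ∀ ξ ∈ p, ∃ c : Fin N → ℂ, ξ = ∑ j, c j • v j) : Module.finrank ℂ p = N := by
  have h1 : p = Submodule.span ℂ (Set.range v) := by
    apply le_antisymm
    · intro ξ hξ
      obtain ⟨c, rfl⟩ := hsp ξ hξ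
      exact Submodule.sum_mem _ fun j _ =>
        Submodule.smul_mem _ _ (Submodule.subset_span ⟨j, rfl⟩)
    · rw [Submodule.span_le]
      rintro _ ⟨j, rfl⟩
      exact hv j
  rw [h1, finrank_span_eq_card (Fintype.linearIndependent_iff.2 hli), Fintype.card_fin]

theorem NF.finrank1 (h : NF θ 1 σ1 σ2 a b m ρ φ1 φ2) (hF : Fol θ) :
    Module.finrank ℂ (EE θ 2) = 3 := by
  refine prx_finrank (v := ![σ1, σ2, tau a b φ1 φ2]) ?_ ?_ ?_
  · intro j
    fin_cases j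
    · exact h.mem1
    · exact h.mem2
    · exact h.memt
  · intro c hc
    have h1 : ∀ i, C (c 0) * σ1 i + C (c 1) * σ2 i + C (c 2) * tau a b φ1 φ2 i = 0 := by
      intro i
      have h2 := congrFun hc i
      rw [Fin.sum_univ_three] at h2
      simp only [Matrix.cons_val_zero, Matrix.cons_val_one, Matrix.cons_val, Pi.add_apply,
        Pi.smul_apply, smul_eq_C_mul, Pi.zero_apply] at h2
      exact h2
    obtain ⟨r, hr0, hr1, hr2⟩ := h.ker hF h1
    have h3 : c 2 = 0 := prx_const0 h.hm (c := -r) (by rw [hr2]; ring)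
    have h4 : r = 0 := by
      rw [h3, C_0] at hr2
      have h5 : m * r = 0 := by linear_combination hr2
      rcases mul_eq_zero.1 h5 with h6 | h6
      · exact absurd h6 h.hm0
      · exact h6
    rw [h4, mul_zero] at hr0 hr1
    rw [neg_zero] at hr1
    intro j
    fin_cases j
    · exact (C_eq_zero).1 hr0
    · exact (C_eq_zero).1 hr1
    · exact h3
  · intro ξ hξ
    obtain ⟨f, g, k, hf, hg, hk, he⟩ := h.gen1 hF (d := 0) hξ
    obtain ⟨c1, rfl⟩ := prx_C0 hf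
    obtain ⟨c2, rfl⟩ := prx_C0 hg
    obtain ⟨c3, rfl⟩ := prx_C0 hk
    refine ⟨![c1, c2, c3], ?_⟩
    funext i
    rw [he, Fin.sum_univ_three]
    simp only [Matrix.cons_val_zero, Matrix.cons_val_one, Matrix.cons_val, Pi.add_apply,
      Pi.smul_apply, smul_eq_C_mul]

theorem NF.finrank2 (h : NF θ 2 σ1 σ2 a b m ρ φ1 φ2) (hF : Fol θ) :
    Module.finrank ℂ (EE θ 2) = 2 := by
  refine prx_finrank (v := ![σ1, σ2]) ?_ ?_ ?_
  · intro j
    fin_cases j
    · exact h.mem1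
    · exact h.mem2
  · intro c hc
    have h1 : ∀ i, C (c 0) * σ1 i + C (c 1) * σ2 i + 0 * tau a b φ1 φ2 i = 0 := by
      intro i
      have h2 := congrFun hc i
      rw [Fin.sum_univ_two] at h2
      simp only [Matrix.cons_val_zero, Matrix.cons_val_one, Pi.add_apply,
        Pi.smul_apply, smul_eq_C_mul, Pi.zero_apply] at h2
      rw [zero_mul, add_zero]
      exact h2
    obtain ⟨r, hr0, hr1, hr2⟩ := h.ker hF h1
    have h4 : r = 0 := by
      have h5 : m * r = 0 := by linear_combination hr2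
      rcases mul_eq_zero.1 h5 with h6 | h6
      · exact absurd h6 h.hm0
      · exact h6
    rw [h4, mul_zero] at hr0 hr1
    rw [neg_zero] at hr1
    intro j
    fin_cases j
    · exact (C_eq_zero).1 hr0
    · exact (C_eq_zero).1 hr1
  · intro ξ hξ
    obtain ⟨c1, c2, he⟩ := h.gen2' hF hξ
    refine ⟨![c1, c2], ?_⟩
    funext i
    rw [he, Fin.sum_univ_two]
    simp only [Matrix.cons_val_zero, Matrix.cons_val_one, Pi.add_apply,
      Pi.smul_apply, smul_eq_C_mul]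

end Pool.Agent.Helper18.LB
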