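import Pool.Agent.Helper18.LB.Pres
import Pool.Agent.Helper71.FC.SatH
import Pool.Agent.Helper71.FC.Bert

/-! LB-4: saturation for the normal form, lifting from a general hyperplane, general sections.
Proofs.  `NF.sat`: `sat_of_pres` with `p = Fin 3`, `q = Fin 1`, `Xi f = f 0 σ1 + f 1 σ2 + f 2 τ`, `M c = c 0 (a, -b, -m)` (`NF.gen`, `NF.ker`,
injective because `m ≠ 0`); the converse directions from `NF.mem1` etc.  `sat_of_two`: `exists_NF'`.
`lift_two`: `sat_of_two` on the hyperplane, `sat_of_rs`, `lift_of_sat` with `k = 2`; the linear map `res : EE θ 2 → EE (rs2 θ) 2` is onto.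
`le_res`: kernel of `res : EE θ (k+1) → EE (rs2 θ) (k+1)` is `X 0 * EE θ k` (`EE_ker`), rank-nullity.
`gen_sec`: take `g` general: `GenM.inv`, `hz_genM`, and `GenM.cols` with `Fin.succ` for `p` and for `Fol_gen`;
`rs2 (pb2 g θ) = pb2 (fun k l => g k l.succ) θ` by `rs2_eq_pb2`, `pb2_mm`.  `gen_sec2`: the same with the last two restrictions.
`bot_of_gen`: `ξ ∈ EE θ k`; for general `φ`: `pb φ ξ = 0`; evaluate the component 0 at the second basis vector: `∑ j, φ j 0 * ξ_j (φ · 1) = 0` for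
general `φ`, so the polynomial `∑ j, X (j,0) * rename (fun i => (i,1)) (ξ j)` vanishes (`F * it = 0`), put the first column equal to a basis vector. -/

set_option autoImplicit false

namespace Pool.Agent.Helper18.LB

open MvPolynomial
open scoped BigOperators
open Pool.Agent.Helper71.FC
open Pool.Agent.Helper71.FL (w12 pf ct Dec Closed dd res)
open Pool.Agent.Helper28.FolReg (Reg2 Reg3)

variable {n : ℕ}

theorem NF.sat {θ : F2 n} {e : ℕ} {σ1 σ2 : F1 n} {a b m : Pn n} {ρ φ1 φ2 : F1 n}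
    (h : NF θ e σ1 σ2 a b m ρ φ1 φ2) (hF : Fol θ) (hn : 4 ≤ n) {c : F3 n} (hc : IsBsat θ c) :
    IsB θ c := by
  let Xi : (Fin 3 → Pn n) →ₗ[Pn n] (Fin n → Pn n) :=
    { toFun := fun f i => f 0 * σ1 i + f 1 * σ2 i + f 2 * tau a b φ1 φ2 i
      map_add' := by
        intro f g
        refine _root_.funext fun i => ?_
        show (f 0 + g 0) * σ1 i + (f 1 + g 1) * σ2 i + (f 2 + g 2) * tau a b φ1 φ2 i =
          (f 0 * σ1 i + f 1 * σ2 i + f 2 * tau a b φ1 φ2 i) +
            (g 0 * σ1 i + g 1 * σ2 i + g 2 * tau a b φ1 φ2 i)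
        ring
      map_smul' := by
        intro r f
        refine _root_.funext fun i => ?_
        show (r * f 0) * σ1 i + (r * f 1) * σ2 i + (r * f 2) * tau a b φ1 φ2 i =
          r * (f 0 * σ1 i + f 1 * σ2 i + f 2 * tau a b φ1 φ2 i)
        ring }
  let M : (Fin 1 → Pn n) →ₗ[Pn n] (Fin 3 → Pn n) :=
    { toFun := fun f => ![a * f 0, - (b * f 0), - (m * f 0)]
      map_add' := by
        intro f g
        refine _root_.funext fun i => ?_
        fin_cases i
        · show a * (f 0 + g 0) = a * f 0 + a * g 0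
          ring
        · show - (b * (f 0 + g 0)) = - (b * f 0) + - (b * g 0)
          ring
        · show - (m * (f 0 + g 0)) = - (m * f 0) + - (m * g 0)
          ring
      map_smul' := by
        intro r f
        refine _root_.funext fun i => ?_
        fin_cases i
        · show a * (r * f 0) = r * (a * f 0)
          ring
        · show - (b * (r * f 0)) = r * (- (b * f 0))
          ring
        · show - (m * (r * f 0)) = r * (- (m * f 0))
          ring }
  refine sat_of_pres hn θ Xi M ?_ ?_ ?_ hc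
  · intro ξ
    constructor
    · intro hξ
      obtain ⟨f, g, k, hfgk⟩ := h.gen hF hξ
      refine ⟨![f, g, k], _root_.funext fun i => ?_⟩
      exact (hfgk i).symm
    · rintro ⟨f, rfl⟩ i j k
      have e1 := h.mem1.2 i j k
      have e2 := h.mem2.2 i j k
      have e3 := h.memt.2 i j k
      have e4 : w12 (Xi f) θ i j k = f 0 * w12 σ1 θ i j k + f 1 * w12 σ2 θ i j k +
          f 2 * w12 (tau a b φ1 φ2) θ i j k := by
        show w12 (fun i => f 0 * σ1 i + f 1 * σ2 i + f 2 * tau a b φ1 φ2 i) θ i j k = _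
        unfold w12
        ring
      rw [e4, e1, e2, e3]
      ring
  · intro f
    constructor
    · intro hf
      obtain ⟨c, h1, h2, h3⟩ := h.ker hF (fun i => congrFun hf i)
      refine ⟨fun _ => c, _root_.funext fun i => ?_⟩
      fin_cases i
      · exact h1.symm
      · exact h2.symm
      · exact h3.symm
    · rintro ⟨g, rfl⟩
      refine _root_.funext fun i => ?_
      show a * g 0 * σ1 i + - (b * g 0) * σ2 i + - (m * g 0) * tau a b φ1 φ2 i = 0
      have e1 := h.m_tau i
      linear_combination (- g 0) * e1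
  · intro f g hfg
    refine _root_.funext fun i => ?_
    have h1 : - (m * f 0) = - (m * g 0) := congrFun hfg 2
    have h2 := mul_left_cancel₀ h.hm0 (neg_injective h1)
    have h3 : i = 0 := Subsingleton.elim _ _
    rw [h3]
    exact h2

/-- `M = 0` if `e_2 ≥ 2` and `n ≥ 4` -/
theorem sat_of_two {θ : F2 n} (hF : Fol θ) (hn : 4 ≤ n) (h1 : EE θ 1 = ⊥)
    (h2 : 2 ≤ Module.finrank ℂ (EE θ 2)) {c : F3 n} (hc : IsBsat θ c) : IsB θ c := by
  obtain ⟨e, σ1, σ2, a, b, m, ρ, φ1, φ2, h⟩ := exists_NF' hF h1 h2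
  exact h.sat hF hn hc

/-- the restriction of annihilated 1-forms as a linear map -/
private noncomputable def resL (θ : F2 (n + 1)) (k : ℕ) : EE θ k →ₗ[ℂ] EE (rs2 θ) k where
  toFun ξ := ⟨res ξ.1, res_mem_EE ξ.2⟩
  map_add' := by
    intro a b
    apply Subtype.ext
    refine _root_.funext fun i => ?_
    exact map_add _ _ _
  map_smul' := by
    intro c a
    apply Subtype.ext
    refine _root_.funext fun i => ?_
    show Pool.Agent.Helper71.FL.at0 n ℂ (c • a.1 i.succ) = c • Pool.Agent.Helper71.FL.at0 n ℂ (a.1 i.succ)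
    exact map_smul _ _ _

/-- `e_2 ≥ 2` lifts from a general hyperplane of dimension at least 4 -/
theorem lift_two {θ : F2 (n + 1)} (hn : 4 ≤ n) (hF : Fol θ) (hFH : Fol (rs2 θ)) (h0 : hz θ)
    (h1 : EE (rs2 θ) 1 = ⊥) (h2 : 2 ≤ Module.finrank ℂ (EE (rs2 θ) 2)) :
    2 ≤ Module.finrank ℂ (EE θ 2) := by
  have hsat := sat_of_rs (by omega) hF.hom hF.dec hFH.prim h0
    (fun d b hb => sat_of_two hFH hn h1 h2 hb.2)
  have hsur : Function.Surjective (resL θ 2) := by
    rintro ⟨ζ, hζ⟩
    obtain ⟨ξ, hξ, hr⟩ := lift_of_sat (by omega) hF.hom hF.dec hFH.prim h0 (hsat 4) hζ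
    exact ⟨⟨ξ, hξ⟩, Subtype.ext (_root_.funext hr)⟩
  have := finite_EE θ 2
  have h3 := LinearMap.finrank_range_le (resL θ 2)
  rw [LinearMap.range_eq_top.2 hsur, finrank_top] at h3
  exact h2.trans h3

theorem le_res {θ : F2 (n + 1)} (h : ∃ i j, rs2 θ i j ≠ 0) (k : ℕ) :
    Module.finrank ℂ (EE θ (k + 1)) ≤ Module.finrank ℂ (EE (rs2 θ) (k + 1)) +
      Module.finrank ℂ (EE θ k) := by
  have := finite_EE θ (k + 1)
  have := finite_EE θ k
  have := finite_EE (rs2 θ) (k + 1)
  have hmem : ∀ η ∈ EE θ k, (fun i => X 0 * η i : F1 (n + 1)) ∈ EE θ (k + 1) := by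
    intro η hη
    refine ⟨fun i => ?_, fun i j l => ?_⟩
    · have := (isHomogeneous_X ℂ (0 : Fin (n + 1))).mul (hη.1 i)
      rwa [add_comm 1 k] at this
    · rw [Pool.Agent.Helper71.FL.w12_smul, hη.2, mul_zero]
  let μ : EE θ k →ₗ[ℂ] EE θ (k + 1) :=
    { toFun := fun η => ⟨fun i => X 0 * η.1 i, hmem η.1 η.2⟩
      map_add' := by
        intro a b
        apply Subtype.ext
        refine _root_.funext fun i => ?_
        show X 0 * (a.1 i + b.1 i) = X 0 * a.1 i + X 0 * b.1 i
        ring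
      map_smul' := by
        intro c a
        apply Subtype.ext
        refine _root_.funext fun i => ?_
        show X 0 * (c • a.1 i) = c • (X 0 * a.1 i)
        rw [mul_smul_comm] }
  have h1 := LinearMap.finrank_range_add_finrank_ker (resL θ (k + 1))
  have h2 : Module.finrank ℂ (LinearMap.range (resL θ (k + 1))) ≤
      Module.finrank ℂ (EE (rs2 θ) (k + 1)) := Submodule.finrank_le _
  have h3 : LinearMap.ker (resL θ (k + 1)) ≤ LinearMap.range μ := by
    rintro ⟨ξ, hξ⟩ hk
    have h4 : ∀ i, res ξ i = 0 := fun i => congrFun (congrArg Subtype.val hk) i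
    obtain ⟨η, hη, he⟩ := EE_ker h hξ h4
    exact ⟨⟨η, hη⟩, Subtype.ext (_root_.funext fun i => (he i).symm)⟩
  have h4 := Submodule.finrank_mono h3
  have h5 := LinearMap.finrank_range_le μ
  omega

private theorem rs2_pb2 {N : ℕ} (φ : Fin N → Fin (n + 1) → ℂ) (θ : F2 N) :
    rs2 (pb2 φ θ) = pb2 (fun i j => φ i j.succ) θ := by
  rw [rs2_eq_pb2, pb2_mm]
  congr 1
  refine _root_.funext fun i => _root_.funext fun j => ?_
  unfold mm
  rw [Finset.sum_eq_single j.succ]
  · simp
  · intro l _ hl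
    show φ i l * (if l = j.succ then (1 : ℂ) else 0) = 0
    rw [if_neg hl, mul_zero]
  · intro hh
    exact absurd (Finset.mem_univ _) hh

/-- a general hyperplane section -/
theorem gen_sec {θ : F2 (n + 1)} (hn : 3 ≤ n) (hF : Fol θ) {p : (Fin (n + 1) → Fin n → ℂ) → Prop}
    (hp : GenM p) : ∃ g g' : Fin (n + 1) → Fin (n + 1) → ℂ, Inv g g' ∧ hz (pb2 g θ) ∧
      Fol (pb2 g θ) ∧ Fol (rs2 (pb2 g θ)) ∧ ∃ φ : Fin (n + 1) → Fin n → ℂ, p φ ∧
        rs2 (pb2 g θ) = pb2 φ θ := by
  obtain ⟨g, ⟨⟨g', hg⟩, h0⟩, hpg, hf⟩ := (((GenM.inv (n + 1)).and (hz_genM θ)).and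
    ((hp.cols Fin.succ (Fin.succ_injective n)).and
      ((Fol_gen hn (Nat.le_succ n) hF).cols Fin.succ (Fin.succ_injective n)))).exists
  refine ⟨g, g', hg, h0, Fol_pb2 hF hg, ?_, _, hpg, rs2_pb2 g θ⟩
  rw [rs2_pb2]
  exact hf

/-- a general flag of two sections -/
theorem gen_sec2 {θ : F2 (n + 2)} (hn : 3 ≤ n) (hF : Fol θ)
    {p : (Fin (n + 2) → Fin (n + 1) → ℂ) → Prop} {q : (Fin (n + 2) → Fin n → ℂ) → Prop}
    (hp : GenM p) (hq : GenM q) : ∃ g g' : Fin (n + 2) → Fin (n + 2) → ℂ, Inv g g' ∧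
      hz (pb2 g θ) ∧ Fol (pb2 g θ) ∧ Fol (rs2 (pb2 g θ)) ∧ Fol (rs2 (rs2 (pb2 g θ))) ∧
      (∃ φ : Fin (n + 2) → Fin (n + 1) → ℂ, p φ ∧ rs2 (pb2 g θ) = pb2 φ θ) ∧
      ∃ φ : Fin (n + 2) → Fin n → ℂ, q φ ∧ rs2 (rs2 (pb2 g θ)) = pb2 φ θ := by
  have hi2 : Function.Injective (fun j : Fin n => j.succ.succ) :=
    (Fin.succ_injective (n + 1)).comp (Fin.succ_injective n)
  obtain ⟨g, ⟨⟨g', hg⟩, h0⟩, ⟨hpg, hf⟩, hqg, hf2⟩ := (((GenM.inv (n + 2)).and (hz_genM θ)).and
    (((hp.cols Fin.succ (Fin.succ_injective (n + 1))).and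
      ((Fol_gen (by omega) (Nat.le_succ (n + 1)) hF).cols Fin.succ
        (Fin.succ_injective (n + 1)))).and
      ((hq.cols (fun j : Fin n => j.succ.succ) hi2).and
        ((Fol_gen hn (by omega) hF).cols (fun j : Fin n => j.succ.succ) hi2)))).exists
  have e2 : rs2 (rs2 (pb2 g θ)) = pb2 (fun i j => g i j.succ.succ) θ := by
    rw [rs2_pb2, rs2_pb2]
  refine ⟨g, g', hg, h0, Fol_pb2 hF hg, ?_, ?_, ⟨_, hpg, rs2_pb2 g θ⟩, _, hqg, e2⟩
  · rw [rs2_pb2]
    exact hf
  · rw [e2]
    exact hf2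

theorem bot_of_gen {θ : F2 n} {m k : ℕ} (hm : 2 ≤ m)
    (h : GenM (fun φ : Fin n → Fin m → ℂ => EE (pb2 φ θ) k = ⊥)) : EE θ k = ⊥ := by
  rw [eq_bot_iff]
  intro ξ hξ
  obtain ⟨F, hF, h⟩ := h
  let z : Fin m := ⟨0, by omega⟩
  let o : Fin m := ⟨1, by omega⟩
  have hzo : z ≠ o := by
    intro hh
    have := congrArg Fin.val hh
    simp [z, o] at this
  have hG : (∑ j, X (j, z) * rename (fun i : Fin n => (i, o)) (ξ j) :
      MvPolynomial (Fin n × Fin m) ℂ) = 0 := by
    have h1 : F * (∑ j, X (j, z) * rename (fun i : Fin n => (i, o)) (ξ j) :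
        MvPolynomial (Fin n × Fin m) ℂ) = 0 := by
      refine MvPolynomial.funext fun x => ?_
      rw [map_mul, map_zero]
      by_cases hx : eval x F = 0
      · rw [hx, zero_mul]
      · have h2 := h (fun i j => x (i, j)) hx
        have h3 := EE_pb hξ (fun (i : Fin n) (j : Fin m) => x (i, j))
        rw [h2, Submodule.mem_bot] at h3
        have h4 := congrArg (eval (fun j => if j = o then 1 else 0)) (congrFun h3 z)
        have h5 : (Pool.Agent.Helper93.lmap (fun i j => x (i, j)) (fun j => if j = o then 1 else 0) : Fin n → ℂ) =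
            x ∘ (fun i : Fin n => (i, o)) := by
          refine _root_.funext fun i => ?_
          show ∑ l, x (i, l) * (if l = o then 1 else 0) = x (i, o)
          rw [Finset.sum_eq_single o]
          · simp
          · intro l _ hl; rw [if_neg hl, mul_zero]
          · intro h; exact absurd (Finset.mem_univ _) h
        have h6 : eval (fun j => if j = o then 1 else 0)
            (Pool.Agent.Helper93.pb (fun i j => x (i, j)) ξ z) =
            eval x (∑ j, X (j, z) * rename (fun i : Fin n => (i, o)) (ξ j)) := by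
          unfold Pool.Agent.Helper93.pb
          rw [map_sum, map_sum]
          refine Finset.sum_congr rfl fun j _ => ?_
          rw [map_mul, map_mul, eval_C, eval_X, Pool.Agent.Helper93.eval_lsub, h5, eval_rename]
        rw [← h6, h4]
        simp
    exact (mul_eq_zero.1 h1).resolve_left hF
  rw [Submodule.mem_bot]
  refine _root_.funext fun j0 => MvPolynomial.funext fun x => ?_
  have h1 := congrArg (eval (fun q : Fin n × Fin m =>
    if q.2 = z then (if q.1 = j0 then (1 : ℂ) else 0) else x q.1)) hG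
  rw [map_sum, map_zero, Finset.sum_eq_single j0] at h1
  · rw [map_mul, eval_X, eval_rename] at h1
    have h2 : ((fun q : Fin n × Fin m => if q.2 = z then (if q.1 = j0 then (1 : ℂ) else 0)
        else x q.1) ∘ fun i : Fin n => (i, o)) = x := by
      refine _root_.funext fun i => ?_
      show (if o = z then (if i = j0 then (1 : ℂ) else 0) else x i) = x i
      rw [if_neg hzo.symm]
    rw [h2] at h1
    simpa using h1
  · intro j _ hj
    rw [map_mul, eval_X]
    show (if z = z then (if j = j0 then (1 : ℂ) else 0) else x j) * _ = 0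
    rw [if_pos rfl, if_neg hj, zero_mul]
  · intro hh
    exact absurd (Finset.mem_univ _) hh

/-- properties of general planes pass to general subspaces -/
theorem gen_trans {θ : F2 n} {m k : ℕ} {p : F2 m → Prop} (hmk : m ≤ k) (hkn : k ≤ n)
    (h : GenM (fun φ : Fin n → Fin m → ℂ => p (pb2 φ θ))) :
    GenM (fun φ : Fin n → Fin k → ℂ =>
      GenM (fun κ : Fin k → Fin m → ℂ => p (pb2 κ (pb2 φ θ)))) := by
  refine (h.comp hmk hkn).mono fun φ hφ => hφ.mono fun κ hκ => ?_
  rw [pb2_mm]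
  exact hκ

end Pool.Agent.Helper18.LB
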